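import Pool.Agent.H953.OL.Stm
import Pool.Graph.R_seed8.Y993.LL.Low

/-!
D5. `K` blocks in a row (by helper323).
-/

set_option autoImplicit false

namespace H953L

open H974 Finset H12S H342P H984P MeasureTheory
open Pool.Agent.Y993.LL (loop Closed Conn bx SL SU CL CU SB VV strip_conn)

namespace Blk

theorem nc_mono {β β' q : ℝ} {a : ℕ} (h : β ≤ β') (hN : Nc β q a) : Nc β' q a := by
  rcases hN with h1 | h1
  · left
    exact h1.trans (mul_le_mul_of_nonneg_right h (Real.rpow_nonneg (Nat.cast_nonneg a) _))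
  · exact Or.inr h1

/-- the centers of the blocks -/
def zcn (a j : ℕ) : Vtx := (32 * ((a:ℤ) * j), 0)

/-- the box of the first blocks -/
noncomputable def Wk (a k : ℕ) : Finset Edg :=
  RE (-(13 * a : ℤ)) (32 * ((a:ℤ) * k) + 14 * a) (-(13 * a : ℤ)) (14 * a)

/-- the event -/
def PP (c : ℝ) (a k : ℕ) (F : Finset Edg) : Prop :=
  RA (0, 0) a (↑F : Set Edg) ∧ ∀ j : ℕ, 1 ≤ j → j ≤ k →
    c * (a:ℝ) ^ (7/4 : ℝ) ≤ (nRA (zcn a j) a (↑F : Set Edg) : ℝ)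

theorem nra_loc {z : Vtx} {a : ℕ} (ha : 1 ≤ a) {V : Finset Edg} (hV : NB z a ⊆ V)
    (F : Finset Edg) : nRA z a (↑F : Set Edg) = nRA z a (↑(F ∩ V) : Set Edg) := by
  classical
  unfold nRA
  congr 1
  apply Finset.filter_congr
  intro v hv
  rw [Finset.coe_inter]
  exact ra_inter _ _ (by exact_mod_cast (BA_sub_NB ha hv).trans hV)

theorem Wk_mono {a k l : ℕ} (h : k ≤ l) : Wk a k ⊆ Wk a l := by
  have h1 : (a:ℤ) * k ≤ (a:ℤ) * l := mul_le_mul_of_nonneg_left (by exact_mod_cast h) (by omega)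
  unfold Wk
  rintro ⟨x, y, _ | _⟩ he
  · rw [mem_RE_false] at he ⊢; omega
  · rw [mem_RE_true] at he ⊢; omega

theorem NB_sub {a j k : ℕ} (hj : j ≤ k) : NB (zcn a j) a ⊆ Wk a k := by
  have h1 : (a:ℤ) * j ≤ (a:ℤ) * k := mul_le_mul_of_nonneg_left (by exact_mod_cast hj) (by omega)
  have h0 : 0 ≤ (a:ℤ) * j := by positivity
  unfold Wk NB zcn
  rintro ⟨x, y, _ | _⟩ he
  · rw [mem_RE_false] at he ⊢; simp only at he; omega
  · rw [mem_RE_true] at he ⊢; simp only at he; omega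

theorem BA_sub {a k : ℕ} (ha : 1 ≤ a) : BA (0, 0) a ⊆ Wk a k := by
  have h0 : 0 ≤ (a:ℤ) * k := by positivity
  unfold Wk BA
  rintro ⟨x, y, _ | _⟩ he
  · rw [mem_RE_false] at he ⊢; simp only at he; omega
  · rw [mem_RE_true] at he ⊢; simp only at he; omega

theorem disj {a k : ℕ} (ha : 1 ≤ a) : Disjoint (Wk a k) (NB (zcn a (k + 1)) a) := by
  have h1 : (a:ℤ) * ((k + 1 : ℕ) : ℤ) = (a:ℤ) * k + a := by push_cast; ring
  rw [Finset.disjoint_left]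
  rintro ⟨x, y, _ | _⟩ he he'
  · simp only [Wk, NB, zcn, mem_RE_false] at he he'; omega
  · simp only [Wk, NB, zcn, mem_RE_true] at he he'; omega

theorem prob {q c1 c2 : ℝ} (hok : Ok (fun _ : Edg => q)) {a K : ℕ} (ha : 1 ≤ a)
    (hc1 : 0 ≤ c1) (hc2 : 0 ≤ c2) {S : Finset Edg} (hS : Wk a K ⊆ S)
    (h1 : c1 ≤ Pr (fun _ => q) (BA (0, 0) a) (fun F => RA (0, 0) a (↑F : Set Edg)))
    (h2 : ∀ z : Vtx, c2 ≤ Pr (fun _ => q) (NB z a)
      (fun G => c2 * (a:ℝ) ^ (7/4 : ℝ) ≤ (nRA z a (↑G : Set Edg) : ℝ))) :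
    ∀ k, k ≤ K → c1 * c2 ^ k ≤ Pr (fun _ => q) S (PP c2 a k) := by
  intro k
  induction k with
  | zero =>
    intro _
    rw [pow_zero, mul_one]
    refine h1.trans (le_of_eq ?_)
    rw [← pr_ra_local ((BA_sub ha).trans hS)]
    apply Pr_congr
    intro F _
    constructor
    · intro h
      exact ⟨h, fun j hj1 hj2 => by omega⟩
    · intro h
      exact h.1
  | succ k ih =>
    intro hk
    have e1 : Pr (fun _ => q) S (PP c2 a (k + 1)) = Pr (fun _ => q) S (fun F => PP c2 a k F ∧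
        c2 * (a:ℝ) ^ (7/4 : ℝ) ≤ (nRA (zcn a (k + 1)) a (↑F : Set Edg) : ℝ)) := by
      apply Pr_congr
      intro F _
      constructor
      · intro h
        exact ⟨⟨h.1, fun j hj1 hj2 => h.2 j hj1 (by omega)⟩, h.2 (k + 1) (by omega) le_rfl⟩
      · rintro ⟨⟨h3, h4⟩, h5⟩
        refine ⟨h3, fun j hj1 hj2 => ?_⟩
        rcases Nat.lt_or_ge j (k + 1) with h6 | h6
        · exact h4 j hj1 (by omega)
        · have h7 : j = k + 1 := by omega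
          rw [h7]
          exact h5
    have hW : Wk a k ⊆ S := (Wk_mono (by omega)).trans hS
    have hN : NB (zcn a (k + 1)) a ⊆ S := (NB_sub hk).trans hS
    have e2 : Pr (fun _ => q) S (fun F => PP c2 a k F ∧
        c2 * (a:ℝ) ^ (7/4 : ℝ) ≤ (nRA (zcn a (k + 1)) a (↑F : Set Edg) : ℝ)) =
        Pr (fun _ => q) S (PP c2 a k) * Pr (fun _ => q) S (fun F =>
          c2 * (a:ℝ) ^ (7/4 : ℝ) ≤ (nRA (zcn a (k + 1)) a (↑F : Set Edg) : ℝ)) := by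
      refine Pr_indep hW hN (disj ha) ?_ ?_
      · intro F _
        unfold PP
        refine and_congr ?_ (forall_congr' fun j => ?_)
        · rw [Finset.coe_inter]
          exact ra_inter _ _ (by exact_mod_cast BA_sub ha)
        · refine forall_congr' fun _ => forall_congr' fun hj => ?_
          rw [nra_loc ha (NB_sub hj) F]
      · intro F _
        rw [nra_loc ha (Finset.Subset.refl _) F]
    have e3 : Pr (fun _ => q) S (fun F =>
          c2 * (a:ℝ) ^ (7/4 : ℝ) ≤ (nRA (zcn a (k + 1)) a (↑F : Set Edg) : ℝ)) =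
        Pr (fun _ => q) (NB (zcn a (k + 1)) a) (fun F =>
          c2 * (a:ℝ) ^ (7/4 : ℝ) ≤ (nRA (zcn a (k + 1)) a (↑F : Set Edg) : ℝ)) := by
      apply Pr_local hN
      intro F _
      rw [nra_loc ha (Finset.Subset.refl _) F]
    rw [e1, e2, e3, pow_succ, ← mul_assoc]
    exact mul_le_mul (ih (by omega)) (h2 _) hc2 (Pr_nonneg hok _ _)

theorem ctr_disj {a j j' : ℕ} (ha : 1 ≤ a) (h : j < j') :
    Disjoint (ctr (zcn a j) a) (ctr (zcn a j') a) := by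
  have h1 : (a:ℤ) * (j + 1 : ℕ) ≤ (a:ℤ) * j' :=
    mul_le_mul_of_nonneg_left (by exact_mod_cast h) (by omega)
  have h2 : (a:ℤ) * ((j + 1 : ℕ) : ℤ) = (a:ℤ) * j + a := by push_cast; ring
  rw [Finset.disjoint_left]
  intro v hv hv'
  rw [Pool.Agent.Y993.LL.mem_ctr'] at hv hv'
  simp only [zcn] at hv hv'
  omega

end Blk

open Blk in
theorem blk (h1 : S_ra) (h2 : S_nra) (h3 : S_strip) (h4 : S_cl) : S_blk := by
  classical
  obtain ⟨c1, β1, hc1, hβ1, H1⟩ := h1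
  obtain ⟨c2, β2, hc2, hβ2, H2⟩ := h2
  have hβ : 0 < min β1 β2 := lt_min hβ1 hβ2
  obtain ⟨κ, hκ, hκ1, H4⟩ := h4 (min β1 β2) hβ
  obtain ⟨d1, hd1⟩ : ∃ d1, d1 = min c1 1 := ⟨_, rfl⟩
  obtain ⟨d2, hd2⟩ : ∃ d2, d2 = min c2 1 := ⟨_, rfl⟩
  have d1p : 0 < d1 := by rw [hd1]; exact lt_min hc1 one_pos
  have d2p : 0 < d2 := by rw [hd2]; exact lt_min hc2 one_pos
  have d11 : d1 ≤ 1 := by rw [hd1]; exact min_le_right _ _
  have d21 : d2 ≤ 1 := by rw [hd2]; exact min_le_right _ _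
  have d1c : d1 ≤ c1 := by rw [hd1]; exact min_le_left _ _
  have d2c : d2 ≤ c2 := by rw [hd2]; exact min_le_left _ _
  have hκ2 : κ ^ 2 ≤ 1 := pow_le_one₀ hκ.le hκ1
  have hcle : κ ^ 2 * (d1 * d2) ≤ 1 := mul_le_one₀ hκ2 (by positivity)
    (mul_le_one₀ d11 d2p.le d21)
  refine ⟨κ ^ 2 * (d1 * d2), min β1 β2, by positivity, hcle, hβ, fun q hq0 hq1 a K ha hK hN => ?_⟩
  have hok : Ok (fun _ : Edg => q) := fun _ => ⟨by linarith, by linarith⟩
  have haR : (0:ℝ) < a := by exact_mod_cast ha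
  have haZ : (1:ℤ) ≤ a := by exact_mod_cast ha
  obtain ⟨t, ht⟩ : ∃ t : ℤ, t = (a:ℤ) * K := ⟨_, rfl⟩
  have ht0 : (a:ℤ) ≤ t := by
    rw [ht]
    have hKZ : (1:ℤ) ≤ K := by exact_mod_cast hK
    nlinarith
  obtain ⟨S, hSdef⟩ : ∃ S : Finset Edg, S = RE (-(60 * a : ℤ)) (32 * t + 60 * a) (-(60 * a : ℤ))
    (60 * a) := ⟨_, rfl⟩
  have hWS : Wk a K ⊆ S := by
    rw [hSdef]
    unfold Wk
    rw [← ht]
    rintro ⟨x, y, _ | _⟩ he
    · rw [mem_RE_false] at he ⊢; omega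
    · rw [mem_RE_true] at he ⊢; omega
  have hSB : SB (-(13 * a : ℤ)) (32 * t + 14 * a) 0 a ⊆ S := by
    rw [hSdef]
    unfold Pool.Agent.Y993.LL.SB
    rintro ⟨x, y, _ | _⟩ he
    · rw [mem_RE_false] at he ⊢; omega
    · rw [mem_RE_true] at he ⊢; omega
  have hjt : ∀ j : ℕ, j ≤ K → (a:ℤ) * j ≤ t := by
    intro j hj
    rw [ht]
    exact mul_le_mul_of_nonneg_left (by exact_mod_cast hj) (by omega)
  have hjp : ∀ j : ℕ, 1 ≤ j → (a:ℤ) ≤ (a:ℤ) * j := by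
    intro j hj
    have hjZ : (1:ℤ) ≤ j := by exact_mod_cast hj
    nlinarith
  have hVO : VV (-(13 * a : ℤ)) (32 * t + 14 * a) 0 a (0, 0) := by unfold VV; simp only; omega
  have hVz : ∀ j : ℕ, 1 ≤ j → j ≤ K → ∀ v ∈ ctr (zcn a j) a,
      VV (-(13 * a : ℤ)) (32 * t + 14 * a) 0 a v := by
    intro j hj1 hj2 v hv
    have e1 := hjt j hj2
    have e2 := hjp j hj1
    rw [Pool.Agent.Y993.LL.mem_ctr'] at hv
    unfold VV
    simp only [zcn] at hv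
    omega
  -- the probability of the event
  have hP := prob hok ha (c1 := c1 * (a:ℝ) ^ (-(1/4) : ℝ)) (by positivity) hc2.le hWS
    (by
      refine (H1 q hq0 hq1 a ha (nc_mono (min_le_left _ _) hN)).trans (le_of_eq ?_)
      apply pr_ra_local
      rintro ⟨x, y, _ | _⟩ h
      · simp only [BA, mem_RE_false] at h ⊢; push_cast; omega
      · simp only [BA, mem_RE_true] at h ⊢; push_cast; omega)
    (fun z => H2 q hq0 hq1 z a ha (nc_mono (min_le_right _ _) hN)) K le_rfl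
  have key := h3 q (-(13 * a : ℤ)) (32 * t + 14 * a) 0 a S (PP c2 a K) (by linarith)
    (by linarith) ha (by omega) hSB (by
      rintro F G - - h ⟨k1, k2⟩
      refine ⟨h _ hVO k1, fun j hj1 hj2 => (k2 j hj1 hj2).trans ?_⟩
      exact_mod_cast Tr760.nRA_mono fun v hv h3 => h v (hVz j hj1 hj2 v hv) h3)
  obtain ⟨k1, k2⟩ := H4 q hq0 hq1 a K (-(13 * a : ℤ)) (32 * t + 14 * a) 0 S ha hN (by omega)
    (by
      have e1 : 64 * (a:ℤ) * (K + 1) = 64 * t + 64 * a := by rw [ht]; ring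
      rw [e1]
      omega) hSB
  refine ⟨S, ?_⟩
  have hX : (0:ℝ) < (a:ℝ) ^ (-(1/4) : ℝ) := Real.rpow_pos_of_pos haR _
  have hκK : 0 < κ ^ (K + 1) := pow_pos hκ _
  have e5 : (κ ^ 2 * (d1 * d2)) ^ (K + 1) * (a:ℝ) ^ (-(1/4) : ℝ) ≤
      κ ^ (K + 1) * κ ^ (K + 1) * (c1 * (a:ℝ) ^ (-(1/4) : ℝ) * c2 ^ K) := by
    have f1 : d1 ^ (K + 1) ≤ c1 := by
      refine le_trans ?_ d1c
      calc d1 ^ (K + 1) ≤ d1 ^ 1 := pow_le_pow_of_le_one d1p.le d11 (by omega)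
        _ = d1 := pow_one _
    have f2 : d2 ^ (K + 1) ≤ c2 ^ K := by
      refine le_trans (pow_le_pow_of_le_one d2p.le d21 (Nat.le_succ K)) ?_
      exact pow_le_pow_left₀ d2p.le d2c K
    have f3 : d1 ^ (K + 1) * d2 ^ (K + 1) ≤ c1 * c2 ^ K :=
      mul_le_mul f1 f2 (by positivity) hc1.le
    calc (κ ^ 2 * (d1 * d2)) ^ (K + 1) * (a:ℝ) ^ (-(1/4) : ℝ) =
        κ ^ (K + 1) * κ ^ (K + 1) * (a:ℝ) ^ (-(1/4) : ℝ) * (d1 ^ (K + 1) * d2 ^ (K + 1)) := by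
          rw [mul_pow, mul_pow]
          ring
      _ ≤ κ ^ (K + 1) * κ ^ (K + 1) * (a:ℝ) ^ (-(1/4) : ℝ) * (c1 * c2 ^ K) :=
          mul_le_mul_of_nonneg_left f3 (by positivity)
      _ = _ := by ring
  have e6 : κ ^ (K + 1) * κ ^ (K + 1) * (c1 * (a:ℝ) ^ (-(1/4) : ℝ) * c2 ^ K) ≤
      Pr (fun _ => q) S (CL (-(13 * a : ℤ)) (32 * t + 14 * a) 0 a) *
        Pr (fun _ => q) S (fun F => CU (-(13 * a : ℤ)) (32 * t + 14 * a) 0 a (↑F : Set Edg)) *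
        Pr (fun _ => q) S (PP c2 a K) :=
    mul_le_mul (mul_le_mul k1 k2 hκK.le (hκK.le.trans k1)) hP (by positivity)
      (mul_nonneg (Pr_nonneg hok _ _) (Pr_nonneg hok _ _))
  refine e5.trans (e6.trans (key.trans (Pr_mono hok ?_)))
  rintro F hF ⟨⟨hO, hn2⟩, hCL, hCU⟩
  obtain ⟨p, r, hpr⟩ := strip_conn ha hCL hCU
  obtain ⟨o1, o2⟩ := hpr _ hVO hO
  obtain ⟨T0, hT0⟩ : ∃ T0 : Finset Vtx, T0 = (Icc 1 K).biUnion fun j =>
    (ctr (zcn a j) a).filter (fun v => RA v a (↑F : Set Edg)) := ⟨_, rfl⟩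
  have memT0 : ∀ v, v ∈ T0 ↔ ∃ j, (1 ≤ j ∧ j ≤ K) ∧ v ∈ ctr (zcn a j) a ∧
      RA v a (↑F : Set Edg) := by
    intro v
    rw [hT0, mem_biUnion]
    simp only [mem_Icc, mem_filter]
  have hcard : c2 * (a:ℝ) ^ (7/4 : ℝ) * K ≤ (T0.card : ℝ) := by
    rw [hT0, card_biUnion]
    · push_cast
      have f1 : ∑ _j ∈ Icc 1 K, c2 * (a:ℝ) ^ (7/4 : ℝ) ≤ ∑ j ∈ Icc 1 K,
          ((((ctr (zcn a j) a).filter (fun v => RA v a (↑F : Set Edg))).card : ℕ) : ℝ) := by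
        refine sum_le_sum fun j hj => ?_
        rw [mem_Icc] at hj
        exact hn2 j hj.1 hj.2
      rw [sum_const, Nat.card_Icc, nsmul_eq_mul, Nat.add_sub_cancel] at f1
      linarith
    · intro j _ j' _ hne
      rcases Nat.lt_or_gt_of_ne hne with h | h
      · exact (ctr_disj ha h).mono (filter_subset _ _) (filter_subset _ _)
      · exact ((ctr_disj ha h).mono (filter_subset _ _) (filter_subset _ _)).symm
  refine ⟨T0.image (fun v => ((v, Q4.ne) : St)), ?_, ?_, ?_⟩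
  · rw [Pool.Agent.Y993.LL.card_ne]
    refine le_trans ?_ hcard
    have f1 : κ ^ 2 * (d1 * d2) ≤ c2 := by
      refine le_trans ?_ d2c
      have f2 : κ ^ 2 * d1 ≤ 1 := mul_le_one₀ hκ2 d1p.le d11
      nlinarith
    have f3 : 0 ≤ (K:ℝ) * (a:ℝ) ^ (7/4 : ℝ) := by positivity
    nlinarith [mul_le_mul_of_nonneg_right f1 f3]
  · intro τ hτ
    rw [Finset.mem_image] at hτ
    obtain ⟨v, hv, rfl⟩ := hτ
    obtain ⟨j, ⟨hj1, hj2⟩, hv1, hv2⟩ := (memT0 v).1 hv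
    obtain ⟨v1, v2⟩ := hpr v (hVz j hj1 hj2 v hv1) hv2
    refine ⟨?_, ?_⟩
    · exact (o1.trans v1.symm).mono Set.inter_subset_left
    · have : DReach (↑(SB (-(13 * a : ℤ)) (32 * t + 14 * a) 0 a) \ ↑F) (0, 0) v :=
        o2.trans v2.symm
      refine this.mono ?_
      rintro e ⟨he, he'⟩
      rw [Finset.coe_sdiff]
      exact ⟨hSB he, he'⟩
  · have f1 := hn2 K hK le_rfl
    have f2 : 0 < c2 * (a:ℝ) ^ (7/4 : ℝ) := by positivity
    have f3 : 0 < nRA (zcn a K) a (↑F : Set Edg) := by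
      have f4 : (0:ℝ) < (nRA (zcn a K) a (↑F : Set Edg) : ℝ) := f2.trans_le f1
      exact_mod_cast f4
    unfold nRA at f3
    rw [card_pos] at f3
    obtain ⟨v, hv⟩ := f3
    rw [mem_filter] at hv
    refine ⟨(v, Q4.ne), mem_image.2 ⟨v, (memT0 v).2 ⟨K, ⟨hK, le_rfl⟩, hv.1, hv.2⟩, rfl⟩, ?_⟩
    have hv1 := hv.1
    rw [Pool.Agent.Y993.LL.mem_ctr'] at hv1
    simp only [zcn] at hv1
    rw [← ht] at hv1
    have e7 : 31 * (a:ℤ) * K = 31 * t := by rw [ht]; ring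
    show 31 * (a:ℤ) * K ≤ v.1
    rw [e7]
    omega

end H953L
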