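import Pool.Agent.H953.OL.Stm
import Pool.Graph.R_seed8.Y993.LL.Strip
import Pool.Graph.R_seed8.W424.NC.ArmLow

/-!
D4. Crossings of long strips.
-/

set_option autoImplicit false

namespace H953L

open H974 Finset H12S H342P H984P MeasureTheory
open Pool.Agent.Y993.LL (loop Closed Conn bx SL SU CL CU SB VV SL_sub dSU_sub CU_iff)
open Pool.Agent.W424.NC (nearG hh_exp)

namespace Cl

/-- The crossings of long strips of height `4 a`. -/
theorem hh_strip : ∀ β : ℝ, 0 < β → ∃ κ : ℝ, 0 < κ ∧ κ ≤ 1 ∧ ∀ q : ℝ, 1/4 ≤ q → q ≤ 1/2 →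
    ∀ (a K : ℕ) (w : ℤ), 1 ≤ a → Nc β q a → 0 < w → w ≤ 64 * a * (K + 1) →
      κ ^ (K + 1) ≤ hh q w (4 * a) := by
  intro β hβ
  obtain ⟨κ, a0, C, hκ, -, hC, hG⟩ := nearG
  have hκ2 : κ ≤ 1/2 := by
    obtain ⟨m, -, -, hW, -⟩ := hG (1/2) 1 (by norm_num) le_rfl le_rfl
    exact hW.kle
  obtain ⟨L, hL⟩ : ∃ L : ℝ, L = Real.log (1 / κ) := ⟨_, rfl⟩
  have hL0 : 0 < L := by
    rw [hL]
    apply Real.log_pos
    rw [lt_div_iff₀ hκ]
    linarith
  obtain ⟨D, hD⟩ : ∃ D : ℝ, D = max 1 (C * β ^ (4/3 : ℝ)) := ⟨_, rfl⟩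
  have hD1 : 1 ≤ D := by rw [hD]; exact le_max_left _ _
  have hD2 : C * β ^ (4/3 : ℝ) ≤ D := by rw [hD]; exact le_max_right _ _
  have hE1 : Real.exp (-(2 * L * (64 * D))) ≤ 1 := by
    rw [Real.exp_le_one_iff]
    have : 0 ≤ 2 * L * (64 * D) := by positivity
    linarith
  refine ⟨κ * Real.exp (-(2 * L * (64 * D))), by positivity, ?_, ?_⟩
  · calc κ * Real.exp (-(2 * L * (64 * D))) ≤ 1 * 1 :=
        mul_le_mul (by linarith) hE1 (Real.exp_pos _).le (by norm_num)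
      _ = 1 := by norm_num
  intro q hq hq1 a K w ha hNc hw hwK
  have h0 : 0 ≤ q := by linarith
  have h1 : q ≤ 1 := by linarith
  have hs0 : 0 ≤ 1/2 - q := by linarith
  obtain ⟨m, hm, hma, hW, -, hcase⟩ := hG q a hq hq1 ha
  have hm0 : (0:ℝ) < m := by exact_mod_cast hm
  have ha0 : (0:ℝ) < a := by exact_mod_cast ha
  have hmD : (a:ℝ) ≤ D * m := by
    rcases hcase with h | h
    · rw [h]
      nlinarith
    · rcases hNc with h2 | h2
      · have e1 : (1/2 - q) ^ (4/3 : ℝ) ≤ β ^ (4/3 : ℝ) * (a:ℝ)⁻¹ := by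
          have e2 : (1/2 - q) ^ (4/3 : ℝ) ≤ (β * (a:ℝ) ^ (-(3/4) : ℝ)) ^ (4/3 : ℝ) :=
            Real.rpow_le_rpow hs0 h2 (by norm_num)
          have e3 : (β * (a:ℝ) ^ (-(3/4) : ℝ)) ^ (4/3 : ℝ) = β ^ (4/3 : ℝ) * (a:ℝ)⁻¹ := by
            rw [Real.mul_rpow hβ.le (by positivity), ← Real.rpow_mul ha0.le]
            norm_num
            left
            exact Real.rpow_neg_one _
          rw [e3] at e2
          exact e2
        have e4 : C * (m * (1/2 - q) ^ (4/3 : ℝ)) ≤ C * (m * (β ^ (4/3 : ℝ) * (a:ℝ)⁻¹)) :=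
          mul_le_mul_of_nonneg_left (mul_le_mul_of_nonneg_left e1 hm0.le) hC.le
        have e5 : C * (m * (β ^ (4/3 : ℝ) * (a:ℝ)⁻¹)) = (C * β ^ (4/3 : ℝ)) * m / a := by
          rw [div_eq_mul_inv]; ring
        have e6 : 1 ≤ (C * β ^ (4/3 : ℝ)) * m / a := by linarith
        rw [le_div_iff₀ ha0, one_mul] at e6
        exact e6.trans (mul_le_mul_of_nonneg_right hD2 hm0.le)
      · have : m = a := by omega
        rw [this]
        nlinarith
  obtain ⟨n, hn⟩ : ∃ n : ℕ, (n : ℤ) = w := ⟨w.toNat, by omega⟩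
  have hn1 : 1 ≤ n := by omega
  have hk := hh_exp (hW.anti (show m ≤ 4 * m by omega)) hm hn1
  rw [← hL] at hk
  have h3 : hh q n m ≤ hh q w (4 * a) := by
    rw [hn]
    apply hh_mono h0 h1 hw le_rfl
    have : (m:ℤ) ≤ a := by exact_mod_cast hma
    omega
  refine le_trans ?_ (hk.trans h3)
  have hnr : (n:ℝ) ≤ 64 * a * (K + 1) := by
    have : (n:ℤ) ≤ 64 * a * (K + 1) := by rw [hn]; exact hwK
    exact_mod_cast this
  have hnm : (n:ℝ) / m ≤ 64 * D * (K + 1) := by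
    rw [div_le_iff₀ hm0]
    have hK0 : (0:ℝ) ≤ 64 * (K + 1) := by positivity
    calc (n:ℝ) ≤ 64 * (K + 1) * a := by linarith
      _ ≤ 64 * (K + 1) * (D * m) := mul_le_mul_of_nonneg_left hmD hK0
      _ = 64 * D * (K + 1) * m := by ring
  have e7 : (κ * Real.exp (-(2 * L * (64 * D)))) ^ (K + 1) =
      κ ^ (K + 1) * Real.exp (-(2 * L) * (64 * D * (K + 1))) := by
    rw [mul_pow, ← Real.exp_nat_mul]
    congr 2
    push_cast
    ring
  rw [e7]
  have hκ3 : κ ^ (K + 1) ≤ κ := by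
    rw [pow_succ]
    have : κ ^ K ≤ 1 := pow_le_one₀ hκ.le (by linarith)
    nlinarith
  apply mul_le_mul hκ3 _ (Real.exp_pos _).le hκ.le
  apply Real.exp_le_exp.mpr
  have := mul_le_mul_of_nonneg_left hnm (by positivity : 0 ≤ 2 * L)
  linarith

/-- The probability of the lower crossing. -/
theorem prCL (q : ℝ) {X1 X2 y0 : ℤ} {a : ℕ} {S : Finset Edg} (hS : SL X1 X2 y0 a ⊆ S) :
    Pr (fun _ => q) S (CL X1 X2 y0 a) = hh q (X2 - X1) (4 * a) := by
  unfold CL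
  rw [pr_LRc _ hS]
  congr 1
  ring

/-- The probability of the upper crossing. -/
theorem prCU (q : ℝ) {X1 X2 y0 : ℤ} {a : ℕ} {S : Finset Edg}
    (hS : dE (SU X1 X2 y0 a) ⊆ ↑S) :
    Pr (fun _ => q) S (fun F => CU X1 X2 y0 a (↑F : Set Edg)) = hh (1 - q) (X2 - X1) (4 * a) := by
  have e0 : Pr (fun _ => q) S (fun F => CU X1 X2 y0 a (↑F : Set Edg)) =
      Pr (fun _ => q) S (fun F => LRc X1 X2 (y0 + 4 * a) (y0 + 8 * a) (dmp (S \ F))) :=
    Pr_congr (fun F _ => CU_iff hS)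
  have e := H12S.pr_dual (q := q) S (LRc X1 X2 (y0 + 4 * a) (y0 + 8 * a))
  unfold H12S.PQ at e
  rw [e0, e, pr_LRc]
  · congr 1
    ring
  · intro e he
    rw [mem_dmp]
    apply hS
    show dl (dl.symm e) ∈ SU X1 X2 y0 a
    rw [Equiv.apply_symm_apply]
    exact he

end Cl

theorem cl : S_cl := by
  intro β hβ
  obtain ⟨κ, hκ, hκ1, hmain⟩ := Cl.hh_strip β hβ
  refine ⟨κ, hκ, hκ1, ?_⟩
  intro q hq hq1 a K X1 X2 y0 S ha hNc hX hXK hS
  have h1 := hmain q hq hq1 a K (X2 - X1) ha hNc (by omega) hXK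
  have hdU : dE (SU X1 X2 y0 a) ⊆ ↑S := (dSU_sub ha).trans (by exact_mod_cast hS)
  constructor
  · rw [Cl.prCL q (SL_sub.trans hS)]
    exact h1
  · rw [Cl.prCU q hdU]
    exact h1.trans (hh_mono_param (by linarith) (by linarith) (by linarith) _ _)

end H953L
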