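import Pool.Agent.H953.OL.Stm
import Pool.Agent.H953.Sg2
import Pool.Agent.H953.Sg3

/-!
B1: the open crossing of an annulus below the critical point.
-/

set_option autoImplicit false
set_option maxHeartbeats 1000000

namespace H953L

namespace Crs

open H974 Finset H12S H389NS
open Pool.Agent.H953 (X1 X1c X1_mono X1_far X1_mul pr_X1_box pr_X1c u_ratio)

theorem lam_nonneg (q : ℝ) : 0 ≤ lam q := by
  unfold lam
  positivity

theorem gg_pos (q : ℝ) (s : ℕ) : 0 < gg q s := by
  have h := lam_nonneg q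
  have hs : (0:ℝ) ≤ s := Nat.cast_nonneg s
  unfold gg
  positivity

/-- The crossing of an annulus around the origin. -/
theorem orig : ∃ C : ℝ, 1 ≤ C ∧ ∀ p : ℝ, 0 ≤ p → p < 1/2 → ∀ r D M : ℕ, 1 ≤ r → r ≤ D → D ≤ M →
    Pr (fun _ => p) (boxE M) (fun F => X1 r D (↑F : Set Edg)) ≤ C * (gg p D / gg p r) := by
  obtain ⟨E, hE, hfar⟩ := Pool.Agent.W424.NC.farS
  obtain ⟨A, hA⟩ : ∃ A : ℝ, A = (1 + 2 * E) ^ 3 := ⟨_, rfl⟩
  have hA1 : 1 ≤ A := by
    rw [hA]
    exact one_le_pow₀ (by linarith)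
  refine ⟨A * 512, by linarith, ?_⟩
  intro p p0 hp r D M hr hrD hDM
  have p1 : p ≤ 1 := by linarith
  have ok := okq p0 p1
  obtain ⟨t, ht⟩ : ∃ t : ℝ, t = 1/2 - p := ⟨_, rfl⟩
  have ht0 : 0 < t := by rw [ht]; linarith
  have ht1 : t ≤ 1 := by rw [ht]; linarith
  obtain ⟨l, hl⟩ : ∃ l : ℝ, l = t ^ (4/3 : ℝ) := ⟨_, rfl⟩
  have hl0 : 0 < l := by rw [hl]; positivity
  have hl1 : l ≤ 1 := by rw [hl]; exact Real.rpow_le_one ht0.le ht1 (by norm_num)
  have hlp : lam p = l := by
    unfold lam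
    rw [hl, ht, abs_sub_comm, abs_of_pos (by linarith)]
  -- the ratio of the weights
  have hratio : ∀ a b : ℕ, 1 ≤ a → a ≤ b → gg p b / gg p a =
      ((1 + l * a) / (1 + l * b)) ^ 3 := by
    intro a b ha hb
    have ha0 : (0:ℝ) < a := by exact_mod_cast ha
    have hb0 : (0:ℝ) < b := by exact_mod_cast (by omega : 0 < b)
    unfold gg
    rw [hlp]
    have h1 : (0:ℝ) < 1 + l * a := by positivity
    have h2 : (0:ℝ) < 1 + l * b := by positivity
    have h3 : (0:ℝ) < 1 + l := by positivity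
    rw [← div_pow]
    congr 1
    field_simp
  -- the scale
  obtain ⟨N0, hN0a, hN0b⟩ : ∃ N0 : ℕ, E / l ≤ N0 ∧ (N0:ℝ) ≤ 2 * (E / l) := by
    have h1 : 1 ≤ E / l := by rw [le_div_iff₀ hl0]; linarith
    refine ⟨⌈E / l⌉₊, Nat.le_ceil _, ?_⟩
    have := Nat.ceil_lt_add_one (show 0 ≤ E / l by positivity)
    linarith
  have hN01 : 1 ≤ N0 := by
    have h1 : 1 ≤ E / l := by rw [le_div_iff₀ hl0]; linarith
    have h2 : (1:ℝ) ≤ N0 := h1.trans hN0a
    exact_mod_cast h2
  have hlN : l * N0 ≤ 2 * E := by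
    have := mul_le_mul_of_nonneg_left hN0b hl0.le
    calc l * N0 ≤ l * (2 * (E / l)) := this
      _ = 2 * E := by field_simp
  -- near
  have near : ∀ a b M : ℕ, 1 ≤ a → a ≤ b → b ≤ N0 → b ≤ M →
      Pr (fun _ => p) (boxE M) (fun F => X1 a b (↑F : Set Edg)) ≤ A * (gg p b / gg p a) := by
    intro a b M ha hab hbN hbM
    have ha0 : (0:ℝ) < a := by exact_mod_cast ha
    have hb0 : (0:ℝ) < b := by exact_mod_cast (by omega : 0 < b)
    have hbN' : (b:ℝ) ≤ N0 := by exact_mod_cast hbN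
    have hlb : l * b ≤ 2 * E := (mul_le_mul_of_nonneg_left hbN' hl0.le).trans hlN
    refine (Pr_le_one ok _ _).trans ?_
    rw [hratio a b ha hab, hA, ← mul_pow]
    apply one_le_pow₀
    rw [← mul_div_assoc, le_div_iff₀ (by positivity)]
    have : 0 ≤ l * a := by positivity
    nlinarith
  -- far
  have far : ∀ a b M : ℕ, 1 ≤ a → a ≤ b → N0 ≤ a → b ≤ M →
      Pr (fun _ => p) (boxE M) (fun F => X1 a b (↑F : Set Edg)) ≤ 512 * (gg p b / gg p a) := by
    intro a b M ha hab haN hbM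
    have ha0 : (0:ℝ) < a := by exact_mod_cast ha
    have hb0 : (0:ℝ) < b := by exact_mod_cast (by omega : 0 < b)
    have hab' : (a:ℝ) ≤ b := by exact_mod_cast hab
    have he : eps (1 - p) (a + 1) ≤ 1/100 := by
      apply hfar (1 - p) (by linarith) (by linarith)
      have e1 : 1 - p - 1/2 = t := by rw [ht]; ring
      have e2 : t ^ (-(4/3) : ℝ) = l⁻¹ := by rw [Real.rpow_neg ht0.le, hl]
      rw [e1, e2, ← div_eq_mul_inv]
      refine hN0a.trans ?_
      have : (N0:ℝ) ≤ a := by exact_mod_cast haN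
      push_cast
      linarith
    have h1 := X1_far p0 p1 ha hab hbM he
    refine h1.trans ?_
    apply mul_le_mul_of_nonneg_left _ (by norm_num)
    rw [hratio a b ha hab]
    exact pow_le_pow_left₀ (by positivity) (u_ratio hl0.le ha0 hab') 3
  have vr := gg_pos p r
  have vD := gg_pos p D
  rcases le_total D N0 with hc | hc
  · refine (near r D M hr hrD hc hDM).trans ?_
    have : 0 < gg p D / gg p r := by positivity
    nlinarith
  · rcases le_total N0 r with hc2 | hc2
    · refine (far r D M hr hrD hc2 hDM).trans ?_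
      have : 0 < gg p D / gg p r := by positivity
      nlinarith
    · have vN := gg_pos p N0
      rw [pr_X1_box p hDM]
      have h1 := near r N0 D hr hc2 le_rfl hc
      have h2 := far N0 D D hN01 hc le_rfl le_rfl
      refine (X1_mul p0 p1 hc2 hc).trans ?_
      calc _ ≤ (A * (gg p N0 / gg p r)) * (512 * (gg p D / gg p N0)) :=
            mul_le_mul h1 h2 (Pr_nonneg ok _ _) (by positivity)
        _ = _ := by field_simp

end Crs

/-- B1. Open crossing of an annulus, below the critical point. -/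
theorem crs : S_crs := by
  obtain ⟨C, hC, h⟩ := Crs.orig
  refine ⟨C, hC, ?_⟩
  intro q q0 q1 c r D S hr hrD hS
  have ok := H974.okq q0 (by linarith : q ≤ 1)
  exact (Pool.Agent.H953.pr_X1c ok hS).trans (h q q0 q1 r D D hr hrD le_rfl)

end H953L
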