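import Pool.Agent.H953.OL.Stm2
import Pool.Graph.R_seed8.Y993.LL.Low

/-!
The lower bound for the diameter in infinite volume.
-/

set_option autoImplicit false

namespace H953L

open H974 Finset H12S H342P H984P MeasureTheory
open Pool.Agent.Y993.LL (loop Closed Conn bx sd conn_of_fin mem_loop)

theorem dlo (h1 : S_fc) (h2 : S_clo) : S_dlo := by
  obtain ⟨c, C, hc, hC, h⟩ := h1
  refine ⟨c, C, hc, hC, fun q hq1 hq2 σ n hn => ?_⟩
  obtain ⟨S, hS⟩ := h q hq1 hq2 σ n hn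
  refine hS.trans ?_
  rw [← law_event q S (fun F => Fc S F σ n)]
  refine ENNReal.toReal_mono (measure_ne_top _ _) (measure_mono_ae ?_)
  filter_upwards [h2 q] with ω hω
  rintro ⟨τ, hτ1, hτ2, hτ3⟩
  exact ⟨τ, (mem_loop (hω σ) τ).2 (conn_of_fin hτ2 hτ3), hτ1⟩

end H953L
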