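import Pool.Agent.H953.OL.Stm
import Pool.Agent.H953.Spd.DLaw

/-!
E3. Duality (by helper323).
-/

set_option autoImplicit false

namespace H953L

open H974 Finset H12S H342P H984P MeasureTheory
open Pool.Agent.Y993.LL (loop Closed Conn bx SL SU CL CU SB VV)

namespace Dual

/-- the opposite corner -/
def op : Q4 → Q4
  | .ne => .sw
  | .nw => .se
  | .sw => .ne
  | .se => .nw

/-- the dual state -/
def du (σ : St) : St := (face σ, op σ.2)

theorem du_inj : Function.Injective du := by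
  rintro ⟨⟨x, y⟩, c⟩ ⟨⟨x', y'⟩, c'⟩ h
  cases c <;> cases c' <;> simp [du, op] at h ⊢ <;> omega

/-- the dual configuration -/
def dc (F : Set Edg) : Set Edg := {e | dl.symm e ∉ F}

theorem ae_mv (σ : St) : ae (du (mv σ)) = dl (ae σ) := by
  obtain ⟨⟨x, y⟩, c⟩ := σ
  cases c <;> simp [du, op]

theorem ae_rt (σ : St) : ae (du (rt σ)) = dl (ae σ) := by
  obtain ⟨⟨x, y⟩, c⟩ := σ
  cases c <;> simp [du, op]

theorem rt_mv (σ : St) : rt (du (mv σ)) = du σ := by
  obtain ⟨⟨x, y⟩, c⟩ := σ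
  cases c <;> simp [du, op]

theorem mv_rt (σ : St) : mv (du (rt σ)) = du σ := by
  obtain ⟨⟨x, y⟩, c⟩ := σ
  cases c <;> simp [du, op]

/-- the dual interface runs backwards -/
theorem step (F : Set Edg) (σ : St) : nxt (dc F) (du (nxt F σ)) = du σ := by
  by_cases h : ae σ ∈ F
  · rw [nxt_open h, nxt_closed, rt_mv]
    rw [ae_mv]
    intro h1
    exact h1 (by rw [Equiv.symm_apply_apply]; exact h)
  · rw [nxt_closed h, nxt_open, mv_rt]
    rw [ae_rt]
    show dl.symm (dl (ae σ)) ∉ F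
    rw [Equiv.symm_apply_apply]
    exact h

theorem iter (F : Set Edg) (σ : St) (i : ℕ) : orb (dc F) (du (orb F σ i)) i = du σ := by
  induction i with
  | zero => rfl
  | succ i ih =>
    rw [orb_add (dc F) _ i 1]
    have h1 : orb (dc F) (du (orb F σ (i + 1))) 1 = nxt (dc F) (du (orb F σ (i + 1))) := rfl
    rw [h1, orb_succ, step, ih]

theorem nxt_inj (H : Set Edg) : Function.Injective (nxt H) := by
  intro τ τ' h
  apply du_inj
  rw [← step H τ, ← step H τ', h]

theorem orb_inj (H : Set Edg) (i : ℕ) {τ τ' : St} (h : orb H τ i = orb H τ' i) : τ = τ' :=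
  (nxt_inj H).iterate i h

theorem orb_iff (F : Set Edg) (σ : St) (i : ℕ) :
    orb F σ i = σ ↔ orb (dc F) (du σ) i = du σ := by
  have h1 := iter F σ i
  constructor
  · intro h
    rw [h] at h1
    exact h1
  · intro h
    exact (du_inj (orb_inj (dc F) i (h.trans h1.symm))).symm

theorem lg_iff (F : Set Edg) (σ : St) (n : ℕ) : Lg n σ F ↔ Lg n (du σ) (dc F) := by
  unfold Lg
  refine forall_congr' fun i => forall_congr' fun _ => forall_congr' fun _ => ?_
  exact not_congr (orb_iff F σ i)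

end Dual

open Dual in
theorem dual (h1 : S_loc) (h2 : S_sym) : S_dual := by
  intro q n hq0 hq1
  have hs : du s0 = ((0, 0), Q4.sw) := rfl
  have hSU : bx (0, 0) n ⊆ bx (0, 0) (n + 2) := by
    unfold bx
    rintro ⟨x, y, _ | _⟩ h
    · rw [mem_RE_false] at h ⊢; simp only at h ⊢; omega
    · rw [mem_RE_true] at h ⊢; simp only at h ⊢; omega
  have hdU : ∀ e ∈ bx (0, 0) n, dl.symm e ∈ bx (0, 0) (n + 2) := by
    unfold bx
    rintro ⟨x, y, _ | _⟩ h
    · rw [mem_RE_false] at h
      rw [dls_f, mem_RE_true]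
      simp only at h ⊢; omega
    · rw [mem_RE_true] at h
      rw [dls_t, mem_RE_false]
      simp only at h ⊢; omega
  have hmU : bx (0, 0) n ⊆ (bx (0, 0) (n + 2)).map dl.toEmbedding := by
    intro e he
    rw [Finset.mem_map]
    exact ⟨dl.symm e, hdU e he, by simp⟩
  -- locality
  have hl : ∀ (p : ℝ) (σ : St) (U : Finset Edg), σ.1 = (0, 0) → bx (0, 0) n ⊆ U →
      Pr (fun _ => p) U (fun F => Lg n σ (↑F : Set Edg)) =
        Pr (fun _ => p) (bx (0, 0) n) (fun F => Lg n σ (↑F : Set Edg)) := by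
    intro p σ U hσ hU
    apply Pr_local hU
    intro F _
    refine h1 n σ _ _ fun e he => ?_
    rw [hσ] at he
    rw [Finset.mem_coe, Finset.mem_coe, Finset.mem_inter]
    exact ⟨fun h => ⟨h, he⟩, fun h => h.1⟩
  calc Pr (fun _ => q) (bx (0, 0) n) (fun F => Lg n s0 (↑F : Set Edg))
      = Pr (fun _ => q) (bx (0, 0) (n + 2)) (fun F => Lg n s0 (↑F : Set Edg)) :=
        (hl q s0 _ rfl hSU).symm
    _ = Pr (fun _ => q) (bx (0, 0) (n + 2))
        (fun F => Lg n (du s0) (↑(H953S.dS (bx (0, 0) (n + 2)) F) : Set Edg)) := by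
        apply Pr_congr
        intro F _
        rw [lg_iff]
        refine h1 n (du s0) _ _ fun e he => ?_
        have he' : e ∈ bx (0, 0) n := he
        unfold H953S.dS dc
        rw [Finset.mem_coe, Finset.mem_map_equiv, Finset.mem_sdiff]
        exact ⟨fun h => ⟨hdU e he', h⟩, fun h => h.2⟩
    _ = Pr (fun _ => 1 - q) ((bx (0, 0) (n + 2)).map dl.toEmbedding)
        (fun H => Lg n (du s0) (↑H : Set Edg)) :=
        H953S.dlaw q _ (fun H => Lg n (du s0) (↑H : Set Edg))
    _ = Pr (fun _ => 1 - q) (bx (0, 0) n) (fun H => Lg n (du s0) (↑H : Set Edg)) :=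
        hl (1 - q) (du s0) _ rfl hmU
    _ = _ := h2 (1 - q) n (du s0) (by linarith) (by linarith)

end H953L
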