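import Pool.Agent.H953.OL.Stm2
import Pool.Graph.R_seed8.Y993.LL.Upper

/-!
The upper bound for the diameter of an interface loop (helper627 for helper953).
-/

set_option autoImplicit false

namespace H953L

open H974 Finset H12S H342P H984P MeasureTheory
open Pool.Agent.Y993.LL (loop Closed Conn bx sd)

namespace Dup

theorem far_of_sd {u v : Vtx} {n : ℤ} (h : n ≤ sd u v) : Far u n v := by
  unfold Pool.Agent.Y993.LL.sd at h
  unfold Far
  rcases le_max_iff.1 h with h | h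
  · rcases le_abs.1 h with h | h <;> omega
  · rcases le_abs.1 h with h | h <;> omega

theorem lam_nonneg (q : ℝ) : 0 ≤ lam q := Real.rpow_nonneg (abs_nonneg _) _

theorem lam_le_one {q : ℝ} (h0 : 0 ≤ q) (h1 : q ≤ 1) : lam q ≤ 1 := by
  unfold lam
  refine Real.rpow_le_one (abs_nonneg _) ?_ (by norm_num)
  rw [abs_le]
  constructor <;> linarith

theorem law_two_q {c C : ℝ} (h : ∀ q : ℝ, 0 ≤ q → q ≤ 1 → ∀ (u p : Vtx) (k : ℕ)
    (S : Finset Edg), Inc u p → 1 ≤ k → blk u k ⊆ S →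
      Pr (fun _ => q) S (fun F => Two u p k (↑F : Set Edg)) ≤
        C * (k:ℝ) ^ (-(1/4) : ℝ) * Real.exp (-(c * (k * lam q))))
    (q : unitInterval) (σ : St) (k : ℕ) (hk : 1 ≤ k) :
    (bondLaw q).real {ω | ∃ τ ∈ loop (opn ω) σ, ((k + 1 : ℕ) : ℤ) ≤ sd σ.1 τ.1} ≤
      C * (k:ℝ) ^ (-(1/4) : ℝ) * Real.exp (-(c * (k * lam q))) := by
  have h1 := h q q.2.1 q.2.2 σ.1 (face σ) k (bx σ.1 k) (Pool.Agent.Y993.LL.inc_face σ) hk
    (Finset.Subset.refl _)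
  refine le_trans ?_ h1
  rw [← law_event]
  refine measureReal_mono ?_
  rintro ω ⟨τ, hτ, hs⟩
  rw [Set.mem_setOf_eq, ← Pool.Agent.Y993.LL.two_FF (by omega) (Finset.Subset.refl _)]
  refine Pool.Agent.Y993.LL.two_of_conn (by omega) (Pool.Agent.Y993.LL.conn_of_mem hτ) (far_of_sd ?_)
  push_cast at hs
  exact hs

theorem pow_half (k : ℕ) (hk : 1 ≤ k) :
    (k:ℝ) ^ (-(1/4) : ℝ) ≤ 2 * ((k + 1 : ℕ) : ℝ) ^ (-(1/4) : ℝ) := by
  have hkR : (1:ℝ) ≤ k := by exact_mod_cast hk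
  have h1 : ((k + 1 : ℕ) : ℝ) / 2 ≤ k := by
    push_cast
    linarith
  have h0 : (0:ℝ) < ((k + 1 : ℕ) : ℝ) := by positivity
  have h2 : (k:ℝ) ^ (-(1/4) : ℝ) ≤ (((k + 1 : ℕ) : ℝ) / 2) ^ (-(1/4) : ℝ) :=
    Real.rpow_le_rpow_of_nonpos (by positivity) h1 (by norm_num)
  have h3 : (((k + 1 : ℕ) : ℝ) / 2) ^ (-(1/4) : ℝ) =
      ((k + 1 : ℕ) : ℝ) ^ (-(1/4) : ℝ) * (2:ℝ) ^ (1/4 : ℝ) := by
    rw [Real.div_rpow h0.le (by norm_num), Real.rpow_neg (by norm_num : (0:ℝ) ≤ 2), div_inv_eq_mul]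
  have h4 : (2:ℝ) ^ (1/4 : ℝ) ≤ 2 := by
    have := Real.rpow_le_rpow_of_exponent_le (by norm_num : (1:ℝ) ≤ 2) (by norm_num : (1/4 : ℝ) ≤ 1)
    rwa [Real.rpow_one] at this
  have h5 : 0 ≤ ((k + 1 : ℕ) : ℝ) ^ (-(1/4) : ℝ) := Real.rpow_nonneg h0.le _
  rw [h3] at h2
  nlinarith

end Dup

theorem dup (h : S_two4) : S_dup := by
  obtain ⟨c, C, hc, hC, h⟩ := h
  refine ⟨c / 2, 2 * C + Real.exp (c / 2), by positivity, by positivity, ?_⟩
  intro q σ n hn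
  have hl0 : 0 ≤ lam q := Dup.lam_nonneg _
  have hl1 : lam q ≤ 1 := Dup.lam_le_one q.2.1 q.2.2
  have hlam : |(q:ℝ) - 1/2| ^ (4/3 : ℝ) = lam q := rfl
  rw [hlam]
  rcases Nat.lt_or_ge n 2 with h2 | h2
  · have hn1 : n = 1 := by omega
    subst hn1
    have h3 : (bondLaw q).real {ω | ∃ τ ∈ loop (opn ω) σ, ((1 : ℕ) : ℤ) ≤ sd σ.1 τ.1} ≤ 1 :=
      measureReal_le_one
    refine h3.trans ?_
    rw [Nat.cast_one, Real.one_rpow, mul_one, one_mul]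
    have h4 : Real.exp (-(c / 2)) ≤ Real.exp (-(c / 2 * lam q)) := by
      refine Real.exp_le_exp.2 ?_
      nlinarith
    have h5 : Real.exp (c / 2) * Real.exp (-(c / 2)) = 1 := by
      rw [← Real.exp_add, add_neg_cancel, Real.exp_zero]
    have h6 : 0 < Real.exp (-(c / 2 * lam q)) := Real.exp_pos _
    have h7 : 0 < Real.exp (c / 2) := Real.exp_pos _
    nlinarith
  · obtain ⟨k, rfl⟩ : ∃ k, n = k + 1 := ⟨n - 1, by omega⟩
    have hk : 1 ≤ k := by omega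
    have hkR : (1:ℝ) ≤ k := by exact_mod_cast hk
    refine (Dup.law_two_q h q σ k hk).trans ?_
    have h3 := Dup.pow_half k hk
    have h4 : Real.exp (-(c * (k * lam q))) ≤
        Real.exp (-(c / 2 * (((k + 1 : ℕ) : ℝ) * lam q))) := by
      refine Real.exp_le_exp.2 ?_
      push_cast
      have h5 : 0 ≤ c * lam q * ((k:ℝ) - 1) := by
        have : (0:ℝ) ≤ (k:ℝ) - 1 := by linarith
        positivity
      nlinarith
    have h6 : 0 ≤ ((k + 1 : ℕ) : ℝ) ^ (-(1/4) : ℝ) := Real.rpow_nonneg (by positivity) _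
    have h7 : 0 < Real.exp (-(c * (k * lam q))) := Real.exp_pos _
    have h8 : 0 < Real.exp (c / 2) := Real.exp_pos _
    calc C * (k:ℝ) ^ (-(1/4) : ℝ) * Real.exp (-(c * (k * lam q))) ≤
        C * (2 * ((k + 1 : ℕ) : ℝ) ^ (-(1/4) : ℝ)) *
          Real.exp (-(c / 2 * (((k + 1 : ℕ) : ℝ) * lam q))) := by
          gcongr
      _ = (2 * C) * ((k + 1 : ℕ) : ℝ) ^ (-(1/4) : ℝ) *
          Real.exp (-(c / 2 * (((k + 1 : ℕ) : ℝ) * lam q))) := by ring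
      _ ≤ _ := by
          gcongr
          linarith

end H953L
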