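import Pool.Agent.H953.OL.Stm2

/-!
Euler's formula for the interface loops.
-/

set_option autoImplicit false
set_option linter.unusedSectionVars false

namespace H953L

open H974 Finset H12S H342P H984P MeasureTheory
open Pool.Agent.Y993.LL (loop Closed Conn bx sd mem_loop loop_eq closed_of_bdd self_mem_loop)

namespace Eul

/-! ### Sums over classes -/

section cls

variable {α : Type*} [DecidableEq α]

open Classical in
/-- the number of classes as a sum -/
noncomputable def NS (S : Finset α) (r : α → α → Prop) : ℝ :=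
  ∑ x ∈ S, ((S.filter (fun y => r x y)).card : ℝ)⁻¹

/-- `r` is an equivalence relation on `S` -/
structure EqOn (S : Finset α) (r : α → α → Prop) : Prop where
  refl : ∀ x ∈ S, r x x
  symm : ∀ x ∈ S, ∀ y ∈ S, r x y → r y x
  trans : ∀ x ∈ S, ∀ y ∈ S, ∀ z ∈ S, r x y → r y z → r x z

open Classical in
theorem filt_eq {S : Finset α} {r : α → α → Prop} (h : EqOn S r) {x y : α} (hx : x ∈ S)
    (hy : y ∈ S) (hxy : r x y) :
    S.filter (fun z => r x z) = S.filter (fun z => r y z) := by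
  ext z
  simp only [mem_filter]
  constructor
  · rintro ⟨hz, h1⟩
    exact ⟨hz, h.trans y hy x hx z hz (h.symm x hx y hy hxy) h1⟩
  · rintro ⟨hz, h1⟩
    exact ⟨hz, h.trans x hx y hy z hz hxy h1⟩

theorem sum_const_inv {A : Finset α} (hA : A.Nonempty) : ∑ _x ∈ A, (A.card : ℝ)⁻¹ = 1 := by
  rw [sum_const, nsmul_eq_mul, mul_inv_cancel₀]
  exact_mod_cast hA.card_pos.ne'

open Classical in
theorem merge {S : Finset α} {r r' : α → α → Prop} (h : EqOn S r) {a b : α} (ha : a ∈ S)
    (hb : b ∈ S) (hab : ¬ r a b)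
    (h' : ∀ x ∈ S, ∀ y ∈ S, (r' x y ↔ r x y ∨ (r x a ∧ r b y) ∨ (r x b ∧ r a y))) :
    NS S r' = NS S r - 1 := by
  obtain ⟨A, hA⟩ : ∃ A, A = S.filter (fun z => r a z) := ⟨_, rfl⟩
  obtain ⟨B, hB⟩ : ∃ B, B = S.filter (fun z => r b z) := ⟨_, rfl⟩
  have mA : ∀ x, x ∈ A ↔ x ∈ S ∧ r a x := fun x => by rw [hA, mem_filter]
  have mB : ∀ x, x ∈ B ↔ x ∈ S ∧ r b x := fun x => by rw [hB, mem_filter]
  have hd : Disjoint A B := by
    rw [disjoint_left]
    intro x hxA hxB
    rw [mA] at hxA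
    rw [mB] at hxB
    exact hab (h.trans a ha x hxA.1 b hb hxA.2 (h.symm b hb x hxB.1 hxB.2))
  have hsub : A ∪ B ⊆ S := by
    rw [hA, hB]
    exact union_subset (filter_subset _ _) (filter_subset _ _)
  have nA : A.Nonempty := ⟨a, (mA a).2 ⟨ha, h.refl a ha⟩⟩
  have nB : B.Nonempty := ⟨b, (mB b).2 ⟨hb, h.refl b hb⟩⟩
  have e1 : ∀ x ∈ A, S.filter (fun z => r x z) = A := by
    intro x hx
    rw [mA] at hx
    rw [hA]
    exact (filt_eq h ha hx.1 hx.2).symm
  have e2 : ∀ x ∈ B, S.filter (fun z => r x z) = B := by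
    intro x hx
    rw [mB] at hx
    rw [hB]
    exact (filt_eq h hb hx.1 hx.2).symm
  have e3 : ∀ x ∈ A ∪ B, S.filter (fun z => r' x z) = A ∪ B := by
    intro x hx
    ext z
    rw [mem_filter, mem_union, mA, mB]
    rw [mem_union, mA, mB] at hx
    constructor
    · rintro ⟨hz, hz'⟩
      have hxS : x ∈ S := by
        rcases hx with hx | hx
        · exact hx.1
        · exact hx.1
      rw [h' x hxS z hz] at hz'
      rcases hz' with h1 | ⟨-, h1⟩ | ⟨-, h1⟩
      · rcases hx with hx | hx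
        · exact Or.inl ⟨hz, h.trans a ha x hxS z hz hx.2 h1⟩
        · exact Or.inr ⟨hz, h.trans b hb x hxS z hz hx.2 h1⟩
      · exact Or.inr ⟨hz, h1⟩
      · exact Or.inl ⟨hz, h1⟩
    · rcases hx with ⟨hxS, hx⟩ | ⟨hxS, hx⟩
      · rintro (⟨hz, h1⟩ | ⟨hz, h1⟩)
        · exact ⟨hz, (h' x hxS z hz).2 (Or.inl
            (h.trans x hxS a ha z hz (h.symm a ha x hxS hx) h1))⟩
        · exact ⟨hz, (h' x hxS z hz).2 (Or.inr (Or.inl ⟨h.symm a ha x hxS hx, h1⟩))⟩
      · rintro (⟨hz, h1⟩ | ⟨hz, h1⟩)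
        · exact ⟨hz, (h' x hxS z hz).2 (Or.inr (Or.inr ⟨h.symm b hb x hxS hx, h1⟩))⟩
        · exact ⟨hz, (h' x hxS z hz).2 (Or.inl
            (h.trans x hxS b hb z hz (h.symm b hb x hxS hx) h1))⟩
  have e4 : ∀ x ∈ S \ (A ∪ B), S.filter (fun z => r' x z) = S.filter (fun z => r x z) := by
    intro x hx
    rw [mem_sdiff, mem_union, mA, mB] at hx
    obtain ⟨hxS, hx⟩ := hx
    ext z
    rw [mem_filter, mem_filter]
    constructor
    · rintro ⟨hz, hz'⟩
      refine ⟨hz, ?_⟩
      rw [h' x hxS z hz] at hz'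
      rcases hz' with h1 | ⟨h1, -⟩ | ⟨h1, -⟩
      · exact h1
      · exact absurd (Or.inl ⟨hxS, h.symm x hxS a ha h1⟩) hx
      · exact absurd (Or.inr ⟨hxS, h.symm x hxS b hb h1⟩) hx
    · rintro ⟨hz, hz'⟩
      exact ⟨hz, (h' x hxS z hz).2 (Or.inl hz')⟩
  have s1 : NS S r' = ∑ x ∈ S \ (A ∪ B), ((S.filter (fun y => r x y)).card : ℝ)⁻¹ + 1 := by
    unfold NS
    rw [← sum_sdiff hsub]
    congr 1
    · exact sum_congr rfl fun x hx => by rw [e4 x hx]
    · rw [← sum_const_inv (A := A ∪ B) (nA.mono subset_union_left)]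
      exact sum_congr rfl fun x hx => by rw [e3 x hx]
  have s2 : NS S r = ∑ x ∈ S \ (A ∪ B), ((S.filter (fun y => r x y)).card : ℝ)⁻¹ + (1 + 1) := by
    unfold NS
    rw [← sum_sdiff hsub]
    congr 1
    rw [sum_union hd]
    congr 1
    · rw [← sum_const_inv nA]
      exact sum_congr rfl fun x hx => by rw [e1 x hx]
    · rw [← sum_const_inv nB]
      exact sum_congr rfl fun x hx => by rw [e2 x hx]
  rw [s1, s2]
  ring

open Classical in
theorem count {S : Finset α} {r : α → α → Prop} (h : EqOn S r) :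
    ((S.image (fun x => S.filter (fun y => r x y))).card : ℝ) = NS S r := by
  unfold NS
  rw [sum_comp (s := S) (fun c : Finset α => ((c.card : ℝ))⁻¹)
    (fun x => S.filter (fun y => r x y)), card_eq_sum_ones, Nat.cast_sum]
  refine sum_congr rfl fun c hc => ?_
  obtain ⟨x0, hx0, rfl⟩ := mem_image.1 hc
  have e : S.filter (fun x => S.filter (fun y => r x y) = S.filter (fun y => r x0 y)) =
      S.filter (fun y => r x0 y) := by
    ext x
    rw [mem_filter, mem_filter]
    constructor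
    · rintro ⟨hx, hxe⟩
      refine ⟨hx, ?_⟩
      have h1 : x ∈ S.filter (fun y => r x y) := mem_filter.2 ⟨hx, h.refl x hx⟩
      rw [hxe] at h1
      exact (mem_filter.1 h1).2
    · rintro ⟨hx, h1⟩
      exact ⟨hx, (filt_eq h hx0 hx h1).symm⟩
  rw [e, nsmul_eq_mul, mul_inv_cancel₀, Nat.cast_one]
  have h2 : (S.filter (fun y => r x0 y)).Nonempty := ⟨x0, mem_filter.2 ⟨hx0, h.refl x0 hx0⟩⟩
  exact_mod_cast h2.card_pos.ne'

end cls

/-! ### Switching a permutation at two points -/

section perm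

variable {β : Type*} {f g : β → β} {a b x y z : β}

/-- the orbit -/
def lp (f : β → β) (x : β) : Set β := {y | ∃ s, f^[s] x = y}

theorem lp_self : x ∈ lp f x := ⟨0, rfl⟩

theorem lp_step (h : y ∈ lp f x) : f y ∈ lp f x := by
  obtain ⟨s, rfl⟩ := h
  exact ⟨s + 1, Function.iterate_succ_apply' _ _ _⟩

theorem lp_trans (h : y ∈ lp f x) (h' : z ∈ lp f y) : z ∈ lp f x := by
  obtain ⟨s, rfl⟩ := h
  obtain ⟨t, rfl⟩ := h'
  exact ⟨t + s, Function.iterate_add_apply _ _ _ _⟩

theorem iter_mul {p : ℕ} (h : f^[p] x = x) (k : ℕ) : f^[k * p] x = x := by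
  induction k with
  | zero => rw [Nat.zero_mul]; rfl
  | succ k ih => rw [Nat.succ_mul, Function.iterate_add_apply, h, ih]

theorem lp_symm (hx : ∃ p, 0 < p ∧ f^[p] x = x) (h : y ∈ lp f x) : x ∈ lp f y := by
  obtain ⟨p, hp, hpx⟩ := hx
  obtain ⟨s, rfl⟩ := h
  refine ⟨s * p - s, ?_⟩
  rw [← Function.iterate_add_apply]
  have h1 : s ≤ s * p := Nat.le_mul_of_pos_right s hp
  have h2 : s * p - s + s = s * p := by omega
  rw [h2, iter_mul hpx]

/-- the closed orbits of `b` and `a` are joined -/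
theorem key (hga : g a = f b) (hg : ∀ x, x ≠ a → x ≠ b → g x = f x)
    (hb : ∃ p, 0 < p ∧ f^[p] b = b) (h : a ∉ lp f b) : b ∈ lp g a := by
  by_contra hn
  have h1 : ∀ s, g^[s + 1] a = f^[s + 1] b := by
    intro s
    induction s with
    | zero => exact hga
    | succ s ih =>
      rw [Function.iterate_succ_apply' g, ih, Function.iterate_succ_apply' f (s + 1)]
      apply hg
      · intro h2
        exact h ⟨_, h2⟩
      · intro h2
        exact hn ⟨s + 1, ih.trans h2⟩
  obtain ⟨p, hp, hpb⟩ := hb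
  obtain ⟨q, rfl⟩ : ∃ q, p = q + 1 := ⟨p - 1, by omega⟩
  exact hn ⟨q + 1, (h1 q).trans hpb⟩

theorem mem_iff (hga : g a = f b) (hgb : g b = f a) (hg : ∀ x, x ≠ a → x ≠ b → g x = f x)
    (pa : ∃ p, 0 < p ∧ f^[p] a = a) (pb : ∃ p, 0 < p ∧ f^[p] b = b) (hab : b ∉ lp f a) (x y : β) :
    y ∈ lp g x ↔ y ∈ lp f x ∨ (a ∈ lp f x ∧ y ∈ lp f b) ∨ (b ∈ lp f x ∧ y ∈ lp f a) := by
  have hba : a ∉ lp f b := fun h => hab (lp_symm pb h)
  constructor
  · rintro ⟨s, rfl⟩
    induction s with
    | zero => exact Or.inl lp_self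
    | succ s ih =>
      rw [Function.iterate_succ_apply']
      generalize g^[s] x = y at ih ⊢
      by_cases ha : y = a
      · rw [ha] at ih ⊢
        rw [hga]
        rcases ih with h | ⟨-, h⟩ | ⟨h, -⟩
        · exact Or.inr (Or.inl ⟨h, lp_step lp_self⟩)
        · exact absurd h hba
        · exact Or.inl (lp_step h)
      · by_cases hb : y = b
        · rw [hb] at ih ⊢
          rw [hgb]
          rcases ih with h | ⟨h, -⟩ | ⟨-, h⟩
          · exact Or.inr (Or.inr ⟨h, lp_step lp_self⟩)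
          · exact Or.inl (lp_step h)
          · exact absurd h hab
        · rw [hg y ha hb]
          rcases ih with h | ⟨h, h1⟩ | ⟨h, h1⟩
          · exact Or.inl (lp_step h)
          · exact Or.inr (Or.inl ⟨h, lp_step h1⟩)
          · exact Or.inr (Or.inr ⟨h, lp_step h1⟩)
  · have k1 : b ∈ lp g a := key hga hg pb hba
    have k2 : a ∈ lp g b := key hgb (fun x h1 h2 => hg x h2 h1) pa hab
    have k3 : ∀ x y, y ∈ lp f x → y ∈ lp g x := by
      rintro x y ⟨s, rfl⟩
      induction s with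
      | zero => exact lp_self
      | succ s ih =>
        rw [Function.iterate_succ_apply']
        generalize f^[s] x = y at ih ⊢
        by_cases ha : y = a
        · rw [ha] at ih ⊢
          rw [← hgb]
          exact lp_step (lp_trans ih k1)
        · by_cases hb : y = b
          · rw [hb] at ih ⊢
            rw [← hga]
            exact lp_step (lp_trans ih k2)
          · rw [← hg y ha hb]
            exact lp_step ih
    rintro (h | ⟨h, h1⟩ | ⟨h, h1⟩)
    · exact k3 _ _ h
    · exact lp_trans (lp_trans (k3 _ _ h) k1) (k3 _ _ h1)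
    · exact lp_trans (lp_trans (k3 _ _ h) k2) (k3 _ _ h1)

theorem split (hga : g a = f b) (hg : ∀ x, x ≠ a → x ≠ b → g x = f x)
    (pa : ∃ p, 0 < p ∧ f^[p] a = a) (hne : a ≠ b) (hab : b ∈ lp f a) : b ∉ lp g a := by
  classical
  intro hn
  have hex : ∃ s, g^[s] a = b := hn
  obtain ⟨j, hj⟩ : ∃ j, j = Nat.find hex := ⟨_, rfl⟩
  have hjb : g^[j] a = b := by rw [hj]; exact Nat.find_spec hex
  have hmin : ∀ i < j, g^[i] a ≠ b := by
    intro i hi h
    rw [hj] at hi
    exact Nat.find_min hex hi h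
  have hj0 : j ≠ 0 := by
    intro h
    rw [h] at hjb
    exact hne hjb
  have hna : ∀ i, 0 < i → i < j → g^[i] a ≠ a := by
    intro i hi0 hi h
    apply hmin (j - i) (by omega)
    have e : j = (j - i) + i := by omega
    rw [e, Function.iterate_add_apply, h] at hjb
    exact hjb
  have h1 : ∀ i < j, g^[i + 1] a = f^[i + 1] b := by
    intro i
    induction i with
    | zero => exact fun _ => hga
    | succ i ih =>
      intro hi
      have ih := ih (by omega)
      rw [Function.iterate_succ_apply' g, Function.iterate_succ_apply' f (i + 1), ← ih]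
      exact hg _ (hna (i + 1) (by omega) hi) (hmin (i + 1) hi)
  have h2 : f^[j] b = b := by
    have := h1 (j - 1) (by omega)
    have e : j - 1 + 1 = j := by omega
    rw [e] at this
    rw [← this, hjb]
  obtain ⟨s, hs⟩ := lp_symm pa hab
  have h3 : f^[s % j] b = a := by
    rw [← Nat.mod_add_div s j, Nat.mul_comm j, Function.iterate_add_apply, iter_mul h2] at hs
    exact hs
  have h4 : s % j < j := Nat.mod_lt _ (Nat.pos_of_ne_zero hj0)
  rcases Nat.eq_zero_or_pos (s % j) with h5 | h5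
  · rw [h5] at h3
    exact hne h3.symm
  · have h6 := h1 (s % j - 1) (by omega)
    have e : s % j - 1 + 1 = s % j := by omega
    rw [e, h3] at h6
    exact hna _ h5 h4 h6

end perm

/-! ### The states of the box -/

/-- the states of the box -/
noncomputable def SS (n : ℕ) : Finset St := bxV n ×ˢ (Finset.univ : Finset Q4)

theorem mem_SS {n : ℕ} {σ : St} : σ ∈ SS n ↔ σ.1 ∈ bxV n := by
  unfold SS
  rw [mem_product]
  exact ⟨fun h => h.1, fun h => ⟨h, mem_univ _⟩⟩

theorem ends {n : ℕ} {e : Edg} (he : e ∈ bxE n) : src e ∈ bxV n ∧ tgt e ∈ bxV n := by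
  obtain ⟨x, y, b⟩ := e
  unfold bxE at he
  unfold bxV
  cases b
  · rw [mem_RE_false] at he
    simp only [src_mk, tgt_false, mem_product, mem_Ico]
    omega
  · rw [mem_RE_true] at he
    simp only [src_mk, tgt_true, mem_product, mem_Ico]
    omega

theorem nxt_mem {n : ℕ} {F : Finset Edg} (hF : F ⊆ bxE n) {σ : St} (hσ : σ ∈ SS n) :
    nxt (↑F) σ ∈ SS n := by
  rw [mem_SS] at hσ ⊢
  by_cases h : ae σ ∈ (↑F : Set Edg)
  · rw [nxt_open h]
    have h1 := ends (hF (Finset.mem_coe.1 h))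
    rcases p2_ends σ with h2 | h2
    · rw [← h2.2]
      exact h1.2
    · rw [← h2.1]
      exact h1.1
  · rw [nxt_closed h, p2_rt_fst]
    exact hσ

theorem orb_mem {n : ℕ} {F : Finset Edg} (hF : F ⊆ bxE n) {σ : St} (hσ : σ ∈ SS n) (s : ℕ) :
    orb (↑F) σ s ∈ SS n := by
  induction s with
  | zero => exact hσ
  | succ s ih =>
    rw [orb_succ]
    exact nxt_mem hF ih

theorem clo {n : ℕ} {F : Finset Edg} (hF : F ⊆ bxE n) {σ : St} (hσ : σ ∈ SS n) :
    Closed (↑F) σ :=
  closed_of_bdd (bxV n) fun s => mem_SS.1 (orb_mem hF hσ s)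

/-- the relation of belonging to the same loop -/
def rl (F : Finset Edg) (σ τ : St) : Prop := τ ∈ loop (↑F : Set Edg) σ

theorem rl_eqOn {n : ℕ} {F : Finset Edg} (hF : F ⊆ bxE n) : EqOn (SS n) (rl F) where
  refl σ _ := self_mem_loop _ σ
  symm σ hσ τ _ h := by
    have h1 := (loop_eq (clo hF hσ) h).1
    change σ ∈ loop (↑F : Set Edg) τ
    rw [h1]
    exact self_mem_loop _ σ
  trans σ hσ τ hτ ρ _ h h' := by
    have h1 := (loop_eq (clo hF hσ) h).1
    change ρ ∈ loop (↑F : Set Edg) σ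
    rw [← h1]
    exact h'

theorem sum_eq {n : ℕ} {F : Finset Edg} (hF : F ⊆ bxE n) :
    ∑ σ ∈ SS n, ((loop (↑F : Set Edg) σ).ncard : ℝ)⁻¹ = NS (SS n) (rl F) := by
  classical
  unfold NS
  refine sum_congr rfl fun σ hσ => ?_
  have e : loop (↑F : Set Edg) σ = ↑((SS n).filter (fun τ => rl F σ τ)) := by
    ext τ
    rw [Finset.mem_coe, mem_filter]
    constructor
    · intro h
      refine ⟨?_, h⟩
      obtain ⟨s, rfl⟩ := h
      exact orb_mem hF hσ s
    · exact fun h => h.2
  rw [e, Set.ncard_coe_finset]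

theorem reach_eqOn {n : ℕ} (F : Set Edg) : EqOn (bxV n) (Reach F) where
  refl v _ := Reach.refl F v
  symm _ _ _ _ h := h.symm
  trans _ _ _ _ _ _ h h' := h.trans h'

theorem ncl_eq (n : ℕ) (F : Set Edg) : (ncl n F : ℝ) = NS (bxV n) (Reach F) := by
  unfold ncl
  exact count (reach_eqOn F)

/-! ### Adding an edge -/

theorem reach_ins (F : Set Edg) (e : Edg) (u v : Vtx) :
    Reach (insert e F) u v ↔ Reach F u v ∨ (Reach F u (src e) ∧ Reach F (tgt e) v) ∨
      (Reach F u (tgt e) ∧ Reach F (src e) v) := by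
  constructor
  · intro h
    induction h with
    | refl => exact Or.inl (Reach.refl _ _)
    | tail _ hs ih =>
      obtain ⟨e', he', hee⟩ := hs
      rcases he' with he' | he'
      · rw [he'] at hee
        rcases hee with ⟨h1, h2⟩ | ⟨h1, h2⟩
        · rw [← h1] at ih
          rw [← h2]
          rcases ih with h | ⟨h, -⟩ | ⟨h, -⟩
          · exact Or.inr (Or.inl ⟨h, Reach.refl _ _⟩)
          · exact Or.inr (Or.inl ⟨h, Reach.refl _ _⟩)
          · exact Or.inl h
        · rw [← h2] at ih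
          rw [← h1]
          rcases ih with h | ⟨h, -⟩ | ⟨h, -⟩
          · exact Or.inr (Or.inr ⟨h, Reach.refl _ _⟩)
          · exact Or.inl h
          · exact Or.inr (Or.inr ⟨h, Reach.refl _ _⟩)
      · have h1 := Adj.reach (F := F) ⟨e', he', hee⟩
        rcases ih with h | ⟨h, h2⟩ | ⟨h, h2⟩
        · exact Or.inl (h.trans h1)
        · exact Or.inr (Or.inl ⟨h, h2.trans h1⟩)
        · exact Or.inr (Or.inr ⟨h, h2.trans h1⟩)
  · have hm : F ⊆ insert e F := Set.subset_insert e F
    have he : Reach (insert e F) (src e) (tgt e) :=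
      Adj.reach ⟨e, Set.mem_insert e F, Or.inl ⟨rfl, rfl⟩⟩
    rintro (h | ⟨h, h2⟩ | ⟨h, h2⟩)
    · exact h.mono hm
    · exact ((h.mono hm).trans he).trans (h2.mono hm)
    · exact ((h.mono hm).trans he.symm).trans (h2.mono hm)

/-- the two states which examine an edge -/
theorem two (e : Edg) : ∃ a b : St, ae a = e ∧ ae b = e ∧ a ≠ b ∧
    (∀ σ, ae σ = e → σ = a ∨ σ = b) ∧ mv a = rt b ∧ mv b = rt a ∧ a.1 = src e ∧ b.1 = tgt e ∧
    ((dsrc e = face a ∧ dtgt e = face b) ∨ (dsrc e = face b ∧ dtgt e = face a)) := by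
  obtain ⟨x, y, c⟩ := e
  cases c
  · refine ⟨((x, y), .nw), ((x, y + 1), .se), ?_, ?_, ?_, ?_, ?_, ?_, ?_, ?_, ?_⟩
    · simp
    · simp
    · simp
    · rintro ⟨⟨x', y'⟩, k⟩ h
      cases k <;> simp only [ae_ne, ae_nw, ae_sw, ae_se, Prod.mk.injEq, reduceCtorEq, and_false,
        and_true] at h
      · left
        rw [h.1, h.2]
      · right
        have h1 := h.1
        have h2 : y' = y + 1 := by omega
        rw [h1, h2]
    · simp
    · simp
    · simp
    · simp
    · left
      simp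
  · refine ⟨((x, y), .ne), ((x + 1, y), .sw), ?_, ?_, ?_, ?_, ?_, ?_, ?_, ?_, ?_⟩
    · simp
    · simp
    · simp
    · rintro ⟨⟨x', y'⟩, k⟩ h
      cases k <;> simp only [ae_ne, ae_nw, ae_sw, ae_se, Prod.mk.injEq, reduceCtorEq, and_false,
        and_true] at h
      · left
        rw [h.1, h.2]
      · right
        have h1 := h.2
        have h2 : x' = x + 1 := by omega
        rw [h1, h2]
    · simp
    · simp
    · simp
    · simp
    · right
      simp

theorem step {n : ℕ} {F : Finset Edg} {e : Edg} (hF : insert e F ⊆ bxE n) (he : e ∉ F) :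
    (Reach (↑F) (src e) (tgt e) ∧ NS (SS n) (rl (insert e F)) = NS (SS n) (rl F) + 1 ∧
      NS (bxV n) (Reach (↑(insert e F))) = NS (bxV n) (Reach (↑F))) ∨
    (NS (SS n) (rl (insert e F)) = NS (SS n) (rl F) - 1 ∧
      NS (bxV n) (Reach (↑(insert e F))) = NS (bxV n) (Reach (↑F)) - 1) := by
  have hFF : F ⊆ bxE n := (subset_insert e F).trans hF
  have heE : e ∈ bxE n := hF (mem_insert_self e F)
  have hen := ends heE
  obtain ⟨a, b, hae, hbe, hne, hall, hmab, hmba, ha1, hb1, hfc⟩ := two e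
  have haS : a ∈ SS n := mem_SS.2 (ha1 ▸ hen.1)
  have hbS : b ∈ SS n := mem_SS.2 (hb1 ▸ hen.2)
  have heF : e ∉ (↑F : Set Edg) := fun h => he (Finset.mem_coe.1 h)
  have heF' : e ∈ (↑(insert e F) : Set Edg) := Finset.mem_coe.2 (mem_insert_self e F)
  have ga : nxt (↑(insert e F)) a = nxt (↑F) b := by
    rw [nxt_open (hae ▸ heF'), nxt_closed (hbe ▸ heF), hmab]
  have gb : nxt (↑(insert e F)) b = nxt (↑F) a := by
    rw [nxt_open (hbe ▸ heF'), nxt_closed (hae ▸ heF), hmba]
  have gg : ∀ σ, σ ≠ a → σ ≠ b → nxt (↑(insert e F)) σ = nxt (↑F) σ := by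
    intro σ h1 h2
    have h3 : ae σ ≠ e := fun h => (hall σ h).elim h1 h2
    by_cases h4 : ae σ ∈ (↑F : Set Edg)
    · rw [nxt_open h4, nxt_open (Finset.mem_coe.2 (mem_insert_of_mem (Finset.mem_coe.1 h4)))]
    · rw [nxt_closed h4, nxt_closed (fun h5 => h4 (Finset.mem_coe.2
        ((mem_insert.1 (Finset.mem_coe.1 h5)).resolve_left h3)))]
  have hco : (↑(insert e F) : Set Edg) = insert e (↑F : Set Edg) := Finset.coe_insert e F
  by_cases hr : Reach (↑F) (src e) (tgt e)
  · left
    have hab : b ∈ lp (nxt (↑F)) a := by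
      have : b ∈ loop (↑F : Set Edg) a := by
        rw [mem_loop (clo hFF haS)]
        refine ⟨by rw [ha1, hb1]; exact hr, DAdj.reach ⟨e, heF, hfc⟩⟩
      exact this
    have hab' : b ∉ lp (nxt (↑(insert e F))) a := split ga gg (clo hFF haS) hne hab
    refine ⟨hr, ?_, ?_⟩
    · have h1 := merge (r := rl (insert e F)) (r' := rl F) (rl_eqOn hF) haS hbS hab'
        (fun σ _ τ _ => mem_iff gb.symm ga.symm (fun x h1 h2 => (gg x h1 h2).symm)
          (clo hF haS) (clo hF hbS) hab' σ τ)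
      linarith
    · have h2 : ∀ u v, Reach (↑(insert e F)) u v ↔ Reach (↑F) u v := by
        intro u v
        rw [hco, reach_ins]
        constructor
        · rintro (h | ⟨h, h2⟩ | ⟨h, h2⟩)
          · exact h
          · exact (h.trans hr).trans h2
          · exact (h.trans hr.symm).trans h2
        · exact Or.inl
      have h3 : Reach (↑(insert e F) : Set Edg) = Reach (↑F : Set Edg) := by
        funext u v
        exact propext (h2 u v)
      rw [h3]
  · right
    have hab : b ∉ lp (nxt (↑F)) a := by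
      intro h
      have h1 : b ∈ loop (↑F : Set Edg) a := h
      rw [mem_loop (clo hFF haS), ha1, hb1] at h1
      exact hr h1.1
    constructor
    · exact merge (r := rl F) (r' := rl (insert e F)) (rl_eqOn hFF) haS hbS hab
        (fun σ _ τ _ => mem_iff ga gb gg (clo hFF haS) (clo hFF hbS) hab σ τ)
    · exact merge (r := Reach (↑F)) (r' := Reach (↑(insert e F))) (reach_eqOn _) hen.1 hen.2 hr
        (fun u _ v _ => by rw [hco]; exact reach_ins _ e u v)

/-! ### The empty configuration -/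

theorem card_bxV (n : ℕ) : ((bxV n).card : ℝ) = (n : ℝ) ^ 2 := by
  unfold bxV
  rw [card_product, Int.card_Ico]
  simp
  ring

theorem reach_empty {u v : Vtx} (h : Reach (∅ : Set Edg) u v) : u = v := by
  induction h with
  | refl => rfl
  | tail _ hs _ =>
    obtain ⟨e, he, -⟩ := hs
    exact absurd he (Set.notMem_empty e)

theorem base1 (n : ℕ) : NS (bxV n) (Reach (∅ : Set Edg)) = (n : ℝ) ^ 2 := by
  classical
  unfold NS
  rw [← card_bxV, card_eq_sum_ones, Nat.cast_sum]
  refine sum_congr rfl fun v hv => ?_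
  have e : (bxV n).filter (fun w => Reach (∅ : Set Edg) v w) = {v} := by
    ext w
    rw [mem_filter, mem_singleton]
    constructor
    · exact fun h => (reach_empty h.2).symm
    · intro h
      rw [h]
      exact ⟨hv, Reach.refl _ _⟩
  rw [e, card_singleton, Nat.cast_one, inv_one]

theorem loop_empty (σ τ : St) : τ ∈ loop (∅ : Set Edg) σ ↔ τ.1 = σ.1 := by
  have hn : ∀ ρ, nxt (∅ : Set Edg) ρ = rt ρ := fun ρ => nxt_closed (Set.notMem_empty _)
  constructor
  · rintro ⟨s, rfl⟩
    induction s with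
    | zero => rfl
    | succ s ih => rw [orb_succ, hn, p2_rt_fst, ih]
  · intro h
    obtain ⟨v, q⟩ := σ
    obtain ⟨w, q'⟩ := τ
    have h' : w = v := h
    rw [h']
    have o1 : orb (∅ : Set Edg) (v, q) 1 = rt (v, q) := by rw [orb_succ, orb_zero, hn]
    have o2 : orb (∅ : Set Edg) (v, q) 2 = rt (rt (v, q)) := by rw [orb_succ, o1, hn]
    have o3 : orb (∅ : Set Edg) (v, q) 3 = rt (rt (rt (v, q))) := by rw [orb_succ, o2, hn]
    have key : (v, q') = (v, q) ∨ (v, q') = rt (v, q) ∨ (v, q') = rt (rt (v, q)) ∨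
        (v, q') = rt (rt (rt (v, q))) := by
      cases q <;> cases q' <;> simp
    rcases key with h1 | h1 | h1 | h1
    · exact ⟨0, h1.symm⟩
    · exact ⟨1, o1.trans h1.symm⟩
    · exact ⟨2, o2.trans h1.symm⟩
    · exact ⟨3, o3.trans h1.symm⟩

theorem base2 (n : ℕ) : NS (SS n) (rl ∅) = (n : ℝ) ^ 2 := by
  classical
  unfold NS
  have e : ∀ σ ∈ SS n, (((SS n).filter (fun τ => rl ∅ σ τ)).card : ℝ)⁻¹ = 4⁻¹ := by
    intro σ hσ
    have e1 : (SS n).filter (fun τ => rl ∅ σ τ) = ({σ.1} : Finset Vtx) ×ˢ (univ : Finset Q4) := by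
      ext τ
      rw [mem_filter, mem_product, mem_singleton]
      unfold rl
      rw [Finset.coe_empty, loop_empty]
      constructor
      · exact fun h => ⟨h.2, mem_univ _⟩
      · intro h
        refine ⟨?_, h.1⟩
        rw [mem_SS, h.1]
        exact mem_SS.1 hσ
    rw [e1, card_product, card_singleton, one_mul]
    have e2 : (univ : Finset Q4).card = 4 := rfl
    rw [e2]
    norm_num
  rw [sum_congr rfl e, sum_const, nsmul_eq_mul]
  unfold SS
  rw [card_product]
  have e2 : (univ : Finset Q4).card = 4 := rfl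
  rw [e2, ← card_bxV]
  push_cast
  ring

end Eul

open Eul in
theorem eul : S_eul := by
  intro n F hF
  have h1 := sum_eq hF
  have h0 : ∑ σ ∈ bxV n ×ˢ (Finset.univ : Finset Q4), ((loop (↑F : Set Edg) σ).ncard : ℝ)⁻¹ =
      ∑ σ ∈ SS n, ((loop (↑F : Set Edg) σ).ncard : ℝ)⁻¹ := rfl
  rw [h0, h1, ncl_eq]
  clear h0 h1
  induction F using Finset.induction_on with
  | empty =>
    rw [base2, Finset.coe_empty, base1, card_empty, Nat.cast_zero]
    ring
  | insert e F he ih =>
    have ih := ih ((subset_insert e F).trans hF)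
    rw [card_insert_of_notMem he]
    push_cast
    rcases step hF he with ⟨-, h2, h3⟩ | ⟨h2, h3⟩
    · rw [Finset.coe_insert] at h3
      rw [h2, h3, ih]
      ring
    · rw [Finset.coe_insert] at h3
      rw [h2, h3, ih]
      ring

end H953L
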