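import Pool.Agent.H953.OL.Stm2

/-!
The lower bound for the diameter in finite volume.
-/

set_option autoImplicit false

namespace H953L

open H974 Finset H12S H342P H984P MeasureTheory
open Pool.Agent.Y993.LL (sd tS tS_face rM_sdiff dreach_rM)

theorem fc_ok {q : ℝ} (h0 : 0 ≤ q) (h1 : q ≤ 1) : Ok (fun _ : Edg => q) := fun _ => ⟨h0, h1⟩

theorem fc_rot {S F : Finset Edg} {σ : St} {m : ℤ} (h : Fc S F σ m) :
    Fc (rM S) (rM F) (rS σ) m := by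
  obtain ⟨τ, h1, h2, h3⟩ := h
  refine ⟨rS τ, ?_, rot_reach.2 h2, ?_⟩
  · refine h1.trans (le_of_eq ?_)
    unfold sd
    simp only [rS, rV, Equiv.coe_fn_mk]
    have e : -σ.1.2 - -τ.1.2 = -(σ.1.2 - τ.1.2) := by ring
    rw [e, abs_neg, max_comm]
  · rw [rot_face, rot_face, ← rM_sdiff]
    exact dreach_rM h3

theorem fc_trl {S F : Finset Edg} {σ : St} {m : ℤ} (s t : ℤ) (h : Fc S F σ m) :
    Fc ((trl s t).mp S) ((trl s t).mp F) (tS s t σ) m := by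
  obtain ⟨τ, h1, h2, h3⟩ := h
  refine ⟨tS s t τ, ?_, ?_, ?_⟩
  · refine h1.trans (le_of_eq ?_)
    unfold sd
    simp only [tS]
    rw [add_sub_add_right_eq_sub, add_sub_add_right_eq_sub]
  · rw [LSym.coe_mp]
    exact (trl s t).reach h2
  · rw [tS_face, tS_face, ← LSym.mp_sdiff, LSym.coe_mp]
    exact dreach_trl h3

theorem fc_all {q c : ℝ} (h0 : 0 ≤ q) (h1 : q ≤ 1) {n : ℤ} (k : Q4)
    (h : ∃ S : Finset Edg, c ≤ Pr (fun _ => q) S (fun F => Fc S F ((0, 0), k) n)) (σ : St) :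
    ∃ S : Finset Edg, c ≤ Pr (fun _ => q) S (fun F => Fc S F σ n) := by
  have rot : ∀ k : Q4,
      (∃ S : Finset Edg, c ≤ Pr (fun _ => q) S (fun F => Fc S F ((0, 0), k) n)) →
      ∃ S : Finset Edg, c ≤ Pr (fun _ => q) S (fun F => Fc S F ((0, 0), rQ k) n) := by
    rintro k ⟨S, hS⟩
    refine ⟨rM S, hS.trans ?_⟩
    rw [rot_pr]
    have e : ((((0:ℤ), (0:ℤ)), rQ k) : St) = rS ((((0:ℤ), (0:ℤ)), k) : St) := by
      simp [rS, rV]
    refine Pr_mono (fc_ok h0 h1) fun F _ h => ?_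
    rw [e]
    exact fc_rot h
  have all : ∀ k' : Q4,
      ∃ S : Finset Edg, c ≤ Pr (fun _ => q) S (fun F => Fc S F ((0, 0), k') n) := by
    have r1 := rot _ h
    have r2 := rot _ r1
    have r3 := rot _ r2
    intro k'
    cases k <;> cases k' <;> first | exact h | exact r1 | exact r2 | exact r3
  obtain ⟨⟨x, y⟩, k'⟩ := σ
  obtain ⟨S, hS⟩ := all k'
  refine ⟨(trl x y).mp S, hS.trans ?_⟩
  rw [LSym.pr]
  refine Pr_mono (fc_ok h0 h1) fun F _ h => ?_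
  have h' := fc_trl x y h
  have e : (((x, y), k') : St) = tS x y (((0:ℤ), (0:ℤ)), k') := by
    simp [tS]
  rw [e]
  exact h'

theorem fc_dldl (B : Set Edg) : dl '' (dl '' B) = (trl (-1) (-1)).φ '' B := by
  rw [Set.image_image]
  apply Set.image_congr
  rintro ⟨x, y, _ | _⟩ _
  · simp only [dl_f, dl_t, trl_φ]; rfl
  · simp only [dl_f, dl_t, trl_φ]; rfl

/-- The opposite corner. -/
def fc_op : Q4 → Q4
  | .ne => .sw
  | .nw => .se
  | .sw => .ne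
  | .se => .nw

theorem fc_face (τ : St) : face (face τ, fc_op τ.2) = (trl (-1) (-1)).ψ τ.1 := by
  obtain ⟨⟨x, y⟩, k⟩ := τ
  cases k <;> (apply Prod.ext <;> simp only [fc_op, face, trl_ψ] <;> omega)

theorem fc_dual {S F : Finset Edg} (hF : F ⊆ S) {m : ℤ} (h : Fc S F s0 (m + 1)) :
    Fc (dmp S) (dmp (S \ F)) ((0, 0), .sw) m := by
  obtain ⟨τ, h1, h2, h3⟩ := h
  refine ⟨(face τ, fc_op τ.2), ?_, ?_, ?_⟩
  · obtain ⟨⟨x, y⟩, k⟩ := τ
    unfold sd s0 at h1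
    unfold sd
    rw [le_max_iff, le_abs, le_abs] at h1 ⊢
    cases k <;> (simp only [face] at h1 ⊢; omega)
  · rw [coe_dmp, reach_dl]
    exact h3
  · have e1 : dmp S \ dmp (S \ F) = dmp F := by
      ext e
      rw [Finset.mem_sdiff, mem_dmp, mem_dmp, mem_dmp, Finset.mem_sdiff]
      constructor
      · rintro ⟨g1, g2⟩
        by_contra g3
        exact g2 ⟨g1, g3⟩
      · intro g
        exact ⟨hF g, fun g' => g'.2 g⟩
    rw [e1, fc_face, ← reach_dl, coe_dmp, fc_dldl]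
    have h4 := (trl (-1) (-1)).reach h2
    exact h4

/-- The choice of the scale. -/
theorem fc_scale {β t : ℝ} (hβ : 0 < β) (ht : 0 ≤ t) {n : ℕ} (hn : 1 ≤ n) :
    ∃ a : ℕ, 1 ≤ a ∧ a ≤ n ∧ (t ≤ β * (a:ℝ) ^ (-(3/4) : ℝ) ∨ a = 1) ∧
      (n:ℝ) / a ≤ 1 + 2 * (n * (β ^ (-(4/3) : ℝ) * t ^ (4/3 : ℝ))) := by
  have hn1 : (1:ℝ) ≤ n := by exact_mod_cast hn
  have hn0 : (0:ℝ) < n := by linarith
  by_cases h : t ≤ β * (n:ℝ) ^ (-(3/4) : ℝ)
  · refine ⟨n, hn, le_rfl, Or.inl h, ?_⟩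
    rw [div_self hn0.ne']
    have : 0 ≤ 2 * ((n:ℝ) * (β ^ (-(4/3) : ℝ) * t ^ (4/3 : ℝ))) := by positivity
    linarith
  · rw [not_le] at h
    have ht0 : 0 < t := lt_trans (by positivity) h
    obtain ⟨x, hx⟩ : ∃ x : ℝ, x = (β / t) ^ (4/3 : ℝ) := ⟨_, rfl⟩
    have hbt : 0 < β / t := div_pos hβ ht0
    have hx0 : 0 < x := by
      rw [hx]
      positivity
    have hx34 : x ^ (3/4 : ℝ) = β / t := by
      rw [hx, ← Real.rpow_mul hbt.le]
      norm_num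
    have hxinv : x⁻¹ = β ^ (-(4/3) : ℝ) * t ^ (4/3 : ℝ) := by
      rw [hx, Real.div_rpow hβ.le ht0.le, inv_div, Real.rpow_neg hβ.le]
      field_simp
    have hxn : x < n := by
      have h1 : β / t < (n:ℝ) ^ (3/4 : ℝ) := by
        rw [div_lt_iff₀ ht0]
        have h2 : (n:ℝ) ^ (3/4 : ℝ) * (n:ℝ) ^ (-(3/4) : ℝ) = 1 := by
          rw [← Real.rpow_add hn0]
          norm_num
        have h3 : (0:ℝ) < (n:ℝ) ^ (3/4 : ℝ) := by positivity
        calc β = (n:ℝ) ^ (3/4 : ℝ) * (β * (n:ℝ) ^ (-(3/4) : ℝ)) := by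
              rw [mul_left_comm, h2, mul_one]
          _ < _ := mul_lt_mul_of_pos_left h h3
      have h4 : x < ((n:ℝ) ^ (3/4 : ℝ)) ^ (4/3 : ℝ) := by
        rw [hx]
        exact Real.rpow_lt_rpow hbt.le h1 (by norm_num)
      have h5 : ((n:ℝ) ^ (3/4 : ℝ)) ^ (4/3 : ℝ) = n := by
        rw [← Real.rpow_mul hn0.le]
        norm_num
      rwa [h5] at h4
    by_cases hx1 : 1 ≤ x
    · have ha1 : 1 ≤ ⌊x⌋₊ := Nat.le_floor (by exact_mod_cast hx1)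
      have hax : (⌊x⌋₊ : ℝ) ≤ x := Nat.floor_le hx0.le
      have hxa : x < (⌊x⌋₊ : ℝ) + 1 := Nat.lt_floor_add_one x
      generalize ⌊x⌋₊ = a at ha1 hax hxa
      have ha1' : (1:ℝ) ≤ a := by exact_mod_cast ha1
      have ha0 : (0:ℝ) < a := by linarith
      refine ⟨a, ha1, ?_, Or.inl ?_, ?_⟩
      · have : (a:ℝ) < n := lt_of_le_of_lt hax hxn
        exact_mod_cast this.le
      · have h1 : (a:ℝ) ^ (3/4 : ℝ) ≤ β / t := by
          rw [← hx34]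
          exact Real.rpow_le_rpow ha0.le hax (by norm_num)
        rw [le_div_iff₀ ht0] at h1
        rw [Real.rpow_neg ha0.le, ← div_eq_mul_inv, le_div_iff₀ (by positivity)]
        linarith
      · have h1 : (n:ℝ) / a ≤ 2 * (n * x⁻¹) := by
          rw [div_le_iff₀ ha0]
          have h2 : 1 ≤ 2 * x⁻¹ * a := by
            have h3 : x ≤ 2 * a := by linarith
            have h4 : x⁻¹ * x = 1 := inv_mul_cancel₀ hx0.ne'
            have h5 : 0 < x⁻¹ := inv_pos.2 hx0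
            nlinarith
          calc (n:ℝ) = n * 1 := (mul_one _).symm
            _ ≤ n * (2 * x⁻¹ * a) := mul_le_mul_of_nonneg_left h2 hn0.le
            _ = _ := by ring
        rw [hxinv] at h1
        linarith
    · rw [not_le] at hx1
      refine ⟨1, le_rfl, hn, Or.inr rfl, ?_⟩
      rw [Nat.cast_one, div_one]
      have h1 : (n:ℝ) ≤ n * x⁻¹ := by
        have h2 : 1 ≤ x⁻¹ := (one_le_inv₀ hx0).2 hx1.le
        nlinarith
      rw [hxinv] at h1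
      have : 0 ≤ (n:ℝ) * (β ^ (-(4/3) : ℝ) * t ^ (4/3 : ℝ)) := by positivity
      linarith

theorem fc_s0 (h : S_blk) : ∃ c C : ℝ, 0 < c ∧ 0 < C ∧ ∀ q : ℝ, 1/4 ≤ q → q ≤ 1/2 →
    ∀ n : ℕ, 1 ≤ n → ∃ S : Finset Edg,
    c * (n:ℝ) ^ (-(1/4) : ℝ) * Real.exp (-(C * (n * |q - 1/2| ^ (4/3 : ℝ)))) ≤
      Pr (fun _ => q) S (fun F => Fc S F s0 n) := by
  obtain ⟨c, β, hc, hc1, hβ, hb⟩ := h
  have hlog : Real.log c ≤ 0 := Real.log_nonpos hc.le hc1
  refine ⟨c ^ 3, 2 * β ^ (-(4/3) : ℝ) * (-Real.log c) + 1, by positivity, ?_, ?_⟩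
  · have : 0 ≤ 2 * β ^ (-(4/3) : ℝ) * (-Real.log c) :=
      mul_nonneg (by positivity) (by linarith)
    linarith
  intro q hq1 hq2 n hn
  have hn1 : (1:ℝ) ≤ n := by exact_mod_cast hn
  have hn0 : (0:ℝ) < n := by linarith
  have ht : |q - 1/2| = 1/2 - q := by
    rw [abs_of_nonpos (by linarith)]
    ring
  rw [ht]
  obtain ⟨t, htd⟩ : ∃ t : ℝ, t = 1/2 - q := ⟨_, rfl⟩
  have ht0 : 0 ≤ t := by
    rw [htd]
    linarith
  rw [← htd]
  obtain ⟨a, ha1, han, hNc, hna⟩ := fc_scale hβ ht0 hn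
  have ha1' : (1:ℝ) ≤ a := by exact_mod_cast ha1
  have ha0 : (0:ℝ) < a := by linarith
  have hda : (0:ℝ) < (n:ℝ) / a := div_pos hn0 ha0
  have hK1 : 1 ≤ ⌈(n:ℝ) / a⌉₊ := Nat.one_le_iff_ne_zero.2 (Nat.ceil_pos.2 hda).ne'
  have hK2 : (n:ℝ) / a ≤ ⌈(n:ℝ) / a⌉₊ := Nat.le_ceil _
  have hK3 : (⌈(n:ℝ) / a⌉₊ : ℝ) < (n:ℝ) / a + 1 := Nat.ceil_lt_add_one hda.le
  generalize ⌈(n:ℝ) / a⌉₊ = K at hK1 hK2 hK3
  have hnaK : n ≤ a * K := by
    rw [div_le_iff₀ ha0] at hK2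
    have : (n:ℝ) ≤ ((a * K : ℕ) : ℝ) := by
      push_cast
      linarith
    exact_mod_cast this
  obtain ⟨S, hS⟩ := hb q hq1 hq2 a K ha1 hK1 (by
    unfold Nc
    rw [← htd]
    exact hNc)
  refine ⟨S, le_trans ?_ (hS.trans (Pr_mono (fc_ok (by linarith) (by linarith)) ?_))⟩
  · obtain ⟨w, hw⟩ : ∃ w : ℝ, w = n * (β ^ (-(4/3) : ℝ) * t ^ (4/3 : ℝ)) := ⟨_, rfl⟩
    have hw0 : 0 ≤ (n:ℝ) * t ^ (4/3 : ℝ) := by positivity
    rw [← hw] at hna
    have e1 : c ^ (K + 1) = Real.exp (((K + 1 : ℕ) : ℝ) * Real.log c) := by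
      rw [Real.exp_nat_mul, Real.exp_log hc]
    have e2 : c ^ 3 = Real.exp (3 * Real.log c) := by
      have : (3:ℝ) = ((3 : ℕ) : ℝ) := by norm_num
      rw [this, Real.exp_nat_mul, Real.exp_log hc]
    have h1 : c ^ 3 * Real.exp (-((2 * β ^ (-(4/3) : ℝ) * (-Real.log c) + 1) *
        (n * t ^ (4/3 : ℝ)))) ≤ c ^ (K + 1) := by
      rw [e1, e2, ← Real.exp_add]
      apply Real.exp_le_exp.2
      have h2 : (((K + 1 : ℕ) : ℝ)) ≤ 3 + 2 * w := by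
        push_cast
        linarith
      have h3 : (3 + 2 * w) * Real.log c ≤ ((K + 1 : ℕ) : ℝ) * Real.log c :=
        mul_le_mul_of_nonpos_right h2 hlog
      have h4 : -((2 * β ^ (-(4/3) : ℝ) * (-Real.log c) + 1) * (n * t ^ (4/3 : ℝ))) =
          2 * w * Real.log c - n * t ^ (4/3 : ℝ) := by
        rw [hw]
        ring
      rw [h4]
      linarith
    have h5 : (n:ℝ) ^ (-(1/4) : ℝ) ≤ (a:ℝ) ^ (-(1/4) : ℝ) :=
      Real.rpow_le_rpow_of_nonpos ha0 (by exact_mod_cast han) (by norm_num)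
    calc c ^ 3 * (n:ℝ) ^ (-(1/4) : ℝ) * Real.exp (-((2 * β ^ (-(4/3) : ℝ) * (-Real.log c) + 1) *
        (n * t ^ (4/3 : ℝ)))) = (c ^ 3 * Real.exp (-((2 * β ^ (-(4/3) : ℝ) *
          (-Real.log c) + 1) * (n * t ^ (4/3 : ℝ))))) * (n:ℝ) ^ (-(1/4) : ℝ) := by ring
      _ ≤ c ^ (K + 1) * (a:ℝ) ^ (-(1/4) : ℝ) :=
        mul_le_mul h1 h5 (by positivity) (by positivity)
  · rintro F - ⟨T, -, hCn, τ, hτ, hτ1⟩
    obtain ⟨h1, h2⟩ := hCn τ hτ
    refine ⟨τ, ?_, h1, h2⟩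
    unfold sd
    rw [le_max_iff, le_abs]
    left
    right
    have h3 : (n:ℤ) ≤ a * K := by exact_mod_cast hnaK
    have h4 : (s0.1.1 : ℤ) = 0 := rfl
    rw [h4]
    have h5 : 31 * (a:ℤ) * K = 31 * (a * K) := by ring
    have h6 : (0:ℤ) ≤ (a:ℤ) * K := by positivity
    rw [h5] at hτ1
    omega

/-- H4. The lower bound for the diameter in finite volume. -/
theorem fc (h : S_blk) : S_fc := by
  obtain ⟨c, C, hc, hC, h1⟩ := fc_s0 h
  refine ⟨c * (2:ℝ) ^ (-(1/4) : ℝ), 2 * C, by positivity, by positivity, ?_⟩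
  intro q hq1 hq2 σ n hn
  have hn1 : (1:ℝ) ≤ n := by exact_mod_cast hn
  have hn0 : (0:ℝ) < n := by linarith
  have hX : 0 ≤ |q - 1/2| ^ (4/3 : ℝ) := by positivity
  by_cases hq : q ≤ 1/2
  · obtain ⟨S, hS⟩ := h1 q hq1 hq n hn
    refine fc_all (by linarith) (by linarith) .ne ⟨S, le_trans ?_ hS⟩ σ
    have g1 : (2:ℝ) ^ (-(1/4) : ℝ) ≤ 1 :=
      Real.rpow_le_one_of_one_le_of_nonpos (by norm_num) (by norm_num)
    have g2 : Real.exp (-(2 * C * (n * |q - 1/2| ^ (4/3 : ℝ)))) ≤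
        Real.exp (-(C * (n * |q - 1/2| ^ (4/3 : ℝ)))) := by
      apply Real.exp_le_exp.2
      have : 0 ≤ C * (n * |q - 1/2| ^ (4/3 : ℝ)) := by positivity
      linarith
    refine mul_le_mul ?_ g2 (Real.exp_pos _).le (by positivity)
    refine mul_le_mul_of_nonneg_right ?_ (by positivity)
    exact mul_le_of_le_one_right hc.le g1
  · rw [not_le] at hq
    obtain ⟨S, hS⟩ := h1 (1 - q) (by linarith) (by linarith) (n + 1) (by omega)
    refine fc_all (by linarith) (by linarith) .sw ⟨dmp S, ?_⟩ σ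
    have e1 : |1 - q - 1/2| = |q - 1/2| := by
      rw [abs_sub_comm]
      congr 1
      ring
    rw [e1] at hS
    have hd := pr_dual (q := 1 - q) S (fun H => Fc (dmp S) H ((0, 0), .sw) n)
    unfold PQ at hd
    rw [show (1:ℝ) - (1 - q) = q by ring] at hd
    rw [← hd]
    refine le_trans ?_ (hS.trans (Pr_mono (fc_ok (by linarith) (by linarith)) ?_))
    · have hn2 : ((n + 1 : ℕ) : ℝ) ≤ 2 * n := by
        push_cast
        linarith
      have hn3 : (0:ℝ) < ((n + 1 : ℕ) : ℝ) := by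
        push_cast
        linarith
      have g1 : (2:ℝ) ^ (-(1/4) : ℝ) * (n:ℝ) ^ (-(1/4) : ℝ) ≤
          ((n + 1 : ℕ) : ℝ) ^ (-(1/4) : ℝ) := by
        rw [← Real.mul_rpow (by norm_num) hn0.le]
        exact Real.rpow_le_rpow_of_nonpos hn3 hn2 (by norm_num)
      have g2 : Real.exp (-(2 * C * (n * |q - 1/2| ^ (4/3 : ℝ)))) ≤
          Real.exp (-(C * (((n + 1 : ℕ) : ℝ) * |q - 1/2| ^ (4/3 : ℝ)))) := by
        apply Real.exp_le_exp.2
        have g3 : ((n + 1 : ℕ) : ℝ) * |q - 1/2| ^ (4/3 : ℝ) ≤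
            2 * n * |q - 1/2| ^ (4/3 : ℝ) := mul_le_mul_of_nonneg_right hn2 hX
        have g4 := mul_le_mul_of_nonneg_left g3 hC.le
        linarith
      refine mul_le_mul ?_ g2 (Real.exp_pos _).le (by positivity)
      rw [mul_assoc]
      exact mul_le_mul_of_nonneg_left g1 hc.le
    · intro F hF hFc
      have hFc' : Fc S F s0 ((n:ℤ) + 1) := by
        have : (((n + 1 : ℕ) : ℤ)) = (n:ℤ) + 1 := by push_cast; rfl
        rw [← this]
        exact hFc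
      exact fc_dual hF hFc'

end H953L
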