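import Pool.Agent.H953.OL.Stm2

/-!
The contribution of the long loops (`S_inv`): if the tail of `L` is of the order
`n ^ (-1/7) * exp (-n κ)` then the mean of `1 / L` on `{n ≤ L}` is of the order
`n ^ (-8/7) * exp (-n κ)`, up to constants.
-/

set_option autoImplicit false

namespace H953L

open MeasureTheory

/-- The mean of the indicator of `{k ≤ L}`. -/
theorem inv_ind {Ω : Type} [MeasurableSpace Ω] (μ : Measure Ω) [IsProbabilityMeasure μ]
    (L : Ω → ℕ) (hL : AEMeasurable L μ) (k : ℕ) :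
    Integrable (fun ω => if k ≤ L ω then (1:ℝ) else 0) μ ∧
      ∫ ω, (if k ≤ L ω then (1:ℝ) else 0) ∂μ = μ.real {ω | k ≤ L ω} := by
  have hs : NullMeasurableSet {ω | k ≤ L ω} μ :=
    hL.nullMeasurableSet_preimage (measurableSet_Ici (a := k))
  have hE : (fun ω => if k ≤ L ω then (1:ℝ) else 0) =
      Set.indicator {ω | k ≤ L ω} (fun _ => (1:ℝ)) := by
    funext ω
    simp [Set.indicator_apply]
  constructor
  · rw [hE]
    exact (integrable_const (1:ℝ)).indicator₀ hs
  · rw [hE, integral_indicator₀ hs]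
    simp

/-- The function we integrate is integrable. -/
theorem inv_int {Ω : Type} [MeasurableSpace Ω] (μ : Measure Ω) [IsProbabilityMeasure μ]
    (L : Ω → ℕ) (hL : AEMeasurable L μ) (n : ℕ) :
    Integrable (fun ω => if n ≤ L ω then ((L ω : ℝ))⁻¹ else 0) μ := by
  have hm : AEMeasurable (fun ω => if n ≤ L ω then ((L ω : ℝ))⁻¹ else 0) μ := by
    have hg : Measurable (fun j : ℕ => if n ≤ j then ((j : ℝ))⁻¹ else 0) :=
      measurable_from_top
    exact hg.comp_aemeasurable hL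
  refine Integrable.of_bound hm.aestronglyMeasurable 1 (Filter.Eventually.of_forall fun ω => ?_)
  split_ifs with h
  · rw [Real.norm_eq_abs, abs_of_nonneg (by positivity)]
    rcases Nat.eq_zero_or_pos (L ω) with h0 | h0
    · rw [h0]; simp
    · exact inv_le_one_of_one_le₀ (by exact_mod_cast h0)
  · simp

theorem inv : S_inv := by
  intro c C hc hC
  obtain ⟨M, hM⟩ := exists_nat_ge (max ((2 * C / c) ^ 7) (C / c) + 1)
  have hmax0 : 0 < C / c := by positivity
  have hA : (2 * C / c) ^ 7 ≤ (M : ℝ) := by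
    have := le_max_left ((2 * C / c) ^ 7) (C / c)
    linarith
  have hB : C / c ≤ (M : ℝ) := by
    have := le_max_right ((2 * C / c) ^ 7) (C / c)
    linarith
  have hM1 : (1 : ℝ) ≤ M := by
    have := le_max_right ((2 * C / c) ^ 7) (C / c)
    linarith
  have hM0 : (0 : ℝ) < M := by linarith
  have hMn : 1 ≤ M := by exact_mod_cast hM1
  -- the power of `M`
  have hpow : C * (M : ℝ) ^ (-(1/7) : ℝ) ≤ c / 2 := by
    have h1 : 2 * C / c ≤ (M : ℝ) ^ (1/7 : ℝ) := by
      have h2 : ((2 * C / c) ^ 7) ^ (1/7 : ℝ) ≤ (M : ℝ) ^ (1/7 : ℝ) :=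
        Real.rpow_le_rpow (by positivity) hA (by norm_num)
      have h3 : ((2 * C / c) ^ 7) ^ (1/7 : ℝ) = 2 * C / c := by
        rw [← Real.rpow_natCast, ← Real.rpow_mul (by positivity)]
        norm_num
      rwa [h3] at h2
    have h4 : (0 : ℝ) < (M : ℝ) ^ (1/7 : ℝ) := Real.rpow_pos_of_pos hM0 _
    rw [Real.rpow_neg hM0.le, ← div_eq_mul_inv, div_le_iff₀ h4]
    have h5 := mul_le_mul_of_nonneg_left h1 (by positivity : (0:ℝ) ≤ c / 2)
    have h6 : c / 2 * (2 * C / c) = C := by field_simp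
    linarith
  refine ⟨min (c / (2 * M)) c, C, lt_min (by positivity) hc, hC, ?_⟩
  intro Ω _ μ _ L κ hL hκ _ h n hn
  have hn0 : (0 : ℝ) < n := by exact_mod_cast hn
  have hP87 : (n : ℝ) ^ (-(8/7) : ℝ) = (n : ℝ) ^ (-(1/7) : ℝ) * (n : ℝ)⁻¹ := by
    rw [← Real.rpow_neg_one, ← Real.rpow_add hn0]
    norm_num
  have hX : (0 : ℝ) < (n : ℝ) ^ (-(1/7) : ℝ) := Real.rpow_pos_of_pos hn0 _
  obtain ⟨hI1, hE1⟩ := inv_ind μ L hL n
  obtain ⟨hI2, hE2⟩ := inv_ind μ L hL (M * n)
  have hf := inv_int μ L hL n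
  have hMnn : n ≤ M * n := Nat.le_mul_of_pos_left n hMn
  constructor
  · -- the lower bound
    have key : ((M * n : ℕ) : ℝ)⁻¹ * (μ.real {ω | n ≤ L ω} - μ.real {ω | M * n ≤ L ω}) ≤
        ∫ ω, (if n ≤ L ω then ((L ω : ℝ))⁻¹ else 0) ∂μ := by
      rw [← hE1, ← hE2, ← integral_sub hI1 hI2, ← integral_const_mul]
      refine integral_mono ((hI1.sub hI2).const_mul _) hf (fun ω => ?_)
      by_cases h1 : n ≤ L ω
      · by_cases h2 : M * n ≤ L ω
        · simp only [h1, h2, if_true]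
          rw [sub_self, mul_zero]
          positivity
        · simp only [h1, h2, if_true, if_false]
          rw [sub_zero, mul_one]
          have hL0 : (0 : ℝ) < L ω := by
            have : 0 < L ω := lt_of_lt_of_le hn h1
            exact_mod_cast this
          have h3 : (L ω : ℝ) ≤ ((M * n : ℕ) : ℝ) := by
            exact_mod_cast (not_le.mp h2).le
          exact inv_anti₀ hL0 h3
      · have h2 : ¬ M * n ≤ L ω := fun h' => h1 (hMnn.trans h')
        simp only [h1, h2, if_false]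
        rw [sub_self, mul_zero]
    have hlo := (h n hn).1
    have hup := (h (M * n) (le_trans hn hMnn)).2
    have hup' : μ.real {ω | M * n ≤ L ω} ≤
        c / 2 * (n : ℝ) ^ (-(1/7) : ℝ) * Real.exp (-(C * (n * κ))) := by
      refine hup.trans ?_
      have e1 : (((M * n : ℕ) : ℝ)) ^ (-(1/7) : ℝ) =
          (M : ℝ) ^ (-(1/7) : ℝ) * (n : ℝ) ^ (-(1/7) : ℝ) := by
        push_cast
        rw [Real.mul_rpow hM0.le hn0.le]
      have e2 : Real.exp (-(c * (((M * n : ℕ) : ℝ) * κ))) ≤ Real.exp (-(C * (n * κ))) := by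
        apply Real.exp_le_exp.mpr
        push_cast
        have h3 : C ≤ M * c := by
          rwa [div_le_iff₀ hc] at hB
        have h4 : C * (n * κ) ≤ M * c * (n * κ) :=
          mul_le_mul_of_nonneg_right h3 (by positivity)
        nlinarith [h4]
      rw [e1]
      calc C * ((M : ℝ) ^ (-(1/7) : ℝ) * (n : ℝ) ^ (-(1/7) : ℝ)) *
            Real.exp (-(c * (((M * n : ℕ) : ℝ) * κ)))
          = (C * (M : ℝ) ^ (-(1/7) : ℝ)) * (n : ℝ) ^ (-(1/7) : ℝ) *
            Real.exp (-(c * (((M * n : ℕ) : ℝ) * κ))) := by ring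
        _ ≤ c / 2 * (n : ℝ) ^ (-(1/7) : ℝ) * Real.exp (-(C * (n * κ))) := by
            refine mul_le_mul ?_ e2 (Real.exp_pos _).le (by positivity)
            exact mul_le_mul_of_nonneg_right hpow hX.le
    refine le_trans ?_ key
    have hd : c / 2 * (n : ℝ) ^ (-(1/7) : ℝ) * Real.exp (-(C * (n * κ))) ≤
        μ.real {ω | n ≤ L ω} - μ.real {ω | M * n ≤ L ω} := by
      have : c * (n:ℝ) ^ (-(1/7) : ℝ) * Real.exp (-(C * (n * κ))) =
          c / 2 * (n : ℝ) ^ (-(1/7) : ℝ) * Real.exp (-(C * (n * κ))) +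
          c / 2 * (n : ℝ) ^ (-(1/7) : ℝ) * Real.exp (-(C * (n * κ))) := by ring
      linarith
    calc min (c / (2 * M)) c * (n : ℝ) ^ (-(8/7) : ℝ) * Real.exp (-(C * (n * κ)))
        ≤ c / (2 * M) * (n : ℝ) ^ (-(8/7) : ℝ) * Real.exp (-(C * (n * κ))) := by
          have := min_le_left (c / (2 * M)) c
          gcongr
      _ = ((M * n : ℕ) : ℝ)⁻¹ *
            (c / 2 * (n : ℝ) ^ (-(1/7) : ℝ) * Real.exp (-(C * (n * κ)))) := by
          rw [hP87]
          push_cast
          field_simp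
      _ ≤ ((M * n : ℕ) : ℝ)⁻¹ * (μ.real {ω | n ≤ L ω} - μ.real {ω | M * n ≤ L ω}) :=
          mul_le_mul_of_nonneg_left hd (by positivity)
  · -- the upper bound
    have key : ∫ ω, (if n ≤ L ω then ((L ω : ℝ))⁻¹ else 0) ∂μ ≤
        (n : ℝ)⁻¹ * μ.real {ω | n ≤ L ω} := by
      rw [← hE1, ← integral_const_mul]
      refine integral_mono hf (hI1.const_mul _) (fun ω => ?_)
      by_cases h1 : n ≤ L ω
      · simp only [h1, if_true, mul_one]
        exact inv_anti₀ hn0 (by exact_mod_cast h1)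
      · simp only [h1, if_false, mul_zero]
        exact le_rfl
    have hup := (h n hn).2
    refine key.trans ((mul_le_mul_of_nonneg_left hup (by positivity)).trans ?_)
    have e2 : Real.exp (-(c * (n * κ))) ≤ Real.exp (-(min (c / (2 * M)) c * (n * κ))) := by
      apply Real.exp_le_exp.mpr
      have h3 : min (c / (2 * M)) c * (n * κ) ≤ c * (n * κ) :=
        mul_le_mul_of_nonneg_right (min_le_right _ _) (by positivity)
      linarith
    calc (n : ℝ)⁻¹ * (C * (n : ℝ) ^ (-(1/7) : ℝ) * Real.exp (-(c * (n * κ))))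
        = C * (n : ℝ) ^ (-(8/7) : ℝ) * Real.exp (-(c * (n * κ))) := by
          rw [hP87]; ring
      _ ≤ C * (n : ℝ) ^ (-(8/7) : ℝ) * Real.exp (-(min (c / (2 * M)) c * (n * κ))) := by
          gcongr

end H953L
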