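import Pool.Agent.H953.OL.Stm2
import Pool.Graph.R_seed8.Y993.LL.Final
import Pool.Graph.R_seed8.Y993.LL.Macro

/-!
The mean number of clusters per vertex from the interface loops.
-/

set_option autoImplicit false

namespace H953L

namespace Kap

open H974 Finset H12S H342P H984P MeasureTheory
open Pool.Agent.Y993.LL (loop Closed Conn bx sd sd_step ae_near far_iff)

/-! ### Locality -/

theorem sd_orb (F : Set Edg) (σ : St) (i : ℕ) : sd σ.1 (orb F σ i).1 ≤ i := by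
  induction i with
  | zero =>
    rw [orb_zero]
    unfold sd
    simp
  | succ i ih =>
    rw [orb_succ]
    have h1 := sd_step σ.1 F (orb F σ i)
    push_cast
    linarith

/-- A short closed loop is determined by the edges near its starting point. -/
theorem loop_local {F G : Set Edg} {σ : St} {k : ℕ} (hk : (loop F σ).ncard ≤ k)
    (hp : 0 < Function.minimalPeriod (nxt F) σ)
    (hpn : Function.minimalPeriod (nxt F) σ = (loop F σ).ncard)
    (hFG : ∀ e ∈ bx σ.1 (k + 1), (e ∈ F ↔ e ∈ G)) : loop G σ = loop F σ := by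
  have hnear : ∀ s, ae (orb F σ s) ∈ bx σ.1 (k + 1) := by
    intro s
    apply ae_near
    rw [far_iff, not_le]
    have h1 : orb F σ s = orb F σ (s % Function.minimalPeriod (nxt F) σ) := by
      unfold orb
      exact Function.iterate_mod_minimalPeriod_eq.symm
    rw [h1]
    have h2 := sd_orb F σ (s % Function.minimalPeriod (nxt F) σ)
    have h3 : s % Function.minimalPeriod (nxt F) σ < k := by
      have h4 := Nat.mod_lt s hp
      omega
    have h5 : ((s % Function.minimalPeriod (nxt F) σ : ℕ) : ℤ) < k := by exact_mod_cast h3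
    linarith
  have key : ∀ s, orb G σ s = orb F σ s := by
    intro s
    apply orb_congr (T := s) _ le_rfl
    intro e he
    rw [mem_Exm] at he
    obtain ⟨t, -, rfl⟩ := he
    exact hFG _ (hnear t)
  ext τ
  constructor
  · rintro ⟨s, rfl⟩
    exact ⟨s, (key s).symm⟩
  · rintro ⟨s, rfl⟩
    exact ⟨s, key s⟩

/-- The interior of the box. -/
def Int' (n k : ℕ) (v : Vtx) : Prop :=
  ((k:ℤ) + 1 ≤ v.1 ∧ v.1 + (k + 1) ≤ (n:ℤ) - 1) ∧ ((k:ℤ) + 1 ≤ v.2 ∧ v.2 + (k + 1) ≤ (n:ℤ) - 1)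

theorem bx_sub_bxE {n k : ℕ} {v : Vtx} (h : Int' n k v) : bx v (k + 1) ⊆ bxE n := by
  unfold Int' at h
  rintro ⟨x, y, b⟩ he
  unfold bx at he
  unfold bxE
  cases b
  · rw [mem_RE_false] at he ⊢
    omega
  · rw [mem_RE_true] at he ⊢
    omega

/-! ### Counting -/

open Classical in
theorem card_not_int (n k : ℕ) :
    ((bxV n).filter (fun v => ¬ Int' n k v)).card ≤ 4 * ((k + 1) * n) := by
  have h1 : (bxV n).filter (fun v => ¬ Int' n k v) ⊆
      ((Finset.Ico (0:ℤ) (k + 1) ×ˢ Finset.Ico (0:ℤ) n) ∪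
        (Finset.Ico ((n:ℤ) - (k + 1)) n ×ˢ Finset.Ico (0:ℤ) n)) ∪
      ((Finset.Ico (0:ℤ) n ×ˢ Finset.Ico (0:ℤ) (k + 1)) ∪
        (Finset.Ico (0:ℤ) n ×ˢ Finset.Ico ((n:ℤ) - (k + 1)) n)) := by
    rintro ⟨x, y⟩ hv
    rw [Finset.mem_filter] at hv
    obtain ⟨h1, h2⟩ := hv
    unfold bxV at h1
    unfold Int' at h2
    simp only [Finset.mem_union, Finset.mem_product, Finset.mem_Ico] at h1 h2 ⊢
    omega
  refine (Finset.card_le_card h1).trans ?_
  refine (Finset.card_union_le _ _).trans ?_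
  have h2 := Finset.card_union_le (Finset.Ico (0:ℤ) (k + 1) ×ˢ Finset.Ico (0:ℤ) n)
    (Finset.Ico ((n:ℤ) - (k + 1)) n ×ˢ Finset.Ico (0:ℤ) n)
  have h3 := Finset.card_union_le (Finset.Ico (0:ℤ) n ×ˢ Finset.Ico (0:ℤ) (k + 1))
    (Finset.Ico (0:ℤ) n ×ˢ Finset.Ico ((n:ℤ) - (k + 1)) n)
  simp only [Finset.card_product, Int.card_Ico] at h2 h3
  have e1 : ((k:ℤ) + 1 - 0).toNat = k + 1 := by omega
  have e2 : ((n:ℤ) - 0).toNat = n := by omega
  have e3 : ((n:ℤ) - ((n:ℤ) - (k + 1))).toNat = k + 1 := by omega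
  rw [e1, e2, e3] at h2 h3
  have e4 : n * (k + 1) = (k + 1) * n := Nat.mul_comm _ _
  rw [e4] at h3
  omega

theorem card_bxV (n : ℕ) : (bxV n).card = n ^ 2 := by
  unfold bxV
  rw [Finset.card_product, Int.card_Ico]
  have e2 : ((n:ℤ) - 0).toNat = n := by omega
  rw [e2]
  ring

theorem card_bxE (n : ℕ) : (bxE n).card = 2 * (n * (n - 1)) := by
  have h1 : bxE n = (Finset.Ico (0:ℤ) ((n:ℤ) - 1) ×ˢ (Finset.Icc (0:ℤ) ((n:ℤ) - 1) ×ˢ {true})) ∪
      (Finset.Icc (0:ℤ) ((n:ℤ) - 1) ×ˢ (Finset.Ico (0:ℤ) ((n:ℤ) - 1) ×ˢ {false})) := by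
    ext ⟨x, y, b⟩
    unfold bxE
    cases b
    · rw [mem_RE_false]
      simp only [Finset.mem_union, Finset.mem_product, Finset.mem_Ico, Finset.mem_Icc,
        Finset.mem_singleton, Bool.false_eq_true, and_false, false_or, and_true]
      omega
    · rw [mem_RE_true]
      simp only [Finset.mem_union, Finset.mem_product, Finset.mem_Ico, Finset.mem_Icc,
        Finset.mem_singleton, Bool.true_eq_false, and_false, or_false, and_true]
      omega
  have h2 : Disjoint (Finset.Ico (0:ℤ) ((n:ℤ) - 1) ×ˢ (Finset.Icc (0:ℤ) ((n:ℤ) - 1) ×ˢ {true}))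
      (Finset.Icc (0:ℤ) ((n:ℤ) - 1) ×ˢ (Finset.Ico (0:ℤ) ((n:ℤ) - 1) ×ˢ {false})) := by
    rw [Finset.disjoint_left]
    rintro ⟨x, y, b⟩ ha hb
    simp only [Finset.mem_product, Finset.mem_singleton] at ha hb
    rw [ha.2.2] at hb
    exact absurd hb.2.2 (by decide)
  rw [h1, Finset.card_union_of_disjoint h2]
  simp only [Finset.card_product, Int.card_Ico, Int.card_Icc, Finset.card_singleton, mul_one]
  have e1 : ((n:ℤ) - 1 - 0).toNat = n - 1 := by omega
  have e2 : ((n:ℤ) - 1 + 1 - 0).toNat = n := by omega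
  rw [e1, e2]
  ring

/-! ### Integrals -/

theorem meas_of_FF (S : Finset Edg) (g : Finset Edg → ℝ) :
    Measurable (fun ω : sqLattice.edgeSet → Bool => g (FF S ω)) :=
  fun s _ => meas_event S (fun F => g F ∈ s)

theorem int_of_FF (p : unitInterval) (S : Finset Edg) (g : Finset Edg → ℝ) :
    Integrable (fun ω => g (FF S ω)) (bondLaw p) := by
  refine Integrable.of_bound (meas_of_FF S g).aestronglyMeasurable
    (∑ F ∈ S.powerset, |g F|) (Filter.Eventually.of_forall fun ω => ?_)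
  rw [Real.norm_eq_abs]
  exact Finset.single_le_sum (f := fun F => |g F|) (fun _ _ => abs_nonneg _)
    (Finset.mem_powerset.2 (Finset.filter_subset _ _))

/-- The mean number of open edges. -/
theorem mean_card (p : unitInterval) (S : Finset Edg) :
    ∫ ω, ((FF S ω).card : ℝ) ∂(bondLaw p) = p * S.card := by
  classical
  have h1 : ∀ ω, ((FF S ω).card : ℝ) =
      ∑ e ∈ S, (if FF {e} ω = {e} then (1:ℝ) else 0) := by
    intro ω
    unfold FF
    rw [Finset.card_filter]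
    push_cast
    refine Finset.sum_congr rfl fun e _ => ?_
    refine if_congr ?_ rfl rfl
    rw [Finset.filter_eq_self]
    simp
  have h2 : ∀ e ∈ S, Integrable (fun ω => if FF {e} ω = {e} then (1:ℝ) else 0) (bondLaw p) :=
    fun e _ => int_of_FF p {e} (fun F => if F = {e} then (1:ℝ) else 0)
  rw [integral_congr_ae (Filter.Eventually.of_forall h1), integral_finsetSum _ h2]
  have h3 : ∀ e ∈ S, ∫ ω, (if FF {e} ω = {e} then (1:ℝ) else 0) ∂(bondLaw p) = p := by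
    intro e _
    have h4 : (fun ω => if FF {e} ω = {e} then (1:ℝ) else 0) =
        Set.indicator {ω | FF {e} ω = {e}} (fun _ => (1:ℝ)) := by
      funext ω
      rw [Set.indicator_apply]
      rfl
    rw [h4, integral_indicator (meas_FF _ _), setIntegral_const, smul_eq_mul, mul_one]
    have h5 := law_eq p (Finset.Subset.refl {e})
    rw [Finset.prod_singleton, Finset.sdiff_self, Finset.prod_empty, mul_one] at h5
    exact h5
  rw [Finset.sum_congr rfl h3, Finset.sum_const, nsmul_eq_mul, mul_comm]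

/-! ### The reciprocal of the length -/

/-- The reciprocal of the length of the loop. -/
noncomputable def rl (F : Set Edg) (σ : St) : ℝ := ((loop F σ).ncard : ℝ)⁻¹

theorem rl_nonneg (F : Set Edg) (σ : St) : 0 ≤ rl F σ := inv_nonneg.2 (Nat.cast_nonneg _)

theorem rl_le_one (F : Set Edg) (σ : St) : rl F σ ≤ 1 := by
  unfold rl
  rcases Nat.eq_zero_or_pos (loop F σ).ncard with h | h
  · rw [h, Nat.cast_zero, inv_zero]
    exact zero_le_one
  · exact inv_le_one_of_one_le₀ (by exact_mod_cast h)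

theorem abs_rl_sub (F G : Set Edg) (σ : St) : |rl F σ - rl G σ| ≤ 1 := by
  rw [abs_le]
  have h1 := rl_nonneg F σ
  have h2 := rl_le_one F σ
  have h3 := rl_nonneg G σ
  have h4 := rl_le_one G σ
  constructor <;> linarith

theorem mean_eq (p : unitInterval) (N N' : (sqLattice.edgeSet → Bool) → ℕ)
    (hN : AEMeasurable N (bondLaw p)) (hN' : AEMeasurable N' (bondLaw p))
    (h : ∀ n : ℕ, 1 ≤ n → (bondLaw p).real {ω | n ≤ N ω} = (bondLaw p).real {ω | n ≤ N' ω}) :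
    ∫ ω, ((N ω : ℝ))⁻¹ ∂(bondLaw p) = ∫ ω, ((N' ω : ℝ))⁻¹ ∂(bondLaw p) := by
  have h1 : (bondLaw p).map N = (bondLaw p).map N' := by
    have := Measure.isProbabilityMeasure_map hN
    refine Measure.ext_of_Ici _ _ fun n => ?_
    rw [Measure.map_apply_of_aemeasurable hN measurableSet_Ici,
      Measure.map_apply_of_aemeasurable hN' measurableSet_Ici]
    rcases Nat.eq_zero_or_pos n with h0 | h0
    · subst h0
      have e1 : N ⁻¹' Set.Ici 0 = Set.univ := by
        ext ω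
        simp
      have e2 : N' ⁻¹' Set.Ici 0 = Set.univ := by
        ext ω
        simp
      rw [e1, e2]
    · have h2 := h n h0
      have h3 : (bondLaw p).real (N ⁻¹' Set.Ici n) = (bondLaw p).real (N' ⁻¹' Set.Ici n) := h2
      exact (measureReal_eq_measureReal_iff (measure_ne_top _ _) (measure_ne_top _ _)).1 h3
  have h2 := integral_map hN (f := fun k : ℕ => ((k:ℝ))⁻¹)
    (Measurable.of_discrete.aestronglyMeasurable)
  have h3 := integral_map hN' (f := fun k : ℕ => ((k:ℝ))⁻¹)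
    (Measurable.of_discrete.aestronglyMeasurable)
  rw [← h2, ← h3, h1]

theorem int_rl (p : unitInterval) (σ : St)
    (hN : AEMeasurable (fun ω => (loop (opn ω) σ).ncard) (bondLaw p)) :
    Integrable (fun ω => rl (opn ω) σ) (bondLaw p) := by
  have h1 : AEMeasurable (fun ω => rl (opn ω) σ) (bondLaw p) :=
    (Measurable.of_discrete (f := fun k : ℕ => ((k:ℝ))⁻¹)).comp_aemeasurable hN
  refine Integrable.of_bound h1.aestronglyMeasurable 1 (Filter.Eventually.of_forall fun ω => ?_)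
  rw [Real.norm_eq_abs, abs_of_nonneg (rl_nonneg _ _)]
  exact rl_le_one _ _

/-- The comparison for the states in the interior of the box. -/
theorem diff_int (p : unitInterval) {n k : ℕ} {σ : St} (hσ : Int' n k σ.1)
    (hA : ∀ᵐ ω ∂(bondLaw p), ∀ σ : St, Closed (opn ω) σ ∧
      0 < Function.minimalPeriod (nxt (opn ω)) σ ∧
      Function.minimalPeriod (nxt (opn ω)) σ = (loop (opn ω) σ).ncard)
    (hN : AEMeasurable (fun ω => (loop (opn ω) σ).ncard) (bondLaw p)) :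
    |∫ ω, rl (↑(FF (bxE n) ω)) σ ∂(bondLaw p) - ∫ ω, rl (opn ω) σ ∂(bondLaw p)| ≤
      (bondLaw p).real {ω | k + 1 ≤ (loop (opn ω) σ).ncard} := by
  have hE : NullMeasurableSet {ω | k + 1 ≤ (loop (opn ω) σ).ncard} (bondLaw p) :=
    hN.nullMeasurableSet_preimage (measurableSet_Ici (a := k + 1))
  have i1 : Integrable (fun ω => rl (↑(FF (bxE n) ω)) σ) (bondLaw p) :=
    int_of_FF p (bxE n) (fun F => rl (↑F) σ)
  have i2 := int_rl p σ hN
  have e1 : (bondLaw p).real {ω | k + 1 ≤ (loop (opn ω) σ).ncard} =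
      ∫ ω, Set.indicator {ω | k + 1 ≤ (loop (opn ω) σ).ncard} (fun _ => (1:ℝ)) ω
        ∂(bondLaw p) := by
    rw [integral_indicator₀ hE, setIntegral_const, smul_eq_mul, mul_one]
  rw [← integral_sub i1 i2, e1]
  refine (abs_integral_le_integral_abs).trans ?_
  refine integral_mono_ae (i1.sub i2).abs ((integrable_const (1:ℝ)).indicator₀ hE) ?_
  filter_upwards [hA] with ω hω
  by_cases hk : k + 1 ≤ (loop (opn ω) σ).ncard
  · rw [Set.indicator_of_mem (show ω ∈ {ω | k + 1 ≤ (loop (opn ω) σ).ncard} from hk)]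
    exact abs_rl_sub _ _ _
  · rw [Set.indicator_of_notMem (show ω ∉ {ω | k + 1 ≤ (loop (opn ω) σ).ncard} from hk)]
    obtain ⟨-, h2, h3⟩ := hω σ
    have h4 : loop (↑(FF (bxE n) ω)) σ = loop (opn ω) σ := by
      refine loop_local (k := k) (by omega) h2 h3 fun e he => ?_
      rw [Finset.mem_coe, mem_FF]
      exact ⟨fun h => ⟨bx_sub_bxE hσ he, h⟩, fun h => h.2⟩
    have h5 : rl (↑(FF (bxE n) ω)) σ = rl (opn ω) σ := by
      unfold rl
      rw [h4]
    change |rl (↑(FF (bxE n) ω)) σ - rl (opn ω) σ| ≤ 0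
    rw [h5, sub_self, abs_zero]

theorem diff_triv (p : unitInterval) (n : ℕ) (σ : St)
    (hN : AEMeasurable (fun ω => (loop (opn ω) σ).ncard) (bondLaw p)) :
    |∫ ω, rl (↑(FF (bxE n) ω)) σ ∂(bondLaw p) - ∫ ω, rl (opn ω) σ ∂(bondLaw p)| ≤ 1 := by
  have i1 : Integrable (fun ω => rl (↑(FF (bxE n) ω)) σ) (bondLaw p) :=
    int_of_FF p (bxE n) (fun F => rl (↑F) σ)
  have i2 := int_rl p σ hN
  rw [← integral_sub i1 i2]
  refine (abs_integral_le_integral_abs).trans ?_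
  have h1 : ∫ ω, |rl (↑(FF (bxE n) ω)) σ - rl (opn ω) σ| ∂(bondLaw p) ≤
      ∫ _ω, (1:ℝ) ∂(bondLaw p) :=
    integral_mono (i1.sub i2).abs (integrable_const _) fun ω => abs_rl_sub _ _ _
  refine h1.trans (le_of_eq ?_)
  rw [integral_const, smul_eq_mul, mul_one]
  simp

/-- The sum over all states of the box. -/
theorem sum_bound (p : unitInterval) (m : ℝ) (t : ℕ → ℝ) (ht : ∀ j, 0 ≤ t j)
    (hA : ∀ᵐ ω ∂(bondLaw p), ∀ σ : St, Closed (opn ω) σ ∧
      0 < Function.minimalPeriod (nxt (opn ω)) σ ∧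
      Function.minimalPeriod (nxt (opn ω)) σ = (loop (opn ω) σ).ncard)
    (hN : ∀ σ : St, AEMeasurable (fun ω => (loop (opn ω) σ).ncard) (bondLaw p))
    (hC : ∀ (σ : St) (n : ℕ), 1 ≤ n → (bondLaw p).real {ω | n ≤ (loop (opn ω) σ).ncard} = t n)
    (hm : ∀ σ : St, ∫ ω, rl (opn ω) σ ∂(bondLaw p) = m) (n k : ℕ) :
    |∑ σ ∈ bxV n ×ˢ (Finset.univ : Finset Q4), ∫ ω, rl (↑(FF (bxE n) ω)) σ ∂(bondLaw p) -
      4 * (n:ℝ) ^ 2 * m| ≤ 4 * (n:ℝ) ^ 2 * t (k + 1) + 16 * ((k:ℝ) + 1) * n := by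
  classical
  have hcard : ((bxV n ×ˢ (Finset.univ : Finset Q4)).card : ℝ) = 4 * (n:ℝ) ^ 2 := by
    rw [Finset.card_product, card_bxV]
    have h4 : (Finset.univ : Finset Q4).card = 4 := by rfl
    rw [h4]
    push_cast
    ring
  have e1 : ∑ σ ∈ bxV n ×ˢ (Finset.univ : Finset Q4),
      ∫ ω, rl (↑(FF (bxE n) ω)) σ ∂(bondLaw p) - 4 * (n:ℝ) ^ 2 * m =
      ∑ σ ∈ bxV n ×ˢ (Finset.univ : Finset Q4),
        (∫ ω, rl (↑(FF (bxE n) ω)) σ ∂(bondLaw p) - ∫ ω, rl (opn ω) σ ∂(bondLaw p)) := by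
    rw [Finset.sum_sub_distrib, Finset.sum_congr rfl fun σ _ => hm σ, Finset.sum_const,
      nsmul_eq_mul, hcard]
  rw [e1]
  refine (Finset.abs_sum_le_sum_abs _ _).trans ?_
  have h1 : ∀ σ ∈ bxV n ×ˢ (Finset.univ : Finset Q4),
      |∫ ω, rl (↑(FF (bxE n) ω)) σ ∂(bondLaw p) - ∫ ω, rl (opn ω) σ ∂(bondLaw p)| ≤
        t (k + 1) + (if ¬ Int' n k σ.1 then (1:ℝ) else 0) := by
    intro σ _
    by_cases hσ : Int' n k σ.1
    · rw [if_neg (not_not.2 hσ), add_zero, ← hC σ (k + 1) (by omega)]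
      exact diff_int p hσ hA (hN σ)
    · rw [if_pos hσ]
      have h2 := diff_triv p n σ (hN σ)
      have h3 := ht (k + 1)
      linarith
  refine (Finset.sum_le_sum h1).trans ?_
  rw [Finset.sum_add_distrib, Finset.sum_const, nsmul_eq_mul, hcard]
  have h2 : ∑ σ ∈ bxV n ×ˢ (Finset.univ : Finset Q4), (if ¬ Int' n k σ.1 then (1:ℝ) else 0) =
      4 * (((bxV n).filter (fun v => ¬ Int' n k v)).card : ℝ) := by
    rw [Finset.sum_product]
    have h4 : ((Finset.univ : Finset Q4).card : ℝ) = 4 := by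
      have h5 : (Finset.univ : Finset Q4).card = 4 := by rfl
      rw [h5]
      norm_num
    have h3 : ∀ v ∈ bxV n, ∑ _q : Q4, (if ¬ Int' n k v then (1:ℝ) else 0) =
        4 * (if ¬ Int' n k v then (1:ℝ) else 0) := by
      intro v _
      rw [Finset.sum_const, nsmul_eq_mul, h4]
    rw [Finset.sum_congr rfl h3, ← Finset.mul_sum, Finset.sum_boole]
  rw [h2]
  have h3 : (((bxV n).filter (fun v => ¬ Int' n k v)).card : ℝ) ≤ 4 * (((k:ℝ) + 1) * n) := by
    exact_mod_cast card_not_int n k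
  linarith

end Kap

open H974 Finset H12S H342P H984P MeasureTheory
open Pool.Agent.Y993.LL (loop Closed Conn bx sd)
open Kap

theorem kap (h1 : S_eul) (h2 : S_ncl) (h3 : S_inf) (_h4 : S_clo) (_h5 : S_sym)
    (h6 : ∀ q : unitInterval, Filter.Tendsto (fun n : ℕ => Pr (fun _ => (q:ℝ)) (bx (0, 0) n)
      (fun F => Lg n s0 (↑F : Set Edg))) Filter.atTop (nhds 0)) : S_kap := by
  classical
  intro p
  obtain ⟨hA, hN, hC⟩ := h3 p (h6 p)
  have ht0 := h6 p
  obtain ⟨t, ht⟩ : ∃ t : ℕ → ℝ, t = fun n : ℕ => Pr (fun _ => (p:ℝ)) (bx (0, 0) n)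
      (fun F => Lg n s0 (↑F : Set Edg)) := ⟨_, rfl⟩
  rw [← ht] at ht0
  have hC' : ∀ (σ : St) (n : ℕ), 1 ≤ n →
      (bondLaw p).real {ω | n ≤ (loop (opn ω) σ).ncard} = t n := by
    intro σ n hn
    rw [ht]
    exact hC σ n hn
  have htn : ∀ j, 0 ≤ t j := by
    intro j
    rw [ht]
    change 0 ≤ Pr (fun _ => (p:ℝ)) (bx (0, 0) j) (fun F => Lg j s0 (↑F : Set Edg))
    rw [← law_event]
    exact measureReal_nonneg
  obtain ⟨m, hm⟩ : ∃ m : ℝ, m = ∫ ω, ((loop (opn ω) s0).ncard : ℝ)⁻¹ ∂(bondLaw p) := ⟨_, rfl⟩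
  rw [← hm]
  have hmσ : ∀ σ : St, ∫ ω, rl (opn ω) σ ∂(bondLaw p) = m := by
    intro σ
    rw [hm]
    exact mean_eq p _ _ (hN σ) (hN s0) fun n hn => by rw [hC' σ n hn, hC' s0 n hn]
  obtain ⟨Sn, hSn⟩ : ∃ Sn : ℕ → ℝ, Sn = fun n => ∑ σ ∈ bxV n ×ˢ (Finset.univ : Finset Q4),
      ∫ ω, rl (↑(FF (bxE n) ω)) σ ∂(bondLaw p) := ⟨_, rfl⟩
  have hbd : ∀ n k : ℕ, |Sn n - 4 * (n:ℝ) ^ 2 * m| ≤
      4 * (n:ℝ) ^ 2 * t (k + 1) + 16 * ((k:ℝ) + 1) * n := by
    intro n k
    rw [hSn]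
    exact sum_bound p m t htn hA hN hC' hmσ n k
  -- the limit of the sums
  have hlim : Filter.Tendsto (fun n : ℕ => Sn n / (n:ℝ) ^ 2) Filter.atTop (nhds (4 * m)) := by
    rw [Metric.tendsto_atTop]
    intro ε hε
    have h7 : ∀ᶠ j in Filter.atTop, t j < ε / 8 :=
      ht0.eventually_lt_const (by positivity)
    obtain ⟨K, hK⟩ := Filter.eventually_atTop.1 h7
    have hk : t (K + 1) < ε / 8 := hK (K + 1) (by omega)
    obtain ⟨M, hM⟩ := exists_nat_gt (16 * ((K:ℝ) + 1) / (ε / 2))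
    refine ⟨M + 1, fun n hn => ?_⟩
    have hn1 : (M:ℝ) + 1 ≤ n := by exact_mod_cast hn
    have hM0 : (0:ℝ) ≤ M := Nat.cast_nonneg M
    have hn0 : (0:ℝ) < n := by linarith
    have h8 := hbd n K
    rw [Real.dist_eq]
    have h9 : Sn n / (n:ℝ) ^ 2 - 4 * m = (Sn n - 4 * (n:ℝ) ^ 2 * m) / (n:ℝ) ^ 2 := by
      field_simp
    rw [h9, abs_div, abs_of_pos (by positivity : (0:ℝ) < (n:ℝ) ^ 2), div_lt_iff₀ (by positivity)]
    have h10 : 16 * ((K:ℝ) + 1) < ε / 2 * n := by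
      rw [div_lt_iff₀ (by positivity)] at hM
      have h11 : (M:ℝ) * (ε / 2) ≤ n * (ε / 2) :=
        mul_le_mul_of_nonneg_right (by linarith) (by positivity)
      linarith
    have h12 : 16 * ((K:ℝ) + 1) * n < ε / 2 * n * n := mul_lt_mul_of_pos_right h10 hn0
    have h13 : 4 * (n:ℝ) ^ 2 * t (K + 1) ≤ 4 * (n:ℝ) ^ 2 * (ε / 8) :=
      mul_le_mul_of_nonneg_left hk.le (by positivity)
    calc |Sn n - 4 * (n:ℝ) ^ 2 * m| ≤ 4 * (n:ℝ) ^ 2 * t (K + 1) + 16 * ((K:ℝ) + 1) * n := h8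
      _ < 4 * (n:ℝ) ^ 2 * (ε / 8) + ε / 2 * n * n := by linarith
      _ = ε * (n:ℝ) ^ 2 := by ring
  -- the mean number of clusters
  have hmean : ∀ n : ℕ, ∫ ω, (Nat.card ((openGraph ω).induce (box n)).ConnectedComponent : ℝ)
      ∂(bondLaw p) = ((n:ℝ) ^ 2 - p * ((bxE n).card : ℝ) + Sn n) / 2 := by
    intro n
    have e1 : ∀ ω : sqLattice.edgeSet → Bool,
        (Nat.card ((openGraph ω).induce (box n)).ConnectedComponent : ℝ) =
        (1 / 2) * (((n:ℝ) ^ 2 - ((FF (bxE n) ω).card : ℝ)) +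
          ∑ σ ∈ bxV n ×ˢ (Finset.univ : Finset Q4), rl (↑(FF (bxE n) ω)) σ) := by
      intro ω
      have e2 := h1 n (FF (bxE n) ω) (Finset.filter_subset _ _)
      have e3 := h2 n ω
      rw [← FF_coe] at e3
      rw [e3]
      unfold rl
      linarith
    rw [integral_congr_ae (Filter.Eventually.of_forall e1)]
    have i1 : Integrable (fun ω => ((FF (bxE n) ω).card : ℝ)) (bondLaw p) :=
      int_of_FF p (bxE n) (fun F => (F.card : ℝ))
    have i2 : ∀ σ ∈ bxV n ×ˢ (Finset.univ : Finset Q4),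
        Integrable (fun ω => rl (↑(FF (bxE n) ω)) σ) (bondLaw p) := fun σ _ =>
      int_of_FF p (bxE n) (fun F => rl (↑F) σ)
    have i3 : Integrable (fun _ : sqLattice.edgeSet → Bool => (n:ℝ) ^ 2) (bondLaw p) :=
      integrable_const _
    have e4 : ∫ ω, ∑ σ ∈ bxV n ×ˢ (Finset.univ : Finset Q4), rl (↑(FF (bxE n) ω)) σ
        ∂(bondLaw p) = Sn n := by
      rw [hSn, integral_finsetSum _ i2]
    have e5 : ∫ ω, ((n:ℝ) ^ 2 - ((FF (bxE n) ω).card : ℝ)) ∂(bondLaw p) =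
        (n:ℝ) ^ 2 - p * ((bxE n).card : ℝ) := by
      rw [integral_sub i3 i1, mean_card, integral_const]
      simp
    have i4 : Integrable (fun ω : sqLattice.edgeSet → Bool =>
        (n:ℝ) ^ 2 - ((FF (bxE n) ω).card : ℝ)) (bondLaw p) := i3.sub i1
    have i5 : Integrable (fun ω => ∑ σ ∈ bxV n ×ˢ (Finset.univ : Finset Q4),
        rl (↑(FF (bxE n) ω)) σ) (bondLaw p) := integrable_finsetSum _ i2
    rw [integral_const_mul, integral_add i4 i5, e4, e5]
    ring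
  have hfin : Filter.Tendsto (fun n : ℕ =>
      (1 - (p:ℝ) * (2 * (1 - 1 / (n:ℝ))) + Sn n / (n:ℝ) ^ 2) / 2) Filter.atTop
      (nhds ((1 - (p:ℝ) * (2 * (1 - 0)) + 4 * m) / 2)) := by
    have h7 : Filter.Tendsto (fun n : ℕ => 1 / (n:ℝ)) Filter.atTop (nhds 0) :=
      tendsto_one_div_atTop_nhds_zero_nat
    exact (((tendsto_const_nhds.sub ((((tendsto_const_nhds.sub h7).const_mul 2).const_mul
      (p:ℝ)))).add hlim).div_const 2)
  have e9 : (1 - (p:ℝ) * (2 * (1 - 0)) + 4 * m) / 2 = 1 / 2 - (p:ℝ) + 2 * m := by ring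
  rw [e9] at hfin
  refine hfin.congr' ?_
  filter_upwards [Filter.eventually_ge_atTop 1] with n hn
  rw [hmean n, card_bxE]
  have hn0 : (0:ℝ) < n := by exact_mod_cast hn
  have e10 : ((2 * (n * (n - 1)) : ℕ) : ℝ) = 2 * ((n:ℝ) * ((n:ℝ) - 1)) := by
    rw [Nat.cast_mul, Nat.cast_mul, Nat.cast_sub hn]
    norm_num
  rw [e10]
  field_simp

end H953L
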