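import Pool.Agent.H953.OL.Stm

/-!
C2: the sum of the kernel over the box (helper878, for helper953).
-/

set_option autoImplicit false
set_option maxHeartbeats 1000000

namespace H953L

open H974 Finset H12S H342P H984P
open Pool.Agent.H953 (EM im eds Vi X1c)
open Pool.Agent.NH39.W (psi dm conn)

theorem ker_lam_pos {q : ℝ} (hq : q < 1/2) : 0 < lam q := by
  unfold lam
  apply Real.rpow_pos_of_pos
  rw [abs_pos]
  intro h
  linarith

theorem ker_lam_le {q : ℝ} (q0 : 0 ≤ q) (hq : q < 1/2) : lam q ≤ 1 := by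
  unfold lam
  refine Real.rpow_le_one (abs_nonneg _) ?_ (by norm_num)
  rw [abs_le]
  constructor <;> linarith

/-- the kernel at one distance -/
theorem ker_pt {q : ℝ} (q0 : 0 ≤ q) (hq : q < 1/2) {m b : ℕ} (hm : 1 ≤ m) (hb : b < 2 * m + 1) :
    ((b:ℝ) + 1) * Kf (uu q) (gg q) (ee q) m b ≤
      4752 * lam q ^ (-(3/4) : ℝ) * (1 / (1 + lam q * ((b:ℝ) + 1)) ^ 2) := by
  obtain ⟨l, hl⟩ : ∃ l : ℝ, l = lam q := ⟨_, rfl⟩
  have l0 : 0 < l := by rw [hl]; exact ker_lam_pos hq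
  have l1 : l ≤ 1 := by rw [hl]; exact ker_lam_le q0 hq
  obtain ⟨s, hs⟩ : ∃ s : ℕ, s = max 1 (min b m) := ⟨_, rfl⟩
  have hs1 : 1 ≤ s := by rw [hs]; exact le_max_left _ _
  have hs3 : b + 1 ≤ 3 * s := by omega
  obtain ⟨x, hx⟩ : ∃ x : ℝ, x = (b:ℝ) + 1 := ⟨_, rfl⟩
  have x0 : 0 < x := by rw [hx]; positivity
  have s0 : (0:ℝ) < s := by exact_mod_cast hs1
  have xs : x ≤ 3 * s := by rw [hx]; exact_mod_cast hs3
  have hu : psi (uu q) m b = (((s:ℝ)⁻¹ + l) / (1 + l)) ^ (1/4 : ℝ) := by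
    unfold psi uu
    rw [← hs, ← hl]
  have hg : psi (gg q) m b = ((1 + l) / (1 + l * s)) ^ 3 := by
    unfold psi gg
    rw [← hs, ← hl]
  have he : ee q = (l / (1 + l)) ^ (1/4 : ℝ) := by
    unfold ee
    rw [← hl]
  unfold Kf
  rw [hu, hg, he, ← hl, ← hx]
  obtain ⟨X, hX⟩ : ∃ X : ℝ, X = 1 + l * x := ⟨_, rfl⟩
  have X0 : 0 < X := by rw [hX]; positivity
  rw [← hX]
  have L1 : (0:ℝ) < 1 + l := by linarith
  -- the weights
  have g1 : ((1 + l) / (1 + l * s)) ^ 3 ≤ 216 / X ^ 3 := by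
    have h1 : (1 + l) / (1 + l * s) ≤ 6 / X := by
      rw [div_le_div_iff₀ (by positivity) X0, hX]
      have h2 : l * x ≤ 3 * (l * s) := by nlinarith
      have h3 : 0 ≤ l * x := by positivity
      nlinarith
    have h2 : (0:ℝ) ≤ (1 + l) / (1 + l * s) := by positivity
    calc ((1 + l) / (1 + l * s)) ^ 3 ≤ (6 / X) ^ 3 := pow_le_pow_left₀ h2 h1 3
      _ = 216 / X ^ 3 := by rw [div_pow]; norm_num
  have g0 : 0 ≤ ((1 + l) / (1 + l * s)) ^ 3 := by positivity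
  obtain ⟨v, hv⟩ : ∃ v : ℝ, v = (X / x) ^ (1/4 : ℝ) := ⟨_, rfl⟩
  obtain ⟨a, ha⟩ : ∃ a : ℝ, a = l ^ (1/4 : ℝ) := ⟨_, rfl⟩
  have v0 : 0 < v := by rw [hv]; positivity
  have a0 : 0 < a := by rw [ha]; positivity
  have hXx : X / x = x⁻¹ + l := by rw [hX]; field_simp
  have av : a ≤ v := by
    rw [ha, hv, hXx]
    apply Real.rpow_le_rpow l0.le _ (by norm_num)
    have : 0 < x⁻¹ := by positivity
    linarith
  have three : (3:ℝ) ^ (1/4 : ℝ) ≤ 3 := by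
    calc (3:ℝ) ^ (1/4 : ℝ) ≤ (3:ℝ) ^ (1:ℝ) :=
          Real.rpow_le_rpow_of_exponent_le (by norm_num) (by norm_num)
      _ = 3 := Real.rpow_one _
  have u1 : (((s:ℝ)⁻¹ + l) / (1 + l)) ^ (1/4 : ℝ) ≤ 3 * v := by
    have h1 : ((s:ℝ)⁻¹ + l) / (1 + l) ≤ 3 * (X / x) := by
      have h2 : (s:ℝ)⁻¹ ≤ 3 * x⁻¹ := by
        rw [inv_eq_one_div, inv_eq_one_div, mul_one_div, div_le_div_iff₀ s0 x0]
        linarith
      have h3 : ((s:ℝ)⁻¹ + l) / (1 + l) ≤ (s:ℝ)⁻¹ + l := by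
        apply div_le_self (by positivity)
        linarith
      rw [hXx]
      linarith
    calc (((s:ℝ)⁻¹ + l) / (1 + l)) ^ (1/4 : ℝ) ≤ (3 * (X / x)) ^ (1/4 : ℝ) :=
          Real.rpow_le_rpow (by positivity) h1 (by norm_num)
      _ = (3:ℝ) ^ (1/4 : ℝ) * v := by rw [Real.mul_rpow (by norm_num) (by positivity), ← hv]
      _ ≤ 3 * v := mul_le_mul_of_nonneg_right three v0.le
  have u0 : 0 < (((s:ℝ)⁻¹ + l) / (1 + l)) ^ (1/4 : ℝ) := by positivity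
  have e1 : (l / (1 + l)) ^ (1/4 : ℝ) ≤ a := by
    rw [ha]
    apply Real.rpow_le_rpow (by positivity) _ (by norm_num)
    exact div_le_self l0.le (by linarith)
  have e0 : 0 < (l / (1 + l)) ^ (1/4 : ℝ) := by positivity
  have e2 : ((l / (1 + l)) ^ (1/4 : ℝ))⁻¹ ≤ 2 * a⁻¹ := by
    have h1 : a / 2 ≤ (l / (1 + l)) ^ (1/4 : ℝ) := by
      have h2 : l / 2 ≤ l / (1 + l) := by
        apply div_le_div_of_nonneg_left l0.le L1
        linarith
      have h3 : (2:ℝ) ^ (1/4 : ℝ) ≤ 2 := by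
        calc (2:ℝ) ^ (1/4 : ℝ) ≤ (2:ℝ) ^ (1:ℝ) :=
              Real.rpow_le_rpow_of_exponent_le (by norm_num) (by norm_num)
          _ = 2 := Real.rpow_one _
      calc a / 2 ≤ a / (2:ℝ) ^ (1/4 : ℝ) :=
            div_le_div_of_nonneg_left a0.le (by positivity) h3
        _ = (l / 2) ^ (1/4 : ℝ) := by rw [Real.div_rpow l0.le (by norm_num), ← ha]
        _ ≤ _ := Real.rpow_le_rpow (by positivity) h2 (by norm_num)
    have h4 := inv_anti₀ (by positivity) h1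
    calc ((l / (1 + l)) ^ (1/4 : ℝ))⁻¹ ≤ (a / 2)⁻¹ := h4
      _ = 2 * a⁻¹ := by rw [inv_div]; ring
  obtain ⟨G, hG⟩ : ∃ G : ℝ, G = ((1 + l) / (1 + l * s)) ^ 3 := ⟨_, rfl⟩
  obtain ⟨U, hU⟩ : ∃ U : ℝ, U = (((s:ℝ)⁻¹ + l) / (1 + l)) ^ (1/4 : ℝ) := ⟨_, rfl⟩
  obtain ⟨ε, hε⟩ : ∃ ε : ℝ, ε = (l / (1 + l)) ^ (1/4 : ℝ) := ⟨_, rfl⟩
  rw [← hG] at g1 g0 ⊢
  rw [← hU] at u1 u0 ⊢
  rw [← hε] at e0 e1 e2 ⊢
  -- all three terms
  have w1 : a ≤ v ^ 2 / a := by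
    rw [le_div_iff₀ a0, sq]
    exact mul_le_mul av av a0.le v0.le
  have w2 : v ≤ v ^ 2 / a := by
    rw [le_div_iff₀ a0, sq]
    exact mul_le_mul_of_nonneg_left av v0.le
  have k1 : ε * G ≤ (v ^ 2 / a) * G :=
    mul_le_mul_of_nonneg_right (e1.trans w1) g0
  have k2 : G * U ≤ 3 * (v ^ 2 / a) * G := by
    rw [mul_comm G U]
    apply mul_le_mul_of_nonneg_right _ g0
    linarith
  have k3 : ε⁻¹ * (G * U ^ 2) ≤ 18 * (v ^ 2 / a) * G := by
    have h1 : U ^ 2 ≤ 9 * v ^ 2 := by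
      calc U ^ 2 ≤ (3 * v) ^ 2 := pow_le_pow_left₀ u0.le u1 2
        _ = 9 * v ^ 2 := by ring
    calc ε⁻¹ * (G * U ^ 2) ≤ (2 * a⁻¹) * (G * (9 * v ^ 2)) := by
          apply mul_le_mul e2 _ (by positivity) (by positivity)
          exact mul_le_mul_of_nonneg_left h1 g0
      _ = 18 * (v ^ 2 / a) * G := by
          rw [div_eq_mul_inv]
          ring
  have k4 : ε * G + G * U + ε⁻¹ * (G * U ^ 2) ≤ 22 * (v ^ 2 / a) * (216 / X ^ 3) := by
    calc ε * G + G * U + ε⁻¹ * (G * U ^ 2) ≤ 22 * (v ^ 2 / a) * G := by linarith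
      _ ≤ _ := mul_le_mul_of_nonneg_left g1 (by positivity)
  refine (mul_le_mul_of_nonneg_left k4 x0.le).trans ?_
  -- the powers
  have p1 : v ^ 2 / a = l ^ (-(3/4) : ℝ) * ((l * X / x) ^ (1/2 : ℝ)) := by
    rw [hv, ha, ← Real.rpow_natCast, ← Real.rpow_mul (by positivity), div_eq_mul_inv,
      ← Real.rpow_neg l0.le, mul_div_assoc, Real.mul_rpow l0.le (by positivity), ← mul_assoc,
      ← Real.rpow_add l0, mul_comm]
    norm_num
  have p2 : x * (l * X / x) ^ (1/2 : ℝ) ≤ X := by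
    have h1 : x = (x ^ 2) ^ (1/2 : ℝ) := by
      rw [← Real.rpow_natCast, ← Real.rpow_mul x0.le]
      norm_num
    have h2 : X = (X ^ 2) ^ (1/2 : ℝ) := by
      rw [← Real.rpow_natCast, ← Real.rpow_mul X0.le]
      norm_num
    calc x * (l * X / x) ^ (1/2 : ℝ) = (x ^ 2) ^ (1/2 : ℝ) * (l * X / x) ^ (1/2 : ℝ) := by
          rw [← h1]
      _ = (x ^ 2 * (l * X / x)) ^ (1/2 : ℝ) := by
          rw [Real.mul_rpow (by positivity) (by positivity)]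
      _ ≤ (X ^ 2) ^ (1/2 : ℝ) := by
          apply Real.rpow_le_rpow (by positivity) _ (by norm_num)
          have h3 : x ^ 2 * (l * X / x) = (l * x) * X := by field_simp
          rw [h3, sq]
          apply mul_le_mul_of_nonneg_right _ X0.le
          rw [hX]
          linarith
      _ = X := h2.symm
  rw [p1]
  have p3 : 0 < l ^ (-(3/4) : ℝ) := by positivity
  calc x * (22 * (l ^ (-(3/4) : ℝ) * (l * X / x) ^ (1/2 : ℝ)) * (216 / X ^ 3))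
      = 4752 * l ^ (-(3/4) : ℝ) * ((x * (l * X / x) ^ (1/2 : ℝ)) * (1 / X ^ 3)) := by ring
    _ ≤ 4752 * l ^ (-(3/4) : ℝ) * (X * (1 / X ^ 3)) := by
        apply mul_le_mul_of_nonneg_left _ (by positivity)
        exact mul_le_mul_of_nonneg_right p2 (by positivity)
    _ = 4752 * l ^ (-(3/4) : ℝ) * (1 / X ^ 2) := by
        congr 1
        field_simp

/-- **C2.** The sum of the kernel. -/
theorem ker : S_ker := by
  refine ⟨85536, by norm_num, ?_⟩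
  intro q q0 hq m hm z hz
  have l0 := ker_lam_pos hq
  have hnn : ∀ b, 0 ≤ Kf (uu q) (gg q) (ee q) m b := by
    intro b
    unfold Kf psi uu gg ee
    positivity
  refine (Pool.Agent.H953.sum_eds z hz (fun b => Kf (uu q) (gg q) (ee q) m b) hnn).trans ?_
  have e3 : ∀ b ∈ range (2 * m + 1), ((b:ℝ) + 1) * Kf (uu q) (gg q) (ee q) m b ≤
      4752 * lam q ^ (-(3/4) : ℝ) * (1 / (1 + lam q * ((b:ℝ) + 1)) ^ 2) := by
    intro b hb
    rw [Finset.mem_range] at hb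
    exact ker_pt q0 hq hm hb
  have e4 := Finset.sum_le_sum e3
  rw [← Finset.mul_sum] at e4
  have e5 := Pool.Agent.H953.tele l0 (2 * m + 1)
  have e6 : (lam q)⁻¹ * (1 - 1 / (1 + lam q * ((2 * m + 1 : ℕ) : ℝ))) ≤ (lam q)⁻¹ := by
    have : (0:ℝ) < 1 / (1 + lam q * ((2 * m + 1 : ℕ) : ℝ)) := by positivity
    have h1 : 0 < (lam q)⁻¹ := by positivity
    nlinarith
  have e7 : lam q ^ (-(3/4) : ℝ) * (lam q)⁻¹ = lam q ^ (-(7/4) : ℝ) := by
    rw [← Real.rpow_neg_one, ← Real.rpow_add l0]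
    norm_num
  have h7 : 0 ≤ 4752 * lam q ^ (-(3/4) : ℝ) := by positivity
  calc 18 * ∑ b ∈ range (2 * m + 1), ((b:ℝ) + 1) * Kf (uu q) (gg q) (ee q) m b
      ≤ 18 * (4752 * lam q ^ (-(3/4) : ℝ) *
        ∑ b ∈ range (2 * m + 1), 1 / (1 + lam q * ((b:ℝ) + 1)) ^ 2) := by linarith
    _ ≤ 18 * (4752 * lam q ^ (-(3/4) : ℝ) * (lam q)⁻¹) := by
        apply mul_le_mul_of_nonneg_left _ (by norm_num)
        exact mul_le_mul_of_nonneg_left (e5.trans e6) h7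
    _ = 85536 * (lam q ^ (-(3/4) : ℝ) * (lam q)⁻¹) := by ring
    _ = _ := by rw [e7]

end H953L
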