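import Pool.Agent.H953.OL.KLd

/-!
Typed version of the abstract induction over the scales (adapted from the library module
`NH39/W/Key.lean`; helper389 for helper953).
-/

set_option autoImplicit false
set_option linter.unusedSectionVars false

namespace H953L.K3

open H974 Finset
open Pool.Agent.NH39.W (psi dm conn kstp kcmp kcmp_sub mem_kcmp self_kcmp kcmp_step kcmp_far
  kcmp_ind dm_le_of' ds_le_dm' dm_mono')

/-- The weight of a component. -/
noncomputable def om {E : Type} [DecidableEq E] (ds : E → E → ℕ) (u g : ℕ → ℝ) (ε : ℝ) (N : ℕ)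
    (S : Finset E) (s : ℕ) : ℝ :=
  if dm ds S = 0 then psi u N s * psi g N s else ε * psi g N s

/-- `Gd b t τ s k S x`: there are an event and a tree on `S` with root `x`. -/
def Gd {E : Type} [DecidableEq E] [Fintype E] (ds : E → E → ℕ) (N : ℕ) (q : ℝ)
    (u g : ℕ → ℝ) (ε : ℝ) (Ds : Finset E → Finset E → Prop) (a : ℝ) (b : Prop) (t τ s k : ℕ)
    (S : Finset E) (x : E) : Prop :=
  ∃ (Ev : Finset E → Prop) (par : E → E) (rk : E → ℕ),
    (∀ F F' : Finset E, (∀ e, (∃ v ∈ S, ds e v ≤ t / 2) → (e ∈ F ↔ e ∈ F')) → (Ev F ↔ Ev F')) ∧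
    (∀ S' : Finset E, S ⊆ S' → (b ∨ (S' \ S).Nonempty) → (∀ v ∈ S, ∀ w ∈ S' \ S, t < ds v w) →
      ∀ F : Finset E, Ds S' F → Ev F) ∧
    (∀ y ∈ S, y ≠ x → par y ∈ S ∧ rk (par y) < rk y ∧ ds y (par y) ≤ τ) ∧
    Pr (fun _ => q) Finset.univ Ev ≤
      a ^ k * (∏ y ∈ S.erase x, Kf u g ε N (ds y (par y))) * om ds u g ε N S s

section
variable {E : Type} [DecidableEq E] [Fintype E] {ds : E → E → ℕ} {N : ℕ} {q : ℝ}
  {u g : ℕ → ℝ} {ε : ℝ} {Ds : Finset E → Finset E → Prop} {C W a : ℝ}

theorem kok (H : KL ds N q u g ε Ds C W) : Ok (fun _ : E => q) := fun _ => ⟨H.q0, H.q1⟩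

theorem upos (H : KL ds N q u g ε Ds C W) (s : ℕ) : 0 < psi u N s := H.up _ (le_max_left _ _)

theorem gpos (H : KL ds N q u g ε Ds C W) (s : ℕ) : 0 < psi g N s := H.gp _ (le_max_left _ _)

theorem uanti (H : KL ds N q u g ε Ds C W) {s s' : ℕ} (h : s ≤ s') : psi u N s' ≤ psi u N s := by
  unfold psi
  exact H.um _ _ (le_max_left _ _) (max_le_max le_rfl (min_le_min h le_rfl))

theorem ganti (H : KL ds N q u g ε Ds C W) {s s' : ℕ} (h : s ≤ s') : psi g N s' ≤ psi g N s := by
  unfold psi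
  exact H.gm _ _ (le_max_left _ _) (max_le_max le_rfl (min_le_min h le_rfl))

theorem udbl (H : KL ds N q u g ε Ds C W) {s s' : ℕ} (h : s ≤ s') (h2 : s' ≤ 8 * max 1 s) :
    psi u N s ≤ W * psi u N s' := by
  unfold psi
  have := H.hN
  exact H.ud _ _ (le_max_left _ _) (max_le_max le_rfl (min_le_min h le_rfl)) (by omega)

theorem gdbl (H : KL ds N q u g ε Ds C W) {s s' : ℕ} (h : s ≤ s') (h2 : s' ≤ 8 * max 1 s) :
    psi g N s ≤ W * psi g N s' := by
  unfold psi
  have := H.hN
  exact H.gd _ _ (le_max_left _ _) (max_le_max le_rfl (min_le_min h le_rfl)) (by omega)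

theorem uzero (H : KL ds N q u g ε Ds C W) : psi u N 0 = 1 := by
  unfold psi
  simp [H.u1]

theorem gzero (H : KL ds N q u g ε Ds C W) : psi g N 0 = 1 := by
  unfold psi
  simp [H.g1]

theorem pmid {f : ℕ → ℝ} {s : ℕ} (h1 : 1 ≤ s) (h2 : s ≤ N) : psi f N s = f s := by
  unfold psi
  rw [min_eq_left h2, max_eq_right h1]

theorem opos (H : KL ds N q u g ε Ds C W) (S : Finset E) (s : ℕ) : 0 < om ds u g ε N S s := by
  unfold om
  split_ifs
  · exact mul_pos (upos H s) (gpos H s)
  · exact mul_pos H.e0 (gpos H s)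

theorem oanti (H : KL ds N q u g ε Ds C W) (S : Finset E) {s s' : ℕ} (h : s ≤ s') :
    om ds u g ε N S s' ≤ om ds u g ε N S s := by
  unfold om
  split_ifs
  · exact mul_le_mul (uanti H h) (ganti H h) (gpos H _).le (upos H _).le
  · exact mul_le_mul_of_nonneg_left (ganti H h) H.e0.le

theorem odbl (H : KL ds N q u g ε Ds C W) (S : Finset E) {s s' : ℕ} (h : s ≤ s')
    (h2 : s' ≤ 8 * max 1 s) : om ds u g ε N S s ≤ W ^ 2 * om ds u g ε N S s' := by
  have hW := H.hW
  unfold om
  split_ifs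
  · calc psi u N s * psi g N s ≤ (W * psi u N s') * (W * psi g N s') :=
        mul_le_mul (udbl H h h2) (gdbl H h h2) (gpos H _).le
          (mul_nonneg (by linarith) (upos H _).le)
      _ = _ := by ring
  · have h3 := mul_le_mul_of_nonneg_left (gdbl H h h2) H.e0.le
    refine h3.trans ?_
    have h4 : 0 ≤ ε * psi g N s' := mul_nonneg H.e0.le (gpos H _).le
    have h5 : W ≤ W ^ 2 := by nlinarith
    calc ε * (W * psi g N s') = W * (ε * psi g N s') := by ring
      _ ≤ W ^ 2 * (ε * psi g N s') := mul_le_mul_of_nonneg_right h5 h4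

theorem kpos (H : KL ds N q u g ε Ds C W) (d : ℕ) : 0 < Kf u g ε N d := by
  have h1 := H.e0
  have h2 := gpos H d
  have h3 := upos H d
  unfold Kf
  positivity

theorem kzero (H : KL ds N q u g ε Ds C W) : 1 ≤ Kf u g ε N 0 := by
  have h1 := H.e0
  have h2 : 0 < ε⁻¹ := inv_pos.2 h1
  unfold Kf
  rw [uzero H, gzero H]
  nlinarith

theorem dm_union' (H : KL ds N q u g ε Ds C W) {U R : Finset E} {b c : E} {t : ℕ} (hc : c ∈ U)
    (hb : b ∈ R) (hbu : ds b c ≤ t + 1) : dm ds (U ∪ R) ≤ dm ds U + (t + 1) + dm ds R := by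
  have key : ∀ v ∈ U, ∀ w ∈ R, ds v w ≤ dm ds U + (t + 1) + dm ds R := by
    intro v hv w hw
    have h1 := H.dt v c w
    have h2 := H.dt c b w
    have h3 := ds_le_dm' (ds := ds) hv hc
    have h4 := ds_le_dm' (ds := ds) hb hw
    rw [H.dc c b] at h2
    omega
  apply dm_le_of'
  intro v hv w hw
  rw [mem_union] at hv hw
  rcases hv with hv | hv <;> rcases hw with hw | hw
  · exact (ds_le_dm' hv hw).trans (by omega)
  · exact key v hv w hw
  · rw [H.dc]
    exact key w hw v hv
  · exact (ds_le_dm' hv hw).trans (by omega)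

theorem prod_nn (H : KL ds N q u g ε Ds C W) (ha : 1 ≤ a) (k : ℕ) (S : Finset E)
    (f : E → ℕ) : 0 ≤ a ^ k * ∏ y ∈ S, Kf u g ε N (f y) :=
  mul_nonneg (pow_nonneg (by linarith) _) (Finset.prod_nonneg fun y _ => (kpos H _).le)

/-- monotonicity -/
theorem gd_mono (H : KL ds N q u g ε Ds C W) {b b' : Prop} {t τ τ' s s' k k' : ℕ} {S : Finset E}
    {x : E} (h : Gd ds N q u g ε Ds a b t τ s k S x) (hb : b' → b) (hτ : τ ≤ τ') (hs : s' ≤ s)
    (hk : k ≤ k') (ha : 1 ≤ a) : Gd ds N q u g ε Ds a b' t τ' s' k' S x := by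
  obtain ⟨Ev, par, rk, h1, h2, h3, h4⟩ := h
  refine ⟨Ev, par, rk, h1, fun S' hS' hbn => h2 S' hS' (hbn.imp_left hb), fun y hy hx => ?_,
    h4.trans ?_⟩
  · obtain ⟨e1, e2, e3⟩ := h3 y hy hx
    exact ⟨e1, e2, e3.trans hτ⟩
  · refine mul_le_mul ?_ (oanti H S hs) (opos H _ _).le (prod_nn H ha _ _ _)
    refine mul_le_mul_of_nonneg_right ?_ (Finset.prod_nonneg fun _ _ => (kpos H _).le)
    exact pow_le_pow_right₀ ha hk

/-- comparison of the bounds -/
theorem step (H : KL ds N q u g ε Ds C W) {P : ℝ} {k : ℕ} {S : Finset E} {f : E → ℕ}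
    {A B : ℝ} (ha : 1 ≤ a) (h : P ≤ a ^ k * (∏ y ∈ S, Kf u g ε N (f y)) * A)
    (h2 : A ≤ a * B) :
    P ≤ a ^ (k + 1) * (∏ y ∈ S, Kf u g ε N (f y)) * B := by
  refine h.trans ?_
  calc a ^ k * (∏ y ∈ S, Kf u g ε N (f y)) * A
      ≤ a ^ k * (∏ y ∈ S, Kf u g ε N (f y)) * (a * B) :=
        mul_le_mul_of_nonneg_left h2 (prod_nn H ha _ _ _)
    _ = _ := by rw [pow_succ]; ring

/-- BASE -/
theorem gd_base (H : KL ds N q u g ε Ds C W) (ha : C * W ^ 4 ≤ a) {t' : ℕ} {S : Finset E} {x : E}
    (ht' : t' ≤ N) (hx : x ∈ S) (hall : ∀ y ∈ S, ds y x = 0) :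
    Gd ds N q u g ε Ds a False t' 0 (max t' (dm ds S)) 1 S x := by
  have hC := H.hC
  have hW := H.hW
  have hW4 : 1 ≤ W ^ 4 := one_le_pow₀ hW
  have hCW : 1 ≤ C * W ^ 4 := one_le_mul_of_one_le_of_one_le hC hW4
  have ha0 : 0 ≤ a := by linarith
  have hdm : dm ds S = 0 := by
    apply Nat.le_zero.mp
    apply dm_le_of'
    intro y hy v hv
    have h1 := H.dt y x v
    rw [H.dc x v, hall y hy, hall v hv] at h1
    exact h1
  have hom : ∀ s, om ds u g ε N S s = psi u N s * psi g N s := fun s => if_pos hdm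
  rw [hdm, max_eq_left (Nat.zero_le _)]
  have hprod : 1 ≤ ∏ y ∈ S.erase x, Kf u g ε N (ds y ((fun _ => x) y)) := by
    refine Finset.prod_induction _ (fun x : ℝ => 1 ≤ x)
      (fun x y hx hy => one_le_mul_of_one_le_of_one_le hx hy) le_rfl (fun y hy => ?_)
    simp only [hall y (Finset.mem_of_mem_erase hy)]
    exact kzero H
  have hfin : ∀ P A : ℝ, 0 ≤ A → P ≤ a * A →
      P ≤ a ^ 1 * (∏ y ∈ S.erase x, Kf u g ε N (ds y ((fun _ => x) y))) * A := by
    intro P A hA hP
    refine hP.trans ?_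
    rw [pow_one]
    refine mul_le_mul_of_nonneg_right ?_ hA
    exact le_mul_of_one_le_right ha0 hprod
  have htree : ∀ y ∈ S, y ≠ x → (fun _ => x) y ∈ S ∧
      (fun y => if y = x then 0 else 1) ((fun _ => x) y) < (fun y => if y = x then 0 else 1) y ∧
      ds y ((fun _ => x) y) ≤ 0 := by
    intro y hy hyx
    refine ⟨hx, ?_, (hall y hy).le⟩
    simp [hyx]
  by_cases hD : 1 ≤ t' / 2
  · obtain ⟨Ch, hloc, himp, hpr⟩ := H.pt x (t' / 2) hD (by omega)
    refine ⟨Ch, fun _ => x, fun y => if y = x then 0 else 1, ?_, ?_, htree, ?_⟩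
    · intro F F' hFF
      exact hloc F F' fun e he => hFF e ⟨x, hx, he⟩
    · intro S' hSS' hne hfar F hF
      have hne' : (S' \ S).Nonempty := hne.resolve_left id
      refine himp S' F (hSS' hx) ?_ ?_ hF
      · intro y hy
        by_cases hyS : y ∈ S
        · left
          exact hall y hyS
        · right
          have := hfar x hx y (mem_sdiff.mpr ⟨hy, hyS⟩)
          rw [H.dc]
          omega
      · obtain ⟨y, hy⟩ := hne'
        refine ⟨y, (mem_sdiff.mp hy).1, ?_⟩
        have := hfar x hx y hy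
        rw [H.dc]
        omega
    · rw [hom]
      refine hfin _ _ (mul_nonneg (upos H _).le (gpos H _).le) ?_
      rw [pmid (by omega) ht', pmid (by omega) ht']
      have h1 : g (t' / 2) ≤ W * g t' := H.gd _ _ hD (by omega) (by omega)
      have h1' : u (t' / 2) ≤ W * u t' := H.ud _ _ hD (by omega) (by omega)
      have h2 := H.gp t' (by omega)
      have h2' := H.up t' (by omega)
      have h3 := H.gp (t' / 2) hD
      have h5 : 0 ≤ u t' * g t' := (mul_pos h2' h2).le
      have h6 : W ^ 2 ≤ W ^ 4 := pow_le_pow_right₀ hW (by norm_num)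
      calc Pr (fun _ => q) Finset.univ Ch ≤ C * (u (t' / 2) * g (t' / 2)) := hpr
        _ ≤ C * ((W * u t') * (W * g t')) := by
            refine mul_le_mul_of_nonneg_left ?_ (by linarith)
            exact mul_le_mul h1' h1 h3.le (mul_nonneg (by linarith) h2'.le)
        _ = (C * W ^ 2) * (u t' * g t') := by ring
        _ ≤ a * (u t' * g t') := by
            refine mul_le_mul_of_nonneg_right (le_trans ?_ ha) h5
            exact mul_le_mul_of_nonneg_left h6 (by linarith)
  · refine ⟨fun _ => True, fun _ => x, fun y => if y = x then 0 else 1, fun _ _ _ => Iff.rfl,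
      fun _ _ _ _ _ _ => trivial, htree, ?_⟩
    rw [hom]
    refine hfin _ _ (mul_nonneg (upos H _).le (gpos H _).le) ?_
    have h1 : psi u N t' = 1 := by
      unfold psi
      rw [show max 1 (min t' N) = 1 by omega]
      exact H.u1
    have h2 : psi g N t' = 1 := by
      unfold psi
      rw [show max 1 (min t' N) = 1 by omega]
      exact H.g1
    rw [h1, h2]
    refine (Pr_le_one (kok H) _ _).trans ?_
    linarith

/-- START -/
theorem gd_start (H : KL ds N q u g ε Ds C W) (ha1 : 1 ≤ a) (ha : C * W ^ 4 ≤ a) {b : Prop}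
    {t k : ℕ} {R : Finset E} {x : E}
    (h : Gd ds N q u g ε Ds a b t (t + 1) (max t (dm ds R)) k R x) :
    Gd ds N q u g ε Ds a b t (t + 1) (max (t + 1) (dm ds R)) (k + 1) R x := by
  obtain ⟨Ev, par, rk, h1, h2, h3, h4⟩ := h
  refine ⟨Ev, par, rk, h1, h2, h3, step H ha1 h4 ?_⟩
  have hC := H.hC
  have hW := H.hW
  refine (odbl H R (s' := max (t + 1) (dm ds R)) (by omega) (by omega)).trans ?_
  refine mul_le_mul_of_nonneg_right (le_trans ?_ ha) (opos H _ _).le
  have h6 : W ^ 2 ≤ W ^ 4 := pow_le_pow_right₀ hW (by norm_num)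
  nlinarith [one_le_pow₀ hW (n := 4)]

/-- the comparison of the products for `g` -/
theorem merge_g (H : KL ds N q u g ε Ds C W) {t : ℕ} {U R : Finset E} {b c : E}
    (hc : c ∈ U) (hb : b ∈ R) (hbu : ds b c ≤ t + 1) :
    psi g N (max (t + 1) (dm ds U)) * psi g N (max t (dm ds R)) ≤
      W ^ 2 * (psi g N (ds b c) * psi g N (max (t + 1) (dm ds (U ∪ R)))) := by
  have hW := H.hW
  have h1 := dm_union' H hc hb hbu
  have h2 : dm ds U ≤ dm ds (U ∪ R) := dm_mono' subset_union_left
  have h3 : dm ds R ≤ dm ds (U ∪ R) := dm_mono' subset_union_right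
  obtain ⟨M, hM⟩ : ∃ M, M = max (t + 1) (dm ds U) := ⟨_, rfl⟩
  obtain ⟨M', hM'⟩ : ∃ M', M' = max (t + 1) (dm ds (U ∪ R)) := ⟨_, rfl⟩
  rw [← hM, ← hM']
  have p0 := gpos H M
  have p1 := gpos H (ds b c)
  have p2 := gpos H M'
  have p3 := gpos H (max t (dm ds R))
  rcases le_total (dm ds R) M with hc | hc
  · have e1 : psi g N M ≤ W * psi g N M' := gdbl H (by omega) (by omega)
    have e2 : psi g N (max t (dm ds R)) ≤ psi g N t := ganti H (le_max_left _ _)
    have e3 : psi g N t ≤ W * psi g N (t + 1) := gdbl H (by omega) (by omega)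
    have e4 : psi g N (t + 1) ≤ psi g N (ds b c) := ganti H hbu
    have e5 : psi g N (max t (dm ds R)) ≤ W * psi g N (ds b c) :=
      (e2.trans e3).trans (mul_le_mul_of_nonneg_left e4 (by linarith))
    calc psi g N M * psi g N (max t (dm ds R)) ≤ (W * psi g N M') * (W * psi g N (ds b c)) :=
          mul_le_mul e1 e5 p3.le (by positivity)
      _ = _ := by ring
  · have e0 : max t (dm ds R) = dm ds R := max_eq_right (by omega)
    rw [e0]
    have e4 : psi g N M ≤ psi g N (ds b c) := ganti H (by omega)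
    have e5 : psi g N (dm ds R) ≤ W * psi g N M' := gdbl H (by omega) (by omega)
    have e6 : W * psi g N M' ≤ W ^ 2 * psi g N M' :=
      mul_le_mul_of_nonneg_right (by nlinarith) p2.le
    calc psi g N M * psi g N (dm ds R) ≤ psi g N (ds b c) * (W ^ 2 * psi g N M') :=
          mul_le_mul e4 (e5.trans e6) (gpos H _).le p1.le
      _ = _ := by ring

/-- the comparison of the weights -/
theorem gd_merge_om (H : KL ds N q u g ε Ds C W) {t : ℕ} {U R : Finset E} {b c : E}
    (hc : c ∈ U) (hb : b ∈ R) (hbu : ds b c ≤ t + 1) (hfar : t < ds c b) :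
    om ds u g ε N U (max (t + 1) (dm ds U)) * om ds u g ε N R (max t (dm ds R)) ≤
      W ^ 4 * (Kf u g ε N (ds b c) * om ds u g ε N (U ∪ R) (max (t + 1) (dm ds (U ∪ R)))) := by
  have hW := H.hW
  have hε := H.e0
  have hdm : dm ds (U ∪ R) ≠ 0 := by
    have h1 := ds_le_dm' (ds := ds) (S := U ∪ R) (mem_union_left R hc) (mem_union_right U hb)
    omega
  have hom : ∀ s, om ds u g ε N (U ∪ R) s = ε * psi g N s := fun s => if_neg hdm
  rw [hom]
  have hg := merge_g H hc hb hbu
  obtain ⟨M, hM⟩ : ∃ M, M = max (t + 1) (dm ds U) := ⟨_, rfl⟩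
  obtain ⟨s2, hs2⟩ : ∃ s2, s2 = max t (dm ds R) := ⟨_, rfl⟩
  obtain ⟨M', hM'⟩ : ∃ M', M' = max (t + 1) (dm ds (U ∪ R)) := ⟨_, rfl⟩
  rw [← hM, ← hs2, ← hM'] at hg ⊢
  have a1 : psi u N M ≤ psi u N (ds b c) := uanti H (by omega)
  have a2 : psi u N s2 ≤ W * psi u N (ds b c) := by
    have e2 : psi u N s2 ≤ psi u N t := uanti H (by omega)
    have e3 : psi u N t ≤ W * psi u N (t + 1) := udbl H (by omega) (by omega)
    have e4 : psi u N (t + 1) ≤ psi u N (ds b c) := uanti H hbu
    exact (e2.trans e3).trans (mul_le_mul_of_nonneg_left e4 (by linarith))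
  have p1 := upos H M
  have p2 := upos H s2
  have p3 := upos H (ds b c)
  have p4 := gpos H M
  have p5 := gpos H s2
  have p6 := gpos H (ds b c)
  have p7 := gpos H M'
  have pi : 0 < ε⁻¹ := inv_pos.2 hε
  obtain ⟨X, hX⟩ : ∃ X, X = psi g N (ds b c) * psi g N M' := ⟨_, rfl⟩
  have hX0 : 0 < X := by rw [hX]; positivity
  rw [← hX] at hg
  have w23 : W ^ 2 ≤ W ^ 4 := pow_le_pow_right₀ hW (by norm_num)
  have w34 : W ^ 3 ≤ W ^ 4 := pow_le_pow_right₀ hW (by norm_num)
  have hK : Kf u g ε N (ds b c) * (ε * psi g N M') =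
      ε * ε * X + ε * (psi u N (ds b c) * X) + psi u N (ds b c) ^ 2 * X := by
    unfold Kf
    rw [hX]
    field_simp
  rw [hK]
  have t1 : 0 ≤ ε * ε * X := by positivity
  have t2 : 0 ≤ ε * (psi u N (ds b c) * X) := by positivity
  have t3 : 0 ≤ psi u N (ds b c) ^ 2 * X := by positivity
  have hgg : 0 ≤ psi g N M * psi g N s2 := by positivity
  have w0 : 0 ≤ W ^ 4 := by positivity
  have w2 : 0 ≤ W ^ 2 := by positivity
  unfold om
  by_cases hU : dm ds U = 0
  · by_cases hR : dm ds R = 0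
    · rw [if_pos hU, if_pos hR]
      have b1 : psi u N M * psi u N s2 ≤ psi u N (ds b c) * (W * psi u N (ds b c)) :=
        mul_le_mul a1 a2 p2.le p3.le
      calc psi u N M * psi g N M * (psi u N s2 * psi g N s2) =
            (psi u N M * psi u N s2) * (psi g N M * psi g N s2) := by ring
        _ ≤ (psi u N (ds b c) * (W * psi u N (ds b c))) * (W ^ 2 * X) :=
            mul_le_mul b1 hg hgg (by positivity)
        _ = W ^ 3 * (psi u N (ds b c) ^ 2 * X) := by ring
        _ ≤ W ^ 4 * (psi u N (ds b c) ^ 2 * X) := mul_le_mul_of_nonneg_right w34 t3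
        _ ≤ _ := mul_le_mul_of_nonneg_left (by linarith) w0
    · rw [if_pos hU, if_neg hR]
      calc psi u N M * psi g N M * (ε * psi g N s2) =
            (ε * psi u N M) * (psi g N M * psi g N s2) := by ring
        _ ≤ (ε * psi u N (ds b c)) * (W ^ 2 * X) :=
            mul_le_mul (mul_le_mul_of_nonneg_left a1 hε.le) hg hgg (by positivity)
        _ = W ^ 2 * (ε * (psi u N (ds b c) * X)) := by ring
        _ ≤ W ^ 4 * (ε * (psi u N (ds b c) * X)) := mul_le_mul_of_nonneg_right w23 t2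
        _ ≤ _ := mul_le_mul_of_nonneg_left (by linarith) w0
  · by_cases hR : dm ds R = 0
    · rw [if_neg hU, if_pos hR]
      calc ε * psi g N M * (psi u N s2 * psi g N s2) =
            (ε * psi u N s2) * (psi g N M * psi g N s2) := by ring
        _ ≤ (ε * (W * psi u N (ds b c))) * (W ^ 2 * X) :=
            mul_le_mul (mul_le_mul_of_nonneg_left a2 hε.le) hg hgg (by positivity)
        _ = W ^ 3 * (ε * (psi u N (ds b c) * X)) := by ring
        _ ≤ W ^ 4 * (ε * (psi u N (ds b c) * X)) := mul_le_mul_of_nonneg_right w34 t2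
        _ ≤ _ := mul_le_mul_of_nonneg_left (by linarith) w0
    · rw [if_neg hU, if_neg hR]
      calc ε * psi g N M * (ε * psi g N s2) =
            (ε * ε) * (psi g N M * psi g N s2) := by ring
        _ ≤ (ε * ε) * (W ^ 2 * X) := mul_le_mul_of_nonneg_left hg (by positivity)
        _ = W ^ 2 * (ε * ε * X) := by ring
        _ ≤ W ^ 4 * (ε * ε * X) := mul_le_mul_of_nonneg_right w23 t1
        _ ≤ _ := mul_le_mul_of_nonneg_left (by linarith) w0

/-- MERGE -/
theorem gd_merge (H : KL ds N q u g ε Ds C W) (ha1 : 1 ≤ a) (ha : C * W ^ 4 ≤ a)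
    {t k k' : ℕ} {U R : Finset E} {x b c : E} (hx : x ∈ U) (hu : c ∈ U) (hb : b ∈ R)
    (hbu : ds b c ≤ t + 1) (hfar : ∀ v ∈ U, ∀ w ∈ R, t < ds v w)
    (hU : Gd ds N q u g ε Ds a False t (t + 1) (max (t + 1) (dm ds U)) k U x)
    (hR : Gd ds N q u g ε Ds a False t (t + 1) (max t (dm ds R)) k' R b) :
    Gd ds N q u g ε Ds a True t (t + 1) (max (t + 1) (dm ds (U ∪ R))) (k + k' + 1) (U ∪ R) x := by
  classical
  have hC := H.hC
  have hW := H.hW
  obtain ⟨Ev, par, rk, g1, g2, g3, g4⟩ := hU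
  obtain ⟨Ev', par', rk', g1', g2', g3', g4'⟩ := hR
  have hUR : ∀ v ∈ R, v ∉ U := by
    intro v hv hvU
    have := hfar v hvU v hv
    rw [H.d0] at this
    omega
  have hdisj : Disjoint U R := Finset.disjoint_right.mpr hUR
  have hxR : x ∉ R := fun h => hUR x h hx
  have hbU : b ∉ U := hUR b hb
  refine ⟨fun F => Ev F ∧ Ev' F, fun y => if y ∈ U then par y else if y = b then c else par' y,
    fun y => if y ∈ U then rk y else rk c + 1 + rk' y, ?_, ?_, ?_, ?_⟩
  · intro F F' hFF
    refine and_congr (g1 F F' fun e he => hFF e ?_) (g1' F F' fun e he => hFF e ?_)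
    · obtain ⟨v, hv, h⟩ := he
      exact ⟨v, mem_union_left _ hv, h⟩
    · obtain ⟨v, hv, h⟩ := he
      exact ⟨v, mem_union_right _ hv, h⟩
  · intro S' hSS' _ hfar' F hF
    constructor
    · refine g2 S' (subset_union_left.trans hSS') (Or.inr ⟨b, mem_sdiff.mpr
        ⟨hSS' (mem_union_right _ hb), hbU⟩⟩) (fun v hv y hy => ?_) F hF
      obtain ⟨hy1, hy2⟩ := mem_sdiff.mp hy
      by_cases hyR : y ∈ R
      · exact hfar v hv y hyR
      · refine hfar' v (mem_union_left _ hv) y (mem_sdiff.mpr ⟨hy1, ?_⟩)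
        rw [mem_union, not_or]
        exact ⟨hy2, hyR⟩
    · refine g2' S' (subset_union_right.trans hSS') (Or.inr ⟨x, mem_sdiff.mpr
        ⟨hSS' (mem_union_left _ hx), hxR⟩⟩) (fun v hv y hy => ?_) F hF
      obtain ⟨hy1, hy2⟩ := mem_sdiff.mp hy
      by_cases hyU : y ∈ U
      · rw [H.dc]
        exact hfar y hyU v hv
      · refine hfar' v (mem_union_right _ hv) y (mem_sdiff.mpr ⟨hy1, ?_⟩)
        rw [mem_union, not_or]
        exact ⟨hyU, hy2⟩
  · intro y hy hyx
    by_cases hyU : y ∈ U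
    · obtain ⟨e1, e2, e3⟩ := g3 y hyU hyx
      simp only [if_pos hyU, if_pos e1]
      exact ⟨mem_union_left _ e1, e2, e3⟩
    · have hyR : y ∈ R := (mem_union.mp hy).resolve_left hyU
      by_cases hyb : y = b
      · simp only [if_neg hyU, if_pos hyb, if_pos hu]
        exact ⟨mem_union_left _ hu, by omega, by rw [hyb]; exact hbu⟩
      · obtain ⟨e1, e2, e3⟩ := g3' y hyR hyb
        simp only [if_neg hyU, if_neg hyb, if_neg (hUR _ e1)]
        exact ⟨mem_union_right _ e1, by omega, e3⟩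
  · -- independence
    have hind : Pr (fun _ => q) Finset.univ (fun F => Ev F ∧ Ev' F) =
        Pr (fun _ => q) Finset.univ Ev * Pr (fun _ => q) Finset.univ Ev' := by
      refine Pr_indep (S := univ.filter fun e => ∃ v ∈ U, ds e v ≤ t / 2)
        (T := univ.filter fun e => ∃ v ∈ R, ds e v ≤ t / 2) (subset_univ _) (subset_univ _)
        ?_ ?_ ?_
      · rw [Finset.disjoint_left]
        intro e he1 he2
        obtain ⟨v, hv, h1⟩ := (mem_filter.mp he1).2
        obtain ⟨y, hy, h2⟩ := (mem_filter.mp he2).2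
        have h3 := hfar v hv y hy
        have h4 := H.dt v e y
        rw [H.dc v e] at h4
        omega
      · intro F _
        refine g1 _ _ fun e he => ?_
        rw [mem_inter, mem_filter]
        exact ⟨fun h => ⟨h, mem_univ _, he⟩, fun h => h.1⟩
      · intro F _
        refine g1' _ _ fun e he => ?_
        rw [mem_inter, mem_filter]
        exact ⟨fun h => ⟨h, mem_univ _, he⟩, fun h => h.1⟩
    rw [hind]
    have hprod : ∏ y ∈ (U ∪ R).erase x,
        Kf u g ε N (ds y (if y ∈ U then par y else if y = b then c else par' y)) =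
        (∏ y ∈ U.erase x, Kf u g ε N (ds y (par y))) *
          (Kf u g ε N (ds b c) * ∏ y ∈ R.erase b, Kf u g ε N (ds y (par' y))) := by
      have e1 : (U ∪ R).erase x = U.erase x ∪ R := by
        ext y
        simp only [mem_erase, mem_union]
        constructor
        · rintro ⟨h1, h2 | h2⟩
          · exact Or.inl ⟨h1, h2⟩
          · exact Or.inr h2
        · rintro (⟨h1, h2⟩ | h2)
          · exact ⟨h1, Or.inl h2⟩
          · exact ⟨fun h => hxR (h ▸ h2), Or.inr h2⟩
      rw [e1, Finset.prod_union (hdisj.mono_left (erase_subset _ _))]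
      congr 1
      · refine Finset.prod_congr rfl fun y hy => ?_
        rw [if_pos (mem_of_mem_erase hy)]
      · rw [← Finset.mul_prod_erase R _ hb]
        congr 1
        · rw [if_neg hbU, if_pos rfl]
        · refine Finset.prod_congr rfl fun y hy => ?_
          rw [mem_erase] at hy
          rw [if_neg (hUR y hy.2), if_neg hy.1]
    rw [hprod]
    have hm := gd_merge_om H hu hb hbu (hfar c hu b hb)
    have n1 := prod_nn H ha1 k (U.erase x) fun y => ds y (par y)
    have n2 := prod_nn H ha1 k' (R.erase b) fun y => ds y (par' y)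
    have n3 := kpos H (ds b c)
    have n4 := opos H (U ∪ R) (max (t + 1) (dm ds (U ∪ R)))
    obtain ⟨P1, hP1⟩ : ∃ P1, P1 = ∏ y ∈ U.erase x, Kf u g ε N (ds y (par y)) := ⟨_, rfl⟩
    obtain ⟨P2, hP2⟩ : ∃ P2, P2 = ∏ y ∈ R.erase b, Kf u g ε N (ds y (par' y)) := ⟨_, rfl⟩
    rw [← hP1] at g4 n1 ⊢
    rw [← hP2] at g4' n2 ⊢
    have h5 : W ^ 4 ≤ a := le_trans (by nlinarith [one_le_pow₀ hW (n := 4)]) ha
    calc Pr (fun _ => q) Finset.univ Ev * Pr (fun _ => q) Finset.univ Ev'
        ≤ (a ^ k * P1 * om ds u g ε N U (max (t + 1) (dm ds U))) *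
          (a ^ k' * P2 * om ds u g ε N R (max t (dm ds R))) :=
          mul_le_mul g4 g4' (Pr_nonneg (kok H) _ _) (mul_nonneg n1 (opos H _ _).le)
      _ = (a ^ k * P1) * (a ^ k' * P2) *
          (om ds u g ε N U (max (t + 1) (dm ds U)) * om ds u g ε N R (max t (dm ds R))) := by ring
      _ ≤ (a ^ k * P1) * (a ^ k' * P2) *
          (W ^ 4 * (Kf u g ε N (ds b c) * om ds u g ε N (U ∪ R) (max (t + 1) (dm ds (U ∪ R))))) :=
          mul_le_mul_of_nonneg_left hm (mul_nonneg n1 n2)
      _ ≤ (a ^ k * P1) * (a ^ k' * P2) *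
          (a * (Kf u g ε N (ds b c) * om ds u g ε N (U ∪ R) (max (t + 1) (dm ds (U ∪ R))))) := by
          refine mul_le_mul_of_nonneg_left ?_ (mul_nonneg n1 n2)
          exact mul_le_mul_of_nonneg_right h5 (by positivity)
      _ = _ := by rw [pow_succ, pow_add]; ring

/-- OUT -/
theorem gd_out (H : KL ds N q u g ε Ds C W) (ha1 : 1 ≤ a) (ha : C * W ^ 4 ≤ a) {b : Prop}
    {t t' k : ℕ} {S : Finset E} {x : E} (htt : t + 1 ≤ t') (ht' : t' ≤ N) (hx : x ∈ S)
    (hdm : dm ds S ≠ 0)
    (hG : Gd ds N q u g ε Ds a b t (t + 1) (max (t + 1) (dm ds S)) k S x) :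
    Gd ds N q u g ε Ds a False t' (t + 1) (max t' (dm ds S)) (k + 1) S x := by
  classical
  have hC := H.hC
  have hW := H.hW
  have hWa : W ^ 2 ≤ a := by
    have h6 : W ^ 2 ≤ W ^ 4 := pow_le_pow_right₀ hW (by norm_num)
    nlinarith [one_le_pow₀ hW (n := 4)]
  have hom : ∀ s, om ds u g ε N S s = ε * psi g N s := fun s => if_neg hdm
  obtain ⟨Ev, par, rk, g1, g2, g3, g4⟩ := hG
  obtain ⟨s, hs⟩ : ∃ s, s = max (t + 1) (dm ds S) := ⟨_, rfl⟩
  obtain ⟨r, hr⟩ : ∃ r, r = dm ds S + t / 2 + 1 := ⟨_, rfl⟩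
  obtain ⟨D, hD⟩ : ∃ D, D = t' / 2 := ⟨_, rfl⟩
  rw [← hs] at g4
  have hloc : ∀ F F' : Finset E, (∀ e, (∃ v ∈ S, ds e v ≤ t' / 2) → (e ∈ F ↔ e ∈ F')) →
      (Ev F ↔ Ev F') := by
    intro F F' hFF
    refine g1 F F' fun e he => hFF e ?_
    obtain ⟨v, hv, h⟩ := he
    exact ⟨v, hv, by omega⟩
  rcases le_or_gt r D with hrD | hrD
  · obtain ⟨Ch, c1, c2, c3⟩ := H.ann x r D (by omega) hrD (by omega)
    refine ⟨fun F => Ev F ∧ Ch F, par, rk, ?_, ?_, g3, ?_⟩
    · intro F F' hFF
      exact and_congr (hloc F F' hFF) (c1 F F' fun e _ he' => hFF e ⟨x, hx, by omega⟩)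
    · intro S' hSS' hne hfar F hF
      have hne' : (S' \ S).Nonempty := hne.resolve_left id
      refine ⟨g2 S' hSS' (Or.inr hne') (fun v hv y hy => ?_) F hF, c2 S' F (hSS' hx) ?_ ?_ hF⟩
      · have := hfar v hv y hy
        omega
      · intro y hy
        by_cases hyS : y ∈ S
        · left
          have := ds_le_dm' (ds := ds) hyS hx
          omega
        · right
          have := hfar x hx y (mem_sdiff.mpr ⟨hy, hyS⟩)
          rw [H.dc]
          omega
      · obtain ⟨y, hy⟩ := hne'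
        refine ⟨y, (mem_sdiff.mp hy).1, ?_⟩
        have := hfar x hx y hy
        rw [H.dc]
        omega
    · have hind : Pr (fun _ => q) Finset.univ (fun F => Ev F ∧ Ch F) =
          Pr (fun _ => q) Finset.univ Ev * Pr (fun _ => q) Finset.univ Ch := by
        refine Pr_indep (S := univ.filter fun e => ∃ v ∈ S, ds e v ≤ t / 2)
          (T := univ.filter fun e => r ≤ ds e x ∧ ds e x ≤ D) (subset_univ _) (subset_univ _)
          ?_ ?_ ?_
        · rw [Finset.disjoint_left]
          intro e he1 he2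
          obtain ⟨v, hv, h1⟩ := (mem_filter.mp he1).2
          have h2 := (mem_filter.mp he2).2
          have h3 := H.dt e v x
          have h4 := ds_le_dm' (ds := ds) hv hx
          omega
        · intro F _
          refine g1 _ _ fun e he => ?_
          rw [mem_inter, mem_filter]
          exact ⟨fun h => ⟨h, mem_univ _, he⟩, fun h => h.1⟩
        · intro F _
          refine c1 _ _ fun e he he' => ?_
          rw [mem_inter, mem_filter]
          exact ⟨fun h => ⟨h, mem_univ _, he, he'⟩, fun h => h.1⟩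
      rw [hind]
      have hmax : max t' (dm ds S) = t' := by omega
      rw [hmax, hom, pmid (by omega) ht']
      rw [hom, pmid (s := s) (by omega) (by omega)] at g4
      have hε := H.e0
      have zr := H.gp r (by omega)
      have zs := H.gp s (by omega)
      have zD := H.gp D (by omega)
      have zt := H.gp t' (by omega)
      have u1 : g s ≤ W * g r := by
        rcases le_total s r with h | h
        · exact H.gd s r (by omega) h (by omega)
        · refine (H.gm r s (by omega) h).trans ?_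
          nlinarith
      have u2 : g D ≤ W * g t' := H.gd D t' (by omega) (by omega) (by omega)
      have u3 : g s * (C * (g D / g r)) ≤ a * g t' := by
        have h6 : C * W ^ 2 ≤ a := by
          refine le_trans ?_ ha
          refine mul_le_mul_of_nonneg_left ?_ (by linarith)
          exact pow_le_pow_right₀ hW (by norm_num)
        calc g s * (C * (g D / g r)) ≤ (W * g r) * (C * (g D / g r)) :=
              mul_le_mul_of_nonneg_right u1 (by positivity)
          _ = C * W * g D := by field_simp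
          _ ≤ C * W * (W * g t') := mul_le_mul_of_nonneg_left u2 (by positivity)
          _ = (C * W ^ 2) * g t' := by ring
          _ ≤ a * g t' := mul_le_mul_of_nonneg_right h6 zt.le
      have hprod := prod_nn H ha1 k (S.erase x) fun y => ds y (par y)
      calc Pr (fun _ => q) Finset.univ Ev * Pr (fun _ => q) Finset.univ Ch
          ≤ (a ^ k * (∏ y ∈ S.erase x, Kf u g ε N (ds y (par y))) * (ε * g s)) *
            (C * (g D / g r)) :=
            mul_le_mul g4 c3 (Pr_nonneg (kok H) _ _) (mul_nonneg hprod (by positivity))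
        _ = a ^ k * (∏ y ∈ S.erase x, Kf u g ε N (ds y (par y))) *
            (ε * (g s * (C * (g D / g r)))) := by
            ring
        _ ≤ a ^ k * (∏ y ∈ S.erase x, Kf u g ε N (ds y (par y))) * (ε * (a * g t')) :=
            mul_le_mul_of_nonneg_left (mul_le_mul_of_nonneg_left u3 hε.le) hprod
        _ = _ := by rw [pow_succ]; ring
  · refine ⟨Ev, par, rk, hloc, ?_, g3, step H ha1 g4 ?_⟩
    · intro S' hSS' hne hfar F hF
      have hne' : (S' \ S).Nonempty := hne.resolve_left id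
      refine g2 S' hSS' (Or.inr hne') (fun v hv y hy => ?_) F hF
      have := hfar v hv y hy
      omega
    · refine (odbl H S (s' := max t' (dm ds S)) (by omega) (by omega)).trans ?_
      exact mul_le_mul_of_nonneg_right hWa (opos H _ _).le

/-! ### components -/

theorem kcmp_conn (H : KL ds N q u g ε Ds C W) {t : ℕ} {S : Finset E} {y : E} (hy : y ∈ S) :
    conn ds t (kcmp ds t S y) := by
  intro A hA hne hne'
  by_contra hcon
  push Not at hcon
  by_cases hyA : y ∈ A
  · obtain ⟨z, hz⟩ := hne'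
    rw [Finset.mem_sdiff] at hz
    refine hz.2 (kcmp_ind hy (P := fun z => z ∈ A) hyA ?_ z hz.1)
    intro u hu v hv huA huv
    by_contra hvA
    have := hcon u huA v (Finset.mem_sdiff.2 ⟨hv, hvA⟩)
    omega
  · obtain ⟨z, hz⟩ := hne
    refine kcmp_ind hy (P := fun z => z ∉ A) hyA ?_ z (hA hz) hz
    intro u hu v hv huA huv hvA
    have := hcon v hvA u (Finset.mem_sdiff.2 ⟨hu, huA⟩)
    rw [H.dc] at this
    omega

/-- a `0`-connected set lies at one position -/
theorem conn_zero (H : KL ds N q u g ε Ds C W) {S : Finset E} {x : E} (hx : x ∈ S)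
    (hc : conn ds 0 S) : ∀ y ∈ S, ds y x = 0 := by
  by_contra hcon
  push Not at hcon
  obtain ⟨z, hz, hzx⟩ := hcon
  obtain ⟨u, hu, v, hv, huv⟩ := hc (S.filter (fun y => ds y x = 0)) (Finset.filter_subset _ _)
    ⟨x, Finset.mem_filter.2 ⟨hx, H.d0 x⟩⟩
    ⟨z, Finset.mem_sdiff.2 ⟨hz, fun h => hzx (Finset.mem_filter.1 h).2⟩⟩
  rw [Finset.mem_filter] at hu
  rw [Finset.mem_sdiff, Finset.mem_filter] at hv
  refine hv.2 ⟨hv.1, ?_⟩
  have h1 := H.dt v u x
  rw [H.dc v u] at h1
  omega

/-- the growth of the component of `x` by merging the other components -/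
theorem gd_grow (H : KL ds N q u g ε Ds C W) (ha1 : 1 ≤ a) (ha : C * W ^ 4 ≤ a) {t : ℕ}
    {S : Finset E} {x : E} (hc : conn ds (t + 1) S)
    (hcmp : ∀ b ∈ S, Gd ds N q u g ε Ds a False t (t + 1) (max t (dm ds (kcmp ds t S b)))
      (4 * (kcmp ds t S b).card - 3) (kcmp ds t S b) b) :
    ∀ m : ℕ, ∀ U : Finset E, (S \ U).card = m → U ⊆ S → U ≠ S → x ∈ U →
      (∀ y ∈ U, ∀ z ∈ S, z ∉ U → t < ds y z) →
      Gd ds N q u g ε Ds a False t (t + 1) (max (t + 1) (dm ds U)) (4 * U.card - 2) U x →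
      Gd ds N q u g ε Ds a True t (t + 1) (max (t + 1) (dm ds S)) (4 * S.card - 4) S x := by
  intro m
  induction m using Nat.strong_induction_on with
  | _ m ihm =>
    intro U hUm hUS hUne hxU hcl hG
    have hne : (S \ U).Nonempty := by
      rw [Finset.sdiff_nonempty]
      intro h
      exact hUne (Finset.Subset.antisymm hUS h)
    obtain ⟨u, hu, b, hb', hub⟩ := hc U hUS ⟨x, hxU⟩ hne
    obtain ⟨hbS, hbU⟩ := Finset.mem_sdiff.1 hb'
    have hRS := kcmp_sub (ds := ds) t S b
    have hbR : b ∈ kcmp ds t S b := self_kcmp hbS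
    have hRU : ∀ z ∈ kcmp ds t S b, z ∉ U := by
      refine kcmp_ind hbS hbU ?_
      intro v hv w hw hvU hvw hwU
      have := hcl w hwU v (hRS hv) hvU
      rw [H.dc] at this
      omega
    have hdisj : Disjoint U (kcmp ds t S b) := by
      rw [Finset.disjoint_right]
      exact hRU
    have hfar : ∀ v ∈ U, ∀ w ∈ kcmp ds t S b, t < ds v w := fun v hv w hw =>
      hcl v hv w (hRS hw) (hRU w hw)
    have hM := gd_merge H ha1 ha hxU hu hbR (by rw [H.dc]; exact hub) hfar hG (hcmp b hbS)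
    have hcard : (U ∪ kcmp ds t S b).card = U.card + (kcmp ds t S b).card :=
      Finset.card_union_of_disjoint hdisj
    have hc1 : 1 ≤ U.card := Finset.card_pos.2 ⟨x, hxU⟩
    have hc2 : 1 ≤ (kcmp ds t S b).card := Finset.card_pos.2 ⟨b, hbR⟩
    have e : 4 * U.card - 2 + (4 * (kcmp ds t S b).card - 3) + 1 =
        4 * (U ∪ kcmp ds t S b).card - 4 := by omega
    rw [e] at hM
    have hU'S : U ∪ kcmp ds t S b ⊆ S := Finset.union_subset hUS hRS
    by_cases hfin : U ∪ kcmp ds t S b = S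
    · rw [hfin] at hM
      exact hM
    · refine ihm (S \ (U ∪ kcmp ds t S b)).card ?_ (U ∪ kcmp ds t S b) rfl hU'S hfin
        (Finset.mem_union_left _ hxU) ?_
        (gd_mono H hM (fun h => h.elim) le_rfl le_rfl (by omega) ha1)
      · rw [← hUm]
        apply Finset.card_lt_card
        rw [Finset.ssubset_iff_of_subset
          (Finset.sdiff_subset_sdiff (Finset.Subset.refl S) Finset.subset_union_left)]
        exact ⟨b, hb', fun h => (Finset.mem_sdiff.1 h).2 (Finset.mem_union_right _ hbR)⟩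
      · intro y hy z hz hzn
        rw [Finset.mem_union, not_or] at hzn
        rcases Finset.mem_union.1 hy with hy | hy
        · exact hcl y hy z hz hzn.1
        · exact kcmp_far hy hz hzn.2

/-- the whole set from its components -/
theorem gd_whole (H : KL ds N q u g ε Ds C W) (ha1 : 1 ≤ a) (ha : C * W ^ 4 ≤ a) {t : ℕ}
    {S : Finset E} {x : E} (hx : x ∈ S) (hc : conn ds (t + 1) S) (hall : kcmp ds t S x ≠ S)
    (hcmp : ∀ b ∈ S, Gd ds N q u g ε Ds a False t (t + 1) (max t (dm ds (kcmp ds t S b)))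
      (4 * (kcmp ds t S b).card - 3) (kcmp ds t S b) b) :
    Gd ds N q u g ε Ds a True t (t + 1) (max (t + 1) (dm ds S)) (4 * S.card - 4) S x := by
  have h1 := gd_start H ha1 ha (hcmp x hx)
  have hc1 : 1 ≤ (kcmp ds t S x).card := Finset.card_pos.2 ⟨x, self_kcmp hx⟩
  have e1 : 4 * (kcmp ds t S x).card - 3 + 1 = 4 * (kcmp ds t S x).card - 2 := by omega
  rw [e1] at h1
  exact gd_grow H ha1 ha hc hcmp _ (kcmp ds t S x) rfl (kcmp_sub t S x) hall (self_kcmp hx)
    (fun y hy z hz hzn => kcmp_far hy hz hzn) h1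

/-- KEY' -/
theorem gd_key (H : KL ds N q u g ε Ds C W) (ha1 : 1 ≤ a) (ha : C * W ^ 4 ≤ a) :
    ∀ (t t' : ℕ) (S : Finset E) (x : E), t ≤ t' → t' ≤ N → x ∈ S → conn ds t S →
      Gd ds N q u g ε Ds a False t' t (max t' (dm ds S)) (4 * S.card - 3) S x := by
  intro t
  induction t with
  | zero =>
    intro t' S x _ ht' hx hc
    have h0 := conn_zero H hx hc
    have hcard : 1 ≤ S.card := Finset.card_pos.2 ⟨x, hx⟩
    exact gd_mono H (gd_base H ha ht' hx h0) (fun h => h) le_rfl le_rfl (by omega) ha1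
  | succ t ih =>
    intro t' S x htt' ht' hx hc
    by_cases hall : kcmp ds t S x = S
    · have hct : conn ds t S := by
        rw [← hall]
        exact kcmp_conn H hx
      exact gd_mono H (ih t' S x (by omega) ht' hx hct) (fun h => h) (Nat.le_succ t) le_rfl
        le_rfl ha1
    · have hcmp : ∀ b ∈ S, Gd ds N q u g ε Ds a False t (t + 1) (max t (dm ds (kcmp ds t S b)))
          (4 * (kcmp ds t S b).card - 3) (kcmp ds t S b) b := by
        intro b hb'
        exact gd_mono H (ih t (kcmp ds t S b) b le_rfl (by omega) (self_kcmp hb')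
          (kcmp_conn H hb')) (fun h => h) (Nat.le_succ t) le_rfl le_rfl ha1
      have h2 := gd_whole H ha1 ha hx hc hall hcmp
      have hdm : dm ds S ≠ 0 := by
        have hex : ∃ z ∈ S, z ∉ kcmp ds t S x := by
          by_contra hcon
          push Not at hcon
          exact hall (Finset.Subset.antisymm (kcmp_sub t S x) hcon)
        obtain ⟨z, hz, hzn⟩ := hex
        have h4 := kcmp_far (self_kcmp hx) hz hzn
        have h5 := ds_le_dm' (ds := ds) hx hz
        omega
      have h3 := gd_out H ha1 ha htt' ht' hx hdm h2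
      have hc3 : 1 ≤ S.card := Finset.card_pos.2 ⟨x, hx⟩
      exact gd_mono H h3 (fun h => h) le_rfl le_rfl (by omega) ha1

/-- the final induction -/
theorem gd_final (H : KL ds N q u g ε Ds C W) (ha1 : 1 ≤ a) (ha : C * W ^ 4 ≤ a) :
    ∀ (t : ℕ), t ≤ N + 1 → ∀ (S : Finset E) (x : E), x ∈ S → 0 < dm ds S → conn ds t S →
      ∃ (par : E → E) (rk : E → ℕ), (∀ y ∈ S, y ≠ x → par y ∈ S ∧ rk (par y) < rk y) ∧
        Pr (fun _ => q) Finset.univ (Ds S) ≤
          a ^ (4 * S.card) * (∏ y ∈ S.erase x, Kf u g ε N (ds y (par y))) * ε := by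
  intro t
  induction t with
  | zero =>
    intro _ S x hx hpos hc
    have hall := conn_zero H hx hc
    have hdm : dm ds S = 0 := by
      apply Nat.le_zero.mp
      apply dm_le_of'
      intro y hy v hv
      have h1 := H.dt y x v
      rw [H.dc x v, hall y hy, hall v hv] at h1
      exact h1
    omega
  | succ t ih =>
    intro ht S x hx hpos hc
    by_cases hall : kcmp ds t S x = S
    · have hct : conn ds t S := by
        rw [← hall]
        exact kcmp_conn H hx
      exact ih (by omega) S x hx hpos hct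
    · have hcmp : ∀ b ∈ S, Gd ds N q u g ε Ds a False t (t + 1) (max t (dm ds (kcmp ds t S b)))
          (4 * (kcmp ds t S b).card - 3) (kcmp ds t S b) b := by
        intro b hb'
        exact gd_mono H (gd_key H ha1 ha t t (kcmp ds t S b) b le_rfl (by omega) (self_kcmp hb')
          (kcmp_conn H hb')) (fun h => h) (Nat.le_succ t) le_rfl le_rfl ha1
      obtain ⟨Ev, par, rk, -, g2, g3, g4⟩ := gd_mono H (gd_whole H ha1 ha hx hc hall hcmp)
        (fun h => h) le_rfl (le_max_right (t + 1) (dm ds S)) (k' := 4 * S.card) (by omega) ha1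
      refine ⟨par, rk, fun y hy hyx => ⟨(g3 y hy hyx).1, (g3 y hy hyx).2.1⟩, ?_⟩
      have hom : om ds u g ε N S (dm ds S) ≤ ε := by
        have e1 : om ds u g ε N S (dm ds S) = ε * psi g N (dm ds S) := if_neg hpos.ne'
        rw [e1]
        have e2 : psi g N (dm ds S) ≤ psi g N 0 := ganti H (Nat.zero_le _)
        rw [gzero H] at e2
        exact mul_le_of_le_one_right H.e0.le e2
      refine ((Pr_mono (kok H) (B := Ev) fun F _ hF => ?_).trans g4).trans
        (mul_le_mul_of_nonneg_left hom (prod_nn H ha1 _ _ _))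
      refine g2 S (Finset.Subset.refl S) (Or.inl trivial) (fun v _ y hy => ?_) F hF
      rw [Finset.sdiff_self] at hy
      exact absurd hy (Finset.notMem_empty y)

end

end H953L.K3

namespace H953L

open H974 Finset
open Pool.Agent.NH39.W (psi dm conn)

/-- The bound for one set. -/
theorem key3 : S_key := by
  intro E _ _ ds N q u g ε Ds C W H S o ho hN hdm
  have hC := H.hC
  have hW := H.hW
  have hconn : conn ds (N + 1) S := by
    intro A hA hne hne'
    by_cases hoA : o ∈ A
    · obtain ⟨z, hz⟩ := hne'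
      refine ⟨o, hoA, z, hz, ?_⟩
      rw [H.dc]
      have := hN z (mem_sdiff.1 hz).1
      omega
    · obtain ⟨z, hz⟩ := hne
      have := hN z (hA hz)
      exact ⟨z, hz, o, mem_sdiff.2 ⟨ho, hoA⟩, by omega⟩
  have ha1 : 1 ≤ C * W ^ 4 := one_le_mul_of_one_le_of_one_le hC (one_le_pow₀ hW)
  exact K3.gd_final H ha1 le_rfl (N + 1) le_rfl S o ho hdm hconn

end H953L
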