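import Pool.Agent.H953.OL.Stm

/-!
C1: the instance of the hypotheses `KL` (helper878, for helper953).
-/

set_option autoImplicit false
set_option maxHeartbeats 1000000

namespace H953L

open H974 Finset H12S H342P H984P
open Pool.Agent.Y993.LL (loop Closed Conn bx SL SU CL CU SB VV two_of_conn inc_face)
open Pool.Agent.H953 (EM im eds Vi X1c X1c_congr X1c_of im_ann eds_self eds_comm eds_tri mem_im
  pr_im blk_box pr_false)
open Pool.Agent.NH39.W (psi dm conn)
open Pool.Agent.NH39 (InB OutB)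

theorem kli_lam_pos {q : ℝ} (hq : q < 1/2) : 0 < lam q := by
  unfold lam
  apply Real.rpow_pos_of_pos
  rw [abs_pos]
  intro h
  linarith

/-! ### The weights -/

theorem kli_u1 {q : ℝ} (hq : q < 1/2) : uu q 1 = 1 := by
  have l0 := kli_lam_pos hq
  unfold uu
  rw [Nat.cast_one, inv_one, div_self (by linarith), Real.one_rpow]

theorem kli_up {q : ℝ} (hq : q < 1/2) {r : ℕ} (hr : 1 ≤ r) : 0 < uu q r := by
  have l0 := kli_lam_pos hq
  have r0 : (0:ℝ) < r := by exact_mod_cast hr
  unfold uu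
  positivity

theorem kli_um {q : ℝ} (hq : q < 1/2) {r s : ℕ} (hr : 1 ≤ r) (hs : r ≤ s) :
    uu q s ≤ uu q r := by
  have l0 := kli_lam_pos hq
  have r0 : (0:ℝ) < r := by exact_mod_cast hr
  have s0 : (0:ℝ) < s := by exact_mod_cast hr.trans hs
  have rs : (r:ℝ) ≤ s := by exact_mod_cast hs
  unfold uu
  apply Real.rpow_le_rpow (by positivity) _ (by norm_num)
  apply div_le_div_of_nonneg_right _ (by positivity)
  have := inv_anti₀ r0 rs
  linarith

theorem kli_ud {q : ℝ} (hq : q < 1/2) {r s : ℕ} (hr : 1 ≤ r) (hs : r ≤ s) (h8 : s ≤ 8 * r) :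
    uu q r ≤ 8 * uu q s := by
  have l0 := kli_lam_pos hq
  have r0 : (0:ℝ) < r := by exact_mod_cast hr
  have s0 : (0:ℝ) < s := by exact_mod_cast hr.trans hs
  have s8 : (s:ℝ) ≤ 8 * r := by exact_mod_cast h8
  unfold uu
  have h1 : ((r:ℝ)⁻¹ + lam q) / (1 + lam q) ≤ 8 * (((s:ℝ)⁻¹ + lam q) / (1 + lam q)) := by
    rw [← mul_div_assoc]
    apply div_le_div_of_nonneg_right _ (by positivity)
    have h2 : (r:ℝ)⁻¹ ≤ 8 * (s:ℝ)⁻¹ := by
      rw [inv_eq_one_div, inv_eq_one_div, mul_one_div, div_le_div_iff₀ r0 s0]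
      linarith
    linarith
  have h8 : (8:ℝ) ^ (1/4 : ℝ) ≤ 8 := by
    calc (8:ℝ) ^ (1/4 : ℝ) ≤ (8:ℝ) ^ (1:ℝ) :=
          Real.rpow_le_rpow_of_exponent_le (by norm_num) (by norm_num)
      _ = 8 := Real.rpow_one _
  calc (((r:ℝ)⁻¹ + lam q) / (1 + lam q)) ^ (1/4 : ℝ)
      ≤ (8 * (((s:ℝ)⁻¹ + lam q) / (1 + lam q))) ^ (1/4 : ℝ) :=
        Real.rpow_le_rpow (by positivity) h1 (by norm_num)
    _ = (8:ℝ) ^ (1/4 : ℝ) * (((s:ℝ)⁻¹ + lam q) / (1 + lam q)) ^ (1/4 : ℝ) := by
        rw [Real.mul_rpow (by norm_num) (by positivity)]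
    _ ≤ _ := mul_le_mul_of_nonneg_right h8 (by positivity)

theorem kli_g1 {q : ℝ} (hq : q < 1/2) : gg q 1 = 1 := by
  have l0 := kli_lam_pos hq
  unfold gg
  rw [Nat.cast_one, mul_one, div_self (by linarith), one_pow]

theorem kli_gp {q : ℝ} (hq : q < 1/2) (r : ℕ) : 0 < gg q r := by
  have l0 := kli_lam_pos hq
  unfold gg
  positivity

theorem kli_gm {q : ℝ} (hq : q < 1/2) {r s : ℕ} (hs : r ≤ s) : gg q s ≤ gg q r := by
  have l0 := kli_lam_pos hq
  have rs : (r:ℝ) ≤ s := by exact_mod_cast hs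
  unfold gg
  apply pow_le_pow_left₀ (by positivity)
  apply div_le_div_of_nonneg_left (by positivity) (by positivity)
  have := mul_le_mul_of_nonneg_left rs l0.le
  linarith

theorem kli_gd {q : ℝ} (hq : q < 1/2) {r s : ℕ} (h8 : s ≤ 8 * r) :
    gg q r ≤ 512 * gg q s := by
  have l0 := kli_lam_pos hq
  have s8 : (s:ℝ) ≤ 8 * r := by exact_mod_cast h8
  unfold gg
  have h1 : (1 + lam q) / (1 + lam q * r) ≤ 8 * ((1 + lam q) / (1 + lam q * s)) := by
    rw [← mul_div_assoc, div_le_div_iff₀ (by positivity) (by positivity)]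
    have h2 := mul_le_mul_of_nonneg_left s8 l0.le
    have h3 : 1 + lam q * s ≤ 8 * (1 + lam q * r) := by linarith
    have h4 := mul_le_mul_of_nonneg_left h3 (by positivity : (0:ℝ) ≤ 1 + lam q)
    linarith
  calc ((1 + lam q) / (1 + lam q * r)) ^ 3 ≤ (8 * ((1 + lam q) / (1 + lam q * s))) ^ 3 :=
        pow_le_pow_left₀ (by positivity) h1 3
    _ = 512 * ((1 + lam q) / (1 + lam q * s)) ^ 3 := by
        rw [mul_pow]
        norm_num

/-! ### The edges and the states -/

/-- first state of an edge -/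
def kli_t1 (x : Edg) : St := (src x, if x.2.2 then Q4.ne else Q4.nw)

/-- second state of an edge -/
def kli_t2 (x : Edg) : St := (tgt x, if x.2.2 then Q4.sw else Q4.se)

theorem kli_ae {x : Edg} {τ : St} (h : ae τ = x) : τ = kli_t1 x ∨ τ = kli_t2 x := by
  subst h
  obtain ⟨⟨a, b⟩, k⟩ := τ
  cases k
  · left; simp [kli_t1]
  · left; simp [kli_t1]
  · right; simp [kli_t2]
  · right; simp [kli_t2]

theorem kli_near1 (x : Edg) : ((kli_t1 x).1.1 = x.1 ∨ (kli_t1 x).1.1 = x.1 + 1) ∧
    ((kli_t1 x).1.2 = x.2.1 ∨ (kli_t1 x).1.2 = x.2.1 + 1) := by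
  unfold kli_t1 src
  exact ⟨Or.inl rfl, Or.inl rfl⟩

theorem kli_near2 (x : Edg) : ((kli_t2 x).1.1 = x.1 ∨ (kli_t2 x).1.1 = x.1 + 1) ∧
    ((kli_t2 x).1.2 = x.2.1 ∨ (kli_t2 x).1.2 = x.2.1 + 1) := by
  obtain ⟨a, b, c⟩ := x
  unfold kli_t2 tgt
  cases c <;> simp

theorem kli_near {x : Edg} {τ : St} (h : ae τ = x) : (τ.1.1 = x.1 ∨ τ.1.1 = x.1 + 1) ∧
    (τ.1.2 = x.2.1 ∨ τ.1.2 = x.2.1 + 1) := by
  rcases kli_ae h with h | h
  · rw [h]; exact kli_near1 x
  · rw [h]; exact kli_near2 x

theorem kli_ae1 (x : Edg) : ae (kli_t1 x) = x := by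
  obtain ⟨a, b, c⟩ := x
  cases c <;> simp [kli_t1]

theorem kli_ae2 (x : Edg) : ae (kli_t2 x) = x := by
  obtain ⟨a, b, c⟩ := x
  cases c <;> simp [kli_t2]

/-- the two arms of the two states, local version -/
theorem kli_loc {M k : ℕ} (hk : 1 ≤ k) {x : Edg} {τ : St} (h : ae τ = x) {F F' : Set Edg}
    (hF : ∀ e : Edg, eds e x ≤ k + 1 → e ∈ boxE M → (e ∈ F ↔ e ∈ F'))
    (hx : x.1.natAbs + k + 1 ≤ M ∧ x.2.1.natAbs + k + 1 ≤ M) :
    Two τ.1 (face τ) k F ↔ Two τ.1 (face τ) k F' := by
  have hk' : (0:ℤ) < k := by omega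
  rw [two_local hk' F, two_local hk' F']
  have e : (F ∩ ↑(RE (τ.1.1 - k) (τ.1.1 + k) (τ.1.2 - k) (τ.1.2 + k)) : Set Edg) =
      F' ∩ ↑(RE (τ.1.1 - k) (τ.1.1 + k) (τ.1.2 - k) (τ.1.2 + k)) := by
    have hn := kli_near h
    ext e
    rw [Set.mem_inter_iff, Set.mem_inter_iff]
    constructor
    · rintro ⟨h1, h2⟩
      refine ⟨(hF e ?_ ?_).1 h1, h2⟩
      · obtain ⟨e1, e2, be⟩ := e
        rw [Finset.mem_coe] at h2
        unfold eds
        cases be
        · rw [mem_RE_false] at h2; simp only; omega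
        · rw [mem_RE_true] at h2; simp only; omega
      · obtain ⟨e1, e2, be⟩ := e
        rw [Finset.mem_coe] at h2
        unfold boxE
        cases be
        · rw [mem_RE_false] at h2 ⊢; omega
        · rw [mem_RE_true] at h2 ⊢; omega
    · rintro ⟨h1, h2⟩
      refine ⟨(hF e ?_ ?_).2 h1, h2⟩
      · obtain ⟨e1, e2, be⟩ := e
        rw [Finset.mem_coe] at h2
        unfold eds
        cases be
        · rw [mem_RE_false] at h2; simp only; omega
        · rw [mem_RE_true] at h2; simp only; omega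
      · obtain ⟨e1, e2, be⟩ := e
        rw [Finset.mem_coe] at h2
        unfold boxE
        cases be
        · rw [mem_RE_false] at h2 ⊢; omega
        · rw [mem_RE_true] at h2 ⊢; omega
  rw [e]

/-- **C1.** The instance. -/
theorem kl (h1 : S_crs) (h2 : S_two2) : S_kl := by
  obtain ⟨C1, hC1, h1⟩ := h1
  obtain ⟨C2, hC2, h2⟩ := h2
  refine ⟨8192 * (C1 + C2), 512, ?_⟩
  intro q q0 hq m hm
  have hq1 : q ≤ 1 := by linarith
  have ok := okq q0 hq1
  have oko : Ok (fun _ : EM (2 * m) => q) := fun _ => ⟨q0, hq1⟩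
  have l0 := kli_lam_pos hq
  have hbox : ∀ x : Edg, eds x (0, 0, true) ≤ m → x.1.natAbs ≤ m ∧ x.2.1.natAbs ≤ m := by
    intro x hx
    unfold eds at hx
    simp only at hx
    omega
  refine ⟨fun a => eds_self _, fun a b => eds_comm _ _, fun a b c => eds_tri _ _ _, hm, q0, hq1,
    kli_u1 hq, fun r hr => kli_up hq hr, fun r s hr hs => kli_um hq hr hs, ?_, kli_g1 hq,
    fun r hr => kli_gp hq r, fun r s hr hs => kli_gm hq hs,
    fun r s hr hs h8 => kli_gd hq h8, ?_, ?_, ?_, ?_, by linarith, by norm_num⟩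
  · intro r s hr hs h8
    have := kli_ud hq hr hs h8
    have := kli_up hq (hr.trans hs)
    linarith
  · unfold ee
    positivity
  · unfold ee
    apply Real.rpow_le_one (by positivity) _ (by norm_num)
    rw [div_le_one (by positivity)]
    linarith
  · -- the event around a point
    intro x D hD1 hDm
    have uD := kli_up hq hD1
    have gD := kli_gp hq D
    by_cases hx : eds x.1 (0, 0, true) ≤ m
    · by_cases hD : D ≤ 3
      · refine ⟨fun _ => True, fun _ _ _ => Iff.rfl, fun _ _ _ _ _ _ => trivial, ?_⟩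
        refine (Pr_le_one oko _ _).trans ?_
        have e1 := kli_ud hq (r := 1) (s := D) le_rfl hD1 (by omega)
        have e2 := kli_gd hq (r := 1) (s := D) (by omega)
        rw [kli_u1 hq] at e1
        rw [kli_g1 hq] at e2
        have e3 : (1:ℝ) ≤ (8 * uu q D) * (512 * gg q D) := by
          calc (1:ℝ) = 1 * 1 := by norm_num
            _ ≤ _ := mul_le_mul e1 e2 zero_le_one (by positivity)
        have e4 : 0 < uu q D * gg q D := by positivity
        nlinarith
      · push Not at hD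
        obtain ⟨k, hk⟩ : ∃ k : ℕ, k = D - 2 := ⟨_, rfl⟩
        have hk1 : 1 ≤ k := by omega
        have hb := hbox _ hx
        have hb2 : x.1.1.natAbs + k + 1 ≤ 2 * m ∧ x.1.2.1.natAbs + k + 1 ≤ 2 * m := by omega
        refine ⟨fun F => Two (kli_t1 x.1).1 (face (kli_t1 x.1)) k (↑(im F) : Set Edg) ∨
          Two (kli_t2 x.1).1 (face (kli_t2 x.1)) k (↑(im F) : Set Edg), ?_, ?_, ?_⟩
        · intro F F' hFF
          have hag : ∀ e : Edg, eds e x.1 ≤ k + 1 → e ∈ boxE (2 * m) →
              (e ∈ (↑(im F) : Set Edg) ↔ e ∈ (↑(im F') : Set Edg)) := by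
            intro e he hbe
            rw [Finset.mem_coe, Finset.mem_coe, mem_im, mem_im]
            constructor
            · rintro ⟨_, h⟩
              exact ⟨hbe, (hFF ⟨e, hbe⟩ (by simp only; omega)).1 h⟩
            · rintro ⟨_, h⟩
              exact ⟨hbe, (hFF ⟨e, hbe⟩ (by simp only; omega)).2 h⟩
          exact or_congr (kli_loc (M := 2 * m) hk1 (kli_ae1 x.1) hag hb2)
            (kli_loc (M := 2 * m) hk1 (kli_ae2 x.1) hag hb2)
        · rintro S F hxS _ ⟨z, hzS, hz⟩ ⟨-, G, hG, τ, hτ, hc⟩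
          have hag : ∀ e : Edg, eds e x.1 ≤ k + 1 → e ∈ boxE (2 * m) →
              (e ∈ G ↔ e ∈ (↑(im F) : Set Edg)) := by
            intro e he hbe
            rw [Finset.mem_coe, mem_im, hG e hbe]
            exact ⟨fun h => ⟨hbe, h⟩, fun ⟨_, h⟩ => h⟩
          have n1 := kli_near (hτ x hxS)
          have n2 := kli_near (hτ z hzS)
          have hfar : Far (τ x).1 ((k:ℤ) + 1) (τ z).1 := by
            unfold eds at hz
            unfold Far
            omega
          have ht := two_of_conn (by omega : (0:ℤ) < k) (hc x hxS z hzS) hfar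
          rw [kli_loc (M := 2 * m) hk1 (hτ x hxS) hag hb2] at ht
          rcases kli_ae (hτ x hxS) with h | h
          · left
            rw [← h]
            exact ht
          · right
            rw [← h]
            exact ht
        · have e1 := pr_im (M := 2 * m) q (fun F =>
            Two (kli_t1 x.1).1 (face (kli_t1 x.1)) k (↑F : Set Edg) ∨
            Two (kli_t2 x.1).1 (face (kli_t2 x.1)) k (↑F : Set Edg))
          rw [e1]
          refine (Pr_or_le ok _ _ _).trans ?_
          have n1 := kli_near1 x.1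
          have n2 := kli_near2 x.1
          have b1 := h2 q q0 hq (kli_t1 x.1).1 (face (kli_t1 x.1)) k (boxE (2 * m))
            (inc_face _) hk1 (blk_box (by omega))
          have b2 := h2 q q0 hq (kli_t2 x.1).1 (face (kli_t2 x.1)) k (boxE (2 * m))
            (inc_face _) hk1 (blk_box (by omega))
          have w1 := kli_ud hq (r := k) (s := D) hk1 (by omega) (by omega)
          have w2 := kli_gd hq (r := k) (s := D) (by omega)
          have gk := kli_gp hq k
          have w3 : uu q k * gg q k ≤ (8 * uu q D) * (512 * gg q D) :=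
            mul_le_mul w1 w2 gk.le (by positivity)
          have w4 : C2 * (uu q k * gg q k) ≤ C2 * ((8 * uu q D) * (512 * gg q D)) :=
            mul_le_mul_of_nonneg_left w3 (by linarith)
          have w5 : 0 ≤ 8192 * C1 * (uu q D * gg q D) := by positivity
          calc _ ≤ C2 * (uu q k * gg q k) + C2 * (uu q k * gg q k) := add_le_add b1 b2
            _ ≤ 8192 * C2 * (uu q D * gg q D) := by linarith
            _ ≤ _ := by linarith
    · refine ⟨fun _ => False, fun _ _ _ => Iff.rfl, ?_, ?_⟩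
      · rintro S F hxS _ _ ⟨hF, -⟩
        exact hx (hF x hxS)
      · rw [pr_false]
        have : 0 ≤ C1 + C2 := by linarith
        positivity
  · -- an annulus
    intro x r D hr hrD hDm
    have gr := kli_gp hq r
    have gD := kli_gp hq D
    by_cases hx : eds x.1 (0, 0, true) ≤ m
    · have hb := hbox _ hx
      refine ⟨fun F => X1c (x.1.1, x.1.2.1) r D (↑(im F) : Set Edg), ?_, ?_, ?_⟩
      · intro F F' hFF
        apply X1c_congr
        exact im_ann hFF
      · rintro S F hxS _ ⟨z, hzS, hz⟩ ⟨-, G, hG, τ, hτ, hc⟩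
        have n1 := kli_near (hτ x hxS)
        have n2 := kli_near (hτ z hzS)
        have hin : InB (x.1.1, x.1.2.1) r (τ x).1 := by
          unfold InB
          simp only
          rw [abs_le, abs_le]
          omega
        have hout : OutB (x.1.1, x.1.2.1) D (τ z).1 := by
          unfold eds at hz
          unfold OutB
          simp only at hz ⊢
          rw [le_abs, le_abs]
          omega
        have h4 := X1c_of hrD hin hout (hc x hxS z hzS).1
        refine (X1c_congr ?_).1 h4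
        ext e
        rw [Set.mem_inter_iff, Set.mem_inter_iff, Finset.mem_coe, Finset.mem_coe, mem_im]
        constructor
        · rintro ⟨g1, g2⟩
          have hbe : e ∈ boxE (2 * m) := blk_box (by simp only; omega) (Finset.mem_sdiff.1 g2).1
          exact ⟨⟨hbe, (hG e hbe).1 g1⟩, g2⟩
        · rintro ⟨⟨hbe, g1⟩, g2⟩
          exact ⟨(hG e hbe).2 g1, g2⟩
      · have e1 := pr_im (M := 2 * m) q (fun F => X1c (x.1.1, x.1.2.1) r D (↑F : Set Edg))
        rw [e1]
        refine (h1 q q0 hq (x.1.1, x.1.2.1) r D (boxE (2 * m)) hr hrD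
          (blk_box (by simp only; omega))).trans ?_
        apply mul_le_mul_of_nonneg_right _ (by positivity)
        linarith
    · refine ⟨fun _ => False, fun _ _ _ => Iff.rfl, ?_, ?_⟩
      · rintro S F hxS _ _ ⟨hF, -⟩
        exact hx (hF x hxS)
      · rw [pr_false]
        have : 0 ≤ C1 + C2 := by linarith
        positivity

end H953L
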