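import Pool.Agent.H953.OL.Stm

/-!
# Locality of `Lg`
-/

set_option autoImplicit false

namespace H953L

open H974 Finset H12S H342P H984P MeasureTheory
open Pool.Agent.Y993.LL (loop Closed Conn bx SL SU CL CU SB VV)

namespace Loc

theorem loc_sd (F : Set Edg) (σ : St) (i : ℕ) :
    Pool.Agent.Y993.LL.sd σ.1 (orb F σ i).1 ≤ i := by
  induction i with
  | zero =>
    have h : orb F σ 0 = σ := rfl
    rw [h]
    simp [Pool.Agent.Y993.LL.sd]
  | succ i ih =>
    rw [orb_succ]
    have h := Pool.Agent.Y993.LL.sd_step σ.1 F (orb F σ i)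
    push_cast
    linarith

theorem loc_orb {n : ℕ} {σ : St} {F G : Set Edg} (h : ∀ e ∈ bx σ.1 n, (e ∈ F ↔ e ∈ G))
    {i : ℕ} (hi : i < n) : orb G σ i = orb F σ i := by
  refine orb_congr (T := i) ?_ le_rfl
  intro e he
  rw [mem_Exm] at he
  obtain ⟨s, hs, rfl⟩ := he
  apply h
  apply Pool.Agent.Y993.LL.ae_near
  intro hf
  rw [Pool.Agent.Y993.LL.far_iff] at hf
  have h1 := loc_sd F σ s
  have h2 : (n : ℤ) ≤ (s : ℤ) := hf.trans h1
  have h3 : n ≤ s := by exact_mod_cast h2
  omega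

end Loc

theorem loc : S_loc := by
  intro n σ F G h
  unfold Lg
  constructor
  · intro H i h0 hi
    rw [Loc.loc_orb h hi]
    exact H i h0 hi
  · intro H i h0 hi
    rw [← Loc.loc_orb h hi]
    exact H i h0 hi

end H953L
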