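import Pool.Agent.H953.OL.Stm

/-!
The lower bound for the law of the length of the loop.
-/

set_option autoImplicit false

namespace H953L.Low
open Real

theorem choiceA (c β : ℝ) (hc : 0 < c) (hc1 : c ≤ 1) (hβ : 0 < β) (t : ℝ) (ht : 0 ≤ t) (n : ℕ)
    (hn : 1 ≤ n) (h : n * t ^ (7/3 : ℝ) ≤ c * β ^ (7/3 : ℝ) * 2 ^ (-(7/4) : ℝ)) :
    ∃ a : ℕ, 1 ≤ a ∧ t ≤ β * (a:ℝ) ^ (-(3/4) : ℝ) ∧ (n:ℝ) ≤ c * (a:ℝ) ^ (7/4 : ℝ) ∧
      2 ^ (-(1/4) : ℝ) * c ^ (1/7 : ℝ) * (n:ℝ) ^ (-(1/7) : ℝ) ≤ (a:ℝ) ^ (-(1/4) : ℝ) := by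
  have hn1 : (1:ℝ) ≤ n := by exact_mod_cast hn
  have hn0 : (0:ℝ) < n := by linarith
  have hnc : 1 ≤ (n:ℝ) / c := by
    rw [le_div_iff₀ hc]
    linarith
  have hnc0 : 0 < (n:ℝ) / c := by linarith
  set A : ℝ := ((n:ℝ) / c) ^ (4/7 : ℝ) with hA
  have hA1 : 1 ≤ A := Real.one_le_rpow hnc (by norm_num)
  have hA0 : 0 < A := by linarith
  refine ⟨⌈A⌉₊, ?_, ?_, ?_, ?_⟩
  · exact Nat.one_le_iff_ne_zero.mpr (Nat.pos_iff_ne_zero.mp (Nat.ceil_pos.mpr hA0))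
  all_goals
    have h1 : A ≤ (⌈A⌉₊ : ℝ) := Nat.le_ceil A
    have h2 : (⌈A⌉₊ : ℝ) ≤ 2 * A := by
      have := (Nat.ceil_lt_add_one hA0.le).le
      linarith
    have h3 : (0:ℝ) < (⌈A⌉₊ : ℝ) := by linarith
  · rw [Real.rpow_neg h3.le, ← div_eq_mul_inv, le_div_iff₀ (Real.rpow_pos_of_pos h3 _)]
    have h4 : (⌈A⌉₊ : ℝ) ^ (3/4 : ℝ) ≤ 2 ^ (3/4 : ℝ) * ((n:ℝ) / c) ^ (3/7 : ℝ) := by
      calc (⌈A⌉₊ : ℝ) ^ (3/4 : ℝ) ≤ (2 * A) ^ (3/4 : ℝ) := by gcongr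
        _ = 2 ^ (3/4 : ℝ) * ((n:ℝ) / c) ^ (3/7 : ℝ) := by
          rw [Real.mul_rpow (by norm_num) hA0.le, hA, ← Real.rpow_mul hnc0.le]
          norm_num
    have h5 : t = (t ^ (7/3 : ℝ)) ^ (3/7 : ℝ) := by
      rw [← Real.rpow_mul ht]
      norm_num
    have h6 : t * ((n:ℝ) / c) ^ (3/7 : ℝ) ≤ β * 2 ^ (-(3/4) : ℝ) := by
      calc t * ((n:ℝ) / c) ^ (3/7 : ℝ) = (t ^ (7/3 : ℝ) * ((n:ℝ) / c)) ^ (3/7 : ℝ) := by
            rw [Real.mul_rpow (by positivity) hnc0.le, ← h5]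
        _ ≤ (β ^ (7/3 : ℝ) * 2 ^ (-(7/4) : ℝ)) ^ (3/7 : ℝ) := by
            apply Real.rpow_le_rpow (by positivity) _ (by norm_num)
            rw [← mul_div_assoc, div_le_iff₀ hc]
            linarith
        _ = β * 2 ^ (-(3/4) : ℝ) := by
            rw [Real.mul_rpow (by positivity) (by positivity), ← Real.rpow_mul hβ.le,
              ← Real.rpow_mul (by norm_num : (0:ℝ) ≤ 2)]
            norm_num
    calc t * (⌈A⌉₊ : ℝ) ^ (3/4 : ℝ) ≤ t * (2 ^ (3/4 : ℝ) * ((n:ℝ) / c) ^ (3/7 : ℝ)) := by gcongr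
      _ = (t * ((n:ℝ) / c) ^ (3/7 : ℝ)) * 2 ^ (3/4 : ℝ) := by ring
      _ ≤ (β * 2 ^ (-(3/4) : ℝ)) * 2 ^ (3/4 : ℝ) := by gcongr
      _ = β := by
        rw [mul_assoc, ← Real.rpow_add (by norm_num : (0:ℝ) < 2)]
        norm_num
  · have h4 : A ^ (7/4 : ℝ) = (n:ℝ) / c := by
      rw [hA, ← Real.rpow_mul hnc0.le]
      norm_num
    calc (n:ℝ) = c * ((n:ℝ) / c) := by field_simp
      _ = c * A ^ (7/4 : ℝ) := by rw [h4]
      _ ≤ c * (⌈A⌉₊ : ℝ) ^ (7/4 : ℝ) := by gcongr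
  · have h4 : (2 * A) ^ (-(1/4) : ℝ) = 2 ^ (-(1/4) : ℝ) * c ^ (1/7 : ℝ) * (n:ℝ) ^ (-(1/7) : ℝ) := by
      rw [Real.mul_rpow (by norm_num) hA0.le, hA, ← Real.rpow_mul hnc0.le, mul_assoc]
      congr 1
      rw [Real.div_rpow hn0.le hc.le]
      have h5 : (4/7 * -(1/4) : ℝ) = -(1/7) := by norm_num
      rw [h5, Real.rpow_neg hc.le, div_inv_eq_mul, mul_comm]
    rw [← h4]
    exact Real.rpow_le_rpow_of_nonpos h3 h2 (by norm_num)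

theorem choiceB (c β : ℝ) (hc : 0 < c) (hβ : 0 < β) (t : ℝ) (ht : 0 ≤ t) (n : ℕ)
    (hn : 1 ≤ n) (h : c * β ^ (7/3 : ℝ) * 2 ^ (-(7/4) : ℝ) < n * t ^ (7/3 : ℝ)) :
    ∃ a K : ℕ, 1 ≤ a ∧ 1 ≤ K ∧ (t ≤ β * (a:ℝ) ^ (-(3/4) : ℝ) ∨ a = 1) ∧
      (n:ℝ) ≤ c * K * (a:ℝ) ^ (7/4 : ℝ) ∧
      (K:ℝ) + 1 ≤ 3 / (c * β ^ (7/3 : ℝ) * 2 ^ (-(7/4) : ℝ)) * (n * t ^ (7/3 : ℝ)) ∧
      min 1 (β ^ (-(1/3) : ℝ) * (c * β ^ (7/3 : ℝ) * 2 ^ (-(7/4) : ℝ)) ^ (1/7 : ℝ)) *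
        (n:ℝ) ^ (-(1/7) : ℝ) ≤ (a:ℝ) ^ (-(1/4) : ℝ) := by
  have hn1 : (1:ℝ) ≤ n := by exact_mod_cast hn
  have hn0 : (0:ℝ) < n := by linarith
  set η : ℝ := c * β ^ (7/3 : ℝ) * 2 ^ (-(7/4) : ℝ) with hη
  have hη0 : 0 < η := by positivity
  have ht0 : 0 < t := by
    rcases ht.eq_or_lt with h0 | h0
    · rw [← h0, Real.zero_rpow (by norm_num), mul_zero] at h
      linarith
    · exact h0
  set A : ℝ := (β / t) ^ (4/3 : ℝ) with hA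
  have hbt : 0 < β / t := by positivity
  have hA0 : 0 < A := by positivity
  have hfl : (⌊A⌋₊ : ℝ) ≤ A := Nat.floor_le hA0.le
  have hfl2 : A < (⌊A⌋₊ : ℝ) + 1 := Nat.lt_floor_add_one A
  obtain ⟨a, ha⟩ : ∃ a : ℕ, a = max 1 ⌊A⌋₊ := ⟨_, rfl⟩
  have ha1 : 1 ≤ a := by omega
  have ha1' : (1:ℝ) ≤ a := by exact_mod_cast ha1
  have haA : A / 2 ≤ a := by
    have h1 : (⌊A⌋₊ : ℝ) ≤ a := by exact_mod_cast (by omega : ⌊A⌋₊ ≤ a)
    by_cases h2 : A < 2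
    · linarith
    · push Not at h2
      linarith
  have ha0 : (0:ℝ) < a := by linarith
  have hap : 0 < c * (a:ℝ) ^ (7/4 : ℝ) := by positivity
  refine ⟨a, ⌈(n:ℝ) / (c * (a:ℝ) ^ (7/4 : ℝ))⌉₊, ha1, ?_, ?_, ?_, ?_, ?_⟩
  · exact Nat.one_le_iff_ne_zero.mpr (Nat.pos_iff_ne_zero.mp (Nat.ceil_pos.mpr (by positivity)))
  · by_cases h1 : 1 ≤ ⌊A⌋₊
    · left
      have h2 : a = ⌊A⌋₊ := by omega
      have h3 : (a:ℝ) ≤ A := by rw [h2]; exact hfl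
      rw [Real.rpow_neg ha0.le, ← div_eq_mul_inv, le_div_iff₀ (Real.rpow_pos_of_pos ha0 _)]
      calc t * (a:ℝ) ^ (3/4 : ℝ) ≤ t * A ^ (3/4 : ℝ) := by gcongr
        _ = t * (β / t) := by
          rw [hA, ← Real.rpow_mul hbt.le]
          norm_num
        _ = β := by field_simp
    · right
      omega
  · have h1 := Nat.le_ceil ((n:ℝ) / (c * (a:ℝ) ^ (7/4 : ℝ)))
    rw [div_le_iff₀ hap] at h1
    linarith
  · have h1 := (Nat.ceil_lt_add_one (by positivity : 0 ≤ (n:ℝ) / (c * (a:ℝ) ^ (7/4 : ℝ)))).le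
    have h2 : (n:ℝ) / (c * (a:ℝ) ^ (7/4 : ℝ)) ≤ (n * t ^ (7/3 : ℝ)) / η := by
      have h3 : η ≤ c * (a:ℝ) ^ (7/4 : ℝ) * t ^ (7/3 : ℝ) := by
        calc η = c * ((A / 2) ^ (7/4 : ℝ) * t ^ (7/3 : ℝ)) := by
              rw [Real.div_rpow hA0.le (by norm_num), hA, ← Real.rpow_mul hbt.le, Real.div_rpow hβ.le ht,
                hη, Real.rpow_neg (by norm_num : (0:ℝ) ≤ 2)]
              have h4 : (4/3 * (7/4) : ℝ) = 7/3 := by norm_num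
              rw [h4]
              have h5 : t ^ (7/3 : ℝ) ≠ 0 := by positivity
              field_simp
          _ = c * (A / 2) ^ (7/4 : ℝ) * t ^ (7/3 : ℝ) := by ring
          _ ≤ c * (a:ℝ) ^ (7/4 : ℝ) * t ^ (7/3 : ℝ) := by gcongr
      rw [div_le_div_iff₀ hap hη0]
      nlinarith
    have h3 : 1 ≤ (n * t ^ (7/3 : ℝ)) / η := by
      rw [le_div_iff₀ hη0]
      linarith
    have h4 : 3 / η * (n * t ^ (7/3 : ℝ)) = 3 * ((n * t ^ (7/3 : ℝ)) / η) := by ring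
    rw [h4]
    linarith
  · have hnn : (n:ℝ) ^ (-(1/7) : ℝ) ≤ 1 :=
      Real.rpow_le_one_of_one_le_of_nonpos hn1 (by norm_num)
    have hnn0 : 0 < (n:ℝ) ^ (-(1/7) : ℝ) := by positivity
    by_cases h1 : 1 ≤ ⌊A⌋₊
    · have h2 : a = ⌊A⌋₊ := by omega
      have h3 : (a:ℝ) ≤ A := by rw [h2]; exact hfl
      have h4 : (t ^ (7/3 : ℝ)) ^ (1/7 : ℝ) = t ^ (1/3 : ℝ) := by
        rw [← Real.rpow_mul ht]
        norm_num
      have h5 : η / n ≤ t ^ (7/3 : ℝ) := by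
        rw [div_le_iff₀ hn0]
        linarith
      calc min 1 (β ^ (-(1/3) : ℝ) * η ^ (1/7 : ℝ)) * (n:ℝ) ^ (-(1/7) : ℝ)
          ≤ (β ^ (-(1/3) : ℝ) * η ^ (1/7 : ℝ)) * (n:ℝ) ^ (-(1/7) : ℝ) := by
            gcongr
            exact min_le_right _ _
        _ = β ^ (-(1/3) : ℝ) * (η / n) ^ (1/7 : ℝ) := by
            rw [Real.div_rpow hη0.le hn0.le, Real.rpow_neg hn0.le]
            ring
        _ ≤ β ^ (-(1/3) : ℝ) * (t ^ (7/3 : ℝ)) ^ (1/7 : ℝ) := by gcongr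
        _ = A ^ (-(1/4) : ℝ) := by
            rw [h4, hA, ← Real.rpow_mul hbt.le, Real.div_rpow hβ.le ht]
            have h6 : (4/3 * -(1/4) : ℝ) = -(1/3) := by norm_num
            rw [h6, Real.rpow_neg ht, div_inv_eq_mul]
        _ ≤ (a:ℝ) ^ (-(1/4) : ℝ) := Real.rpow_le_rpow_of_nonpos ha0 h3 (by norm_num)
    · have h2 : a = 1 := by omega
      rw [h2, Nat.cast_one, Real.one_rpow]
      calc min 1 (β ^ (-(1/3) : ℝ) * η ^ (1/7 : ℝ)) * (n:ℝ) ^ (-(1/7) : ℝ) ≤ 1 * 1 := by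
            gcongr
            exact min_le_left _ _
        _ = 1 := one_mul 1

/-- the choice of the scale and of the number of the blocks -/
theorem choice (c β : ℝ) (hc : 0 < c) (hc1 : c ≤ 1) (hβ : 0 < β) :
    ∃ c' C' : ℝ, 0 < c' ∧ 0 < C' ∧ ∀ t : ℝ, 0 ≤ t → ∀ n : ℕ, 1 ≤ n →
      ∃ a K : ℕ, 1 ≤ a ∧ 1 ≤ K ∧ (t ≤ β * (a:ℝ) ^ (-(3/4) : ℝ) ∨ a = 1) ∧
      (n:ℝ) ≤ c * K * (a:ℝ) ^ (7/4 : ℝ) ∧
      c' * (n:ℝ) ^ (-(1/7) : ℝ) * Real.exp (-(C' * (n * t ^ (7/3 : ℝ)))) ≤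
        c ^ (K + 1) * (a:ℝ) ^ (-(1/4) : ℝ) := by
  set η : ℝ := c * β ^ (7/3 : ℝ) * 2 ^ (-(7/4) : ℝ) with hη
  have hη0 : 0 < η := by positivity
  have hL : 0 ≤ -Real.log c := by
    have := Real.log_nonpos hc.le hc1
    linarith
  set c1 : ℝ := c ^ 2 * (2 ^ (-(1/4) : ℝ) * c ^ (1/7 : ℝ)) with hc1'
  set c2 : ℝ := min 1 (β ^ (-(1/3) : ℝ) * η ^ (1/7 : ℝ)) with hc2'
  have hc10 : 0 < c1 := by positivity
  have hc20 : 0 < c2 := lt_min one_pos (by positivity)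
  refine ⟨min c1 c2, 3 / η * (-Real.log c) + 1, lt_min hc10 hc20, by positivity, ?_⟩
  intro t ht n hn
  have hn1 : (1:ℝ) ≤ n := by exact_mod_cast hn
  have hn0 : (0:ℝ) < n := by linarith
  have hnt : 0 ≤ (n:ℝ) * t ^ (7/3 : ℝ) := by positivity
  by_cases h : (n:ℝ) * t ^ (7/3 : ℝ) ≤ η
  · obtain ⟨a, h1, h2, h3, h4⟩ := choiceA c β hc hc1 hβ t ht n hn h
    refine ⟨a, 1, h1, le_rfl, Or.inl h2, ?_, ?_⟩
    · rw [Nat.cast_one, mul_one]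
      exact h3
    · have h5 : Real.exp (-((3 / η * (-Real.log c) + 1) * (n * t ^ (7/3 : ℝ)))) ≤ 1 := by
        rw [Real.exp_le_one_iff]
        have : 0 ≤ (3 / η * (-Real.log c) + 1) * (n * t ^ (7/3 : ℝ)) := by positivity
        linarith
      calc min c1 c2 * (n:ℝ) ^ (-(1/7) : ℝ) *
            Real.exp (-((3 / η * (-Real.log c) + 1) * (n * t ^ (7/3 : ℝ))))
          ≤ c1 * (n:ℝ) ^ (-(1/7) : ℝ) * 1 := by
            gcongr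
            exact min_le_left _ _
        _ = c ^ 2 * (2 ^ (-(1/4) : ℝ) * c ^ (1/7 : ℝ) * (n:ℝ) ^ (-(1/7) : ℝ)) := by
            rw [hc1']
            ring
        _ ≤ c ^ (1 + 1) * (a:ℝ) ^ (-(1/4) : ℝ) := by
            gcongr
  · push Not at h
    obtain ⟨a, K, h1, h2, h3, h4, h5, h6⟩ := choiceB c β hc hβ t ht n hn h
    refine ⟨a, K, h1, h2, h3, h4, ?_⟩
    have h7 : Real.exp (-((3 / η * (-Real.log c) + 1) * (n * t ^ (7/3 : ℝ)))) ≤ c ^ (K + 1) := by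
      have h8 : c ^ (K + 1) = Real.exp (-(((K:ℝ) + 1) * (-Real.log c))) := by
        have h9 : -(((K:ℝ) + 1) * (-Real.log c)) = ((K + 1 : ℕ) : ℝ) * Real.log c := by
          push_cast
          ring
        rw [h9, Real.exp_nat_mul, Real.exp_log hc]
      rw [h8]
      apply Real.exp_le_exp.mpr
      apply neg_le_neg
      calc ((K:ℝ) + 1) * (-Real.log c) ≤ (3 / η * (n * t ^ (7/3 : ℝ))) * (-Real.log c) := by
            gcongr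
        _ ≤ (3 / η * (-Real.log c) + 1) * (n * t ^ (7/3 : ℝ)) := by nlinarith
    calc min c1 c2 * (n:ℝ) ^ (-(1/7) : ℝ) *
          Real.exp (-((3 / η * (-Real.log c) + 1) * (n * t ^ (7/3 : ℝ))))
        ≤ (c2 * (n:ℝ) ^ (-(1/7) : ℝ)) * c ^ (K + 1) := by
          gcongr
          exact min_le_right _ _
      _ ≤ (a:ℝ) ^ (-(1/4) : ℝ) * c ^ (K + 1) := by
          gcongr
      _ = c ^ (K + 1) * (a:ℝ) ^ (-(1/4) : ℝ) := by ring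

end H953L.Low

namespace H953L

open H974 Finset H12S H342P H984P MeasureTheory
open Pool.Agent.Y993.LL (loop Closed Conn bx SL SU CL CU SB VV)

theorem low_tend {c C : ℝ} {q : ℝ} (hq0 : 0 ≤ q) (hq1 : q ≤ 1) (hc : 0 < c) (hC : 0 < C)
    (h : ∀ n : ℕ, 1 ≤ n → Pr (fun _ => q) (bx (0, 0) n) (fun F => Lg n s0 (↑F : Set Edg)) ≤
      C * (n:ℝ) ^ (-(1/7) : ℝ) * Real.exp (-(c * (n * |q - 1/2| ^ (7/3 : ℝ))))) :
    Filter.Tendsto (fun n : ℕ => Pr (fun _ => q) (bx (0, 0) n)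
      (fun F => Lg n s0 (↑F : Set Edg))) Filter.atTop (nhds 0) := by
  have h1 : Filter.Tendsto (fun n : ℕ => C * (n:ℝ) ^ (-(1/7) : ℝ)) Filter.atTop (nhds 0) := by
    have h2 := (tendsto_rpow_neg_atTop (by norm_num : (0:ℝ) < 1/7)).comp
      (tendsto_natCast_atTop_atTop (R := ℝ))
    have h3 := h2.const_mul C
    rw [mul_zero] at h3
    exact h3
  refine squeeze_zero' (Filter.Eventually.of_forall fun n => ?_) ?_ h1
  · exact Pr_nonneg (fun _ => ⟨hq0, hq1⟩) _ _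
  · filter_upwards [Filter.eventually_ge_atTop 1] with n hn
    refine (h n hn).trans ?_
    have h4 : Real.exp (-(c * (n * |q - 1/2| ^ (7/3 : ℝ)))) ≤ 1 := by
      rw [Real.exp_le_one_iff]
      have : 0 ≤ c * (n * |q - 1/2| ^ (7/3 : ℝ)) := by positivity
      linarith
    have h5 : 0 ≤ C * (n:ℝ) ^ (-(1/7) : ℝ) := by positivity
    nlinarith

theorem low (h1 : S_blk) (h2 : S_inf) (h3 : S_up) : S_low := by
  classical
  obtain ⟨c, β, hc, hc1, hβ, hb⟩ := h1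
  obtain ⟨c3, C3, hc3, hC3, hup⟩ := h3
  obtain ⟨c', C', hc', hC', hch⟩ := Low.choice c β hc hc1 hβ
  refine ⟨c', C', hc', hC', ?_⟩
  intro q hq1 hq2 n hn
  obtain ⟨a, K, ha, hK, hN, hcard, hfin⟩ := hch (1/2 - q) (by linarith) n hn
  obtain ⟨qq, hqq⟩ : ∃ qq : unitInterval, (qq : ℝ) = q :=
    ⟨⟨q, by constructor <;> linarith⟩, rfl⟩
  have htend : Filter.Tendsto (fun n : ℕ => Pr (fun _ => (qq:ℝ)) (bx (0, 0) n)
      (fun F => Lg n s0 (↑F : Set Edg))) Filter.atTop (nhds 0) := by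
    rw [hqq]
    exact low_tend (by linarith) (by linarith) hc3 hC3
      (fun n hn => hup q (by linarith) hq2 n hn)
  obtain ⟨hcl, -, hlaw⟩ := h2 qq htend
  obtain ⟨S, hS⟩ := hb q hq1 hq2 a K ha hK hN
  have habs : |q - 1/2| = 1/2 - q := by
    rw [abs_of_nonpos (by linarith)]
    ring
  rw [habs]
  refine hfin.trans (hS.trans ?_)
  have hl := hlaw s0 n hn
  rw [hqq] at hl
  rw [← hl, ← hqq, ← law_event qq S]
  refine ENNReal.toReal_mono (measure_ne_top _ _) (measure_mono_ae ?_)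
  filter_upwards [hcl] with ω hω
  rintro ⟨T, hT1, hT2, -⟩
  have hsub : (↑T : Set St) ⊆ loop (opn ω) s0 := by
    intro τ hτ
    obtain ⟨h5, h6⟩ := hT2 τ hτ
    exact (Pool.Agent.Y993.LL.mem_loop (hω s0).1 τ).2 (Pool.Agent.Y993.LL.conn_of_fin h5 h6)
  have h7 : T.card ≤ (loop (opn ω) s0).ncard := by
    rw [← Set.ncard_coe_finset]
    exact Set.ncard_le_ncard hsub (Pool.Agent.Y993.LL.loop_finite (hω s0).1)
  have h8 : (n:ℝ) ≤ T.card := hcard.trans hT1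
  have h9 : n ≤ T.card := by exact_mod_cast h8
  exact h9.trans h7

end H953L
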