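import Pool.Agent.H953.OL.MomS

/-!
# OL Mom: moments from the law of the length (helper157)
-/

set_option autoImplicit false

namespace H953L

open MeasureTheory Set

namespace Mom

/-- the upper bound as a lower integral -/
theorem upper {c C s : ℝ} (hc : 0 < c) (hC : 0 < C) (hs : 1 / 7 < s) {Ω : Type}
    [MeasurableSpace Ω] (μ : Measure Ω) [IsProbabilityMeasure μ] (L : Ω → ℕ) (κ : ℝ)
    (hL : AEMeasurable L μ) (hκ : 0 < κ)
    (h : ∀ n : ℕ, 1 ≤ n →
      μ.real {ω | n ≤ L ω} ≤ C * (n : ℝ) ^ (-(1 / 7) : ℝ) * Real.exp (-(c * (n * κ)))) :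
    ∫⁻ ω, ENNReal.ofReal ((L ω : ℝ) ^ s) ∂μ ≤
      ENNReal.ofReal (s * (C * ((1 / (c * κ)) ^ (s - 1 / 7) * Real.Gamma (s - 1 / 7)))) := by
  have hs0 : 0 < s := by linarith
  have ha : 0 < s - 1 / 7 := by linarith
  have hr : 0 < c * κ := by positivity
  have hLm : AEMeasurable (fun ω => (L ω : ℝ)) μ :=
    (measurable_from_nat (f := fun n : ℕ => (n : ℝ))).comp_aemeasurable hL
  rw [lintegral_rpow_eq_lintegral_meas_le_mul μ (Filter.Eventually.of_forall fun ω => by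
    positivity) hLm hs0]
  have hint : IntegrableOn (fun t : ℝ => t ^ (s - 1 / 7 - 1) * Real.exp (-(c * κ * t))) (Ioi 0) := by
    have h1 := integrableOn_rpow_mul_exp_neg_mul_rpow (p := 1) (s := s - 1 / 7 - 1) (b := c * κ)
      (by linarith) one_pos hr
    refine h1.congr_fun (fun t _ => ?_) measurableSet_Ioi
    show t ^ (s - 1 / 7 - 1) * Real.exp (-(c * κ) * t ^ (1 : ℝ)) = _
    rw [Real.rpow_one, neg_mul]
  have hle : ∫⁻ t in Ioi (0 : ℝ), μ {a | t ≤ (L a : ℝ)} * ENNReal.ofReal (t ^ (s - 1)) ≤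
      ∫⁻ t in Ioi (0 : ℝ),
        ENNReal.ofReal (C * (t ^ (s - 1 / 7 - 1) * Real.exp (-(c * κ * t)))) := by
    refine setLIntegral_mono' measurableSet_Ioi fun t ht => ?_
    have ht0 : 0 < t := ht
    have hn : 1 ≤ ⌈t⌉₊ := Nat.one_le_ceil_iff.2 ht0
    have hset : {a | t ≤ (L a : ℝ)} = {a | ⌈t⌉₊ ≤ L a} := by
      ext a
      exact (Nat.ceil_le (a := t) (n := L a)).symm
    rw [hset, ← ofReal_measureReal, ← ENNReal.ofReal_mul measureReal_nonneg]
    refine ENNReal.ofReal_le_ofReal ?_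
    have htn : t ≤ (⌈t⌉₊ : ℝ) := Nat.le_ceil t
    have h1 : μ.real {a | ⌈t⌉₊ ≤ L a} ≤ C * t ^ (-(1 / 7) : ℝ) * Real.exp (-(c * κ * t)) := by
      refine (h ⌈t⌉₊ hn).trans ?_
      have h2 : (⌈t⌉₊ : ℝ) ^ (-(1 / 7) : ℝ) ≤ t ^ (-(1 / 7) : ℝ) :=
        Real.rpow_le_rpow_of_nonpos ht0 htn (by norm_num)
      have h3 : Real.exp (-(c * (⌈t⌉₊ * κ))) ≤ Real.exp (-(c * κ * t)) := by
        refine Real.exp_le_exp.2 ?_
        have := mul_le_mul_of_nonneg_left htn hr.le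
        linarith
      exact mul_le_mul (mul_le_mul_of_nonneg_left h2 hC.le) h3 (Real.exp_pos _).le
        (by positivity)
    calc μ.real {a | ⌈t⌉₊ ≤ L a} * t ^ (s - 1)
        ≤ (C * t ^ (-(1 / 7) : ℝ) * Real.exp (-(c * κ * t))) * t ^ (s - 1) :=
          mul_le_mul_of_nonneg_right h1 (by positivity)
      _ = C * ((t ^ (-(1 / 7) : ℝ) * t ^ (s - 1)) * Real.exp (-(c * κ * t))) := by ring
      _ = C * (t ^ (s - 1 / 7 - 1) * Real.exp (-(c * κ * t))) := by
          rw [← Real.rpow_add ht0]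
          congr 3
          ring
  have heq : ∫⁻ t in Ioi (0 : ℝ),
        ENNReal.ofReal (C * (t ^ (s - 1 / 7 - 1) * Real.exp (-(c * κ * t)))) =
      ENNReal.ofReal (C * ((1 / (c * κ)) ^ (s - 1 / 7) * Real.Gamma (s - 1 / 7))) := by
    rw [← ofReal_integral_eq_lintegral_ofReal (hint.const_mul C) ?_, integral_const_mul,
      Real.integral_rpow_mul_exp_neg_mul_Ioi ha hr]
    filter_upwards [self_mem_ae_restrict (measurableSet_Ioi : MeasurableSet (Ioi (0 : ℝ)))] with t ht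
    have ht0 : 0 < t := ht
    show (0 : ℝ) ≤ C * (t ^ (s - 1 / 7 - 1) * Real.exp (-(c * κ * t)))
    positivity
  calc ENNReal.ofReal s * ∫⁻ t in Ioi (0 : ℝ), μ {a | t ≤ (L a : ℝ)} * ENNReal.ofReal (t ^ (s - 1))
      ≤ ENNReal.ofReal s *
        ENNReal.ofReal (C * ((1 / (c * κ)) ^ (s - 1 / 7) * Real.Gamma (s - 1 / 7))) := by
        rw [← heq]
        exact mul_le_mul_right hle _
    _ = _ := (ENNReal.ofReal_mul hs0.le).symm

end Mom

theorem mom : S_mom := by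
  intro c C s hc hC hs
  have hs0 : 0 < s := by linarith
  have ha : 0 < s - 1 / 7 := by linarith
  refine ⟨c * Real.exp (-(2 * C)), s * (C * ((1 / c) ^ (s - 1 / 7) * Real.Gamma (s - 1 / 7))),
    by positivity, ?_, ?_⟩
  · have := Real.Gamma_pos_of_pos ha
    positivity
  intro Ω _ μ _ L κ hL hκ hκ1 h
  have hup := Mom.upper hc hC hs μ L κ hL hκ fun n hn => (h n hn).2
  have hLm : AEMeasurable (fun ω => (L ω : ℝ)) μ :=
    (measurable_from_nat (f := fun n : ℕ => (n : ℝ))).comp_aemeasurable hL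
  have hLs : AEMeasurable (fun ω => (L ω : ℝ) ^ s) μ := hLm.pow_const s
  have hnn : ∀ ω, 0 ≤ (L ω : ℝ) ^ s := fun ω => by positivity
  have hG := Real.Gamma_pos_of_pos ha
  have hint : Integrable (fun ω => (L ω : ℝ) ^ s) μ := by
    refine ⟨hLs.aestronglyMeasurable, ?_⟩
    rw [hasFiniteIntegral_iff_ofReal (Filter.Eventually.of_forall hnn)]
    exact lt_of_le_of_lt hup ENNReal.ofReal_lt_top
  refine ⟨hint, ?_, ?_⟩
  · -- Markov
    set n : ℕ := ⌈1 / κ⌉₊ with hn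
    have hn1 : 1 ≤ n := Nat.one_le_ceil_iff.2 (by positivity)
    have hn2 : 1 / κ ≤ (n : ℝ) := Nat.le_ceil _
    have hn3 : (n : ℝ) * κ ≤ 2 := by
      have h1 : (n : ℝ) < 1 / κ + 1 := Nat.ceil_lt_add_one (by positivity)
      have h2 : (n : ℝ) * κ ≤ (1 / κ + 1) * κ := mul_le_mul_of_nonneg_right h1.le hκ.le
      have h3 : (1 / κ + 1) * κ = 1 + κ := by field_simp
      linarith
    have hn0 : (0 : ℝ) < n := by exact_mod_cast hn1
    have hmk : (n : ℝ) ^ s * μ.real {ω | (n : ℝ) ^ s ≤ (L ω : ℝ) ^ s} ≤ ∫ ω, (L ω : ℝ) ^ s ∂μ :=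
      mul_meas_ge_le_integral_of_nonneg (Filter.Eventually.of_forall hnn) hint _
    have hset : {ω | (n : ℝ) ^ s ≤ (L ω : ℝ) ^ s} = {ω | n ≤ L ω} := by
      ext ω
      show (n : ℝ) ^ s ≤ (L ω : ℝ) ^ s ↔ n ≤ L ω
      rw [Real.rpow_le_rpow_iff (by positivity) (by positivity) hs0]
      exact Nat.cast_le
    rw [hset] at hmk
    refine le_trans ?_ hmk
    have h1 := (h n hn1).1
    have h2 : κ ^ (-(s - 1 / 7)) ≤ (n : ℝ) ^ (s - 1 / 7) := by
      have h3 : κ ^ (-(s - 1 / 7)) = (1 / κ) ^ (s - 1 / 7) := by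
        rw [Real.rpow_neg hκ.le, one_div κ, Real.inv_rpow hκ.le]
      rw [h3]
      exact Real.rpow_le_rpow (by positivity) hn2 ha.le
    have h4 : Real.exp (-(2 * C)) ≤ Real.exp (-(C * (n * κ))) := by
      refine Real.exp_le_exp.2 ?_
      have := mul_le_mul_of_nonneg_left hn3 hC.le
      linarith
    calc c * Real.exp (-(2 * C)) * κ ^ (-(s - 1 / 7))
        ≤ c * Real.exp (-(C * (n * κ))) * (n : ℝ) ^ (s - 1 / 7) := by
          refine mul_le_mul (mul_le_mul_of_nonneg_left h4 hc.le) h2 (by positivity) (by positivity)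
      _ = (n : ℝ) ^ s * (c * (n : ℝ) ^ (-(1 / 7) : ℝ) * Real.exp (-(C * (n * κ)))) := by
          have h5 : (n : ℝ) ^ (s - 1 / 7) = (n : ℝ) ^ s * (n : ℝ) ^ (-(1 / 7) : ℝ) := by
            rw [← Real.rpow_add hn0, sub_eq_add_neg]
          rw [h5]
          ring
      _ ≤ _ := mul_le_mul_of_nonneg_left h1 (by positivity)
  · rw [integral_eq_lintegral_of_nonneg_ae (Filter.Eventually.of_forall hnn)
      hLs.aestronglyMeasurable]
    refine ENNReal.toReal_le_of_le_ofReal (by positivity) (hup.trans (le_of_eq ?_))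
    congr 1
    have h3 : (1 / (c * κ)) ^ (s - 1 / 7) = (1 / c) ^ (s - 1 / 7) * κ ^ (-(s - 1 / 7)) := by
      rw [Real.rpow_neg hκ.le, ← Real.inv_rpow hκ.le, ← Real.mul_rpow (by positivity)
        (by positivity)]
      congr 1
      field_simp
    rw [h3]
    ring

end H953L
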