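import Pool.Agent.H953.OL.Stm2

/-!
The two definitions of the number of clusters in a box agree.
-/

set_option autoImplicit false

namespace H953L

open H974 Finset H12S H342P H984P MeasureTheory
open Pool.Agent.Y993.LL (loop Closed Conn bx sd)

namespace Ncl

theorem mem_bxV {n : ℕ} {v : Vtx} : v ∈ bxV n ↔ (0 ≤ v.1 ∧ v.1 < n) ∧ (0 ≤ v.2 ∧ v.2 < n) := by
  unfold bxV
  rw [Finset.mem_product, Finset.mem_Ico, Finset.mem_Ico]

theorem mem_box {n : ℕ} {v : ℤ × ℤ} : v ∈ box n ↔ v ∈ bxV n := by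
  rw [mem_bxV]
  unfold box
  rw [Set.mem_prod, Set.mem_Ico, Set.mem_Ico]

/-- an edge is an edge of the box iff its ends are in the box -/
theorem mem_bxE {n : ℕ} {e : Edg} : e ∈ bxE n ↔ src e ∈ bxV n ∧ tgt e ∈ bxV n := by
  unfold bxE
  rw [mem_bxV, mem_bxV]
  obtain ⟨x, y, _ | _⟩ := e
  · rw [mem_RE_false]
    simp only [src_mk, tgt_false]
    omega
  · rw [mem_RE_true]
    simp only [src_mk, tgt_true]
    omega

theorem adj_mem {n : ℕ} {F : Set Edg} {u v : Vtx} (h : Adj (F ∩ ↑(bxE n)) u v) :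
    u ∈ bxV n ∧ v ∈ bxV n := by
  obtain ⟨e, ⟨-, he⟩, h1 | h1⟩ := h
  · rw [← h1.1, ← h1.2]
    exact mem_bxE.1 (Finset.mem_coe.1 he)
  · rw [← h1.1, ← h1.2]
    exact (mem_bxE.1 (Finset.mem_coe.1 he)).symm

theorem adj_iff {n : ℕ} (ω : sqLattice.edgeSet → Bool) (u v : box n) :
    ((openGraph ω).induce (box n)).Adj u v ↔ Adj (opn ω ∩ ↑(bxE n)) (u : ℤ × ℤ) (v : ℤ × ℤ) := by
  rw [SimpleGraph.comap_adj]
  change (openGraph ω).Adj (u : ℤ × ℤ) (v : ℤ × ℤ) ↔ _
  rw [openGraph_adj]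
  constructor
  · rintro ⟨e, he, h1⟩
    refine ⟨e, ⟨he, Finset.mem_coe.2 (mem_bxE.2 ?_)⟩, h1⟩
    rcases h1 with h1 | h1
    · rw [h1.1, h1.2]
      exact ⟨mem_box.1 u.2, mem_box.1 v.2⟩
    · rw [h1.1, h1.2]
      exact ⟨mem_box.1 v.2, mem_box.1 u.2⟩
  · rintro ⟨e, he, h1⟩
    exact ⟨e, he.1, h1⟩

theorem reach_iff {n : ℕ} (ω : sqLattice.edgeSet → Bool) (u v : box n) :
    ((openGraph ω).induce (box n)).Reachable u v ↔
      Reach (opn ω ∩ ↑(bxE n)) (u : ℤ × ℤ) (v : ℤ × ℤ) := by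
  constructor
  · intro h
    rw [SimpleGraph.reachable_iff_reflTransGen] at h
    induction h with
    | refl => exact Relation.ReflTransGen.refl
    | tail _ hs ih => exact ih.tail ((adj_iff ω _ _).1 hs)
  · intro h
    have key : ∀ w : Vtx, Reach (opn ω ∩ ↑(bxE n)) (u : ℤ × ℤ) w → ∃ hw : w ∈ box n,
        ((openGraph ω).induce (box n)).Reachable u ⟨w, hw⟩ := by
      intro w hw
      induction hw with
      | refl => exact ⟨u.2, SimpleGraph.Reachable.refl _⟩
      | tail _ hs ih =>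
        obtain ⟨h1, h2⟩ := ih
        refine ⟨mem_box.2 (adj_mem hs).2, h2.trans (SimpleGraph.Adj.reachable ?_)⟩
        exact (adj_iff ω _ _).2 hs
    obtain ⟨_, h2⟩ := key v h
    exact h2

theorem filter_eq_iff {n : ℕ} {F : Set Edg} [DecidableEq (Finset Vtx)] [∀ v, DecidablePred (Reach F v)]
    {u v : Vtx} (hv : v ∈ bxV n) :
    (bxV n).filter (fun w => Reach F u w) = (bxV n).filter (fun w => Reach F v w) ↔ Reach F u v := by
  constructor
  · intro h
    have h1 : v ∈ (bxV n).filter (fun w => Reach F v w) :=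
      Finset.mem_filter.2 ⟨hv, Relation.ReflTransGen.refl⟩
    rw [← h] at h1
    exact (Finset.mem_filter.1 h1).2
  · intro h
    refine Finset.filter_congr fun w _ => ?_
    exact ⟨fun h1 => h.symm.trans h1, fun h1 => h.trans h1⟩

end Ncl

open Classical in
/-- **G2** -/
theorem ncl_eq : S_ncl := by
  intro n ω
  have hF : ∀ {u v : Vtx}, v ∈ bxV n → ((bxV n).filter (fun w => Reach (opn ω ∩ ↑(bxE n)) u w) =
      (bxV n).filter (fun w => Reach (opn ω ∩ ↑(bxE n)) v w) ↔ Reach (opn ω ∩ ↑(bxE n)) u v) :=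
    fun hv => Ncl.filter_eq_iff hv
  let φ : ((openGraph ω).induce (box n)).ConnectedComponent →
      ((bxV n).image (fun v => (bxV n).filter (fun w => Reach (opn ω ∩ ↑(bxE n)) v w))) :=
    SimpleGraph.ConnectedComponent.lift
      (fun v => ⟨(bxV n).filter (fun w => Reach (opn ω ∩ ↑(bxE n)) (v : ℤ × ℤ) w),
        Finset.mem_image_of_mem _ (Ncl.mem_box.1 v.2)⟩)
      (fun v w p _ => Subtype.ext ((hF (Ncl.mem_box.1 w.2)).2
        ((Ncl.reach_iff ω v w).1 ⟨p⟩)))
  have hφ : Function.Bijective φ := by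
    constructor
    · intro c d
      induction c using SimpleGraph.ConnectedComponent.ind with | _ u =>
      induction d using SimpleGraph.ConnectedComponent.ind with | _ v =>
      intro h
      have h1 := congrArg Subtype.val h
      have h2 : (bxV n).filter (fun w => Reach (opn ω ∩ ↑(bxE n)) (u : ℤ × ℤ) w) =
        (bxV n).filter (fun w => Reach (opn ω ∩ ↑(bxE n)) (v : ℤ × ℤ) w) := h1
      rw [SimpleGraph.ConnectedComponent.eq]
      exact (Ncl.reach_iff ω u v).2 ((hF (Ncl.mem_box.1 v.2)).1 h2)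
    · rintro ⟨s, hs⟩
      obtain ⟨v, hv, rfl⟩ := Finset.mem_image.1 hs
      exact ⟨SimpleGraph.connectedComponentMk _ ⟨v, Ncl.mem_box.2 hv⟩, rfl⟩
  rw [Nat.card_congr (Equiv.ofBijective φ hφ), Nat.card_eq_fintype_card, Fintype.card_coe]
  rfl

end H953L
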