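import Pool.Agent.H953.OL.Stm
import Pool.Graph.R_seed8.H984R3.Per.Second

/-!
D2. Many vertices with separated arms near the critical point: the second moment method. Port of
`Pool/Graph/R_seed8/H984R3/Per/Second.lean` from the parameter `1/2` to `q`.
-/

set_option autoImplicit false

namespace H953L.Nra

open H974 Finset H12S H342P H984P

/-- The lower bound for separated arms at the scale `a`. -/
def Lo (q c s : ℝ) (a : ℕ) : Prop := c * (a:ℝ) ^ (-s) ≤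
  Pr (fun _ => q) (RE (-(13 * a : ℕ)) (14 * a : ℕ) (-(13 * a : ℕ)) (14 * a : ℕ))
    (fun F => RA (0, 0) a (↑F : Set Edg))

/-- The upper bound for two arms at all scales up to `a`. -/
def Up (q C t : ℝ) (a : ℕ) : Prop := ∀ (k : ℤ), 0 < k → k ≤ a → ∀ u f : Vtx, Inc u f →
  Pr (fun _ => q) (RE (u.1 - k) (u.1 + k) (u.2 - k) (u.2 + k))
    (fun F => Two u f k (↑F)) ≤ C * (k:ℝ) ^ (-t)

theorem ra_ge {q c s : ℝ} (hq0 : 0 ≤ q) (hq1 : q ≤ 1) {z v : Vtx} {a : ℕ} (ha : 1 ≤ a)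
    (hL : Lo q c s a) (hv : v ∈ ctr z a) :
    c * (a:ℝ) ^ (-s) ≤ Pr (fun _ => q) (NB z a) (fun F => RA v a (↑F)) := by
  refine hL.trans ?_
  have h0 : BA (0, 0) a ⊆ RE (-(13 * a : ℕ)) (14 * a : ℕ) (-(13 * a : ℕ)) (14 * a : ℕ) := by
    unfold BA
    rintro ⟨x, y, b⟩ he
    cases b
    · rw [mem_RE_false] at he ⊢; simp only at he; omega
    · rw [mem_RE_true] at he ⊢; simp only at he; omega
  rw [pr_ra_local h0, pr_ra_local (BA_sub_NB ha hv)]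
  have h1 : BA v a = (trl v.1 v.2).mp (BA (0, 0) a) := by
    unfold BA
    rw [trl_RE]
    congr 1 <;> simp only <;> ring
  rw [h1, LSym.pr]
  exact Pr_mono (fun _ => ⟨hq0, hq1⟩) (fun F _ h => ra_trl h)

theorem pair_le {q C t : ℝ} (hq0 : 0 ≤ q) (hq1 : q ≤ 1) {z v w : Vtx} {a : ℕ} (hU : Up q C t a)
    {k : ℤ} (hk : 0 < k) (hka : k ≤ a) (hv : v ∈ ctr z a) (hw : w ∈ ctr z a)
    (hd : 2 * k < |v.1 - w.1| ∨ 2 * k < |v.2 - w.2|) :
    Pr (fun _ => q) (NB z a) (fun F => RA v a (↑F) ∧ RA w a (↑F)) ≤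
      (C * (k:ℝ) ^ (-t)) * (C * (k:ℝ) ^ (-t)) := by
  have hok : Ok (fun _ : Edg => q) := fun _ => ⟨hq0, hq1⟩
  have hdis : Disjoint (RE (v.1 - k) (v.1 + k) (v.2 - k) (v.2 + k))
      (RE (w.1 - k) (w.1 + k) (w.2 - k) (w.2 + k)) := by
    rw [Finset.disjoint_left]
    rintro ⟨x, y, b⟩ h1 h2
    rcases hd with hd | hd
    · cases b
      · rw [mem_RE_false] at h1 h2; rw [lt_abs] at hd; omega
      · rw [mem_RE_true] at h1 h2; rw [lt_abs] at hd; omega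
    · cases b
      · rw [mem_RE_false] at h1 h2; rw [lt_abs] at hd; omega
      · rw [mem_RE_true] at h1 h2; rw [lt_abs] at hd; omega
  have h1 : Pr (fun _ => q) (NB z a) (fun F => RA v a (↑F) ∧ RA w a (↑F)) ≤
      Pr (fun _ => q) (NB z a) (fun F => Two v v k (↑F) ∧ Two w w k (↑F)) :=
    Pr_mono hok (fun F _ h => ⟨two_of_ra (by omega) h.1, two_of_ra (by omega) h.2⟩)
  refine h1.trans ?_
  rw [Pr_indep (box_sub_NB hka hv) (box_sub_NB hka hw) hdis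
    (fun F _ => two_inter hk F (Finset.Subset.refl _))
    (fun F _ => two_inter hk F (Finset.Subset.refl _)),
    pr_two hk (box_sub_NB hka hv), pr_two hk (box_sub_NB hka hw)]
  have h2 := hU k hk hka v v (by unfold Inc; simp)
  have h3 := hU k hk hka w w (by unfold Inc; simp)
  exact mul_le_mul h2 h3 (Pr_nonneg hok _ _) ((Pr_nonneg hok _ _).trans h2)

theorem pair_le' {q C t : ℝ} (hq0 : 0 ≤ q) (hq1 : q ≤ 1) (ht : 0 ≤ t) (ht1 : t < 1)
    {z v w : Vtx} {a : ℕ} (hU : Up q C t a) (hv : v ∈ ctr z a) (hw : w ∈ ctr z a) :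
    Pr (fun _ => q) (NB z a) (fun F => RA v a (↑F) ∧ RA w a (↑F)) ≤
      (25 * (1 + C ^ 2)) * (kr t (v.1 - w.1) * kr t (v.2 - w.2)) := by
  have hok : Ok (fun _ : Edg => q) := fun _ => ⟨hq0, hq1⟩
  set d : ℤ := max |v.1 - w.1| |v.2 - w.2| with hd
  have hd1 : |v.1 - w.1| ≤ d := le_max_left _ _
  have hd2 : |v.2 - w.2| ≤ d := le_max_right _ _
  have hd0 : 0 ≤ d := (abs_nonneg _).trans hd1
  have hdR : (0:ℝ) < (d:ℝ) + 1 := by
    have : (0:ℝ) ≤ (d:ℝ) := by exact_mod_cast hd0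
    linarith
  have hk1 : ((d:ℝ) + 1) ^ (-t) ≤ kr t (v.1 - w.1) := by
    unfold kr
    apply Real.rpow_le_rpow_of_nonpos _ _ (by linarith)
    · have : (0:ℝ) ≤ ((|v.1 - w.1| : ℤ) : ℝ) := by exact_mod_cast abs_nonneg _
      linarith
    · have : ((|v.1 - w.1| : ℤ) : ℝ) ≤ d := by exact_mod_cast hd1
      linarith
  have hk2 : ((d:ℝ) + 1) ^ (-t) ≤ kr t (v.2 - w.2) := by
    unfold kr
    apply Real.rpow_le_rpow_of_nonpos _ _ (by linarith)
    · have : (0:ℝ) ≤ ((|v.2 - w.2| : ℤ) : ℝ) := by exact_mod_cast abs_nonneg _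
      linarith
    · have : ((|v.2 - w.2| : ℤ) : ℝ) ≤ d := by exact_mod_cast hd2
      linarith
  have hX : (0:ℝ) < ((d:ℝ) + 1) ^ (-t) := Real.rpow_pos_of_pos hdR _
  have hkk : ((d:ℝ) + 1) ^ (-t) * ((d:ℝ) + 1) ^ (-t) ≤ kr t (v.1 - w.1) * kr t (v.2 - w.2) :=
    mul_le_mul hk1 hk2 hX.le (hX.le.trans hk1)
  by_cases h3 : d ≤ 2
  · refine (Pr_le_one hok _ _).trans ?_
    have h4 : (1:ℝ) / 3 ≤ ((d:ℝ) + 1) ^ (-t) := by
      have h5 : ((d:ℝ) + 1) ≤ 3 := by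
        have : (d:ℝ) ≤ 2 := by exact_mod_cast h3
        linarith
      have h6 : (3:ℝ) ^ (-t) ≤ ((d:ℝ) + 1) ^ (-t) :=
        Real.rpow_le_rpow_of_nonpos hdR h5 (by linarith)
      have h7 : (3:ℝ) ^ (-1:ℝ) ≤ (3:ℝ) ^ (-t) :=
        Real.rpow_le_rpow_of_exponent_le (by norm_num) (by linarith)
      rw [Real.rpow_neg_one] at h7
      linarith
    have h8 : (1:ℝ) / 9 ≤ ((d:ℝ) + 1) ^ (-t) * ((d:ℝ) + 1) ^ (-t) := by nlinarith
    have h9 : (0:ℝ) ≤ C ^ 2 := sq_nonneg _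
    nlinarith
  · push Not at h3
    obtain ⟨k, hk⟩ : ∃ k : ℤ, k = (d - 1) / 2 := ⟨_, rfl⟩
    have hk0 : 0 < k := by omega
    have hkd : 2 * k < d := by omega
    have hk5 : d + 1 ≤ 5 * k := by omega
    have hka : k ≤ a := by
      rw [mem_ctr] at hv hw
      have : d ≤ 2 * a := by
        rw [hd]
        apply max_le
        · rw [abs_le]; omega
        · rw [abs_le]; omega
      omega
    have hdd : 2 * k < |v.1 - w.1| ∨ 2 * k < |v.2 - w.2| := by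
      rcases max_choice |v.1 - w.1| |v.2 - w.2| with h | h
      · left; rw [← h, ← hd]; exact hkd
      · right; rw [← h, ← hd]; exact hkd
    refine (pair_le hq0 hq1 hU hk0 hka hv hw hdd).trans ?_
    have hkR : (0:ℝ) < (k:ℝ) := by exact_mod_cast hk0
    have hkt : (k:ℝ) ^ (-t) ≤ 5 * ((d:ℝ) + 1) ^ (-t) := by
      have h4 : ((d:ℝ) + 1) / 5 ≤ k := by
        have : ((d:ℝ) + 1) ≤ 5 * k := by exact_mod_cast hk5
        linarith
      have h5 : (k:ℝ) ^ (-t) ≤ (((d:ℝ) + 1) / 5) ^ (-t) :=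
        Real.rpow_le_rpow_of_nonpos (by positivity) h4 (by linarith)
      have h6 : (((d:ℝ) + 1) / 5) ^ (-t) = ((d:ℝ) + 1) ^ (-t) * (5:ℝ) ^ t := by
        rw [Real.div_rpow hdR.le (by norm_num), Real.rpow_neg (by norm_num : (0:ℝ) ≤ 5)]
        rw [div_inv_eq_mul]
      have h7 : (5:ℝ) ^ t ≤ 5 := by
        have := Real.rpow_le_rpow_of_exponent_le (by norm_num : (1:ℝ) ≤ 5) ht1.le
        rwa [Real.rpow_one] at this
      rw [h6] at h5
      nlinarith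
    have hk00 : (0:ℝ) ≤ (k:ℝ) ^ (-t) := Real.rpow_nonneg hkR.le _
    have h8 : (k:ℝ) ^ (-t) * (k:ℝ) ^ (-t) ≤ 25 * (((d:ℝ) + 1) ^ (-t) * ((d:ℝ) + 1) ^ (-t)) := by
      nlinarith
    have h9 : 0 ≤ kr t (v.1 - w.1) * kr t (v.2 - w.2) := mul_nonneg (kr_nonneg _ _) (kr_nonneg _ _)
    calc C * (k:ℝ) ^ (-t) * (C * (k:ℝ) ^ (-t)) = C ^ 2 * ((k:ℝ) ^ (-t) * (k:ℝ) ^ (-t)) := by ring
      _ ≤ C ^ 2 * (25 * (((d:ℝ) + 1) ^ (-t) * ((d:ℝ) + 1) ^ (-t))) :=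
          mul_le_mul_of_nonneg_left h8 (sq_nonneg _)
      _ ≤ C ^ 2 * (25 * (kr t (v.1 - w.1) * kr t (v.2 - w.2))) := by
          apply mul_le_mul_of_nonneg_left _ (sq_nonneg _)
          linarith
      _ ≤ _ := by nlinarith

/-- Paley–Zygmund. -/
theorem pz' {q : ℝ} (hq0 : 0 ≤ q) (hq1 : q ≤ 1) {S : Finset Edg} (N : Finset Edg → ℝ) {θ : ℝ}
    (hE : θ ≤ Ex (fun _ => q) S N) (hθ : 0 ≤ θ) :
    (Ex (fun _ => q) S N - θ) ^ 2 ≤
      Ex (fun _ => q) S (fun F => N F ^ 2) * Pr (fun _ => q) S (fun F => θ ≤ N F) := by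
  have hok : Ok (fun _ : Edg => q) := fun _ => ⟨hq0, hq1⟩
  have h1 : Ex (fun _ => q) S N ≤
      Ex (fun _ => q) S (fun F => N F * ind (θ ≤ N F)) + θ := by
    have h0 : Ex (fun _ => q) S N ≤
        Ex (fun _ => q) S (fun F => N F * ind (θ ≤ N F) + θ) := by
      apply Ex_mono hok
      intro F _
      by_cases h : θ ≤ N F
      · rw [ind_of h]; linarith
      · rw [ind_not_of h]; linarith
    rw [Ex_add, Ex_const] at h0
    exact h0
  have h2 := Ex_cs hok S N (fun F => ind (θ ≤ N F))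
  have h3 : Ex (fun _ => q) S (fun F => (ind (θ ≤ N F)) ^ 2) =
      Pr (fun _ => q) S (fun F => θ ≤ N F) := by
    unfold Pr
    apply Ex_congr
    intro F _
    rw [sq, ind_sq]
  rw [h3] at h2
  refine le_trans ?_ h2
  apply pow_le_pow_left₀ <;> linarith

theorem ex_ge {q c s : ℝ} (hq0 : 0 ≤ q) (hq1 : q ≤ 1) (hc : 0 < c) (z : Vtx) {a : ℕ} (ha : 1 ≤ a)
    (hL : Lo q c s a) :
    4 * c * (a:ℝ) ^ (2 - s) ≤ Ex (fun _ => q) (NB z a) (fun F => (nRA z a (↑F) : ℝ)) := by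
  have haR : (1:ℝ) ≤ a := by exact_mod_cast ha
  have h1 : Ex (fun _ => q) (NB z a) (fun F => (nRA z a (↑F) : ℝ)) =
      ∑ v ∈ ctr z a, Pr (fun _ => q) (NB z a) (fun F => RA v a (↑F)) := by
    rw [Ex_congr (g := fun F => ∑ v ∈ ctr z a, ind (RA v a (↑F))) (fun F _ => nRA_eq z a F), Ex_sum]
    rfl
  rw [h1]
  have h2 : ∑ v ∈ ctr z a, c * (a:ℝ) ^ (-s) ≤
      ∑ v ∈ ctr z a, Pr (fun _ => q) (NB z a) (fun F => RA v a (↑F)) :=
    Finset.sum_le_sum (fun v hv => ra_ge hq0 hq1 ha hL hv)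
  refine le_trans ?_ h2
  rw [Finset.sum_const, card_ctr, nsmul_eq_mul]
  have h3 : (a:ℝ) ^ (2 - s) = (a:ℝ) ^ 2 * (a:ℝ) ^ (-s) := by
    rw [sub_eq_add_neg, Real.rpow_add (by linarith)]
    norm_num
  rw [h3]
  have h4 : (0:ℝ) ≤ (a:ℝ) ^ (-s) := Real.rpow_nonneg (by linarith) _
  push_cast
  have h5 : 4 * (a:ℝ) ^ 2 ≤ (2 * (a:ℝ) + 1) ^ 2 := by nlinarith
  have h6 : (0:ℝ) ≤ c * (a:ℝ) ^ (-s) := by positivity
  nlinarith

theorem sq_le {q C t : ℝ} (hq0 : 0 ≤ q) (hq1 : q ≤ 1) (ht : 0 ≤ t) (ht1 : t < 1) (z : Vtx)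
    {a : ℕ} (ha : 1 ≤ a) (hU : Up q C t a) :
    Ex (fun _ => q) (NB z a) (fun F => (nRA z a (↑F) : ℝ) ^ 2) ≤
      (25 * (1 + C ^ 2)) * 9 * (6 / (1 - t)) ^ 2 * (a:ℝ) ^ (4 - 2 * t) := by
  have haR : (1:ℝ) ≤ a := by exact_mod_cast ha
  set K : ℝ := 25 * (1 + C ^ 2) with hK
  have hK0 : 0 < K := by positivity
  have h1 : Ex (fun _ => q) (NB z a) (fun F => (nRA z a (↑F) : ℝ) ^ 2) =
      ∑ v ∈ ctr z a, ∑ w ∈ ctr z a,
        Pr (fun _ => q) (NB z a) (fun F => RA v a (↑F) ∧ RA w a (↑F)) := by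
    rw [Ex_congr (g := fun F => ∑ v ∈ ctr z a, ∑ w ∈ ctr z a, ind (RA v a (↑F) ∧ RA w a (↑F)))]
    · rw [Ex_sum]
      apply Finset.sum_congr rfl
      intro v _
      rw [Ex_sum]
      rfl
    · intro F _
      rw [nRA_eq, sq, Finset.sum_mul_sum]
      simp_rw [ind_and]
  rw [h1]
  set B : ℝ := 6 / (1 - t) * (a:ℝ) ^ (1 - t) with hB
  have hB0 : 0 ≤ B := by
    have : (0:ℝ) < 1 - t := by linarith
    positivity
  have h2 : ∀ v ∈ ctr z a, ∑ w ∈ ctr z a,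
        Pr (fun _ => q) (NB z a) (fun F => RA v a (↑F) ∧ RA w a (↑F)) ≤ K * (B * B) := by
    intro v hv
    have h3 : ∑ w ∈ ctr z a,
        Pr (fun _ => q) (NB z a) (fun F => RA v a (↑F) ∧ RA w a (↑F)) ≤
        ∑ w ∈ ctr z a, K * (kr t (v.1 - w.1) * kr t (v.2 - w.2)) :=
      Finset.sum_le_sum (fun w hw => pair_le' hq0 hq1 ht ht1 hU hv hw)
    refine h3.trans ?_
    rw [← Finset.mul_sum]
    apply mul_le_mul_of_nonneg_left _ hK0.le
    unfold ctr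
    rw [Finset.sum_product]
    simp only
    rw [← Finset.sum_mul_sum]
    rw [mem_ctr] at hv
    exact mul_le_mul (sum_kr_le ht ht1 ha hv.1.1 hv.1.2) (sum_kr_le ht ht1 ha hv.2.1 hv.2.2)
      (Finset.sum_nonneg (fun x _ => kr_nonneg _ _)) hB0
  refine (Finset.sum_le_sum h2).trans ?_
  rw [Finset.sum_const, card_ctr, nsmul_eq_mul]
  have h4 : (a:ℝ) ^ (4 - 2 * t) = (a:ℝ) ^ 2 * ((a:ℝ) ^ (1 - t) * (a:ℝ) ^ (1 - t)) := by
    rw [← Real.rpow_add (by linarith), ← Real.rpow_natCast, ← Real.rpow_add (by linarith)]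
    congr 1
    push_cast
    ring
  rw [h4, hB]
  push_cast
  have h5 : (2 * (a:ℝ) + 1) ^ 2 ≤ 9 * (a:ℝ) ^ 2 := by nlinarith
  have h6 : (0:ℝ) ≤ K * (6 / (1 - t) * (a:ℝ) ^ (1 - t) * (6 / (1 - t) * (a:ℝ) ^ (1 - t))) := by
    have : (0:ℝ) < 1 - t := by linarith
    positivity
  calc _ ≤ 9 * (a:ℝ) ^ 2 * (K * (6 / (1 - t) * (a:ℝ) ^ (1 - t) * (6 / (1 - t) * (a:ℝ) ^ (1 - t)))) :=
        mul_le_mul_of_nonneg_right h5 h6
    _ = _ := by ring

/-- Probability of many vertices with separated arms (second moment method). -/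
theorem prob {c C s : ℝ} (hc : 0 < c) (hs : 0 ≤ s) (hs1 : s < 1) :
    ∃ c' : ℝ, 0 < c' ∧ ∀ (q : ℝ), 0 ≤ q → q ≤ 1 → ∀ (z : Vtx) (a : ℕ), 1 ≤ a → Lo q c s a →
      Up q C s a →
      c' ≤ Pr (fun _ => q) (NB z a) (fun G => c' * (a:ℝ) ^ (2 - s) ≤ (nRA z a (↑G) : ℝ)) := by
  set D : ℝ := (25 * (1 + C ^ 2)) * 9 * (6 / (1 - s)) ^ 2 with hD
  have hD0 : 0 < D := by
    have : (0:ℝ) < 1 - s := by linarith
    positivity
  refine ⟨min (2 * c) (4 * c ^ 2 / D), lt_min (by positivity) (by positivity), ?_⟩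
  intro q hq0 hq1 z a ha hL hU
  have hok : Ok (fun _ : Edg => q) := fun _ => ⟨hq0, hq1⟩
  have haR : (1:ℝ) ≤ a := by exact_mod_cast ha
  have ha0 : (0:ℝ) < a := by linarith
  set c' : ℝ := min (2 * c) (4 * c ^ 2 / D) with hc'
  have hc1 : c' ≤ 2 * c := min_le_left _ _
  have hc2 : c' ≤ 4 * c ^ 2 / D := min_le_right _ _
  have hX : (0:ℝ) < (a:ℝ) ^ (2 - s) := Real.rpow_pos_of_pos ha0 _
  have h1 := ex_ge hq0 hq1 hc z ha hL
  have h2 := sq_le hq0 hq1 hs hs1 z ha hU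
  rw [← hD] at h2
  have hθ : 0 ≤ 2 * c * (a:ℝ) ^ (2 - s) := by positivity
  have h3 := pz' hq0 hq1 (S := NB z a) (fun F => (nRA z a (↑F) : ℝ))
    (by linarith [mul_pos hc hX]) hθ
  have h4 : Pr (fun _ => q) (NB z a) (fun G => 2 * c * (a:ℝ) ^ (2 - s) ≤ (nRA z a (↑G) : ℝ)) ≤
      Pr (fun _ => q) (NB z a) (fun G => c' * (a:ℝ) ^ (2 - s) ≤ (nRA z a (↑G) : ℝ)) := by
    apply Pr_mono hok
    intro F _ h
    exact (mul_le_mul_of_nonneg_right hc1 hX.le).trans h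
  refine le_trans ?_ h4
  set P := Pr (fun _ => q) (NB z a)
    (fun G => 2 * c * (a:ℝ) ^ (2 - s) ≤ (nRA z a (↑G) : ℝ)) with hP
  have hP0 : 0 ≤ P := Pr_nonneg hok _ _
  have h5 : (2 * c * (a:ℝ) ^ (2 - s)) ^ 2 ≤ D * (a:ℝ) ^ (4 - 2 * s) * P := by
    refine le_trans ?_ (h3.trans (mul_le_mul_of_nonneg_right h2 hP0))
    apply pow_le_pow_left₀ hθ
    linarith
  have h6 : (2 * c * (a:ℝ) ^ (2 - s)) ^ 2 = 4 * c ^ 2 * (a:ℝ) ^ (4 - 2 * s) := by
    rw [mul_pow, ← Real.rpow_natCast ((a:ℝ) ^ (2 - s)), ← Real.rpow_mul ha0.le,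
      show (2 - s) * ((2:ℕ):ℝ) = 4 - 2 * s by push_cast; ring]
    ring
  rw [h6] at h5
  have hY : (0:ℝ) < (a:ℝ) ^ (4 - 2 * s) := Real.rpow_pos_of_pos ha0 _
  have h7 : 4 * c ^ 2 ≤ D * P := by
    have : (a:ℝ) ^ (4 - 2 * s) * (4 * c ^ 2) ≤ (a:ℝ) ^ (4 - 2 * s) * (D * P) := by linarith
    exact le_of_mul_le_mul_left this hY
  calc c' ≤ 4 * c ^ 2 / D := hc2
    _ ≤ (D * P) / D := div_le_div_of_nonneg_right h7 hD0.le
    _ = P := by field_simp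

end H953L.Nra

namespace H953L

open H974 Finset H12S H342P H984P

theorem nra (h1 : S_ra) (h2 : H953S.S_twoup) : S_nra := by
  obtain ⟨c, β, hc, hβ, h1⟩ := h1
  obtain ⟨C, β', hC, hβ', h2⟩ := h2
  obtain ⟨c', hc', h⟩ := Nra.prob (c := c) (C := C) (s := 1/4) hc (by norm_num) (by norm_num)
  refine ⟨min c' (min c 1), min β β', lt_min hc' (lt_min hc one_pos), lt_min hβ hβ', ?_⟩
  intro q hq0 hq1 z a ha hN
  have hq0' : 0 ≤ q := by linarith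
  have hq1' : q ≤ 1 := by linarith
  have hok : Ok (fun _ : Edg => q) := fun _ => ⟨hq0', hq1'⟩
  have haR : (1:ℝ) ≤ a := by exact_mod_cast ha
  have ha0 : (0:ℝ) < a := by linarith
  have m1 : min c' (min c 1) ≤ c' := min_le_left _ _
  have m2 : min c' (min c 1) ≤ c := (min_le_right _ _).trans (min_le_left _ _)
  have m3 : min c' (min c 1) ≤ 1 := (min_le_right _ _).trans (min_le_right _ _)
  have hNc : Nc β q a := by
    rcases hN with hN | hN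
    · left
      exact hN.trans (mul_le_mul_of_nonneg_right (min_le_left _ _) (Real.rpow_nonneg ha0.le _))
    · exact Or.inr hN
  have hL : Nra.Lo q c (1/4) a := h1 q hq0 hq1 a ha hNc
  rcases hN with hN | hN
  · have hU : Nra.Up q C (1/4) a := by
      intro k hk hka u f huf
      obtain ⟨n, rfl⟩ := Int.eq_ofNat_of_zero_le hk.le
      have hn : 1 ≤ n := by omega
      have hna : n ≤ a := by exact_mod_cast hka
      have hnR : (0:ℝ) < n := by exact_mod_cast hn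
      have hnaR : (n:ℝ) ≤ a := by exact_mod_cast hna
      have h3 : 1/2 - q ≤ β' * (n:ℝ) ^ (-(3/4) : ℝ) := by
        refine hN.trans (mul_le_mul (min_le_right _ _) ?_ (Real.rpow_nonneg ha0.le _) hβ'.le)
        exact Real.rpow_le_rpow_of_nonpos hnR hnaR (by norm_num)
      have h4 := h2 q hq0' hq1 n hn h3 u f huf
      have e : (((n:ℤ) : ℝ)) = (n:ℝ) := by push_cast; rfl
      rw [e]
      exact h4
    have h5 := h q hq0' hq1' z a ha hL hU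
    have e : (2:ℝ) - 1/4 = 7/4 := by norm_num
    rw [e] at h5
    refine m1.trans (h5.trans (Pr_mono hok fun F _ hF => ?_))
    exact (mul_le_mul_of_nonneg_right m1 (Real.rpow_nonneg ha0.le _)).trans hF
  · subst hN
    have hz : z ∈ ctr z 1 := by
      rw [mem_ctr]; omega
    have h5 := Nra.ra_ge hq0' hq1' le_rfl hL hz
    rw [Nat.cast_one, Real.one_rpow, mul_one] at h5
    refine m2.trans (h5.trans (Pr_mono hok fun F _ hF => ?_))
    rw [Nat.cast_one, Real.one_rpow, mul_one]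
    refine m3.trans ?_
    have : 1 ≤ nRA z 1 (↑F : Set Edg) := by
      classical
      unfold nRA
      exact Finset.card_pos.2 ⟨z, Finset.mem_filter.2 ⟨hz, hF⟩⟩
    exact_mod_cast this

end H953L
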