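import Pool.Agent.H953.OL.Stm

/-!
Separated arms at all scales (statement `S_ra`).
-/

set_option autoImplicit false

namespace H953L

open H974 Finset H12S H342P H984P MeasureTheory

/-- If an event is not empty, its probability is at least `(1/4) ^ S.card`. -/
theorem ra_conf {q : ℝ} (h1 : 1/4 ≤ q) (h2 : q ≤ 1/2) (S : Finset Edg) (A : Finset Edg → Prop)
    (hA : ∃ F, F ⊆ S ∧ A F) : (1/4:ℝ) ^ S.card ≤ Pr (fun _ => q) S A := by
  obtain ⟨F, hF, hAF⟩ := hA
  have hq0 : 0 ≤ q := by linarith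
  have hq1 : 0 ≤ 1 - q := by linarith
  have h0 : ∀ G ∈ S.powerset, 0 ≤ (∏ e ∈ G, (fun _ : Edg => q) e) *
      (∏ e ∈ S \ G, (1 - (fun _ : Edg => q) e)) * ind (A G) := by
    intro G _
    refine mul_nonneg (mul_nonneg ?_ ?_) ?_
    · exact prod_nonneg fun _ _ => hq0
    · exact prod_nonneg fun _ _ => hq1
    · exact ind_nonneg _
  have h3 := single_le_sum h0 (mem_powerset.2 hF)
  have h4 : ind (A F) = 1 := ind_of hAF
  rw [h4, mul_one, prod_const, prod_const] at h3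
  refine le_trans ?_ h3
  have h5 : S.card = F.card + (S \ F).card := by
    rw [card_sdiff_of_subset hF]
    have := card_le_card hF
    omega
  rw [h5, pow_add]
  refine mul_le_mul ?_ ?_ (by positivity) (pow_nonneg hq0 _)
  · exact pow_le_pow_left₀ (by norm_num) h1 _
  · exact pow_le_pow_left₀ (by norm_num) (by linarith) _

/-- An event of positive probability is not empty. -/
theorem ra_ex {q : ℝ} (S : Finset Edg) (A : Finset Edg → Prop) (h : 0 < Pr (fun _ => q) S A) :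
    ∃ F, F ⊆ S ∧ A F := by
  by_contra hn
  push Not at hn
  have h0 : Pr (fun _ => q) S A = 0 := by
    unfold Pr Ex
    refine sum_eq_zero fun F hF => ?_
    have h1 : ind (A F) = 0 := ind_not_of (hn F (mem_powerset.1 hF))
    beta_reduce
    rw [h1, mul_zero]
  linarith

/-- The number of edges of the box. -/
noncomputable def ra_N (a : ℕ) : ℕ :=
  (RE (-(13 * a : ℕ)) (14 * a : ℕ) (-(13 * a : ℕ)) (14 * a : ℕ)).card

theorem ra (h : H953S.S_twolow) : S_ra := by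
  obtain ⟨c, β, a0, hc, hβ, ha0, hmain⟩ := h
  obtain ⟨⟨c1, hc1, hlow⟩, -⟩ := Pool.Agent.Y993.LL.inputs
  have hN : (0:ℝ) < (1/4) ^ (∑ a ∈ range (a0 + 1), ra_N a) := by positivity
  refine ⟨min c ((1/4) ^ (∑ a ∈ range (a0 + 1), ra_N a)), β, lt_min hc hN, hβ, ?_⟩
  intro q h1 h2 a ha hNc
  have ha' : (1:ℝ) ≤ (a:ℝ) := by exact_mod_cast ha
  have hp : (0:ℝ) < (a:ℝ) ^ (-(1/4) : ℝ) := Real.rpow_pos_of_pos (by linarith) _
  rcases lt_or_ge a0 a with hlt | hge
  · have h3 : 1/2 - q ≤ β * (a:ℝ) ^ (-(3/4) : ℝ) := by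
      rcases hNc with h3 | h3
      · exact h3
      · omega
    refine le_trans ?_ (hmain q (by linarith) h2 a hlt.le h3)
    exact mul_le_mul_of_nonneg_right (min_le_left _ _) hp.le
  · have h3 := hlow a ha
    have h4 := ra_ex _ _ (lt_of_lt_of_le (mul_pos hc1 hp) h3)
    have h5 := ra_conf h1 h2 _ _ h4
    refine le_trans ?_ h5
    have h6 : (a:ℝ) ^ (-(1/4) : ℝ) ≤ 1 := Real.rpow_le_one_of_one_le_of_nonpos ha' (by norm_num)
    have h7 : ra_N a ≤ ∑ a ∈ range (a0 + 1), ra_N a :=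
      single_le_sum (f := ra_N) (fun i _ => Nat.zero_le _) (mem_range.2 (by omega))
    have h8 : ((1/4:ℝ)) ^ (∑ a ∈ range (a0 + 1), ra_N a) ≤ (1/4) ^ (ra_N a) :=
      pow_le_pow_of_le_one (by norm_num) (by norm_num) h7
    calc min c ((1/4:ℝ) ^ (∑ a ∈ range (a0 + 1), ra_N a)) * (a:ℝ) ^ (-(1/4) : ℝ)
        ≤ (1/4:ℝ) ^ (∑ a ∈ range (a0 + 1), ra_N a) * 1 :=
          mul_le_mul (min_le_right _ _) h6 hp.le hN.le
      _ ≤ (1/4:ℝ) ^ (ra_N a) := by rw [mul_one]; exact h8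
      _ = _ := rfl

end H953L
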