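import Pool.Agent.H953.OL.Stm

/-!
The sum over all sets (statement S_set; by helper720).
-/

set_option autoImplicit false
set_option linter.unusedSectionVars false

namespace H953L

open H974 Finset H12S H342P H984P MeasureTheory
open Pool.Agent.Y993.LL (loop Closed Conn bx SL SU CL CU SB VV)
open Pool.Agent.H953 (EM im eds Vi X1c mem_Vi eds_self eds_comm)
open Pool.Agent.NH39.W (psi dm conn)

namespace Set

theorem lam_pos {q : ℝ} (hq : q < 1/2) : 0 < lam q := by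
  unfold lam
  exact Real.rpow_pos_of_pos (abs_pos.2 (by linarith)) _

theorem lam_le {q : ℝ} (h0 : 0 ≤ q) (hq : q < 1/2) : lam q ≤ 1 := by
  unfold lam
  refine Real.rpow_le_one (abs_nonneg _) ?_ (by norm_num)
  rw [abs_le]
  constructor <;> linarith

theorem L_ge {q : ℝ} (h0 : 0 ≤ q) (hq : q < 1/2) : 1 ≤ lam q ^ (-(7/4) : ℝ) :=
  Real.one_le_rpow_of_pos_of_le_one_of_nonpos (lam_pos hq) (lam_le h0 hq) (by norm_num)

theorem ee_L {q : ℝ} (h0 : 0 ≤ q) (hq : q < 1/2) : 1 ≤ 2 * (ee q * lam q ^ (-(7/4) : ℝ)) := by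
  have hl := lam_pos hq
  have hl1 := lam_le h0 hq
  have h1 : lam q / 2 ≤ lam q / (1 + lam q) := by
    apply div_le_div_of_nonneg_left hl.le (by linarith) (by linarith)
  have h2 : (lam q / 2) ^ (1/4 : ℝ) ≤ ee q := by
    unfold ee
    exact Real.rpow_le_rpow (by positivity) h1 (by norm_num)
  have h3 : (lam q / 2) ^ (1/4 : ℝ) = lam q ^ (1/4 : ℝ) * ((1/2 : ℝ)) ^ (1/4 : ℝ) := by
    rw [div_eq_mul_one_div, Real.mul_rpow hl.le (by norm_num)]
  have h4 : (1/2 : ℝ) ≤ ((1/2 : ℝ)) ^ (1/4 : ℝ) := by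
    have := Real.rpow_le_rpow_of_exponent_ge (x := (1/2 : ℝ)) (by norm_num) (by norm_num)
      (show (1/4 : ℝ) ≤ 1 by norm_num)
    rwa [Real.rpow_one] at this
  have h5 : lam q ^ (1/4 : ℝ) * lam q ^ (-(7/4) : ℝ) = lam q ^ (-(3/2) : ℝ) := by
    rw [← Real.rpow_add hl]
    norm_num
  have h6 : 1 ≤ lam q ^ (-(3/2) : ℝ) :=
    Real.one_le_rpow_of_pos_of_le_one_of_nonpos hl hl1 (by norm_num)
  have h7 : 0 ≤ lam q ^ (-(7/4) : ℝ) := Real.rpow_nonneg hl.le _
  have h8 : lam q ^ (1/4 : ℝ) * (1/2) ≤ ee q :=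
    (mul_le_mul_of_nonneg_left h4 (Real.rpow_nonneg hl.le _)).trans (h3 ▸ h2)
  have h9 := mul_le_mul_of_nonneg_right h8 h7
  have h10 : lam q ^ (1/4 : ℝ) * (1/2) * lam q ^ (-(7/4) : ℝ) =
      (1/2) * (lam q ^ (1/4 : ℝ) * lam q ^ (-(7/4) : ℝ)) := by ring
  rw [h10, h5] at h9
  linarith

theorem psi_nn {w : ℕ → ℝ} (hw : ∀ r, 1 ≤ r → 0 < w r) (N s : ℕ) : 0 ≤ psi w N s :=
  (hw _ (le_max_left _ _)).le

theorem Kf_nn {u g : ℕ → ℝ} {ε : ℝ} (hu : ∀ r, 1 ≤ r → 0 < u r) (hg : ∀ r, 1 ≤ r → 0 < g r)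
    (hε : 0 < ε) (N d : ℕ) : 0 ≤ Kf u g ε N d := by
  unfold Kf
  have h1 := psi_nn hu N d
  have h2 := psi_nn hg N d
  have h3 : 0 ≤ ε⁻¹ := (inv_pos.2 hε).le
  exact add_nonneg (add_nonneg (mul_nonneg hε.le h2) (mul_nonneg h2 h1))
    (mul_nonneg h3 (mul_nonneg h2 (pow_nonneg h1 2)))

/-- the edges at the position of the origin -/
noncomputable def Z0 (m : ℕ) : Finset (EM (2 * m)) :=
  Finset.univ.filter (fun y => eds y.1 (0, 0, true) = 0)

theorem Z0_card (m : ℕ) : (Z0 m).card ≤ 2 := by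
  have h1 : (Z0 m).card ≤ (Finset.univ : Finset Bool).card := by
    apply Finset.card_le_card_of_injOn (fun y => y.1.2.2)
    · intro y _
      exact Finset.mem_coe.2 (Finset.mem_univ _)
    · intro y hy y' hy' h
      rw [Finset.mem_coe, Z0, Finset.mem_filter] at hy hy'
      have e1 := hy.2
      have e2 := hy'.2
      unfold eds at e1 e2
      simp only at e1 e2
      apply Subtype.ext
      refine Prod.ext (by omega) (Prod.ext (by omega) h)
  exact h1

theorem dm_zero {m : ℕ} {S : Finset (EM (2 * m))} {o : EM (2 * m)} (ho : o.1 = (0, 0, true))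
    (hoS : o ∈ S) (h : dm (fun a b : EM (2 * m) => eds a.1 b.1) S = 0) : S ⊆ Z0 m := by
  intro y hy
  rw [Z0, Finset.mem_filter]
  refine ⟨Finset.mem_univ _, ?_⟩
  have h1 : eds y.1 o.1 ≤ dm (fun a b : EM (2 * m) => eds a.1 b.1) S := by
    unfold dm
    refine le_trans ?_ (Finset.le_sup (f := fun a : EM (2 * m) => S.sup (fun b => eds a.1 b.1)) hy)
    exact Finset.le_sup (f := fun b : EM (2 * m) => eds y.1 b.1) hoS
  rw [h, ho] at h1
  omega

end Set

open H953L.Set in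
theorem set_sum (h1 : S_key) (h2 : S_kl) (h3 : S_ker) : S_set := by
  classical
  obtain ⟨C, W, hKL⟩ := h2
  obtain ⟨C', hC', hker⟩ := h3
  have hC1 : 1 ≤ C := (hKL 0 le_rfl (by norm_num) 1 le_rfl).hC
  have hW1 : 1 ≤ W := (hKL 0 le_rfl (by norm_num) 1 le_rfl).hW
  obtain ⟨a, ha⟩ : ∃ a : ℝ, a = C * W ^ 4 := ⟨_, rfl⟩
  have ha1 : 1 ≤ a := by
    rw [ha]
    exact one_le_mul_of_one_le_of_one_le hC1 (one_le_pow₀ hW1)
  refine ⟨11 * (a ^ 4 * (3 * C')), ?_, ?_⟩
  · have e1 : 1 ≤ a ^ 4 := one_le_pow₀ ha1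
    have e2 : 1 ≤ a ^ 4 * (3 * C') := one_le_mul_of_one_le_of_one_le e1 (by linarith)
    linarith
  intro q q0 hq m hm o ho k hk
  have H := hKL q q0 hq m hm
  have oko : Ok (fun _ : EM (2 * m) => q) := fun _ => ⟨q0, by linarith⟩
  obtain ⟨L, hL⟩ : ∃ L : ℝ, L = lam q ^ (-(7/4) : ℝ) := ⟨_, rfl⟩
  have hL1 : 1 ≤ L := by rw [hL]; exact L_ge q0 hq
  have heL : 1 ≤ 2 * (ee q * L) := by rw [hL]; exact ee_L q0 hq
  obtain ⟨ε, hε⟩ : ∃ ε : ℝ, ε = ee q := ⟨_, rfl⟩
  have hε0 : 0 < ε := by rw [hε]; exact H.e0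
  rw [← hL, ← hε]
  rw [← hε] at heL
  have hoV : o ∈ Vi m := by
    rw [mem_Vi, ho, eds_self]
    omega
  obtain ⟨Mk, hMk⟩ : ∃ Mk : ℝ, Mk = C' * L := ⟨_, rfl⟩
  have hMk0 : 0 < Mk := by rw [hMk]; positivity
  obtain ⟨K, hK⟩ : ∃ K : EM (2 * m) → EM (2 * m) → ℝ, K = fun y z =>
    Kf (uu q) (gg q) (ee q) m (eds y.1 z.1) := ⟨_, rfl⟩
  have hKn : ∀ y z, 0 ≤ K y z := by
    intro y z
    rw [hK]
    exact Kf_nn H.up H.gp H.e0 _ _
  have hKs : ∀ z ∈ Vi m, ∑ y ∈ Vi m, K y z ≤ Mk := by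
    intro z hz
    rw [hK, hMk, hL]
    exact hker q q0 hq m hm z hz
  obtain ⟨P, hP⟩ : ∃ P : Finset (EM (2 * m)) → ℝ, P = fun S =>
    Pr (fun _ => q) Finset.univ (DsL m S) := ⟨_, rfl⟩
  have hPS : ∀ S, Pr (fun _ => q) Finset.univ (DsL m S) = P S := fun S => by rw [hP]
  have hP0 : ∀ S, 0 ≤ P S := fun S => by rw [hP]; exact Pr_nonneg oko _ _
  have hP1 : ∀ S, P S ≤ 1 := fun S => by rw [hP]; exact Pr_le_one oko _ _
  obtain ⟨w, hw⟩ : ∃ w : Finset (EM (2 * m)) → EM (2 * m) → ℝ, w = fun S x =>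
    if x = o ∧ 0 < dm (fun a b : EM (2 * m) => eds a.1 b.1) S then P S / (a ^ (4 * S.card) * ε)
    else 0 := ⟨_, rfl⟩
  have hw0 : ∀ S x, 0 ≤ w S x := by
    intro S x
    rw [hw]
    simp only
    split_ifs
    · exact div_nonneg (hP0 S) (by positivity)
    · exact le_refl 0
  have htree := Pool.Agent.Y21.NE.tree (Vi m) K w Mk (3 * Mk)⁻¹ hKn hKs (by positivity)
    (by rw [mul_inv_cancel₀ (by positivity)])
    (by
      intro S hS x hx
      by_cases hxo : x = o ∧ 0 < dm (fun a b : EM (2 * m) => eds a.1 b.1) S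
      · obtain ⟨rfl, hdm⟩ := hxo
        obtain ⟨par, rk, e1, e2⟩ := h1 _ _ _ _ _ _ _ _ _ _ H S x hx
          (fun y hy => by rw [ho]; exact mem_Vi.1 (hS hy)) hdm
        refine ⟨par, rk, e1, ?_⟩
        rw [hw]
        simp only
        rw [if_pos ⟨trivial, hdm⟩, div_le_iff₀ (by positivity)]
        rw [hPS, ← hε, ← ha] at e2
        refine e2.trans (le_of_eq ?_)
        rw [hK, ← hε]
        ring
      · refine ⟨fun _ => x, fun y => if y = x then 0 else 1, ?_, ?_⟩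
        · intro y _ hyx
          simp [hx, hyx]
        · rw [hw]
          simp only
          rw [if_neg hxo]
          exact Finset.prod_nonneg (fun y _ => hKn _ _)) o hoV
  -- the sets of cardinality `k + 1`
  have card_sum : ∑ S ∈ ((Vi m).powersetCard (k + 1)).filter (fun S => o ∈ S), w S o ≤
      3 * (3 * Mk) ^ k := by
    have h1 : ∑ S ∈ ((Vi m).powersetCard (k + 1)).filter (fun S => o ∈ S),
        ((3 * Mk)⁻¹) ^ (k + 1) * w S o ≤ 3 * (3 * Mk)⁻¹ := by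
      refine le_trans ?_ htree
      have h2 : ∑ S ∈ ((Vi m).powersetCard (k + 1)).filter (fun S => o ∈ S),
          ((3 * Mk)⁻¹) ^ (k + 1) * w S o = ∑ S ∈ ((Vi m).powersetCard (k + 1)).filter
            (fun S => o ∈ S), ((3 * Mk)⁻¹) ^ S.card * w S o := by
        apply Finset.sum_congr rfl
        intro S hS
        rw [Finset.mem_filter, Finset.mem_powersetCard] at hS
        rw [hS.1.2]
      rw [h2]
      apply Finset.sum_le_sum_of_subset_of_nonneg
      · intro S hS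
        rw [Finset.mem_filter, Finset.mem_powersetCard] at hS
        rw [Finset.mem_filter, Finset.mem_powerset]
        exact ⟨hS.1.1, hS.2⟩
      · intro S _ _
        exact mul_nonneg (by positivity) (hw0 _ _)
    rw [← Finset.mul_sum, pow_succ] at h1
    have h3 : 0 < (3 * Mk)⁻¹ := by positivity
    have h4 : (((3 * Mk)⁻¹) ^ k * ∑ S ∈ ((Vi m).powersetCard (k + 1)).filter (fun S => o ∈ S), w S o) *
        (3 * Mk)⁻¹ ≤ 3 * (3 * Mk)⁻¹ := by
      calc _ = ((3 * Mk)⁻¹) ^ k * (3 * Mk)⁻¹ *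
            ∑ S ∈ ((Vi m).powersetCard (k + 1)).filter (fun S => o ∈ S), w S o := by ring
        _ ≤ _ := h1
    have h5 := le_of_mul_le_mul_right h4 h3
    have h6 : ((3 * Mk)⁻¹) ^ k * (3 * Mk) ^ k = 1 := by
      rw [← mul_pow, inv_mul_cancel₀ (by positivity), one_pow]
    have h7 : 0 ≤ (3 * Mk) ^ k := by positivity
    have h8 := mul_le_mul_of_nonneg_right h5 h7
    calc _ = (((3 * Mk)⁻¹) ^ k * (3 * Mk) ^ k) *
          ∑ S ∈ ((Vi m).powersetCard (k + 1)).filter (fun S => o ∈ S), w S o := by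
            rw [h6, one_mul]
      _ = (((3 * Mk)⁻¹) ^ k * ∑ S ∈ ((Vi m).powersetCard (k + 1)).filter (fun S => o ∈ S), w S o) *
          (3 * Mk) ^ k := by ring
      _ ≤ _ := h8
  have hLk : L ≤ L ^ k := le_self_pow₀ hL1 (by omega)
  -- pointwise bound
  have hpt : ∀ S ∈ ((Vi m).powersetCard (k + 1)).filter (fun S => o ∈ S), P S ≤
      a ^ (4 * (k + 1)) * ε * w S o + (if S ∈ (Z0 m).powerset then 2 * (ε * L) else 0) := by
    intro S hS
    rw [Finset.mem_filter, Finset.mem_powersetCard] at hS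
    by_cases hdm : 0 < dm (fun a b : EM (2 * m) => eds a.1 b.1) S
    · have e1 : a ^ (4 * (k + 1)) * ε * w S o = P S := by
        rw [hw]
        simp only
        rw [if_pos ⟨trivial, hdm⟩, hS.1.2]
        field_simp
      rw [e1]
      have : 0 ≤ (if S ∈ (Z0 m).powerset then 2 * (ε * L) else 0) := by
        split_ifs
        · positivity
        · exact le_refl 0
      linarith
    · have hZ : S ∈ (Z0 m).powerset := Finset.mem_powerset.2 (dm_zero ho hS.2 (by omega))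
      rw [if_pos hZ]
      have e1 := hP1 S
      have e2 : 0 ≤ a ^ (4 * (k + 1)) * ε * w S o := mul_nonneg (by positivity) (hw0 _ _)
      linarith
  have hZsum : ∑ S ∈ ((Vi m).powersetCard (k + 1)).filter (fun S => o ∈ S),
      (if S ∈ (Z0 m).powerset then 2 * (ε * L) else 0) ≤ 8 * (ε * L) := by
    rw [← Finset.sum_filter, Finset.sum_const, nsmul_eq_mul]
    have e1 : ((((Vi m).powersetCard (k + 1)).filter (fun S => o ∈ S)).filter
        (fun S => S ∈ (Z0 m).powerset)).card ≤ 4 := by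
      calc _ ≤ ((Z0 m).powerset).card := Finset.card_le_card
            (fun S hS => (Finset.mem_filter.1 hS).2)
        _ = 2 ^ (Z0 m).card := Finset.card_powerset _
        _ ≤ 2 ^ 2 := Nat.pow_le_pow_right (by norm_num) (Z0_card m)
        _ = 4 := by norm_num
    have e2 : (((((Vi m).powersetCard (k + 1)).filter (fun S => o ∈ S)).filter
        (fun S => S ∈ (Z0 m).powerset)).card : ℝ) ≤ 4 := by exact_mod_cast e1
    have e3 : 0 ≤ 2 * (ε * L) := by positivity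
    have e4 := mul_le_mul_of_nonneg_right e2 e3
    linarith
  have hgoal : ∑ S ∈ ((Vi m).powersetCard (k + 1)).filter (fun S => o ∈ S),
      Pr (fun _ => q) Finset.univ (DsL m S) ≤
      a ^ (4 * (k + 1)) * ε * (3 * (3 * Mk) ^ k) + 8 * (ε * L) := by
    simp only [hPS]
    refine (Finset.sum_le_sum hpt).trans ?_
    rw [Finset.sum_add_distrib, ← Finset.mul_sum]
    exact add_le_add (mul_le_mul_of_nonneg_left card_sum (by positivity)) hZsum
  refine hgoal.trans ?_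
  obtain ⟨A, hA⟩ : ∃ A : ℝ, A = a ^ 4 * (3 * C') := ⟨_, rfl⟩
  have hA1 : 1 ≤ A := by
    rw [hA]
    exact one_le_mul_of_one_le_of_one_le (one_le_pow₀ ha1) (by linarith)
  have f1 : a ^ (4 * (k + 1)) * (3 * C') ^ k ≤ A ^ (k + 1) := by
    rw [hA, mul_pow (a ^ 4) (3 * C') (k + 1), ← pow_mul]
    exact mul_le_mul_of_nonneg_left (pow_le_pow_right₀ (by linarith) (Nat.le_succ k)) (by positivity)
  have f2 : 1 ≤ A ^ (k + 1) := one_le_pow₀ hA1
  have f3 : (11 : ℝ) ≤ 11 ^ (k + 1) := le_self_pow₀ (by norm_num) (by omega)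
  have f4 : 0 ≤ ε * L ^ k := by positivity
  have f5 : a ^ (4 * (k + 1)) * ε * (3 * (3 * Mk) ^ k) =
      3 * (a ^ (4 * (k + 1)) * (3 * C') ^ k) * (ε * L ^ k) := by
    rw [hMk, ← mul_assoc 3 C' L, mul_pow (3 * C') L k]
    ring
  have f6 : 8 * (ε * L) ≤ 8 * (ε * L ^ k) :=
    mul_le_mul_of_nonneg_left (mul_le_mul_of_nonneg_left hLk hε0.le) (by norm_num)
  rw [f5, ← hA]
  calc 3 * (a ^ (4 * (k + 1)) * (3 * C') ^ k) * (ε * L ^ k) + 8 * (ε * L)
      ≤ 3 * A ^ (k + 1) * (ε * L ^ k) + 8 * A ^ (k + 1) * (ε * L ^ k) := by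
        apply add_le_add
        · exact mul_le_mul_of_nonneg_right (mul_le_mul_of_nonneg_left f1 (by norm_num)) f4
        · refine f6.trans ?_
          rw [mul_assoc 8 (A ^ (k + 1)) (ε * L ^ k)]
          refine mul_le_mul_of_nonneg_left ?_ (by norm_num)
          exact le_mul_of_one_le_left f4 f2
    _ = 11 * (A ^ (k + 1) * (ε * L ^ k)) := by ring
    _ ≤ 11 ^ (k + 1) * (A ^ (k + 1) * (ε * L ^ k)) :=
        mul_le_mul_of_nonneg_right f3 (by positivity)
    _ = (11 * A) ^ (k + 1) * (ε * L ^ k) := by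
        rw [mul_pow 11 A (k + 1)]
        ring

end H953L
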