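import Pool.Agent.H953.OL.Stm

/-!
Project OL (helper953): the signed Harris inequality for two crossings of strips (`S_strip`), any
parameter and any length. The proof is that of `strip_harris` in
`Pool/Graph/R_seed8/Y993/LL/Strip.lean`.
-/

set_option autoImplicit false

namespace H953L

open H974 Finset H12S H342P H984P MeasureTheory
open Pool.Agent.Y993.LL (loop Closed Conn bx SL SU CL CU SB VV)

theorem strip : S_strip := by
  classical
  intro q X1 X2 y0 a S N hq0 hq1 ha h1 hS hN
  have ha' : (1 : ℤ) ≤ a := by exact_mod_cast ha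
  set T1 : Finset Edg := SL X1 X2 y0 a with hT1
  set T2 : Finset Edg := S.filter (fun e => dl e ∈ SU X1 X2 y0 a) with hT2
  have h1S : T1 ⊆ S := Pool.Agent.Y993.LL.SL_sub.trans hS
  have hdU : dE (SU X1 X2 y0 a) ⊆ ↑S :=
    (Pool.Agent.Y993.LL.dSU_sub ha).trans (by exact_mod_cast hS)
  have mT2 : ∀ e, e ∈ T2 ↔ dl e ∈ SU X1 X2 y0 a := by
    intro e
    rw [hT2, Finset.mem_filter]
    exact ⟨fun h => h.2, fun h => ⟨hdU h, h⟩⟩
  have hdisj : Disjoint T1 T2 := by
    rw [Finset.disjoint_left]
    rintro ⟨x, y, _ | _⟩ k1 k2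
    · rw [mT2] at k2
      simp only [hT1, SL, SU, dl_f, mem_LRE_false, mem_LRE_true] at k1 k2
      omega
    · rw [mT2] at k2
      simp only [hT1, SL, SU, dl_t, mem_LRE_false, mem_LRE_true] at k1 k2
      omega
  have key := harris_signed (p := fun _ : Edg => q) (fun _ => ⟨hq0, hq1⟩) (S := S) (T₁ := T1)
    (T₂ := T2) h1S (Finset.filter_subset _ _) hdisj (N := N) (f := CL X1 X2 y0 a)
    (g := fun F => CU X1 X2 y0 a (↑F : Set Edg))
    (fun F _ => LRc_local (Finset.Subset.refl _))
    (fun F G hFG h => h.mono hFG)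
    (by
      intro F _
      have : dE (SU X1 X2 y0 a) \ (↑(F ∩ T2) : Set Edg) = dE (SU X1 X2 y0 a) \ ↑F := by
        ext e
        rw [Finset.coe_inter]
        constructor
        · rintro ⟨k1, k2⟩
          exact ⟨k1, fun k3 => k2 ⟨k3, (mT2 e).2 k1⟩⟩
        · rintro ⟨k1, k2⟩
          exact ⟨k1, fun k3 => k2 k3.1⟩
      unfold CU
      rw [this])
    (by
      rintro F G hFG ⟨y, y', k1, k2, k3⟩
      refine ⟨y, y', k1, k2, k3.mono ?_⟩
      rintro e ⟨k4, k5⟩
      exact ⟨k4, fun k6 => k5 (hFG k6)⟩)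
    (by
      intro F G hFS hGS hout k1 k2 hNF
      refine hN F G hFS hGS ?_ hNF
      intro v hv
      apply Tr760.RA_mono
      · intro e he heF
        have hn2 : e ∉ T2 := fun h => Pool.Agent.Y993.LL.PR_not hv he ((mT2 e).1 h)
        by_cases hn1 : e ∈ T1
        · exact (Finset.mem_inter.1 (k1 (Finset.mem_inter.2 ⟨heF, hn1⟩))).1
        · have : e ∈ F \ (T1 ∪ T2) := by
            rw [Finset.mem_sdiff, Finset.mem_union]
            exact ⟨heF, fun h => h.elim hn1 hn2⟩
          rw [hout, Finset.mem_sdiff] at this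
          exact this.1
      · intro e he heG
        have hn1 : e ∉ T1 := fun h => Pool.Agent.Y993.LL.DR_not hv he h
        by_cases hn2 : e ∈ T2
        · exact (Finset.mem_inter.1 (k2 (Finset.mem_inter.2 ⟨heG, hn2⟩))).1
        · have : e ∈ G \ (T1 ∪ T2) := by
            rw [Finset.mem_sdiff, Finset.mem_union]
            exact ⟨heG, fun h => h.elim hn1 hn2⟩
          rw [← hout, Finset.mem_sdiff] at this
          exact this.1)
  refine le_trans (le_of_eq ?_) key
  ring

end H953L
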