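import Pool.Agent.H953.OL.Stm
import Pool.Graph.R_seed8.Y993.LL.Macro

/-!
E2. All states are equivalent: translations and rotations.
-/

set_option autoImplicit false

namespace H953L

open H974 Finset H12S H342P H984P MeasureTheory
open Pool.Agent.Y993.LL (loop Closed Conn bx SL SU CL CU SB VV tS tS_inj tS_orb rS_inj)

namespace Sym

theorem lg_rot (n : ℕ) (σ : St) (F : Finset Edg) :
    Lg n (rS σ) (↑(rM F) : Set Edg) ↔ Lg n σ (↑F : Set Edg) := by
  refine forall_congr' fun i => forall_congr' fun _ => forall_congr' fun _ => not_congr ?_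
  rw [rot_orb]
  exact rS_inj.eq_iff

theorem lg_trl (s t : ℤ) (n : ℕ) (σ : St) (F : Finset Edg) :
    Lg n (tS s t σ) (↑((trl s t).mp F) : Set Edg) ↔ Lg n σ (↑F : Set Edg) := by
  refine forall_congr' fun i => forall_congr' fun _ => forall_congr' fun _ => not_congr ?_
  rw [tS_orb]
  exact (tS_inj s t).eq_iff

theorem bx_trl (u : Vtx) (k : ℤ) : (trl u.1 u.2).mp (bx (0, 0) k) = bx u k := by
  unfold bx
  rw [trl_RE]
  congr 1 <;> ring

theorem bx_rot (k : ℤ) : rM (bx (0, 0) k) = bx (0, 0) k := by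
  unfold bx
  rw [rot_RE]
  congr 1 <;> ring

theorem pr_rot (q : ℝ) (n : ℕ) (σ : St) :
    Pr (fun _ => q) (bx (0, 0) n) (fun F => Lg n (rS σ) (↑F : Set Edg)) =
      Pr (fun _ => q) (bx (0, 0) n) (fun F => Lg n σ (↑F : Set Edg)) := by
  have h := rot_pr q (bx (0, 0) n) (fun F => Lg n (rS σ) (↑F : Set Edg))
  rw [bx_rot] at h
  rw [h]
  simp only [lg_rot]

theorem pr_trl (q : ℝ) (n : ℕ) (u : Vtx) (σ : St) :
    Pr (fun _ => q) (bx u n) (fun F => Lg n (tS u.1 u.2 σ) (↑F : Set Edg)) =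
      Pr (fun _ => q) (bx (0, 0) n) (fun F => Lg n σ (↑F : Set Edg)) := by
  have h := LSym.pr (trl u.1 u.2) q (bx (0, 0) n) (fun F => Lg n (tS u.1 u.2 σ) (↑F : Set Edg))
  rw [bx_trl] at h
  rw [h]
  simp only [lg_trl]

end Sym

open _root_.H953L.Sym in
theorem sym (_h : S_loc) : S_sym := by
  intro q n σ _ _
  obtain ⟨⟨x, y⟩, c⟩ := σ
  have e : (((x, y), c) : St) = tS x y ((0, 0), c) := by simp [tS]
  have h := pr_trl q n (x, y) ((0, 0), c)
  have h' : Pr (fun _ => q) (bx ((x, y) : Vtx) n) (fun F => Lg n ((x, y), c) (↑F : Set Edg)) =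
      Pr (fun _ => q) (bx (0, 0) n) (fun F => Lg n ((0, 0), c) (↑F : Set Edg)) := by
    rw [← h]
    simp only [tS, zero_add]
  refine h'.trans ?_
  have r1 := pr_rot q n s0
  have r2 := pr_rot q n (rS s0)
  have r3 := pr_rot q n (rS (rS s0))
  cases c
  · rfl
  · exact r1
  · exact r2.trans r1
  · exact r3.trans (r2.trans r1)

end H953L
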