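import Pool.Agent.H953.OL.Stm

/-!
Two arms from a point, at all scales, below the critical point.
-/

set_option autoImplicit false
set_option maxHeartbeats 1000000

namespace H953L

open H974 Finset H12S H342P H984P MeasureTheory
open Pool.Agent.H953 (X1c X1c_congr X1c_of)
open Pool.Agent.NH39 (InB OutB)

/-! ### Events -/

theorem two2_loc {u p : Vtx} {k : ℕ} (hk : 1 ≤ k) (G : Finset Edg) :
    Two u p k (↑G : Set Edg) ↔ Two u p k (↑(G ∩ blk u k) : Set Edg) :=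
  two_inter (m := (k:ℤ)) (by exact_mod_cast hk) G (Finset.Subset.refl _)

theorem two2_mono {u p : Vtx} {j k : ℕ} (hjk : j ≤ k) {G : Set Edg} (h : Two u p k G) :
    Two u p j G := by
  obtain ⟨⟨w, h1, h2⟩, g, h3, h4⟩ := h
  refine ⟨⟨w, ?_, h2⟩, g, ?_, h4⟩
  · unfold Far at *; omega
  · unfold FarF inF at *; omega

theorem two2_out {u w : Vtx} {k : ℕ} (h : Far u k w) : OutB u k w := by
  unfold Far at h
  unfold OutB
  simp only [le_abs]
  omega

theorem two2_X {u p : Vtx} {r k : ℕ} (hrk : r ≤ k) {G : Set Edg} (h : Two u p k G) :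
    X1c u r k G := by
  obtain ⟨⟨w, h1, h2⟩, -⟩ := h
  exact X1c_of hrk (by unfold InB; simp) (two2_out h1) h2

theorem two2_sub (u : Vtx) {r k : ℕ} (hrk : r ≤ k) : blk u r ⊆ blk u k := by
  unfold blk
  exact RE_subset (by omega) (by omega) (by omega) (by omega)

theorem two2_Xloc {u : Vtx} {r k : ℕ} (F : Finset Edg) :
    X1c u r k (↑F : Set Edg) ↔ X1c u r k (↑(F ∩ (blk u k \ blk u r)) : Set Edg) := by
  apply X1c_congr
  ext e
  simp only [Set.mem_inter_iff, Finset.coe_inter, Finset.mem_coe, Finset.mem_sdiff]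
  tauto

theorem two2_split {q : ℝ} (h0 : 0 ≤ q) (h1 : q ≤ 1) {u p : Vtx} {r k : ℕ} (hr : 1 ≤ r)
    (hrk : r ≤ k) {S : Finset Edg} (hS : blk u k ⊆ S) :
    Pr (fun _ => q) S (fun F => Two u p k (↑F : Set Edg)) ≤
      Pr (fun _ => q) (blk u r) (fun F => Two u p r (↑F : Set Edg)) *
      Pr (fun _ => q) S (fun F => X1c u r k (↑F : Set Edg)) := by
  have ok := okq h0 h1
  have hsub : blk u r ⊆ blk u k := two2_sub u hrk
  have e1 : Pr (fun _ => q) S (fun F => Two u p r (↑F : Set Edg)) =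
      Pr (fun _ => q) (blk u r) (fun F => Two u p r (↑F : Set Edg)) :=
    Pr_local (hsub.trans hS) (fun F _ => two2_loc hr F)
  have e2 : Pr (fun _ => q) S (fun F => Two u p r (↑F : Set Edg) ∧ X1c u r k (↑F : Set Edg)) =
      Pr (fun _ => q) S (fun F => Two u p r (↑F : Set Edg)) *
        Pr (fun _ => q) S (fun F => X1c u r k (↑F : Set Edg)) :=
    Pr_indep (S := blk u r) (T := blk u k \ blk u r) (hsub.trans hS)
      (Finset.sdiff_subset.trans hS) Finset.disjoint_sdiff (fun F _ => two2_loc hr F)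
      (fun F _ => two2_Xloc F)
  rw [← e1, ← e2]
  exact Pr_mono ok (fun F _ h => ⟨two2_mono hrk h, two2_X hrk h⟩)

/-! ### Weights -/

theorem two2_lam0 (q : ℝ) : 0 ≤ lam q := Real.rpow_nonneg (abs_nonneg _) _

theorem two2_lam1 {q : ℝ} (h0 : 0 ≤ q) (h1 : q < 1/2) : lam q ≤ 1 := by
  unfold lam
  apply Real.rpow_le_one (abs_nonneg _) _ (by norm_num)
  rw [abs_le]
  constructor <;> linarith

theorem two2_uu1 {q : ℝ} (h0 : 0 ≤ q) (h1 : q < 1/2) {k : ℕ} (hk : 1 ≤ k) :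
    (k:ℝ) ^ (-(1/4) : ℝ) ≤ 2 * uu q k := by
  have l0 := two2_lam0 q
  have l1 := two2_lam1 h0 h1
  have hk0 : (0:ℝ) < k := by exact_mod_cast hk
  have h2 : (k:ℝ)⁻¹ / 2 ≤ ((k:ℝ)⁻¹ + lam q) / (1 + lam q) := by
    rw [div_le_div_iff₀ (by norm_num) (by linarith)]
    have : 0 < (k:ℝ)⁻¹ := by positivity
    nlinarith
  have h3 : ((k:ℝ)⁻¹ / 2) ^ (1/4 : ℝ) ≤ uu q k :=
    Real.rpow_le_rpow (by positivity) h2 (by norm_num)
  have h4 : ((k:ℝ)⁻¹ / 2) ^ (1/4 : ℝ) = (k:ℝ) ^ (-(1/4) : ℝ) / (2:ℝ) ^ (1/4 : ℝ) := by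
    rw [Real.div_rpow (by positivity) (by norm_num), Real.inv_rpow hk0.le, Real.rpow_neg hk0.le]
  have h5 : (2:ℝ) ^ (1/4 : ℝ) ≤ 2 := by
    calc (2:ℝ) ^ (1/4 : ℝ) ≤ (2:ℝ) ^ (1 : ℝ) :=
          Real.rpow_le_rpow_of_exponent_le (by norm_num) (by norm_num)
      _ = 2 := Real.rpow_one 2
  have h6 : (0:ℝ) < (2:ℝ) ^ (1/4 : ℝ) := by positivity
  rw [h4, div_le_iff₀ h6] at h3
  have h7 : 0 ≤ uu q k := by
    unfold uu
    apply Real.rpow_nonneg
    positivity
  nlinarith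

theorem two2_uu2 {q : ℝ} (h0 : 0 ≤ q) (h1 : q < 1/2) {k : ℕ} :
    (lam q / 2) ^ (1/4 : ℝ) ≤ uu q k := by
  have l0 := two2_lam0 q
  have l1 := two2_lam1 h0 h1
  have hk0 : (0:ℝ) ≤ (k:ℝ)⁻¹ := by positivity
  apply Real.rpow_le_rpow (by positivity) _ (by norm_num)
  rw [div_le_div_iff₀ (by norm_num) (by linarith)]
  nlinarith

theorem two2_gg {q b : ℝ} {k : ℕ} (h : lam q * k ≤ b) :
    1 ≤ (1 + b) ^ 3 * gg q k := by
  have l0 := two2_lam0 q
  have hk0 : (0:ℝ) ≤ k := by positivity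
  have hb : 0 ≤ lam q * k := by positivity
  unfold gg
  rw [← mul_pow]
  apply one_le_pow₀
  rw [← mul_div_assoc, le_div_iff₀ (by linarith)]
  nlinarith

theorem two2_gg0 (q : ℝ) (k : ℕ) : 0 < gg q k := by
  have l0 := two2_lam0 q
  unfold gg
  positivity

theorem two2_gg1 (q : ℝ) : gg q 1 = 1 := by
  have l0 := two2_lam0 q
  unfold gg
  rw [Nat.cast_one, mul_one, div_self (by linarith), one_pow]

/-! ### The bound -/

theorem two2 (h : S_crs) (h2 : H953S.S_twoup) : S_two2 := by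
  obtain ⟨C1, hC1, hX⟩ := h
  obtain ⟨C0, β, hC0, hβ, hT⟩ := h2
  obtain ⟨b, hb⟩ : ∃ b : ℝ, b = β ^ (4/3 : ℝ) := ⟨_, rfl⟩
  have hb0 : 0 < b := by rw [hb]; positivity
  obtain ⟨M1, hM1⟩ : ∃ M : ℝ, M = C0 * (2 * (1 + b) ^ 3) := ⟨_, rfl⟩
  obtain ⟨M2, hM2⟩ : ∃ M : ℝ, M = C1 / (b / 2) ^ (1/4 : ℝ) := ⟨_, rfl⟩
  obtain ⟨M3, hM3⟩ : ∃ M : ℝ, M = C0 * (C1 * ((1 + b) ^ 3 * (4 / b) ^ (1/4 : ℝ))) := ⟨_, rfl⟩
  have hM10 : 0 < M1 := by rw [hM1]; positivity
  have hM20 : 0 < M2 := by rw [hM2]; positivity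
  have hM30 : 0 < M3 := by rw [hM3]; positivity
  refine ⟨1 + M1 + M2 + M3, by linarith, ?_⟩
  intro q q0 q1 u p k S hI hk hS
  have q1' : q ≤ 1 := by linarith
  have ok := okq q0 q1'
  have l0 := two2_lam0 q
  have l1 := two2_lam1 q0 q1
  have hk0 : (0:ℝ) < k := by exact_mod_cast hk
  obtain ⟨t, ht⟩ : ∃ t : ℝ, t = 1/2 - q := ⟨_, rfl⟩
  have ht0 : 0 < t := by rw [ht]; linarith
  have hlt : lam q = t ^ (4/3 : ℝ) := by
    unfold lam
    rw [ht, abs_sub_comm, abs_of_pos (by linarith)]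
  have hl0 : 0 < lam q := by rw [hlt]; positivity
  have hgk := two2_gg0 q k
  have hu1 := two2_uu1 q0 q1 hk
  have hu2 := two2_uu2 q0 q1 (k := k)
  have huk : 0 < uu q k := lt_of_lt_of_le (by positivity) hu2
  have hug : 0 < uu q k * gg q k := by positivity
  have key : ∀ M : ℝ, M ≤ M1 + M2 + M3 →
      Pr (fun _ => q) S (fun F => Two u p k (↑F : Set Edg)) ≤ M * (uu q k * gg q k) →
      Pr (fun _ => q) S (fun F => Two u p k (↑F : Set Edg)) ≤
        (1 + M1 + M2 + M3) * (uu q k * gg q k) := by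
    intro M hM hle
    refine hle.trans ?_
    apply mul_le_mul_of_nonneg_right _ hug.le
    linarith
  -- the scale of the correlation length
  obtain ⟨X, hXd⟩ : ∃ X : ℝ, X = (β / t) ^ (4/3 : ℝ) := ⟨_, rfl⟩
  have hX0 : 0 < X := by rw [hXd]; positivity
  have hlX : lam q * X = b := by
    rw [hlt, hXd, hb, Real.div_rpow hβ.le ht0.le]
    have : (0:ℝ) < t ^ (4/3 : ℝ) := by positivity
    field_simp
  -- scales up to `X`
  have small : ∀ j : ℕ, 1 ≤ j → (j:ℝ) ≤ X →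
      Pr (fun _ => q) (blk u j) (fun F => Two u p j (↑F : Set Edg)) ≤ C0 * (j:ℝ) ^ (-(1/4) : ℝ) ∧
      1 ≤ (1 + b) ^ 3 * gg q j := by
    intro j hj hjX
    have hj0 : (0:ℝ) < j := by exact_mod_cast hj
    refine ⟨hT q q0 q1.le j hj ?_ u p hI, two2_gg ?_⟩
    · rw [← ht]
      have h3 : (j:ℝ) ^ (3/4 : ℝ) ≤ β / t := by
        have h4 : (j:ℝ) ^ (3/4 : ℝ) ≤ X ^ (3/4 : ℝ) := Real.rpow_le_rpow hj0.le hjX (by norm_num)
        rw [hXd, ← Real.rpow_mul (by positivity)] at h4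
        norm_num at h4
        exact h4
      have h5 : 0 < (j:ℝ) ^ (3/4 : ℝ) := Real.rpow_pos_of_pos hj0 _
      rw [Real.rpow_neg hj0.le, ← div_eq_mul_inv, le_div_iff₀ h5]
      rw [le_div_iff₀ ht0] at h3
      linarith
    · rw [← hlX]
      exact mul_le_mul_of_nonneg_left hjX hl0.le
  rcases le_or_gt (k:ℝ) X with hkX | hkX
  · -- below the correlation length
    apply key M1 (by linarith)
    have e1 : Pr (fun _ => q) S (fun F => Two u p k (↑F : Set Edg)) =
        Pr (fun _ => q) (blk u k) (fun F => Two u p k (↑F : Set Edg)) :=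
      Pr_local hS (fun F _ => two2_loc hk F)
    rw [e1]
    obtain ⟨h3, h4⟩ := small k hk hkX
    refine h3.trans ?_
    calc C0 * (k:ℝ) ^ (-(1/4) : ℝ) ≤ C0 * (2 * uu q k) * 1 := by
          rw [mul_one]; exact mul_le_mul_of_nonneg_left hu1 hC0.le
      _ ≤ C0 * (2 * uu q k) * ((1 + b) ^ 3 * gg q k) :=
          mul_le_mul_of_nonneg_left h4 (by positivity)
      _ = M1 * (uu q k * gg q k) := by rw [hM1]; ring
  · rcases lt_or_ge X 1 with hX1 | hX1
    · -- the correlation length is bounded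
      apply key M2 (by linarith)
      have hlb : b ≤ lam q := by rw [← hlX]; nlinarith
      have h3 : (b / 2) ^ (1/4 : ℝ) ≤ uu q k :=
        (Real.rpow_le_rpow (by positivity) (by linarith) (by norm_num)).trans hu2
      have h4 := hX q q0 q1 u 1 k S le_rfl hk hS
      rw [two2_gg1, div_one] at h4
      have h5 : Pr (fun _ => q) S (fun F => Two u p k (↑F : Set Edg)) ≤
          Pr (fun _ => q) S (fun F => X1c u 1 k (↑F : Set Edg)) :=
        Pr_mono ok (fun F _ hF => two2_X hk hF)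
      refine h5.trans (h4.trans ?_)
      have hb2 : (0:ℝ) < (b / 2) ^ (1/4 : ℝ) := by positivity
      have h6 : 1 ≤ uu q k / (b / 2) ^ (1/4 : ℝ) := by rw [le_div_iff₀ hb2]; linarith
      calc C1 * gg q k = C1 * gg q k * 1 := by ring
        _ ≤ C1 * gg q k * (uu q k / (b / 2) ^ (1/4 : ℝ)) :=
            mul_le_mul_of_nonneg_left h6 (by positivity)
        _ = M2 * (uu q k * gg q k) := by rw [hM2]; ring
    · -- beyond the correlation length
      apply key M3 (by linarith)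
      obtain ⟨j, hj⟩ : ∃ j : ℕ, j = ⌊X⌋₊ := ⟨_, rfl⟩
      have hjX : (j:ℝ) ≤ X := by rw [hj]; exact Nat.floor_le hX0.le
      have hj1 : 1 ≤ j := by
        rw [hj]
        exact (Nat.le_floor_iff hX0.le).2 (by exact_mod_cast hX1)
      have hj0 : (0:ℝ) < j := by exact_mod_cast hj1
      have hj1' : (1:ℝ) ≤ j := by exact_mod_cast hj1
      have hj2 : X ≤ 2 * j := by
        have h3 : X < (j:ℝ) + 1 := by rw [hj]; exact Nat.lt_floor_add_one X
        linarith
      have hjk : j ≤ k := by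
        have : (j:ℝ) ≤ k := hjX.trans hkX.le
        exact_mod_cast this
      obtain ⟨h3, h4⟩ := small j hj1 hjX
      have h5 := two2_split (p := p) q0 q1' hj1 hjk hS
      have h6 := hX q q0 q1 u j k S hj1 hjk hS
      have hgj := two2_gg0 q j
      -- the weight of the two arms
      have h7 : (j:ℝ) ^ (-(1/4) : ℝ) ≤ (4 / b) ^ (1/4 : ℝ) * uu q k := by
        have h8 : (j:ℝ)⁻¹ ≤ 4 / b * (lam q / 2) := by
          rw [inv_eq_one_div, div_mul_eq_mul_div, div_le_div_iff₀ hj0 hb0, ← hlX]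
          nlinarith
        have h9 : ((j:ℝ)⁻¹) ^ (1/4 : ℝ) ≤ (4 / b * (lam q / 2)) ^ (1/4 : ℝ) :=
          Real.rpow_le_rpow (by positivity) h8 (by norm_num)
        rw [Real.mul_rpow (by positivity) (by positivity), Real.inv_rpow hj0.le,
          ← Real.rpow_neg hj0.le] at h9
        exact h9.trans (mul_le_mul_of_nonneg_left hu2 (by positivity))
      -- the weight of the crossing
      have h8 : gg q k / gg q j ≤ (1 + b) ^ 3 * gg q k := by
        rw [div_le_iff₀ hgj]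
        nlinarith
      calc Pr (fun _ => q) S (fun F => Two u p k (↑F : Set Edg))
          ≤ Pr (fun _ => q) (blk u j) (fun F => Two u p j (↑F : Set Edg)) *
            Pr (fun _ => q) S (fun F => X1c u j k (↑F : Set Edg)) := h5
        _ ≤ (C0 * ((4 / b) ^ (1/4 : ℝ) * uu q k)) * (C1 * ((1 + b) ^ 3 * gg q k)) := by
            apply mul_le_mul
            · exact h3.trans (mul_le_mul_of_nonneg_left h7 hC0.le)
            · exact h6.trans (mul_le_mul_of_nonneg_left h8 (by linarith))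
            · exact Pr_nonneg ok _ _
            · positivity
        _ = M3 * (uu q k * gg q k) := by rw [hM3]; ring

end H953L
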