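import Pool.Agent.H953.OL.Stm2
import Pool.Agent.H953.Spd.Ann
import Pool.Agent.H953.Spd.VT
import Pool.Agent.H953.Spd.Up

/-!
Two arms from a point, with exponential decay beyond the correlation length (helper236).
-/

set_option autoImplicit false
set_option maxHeartbeats 1000000

namespace H953L

open H974 Finset H12S H342P H984P MeasureTheory

namespace Two3

/-! ### Events -/

theorem loc {u p : Vtx} {k : ℕ} (hk : 1 ≤ k) (G : Finset Edg) :
    Two u p k (↑G : Set Edg) ↔ Two u p k (↑(G ∩ blk u k) : Set Edg) :=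
  two_inter (m := (k:ℤ)) (by exact_mod_cast hk) G (Finset.Subset.refl _)

theorem mono {u p : Vtx} {j k : ℕ} (hjk : j ≤ k) {G : Set Edg} (h : Two u p k G) :
    Two u p j G := by
  obtain ⟨⟨w, h1, h2⟩, g, h3, h4⟩ := h
  refine ⟨⟨w, ?_, h2⟩, g, ?_, h4⟩
  · unfold Far at *; omega
  · unfold FarF inF at *; omega

theorem loc0 {u p : Vtx} (hI : Inc u p) (G : Set Edg) : Two u p ((0 : ℕ) : ℤ) G := by
  refine ⟨⟨u, ?_, Reach.refl _ _⟩, p, ?_, DReach.refl _ _⟩
  · unfold Far
    left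
    simp
  · unfold Inc at hI
    unfold FarF inF
    push_cast
    omega

theorem sub (u : Vtx) {r k : ℕ} (hrk : r ≤ k) : blk u r ⊆ blk u k := by
  unfold blk
  exact RE_subset (by omega) (by omega) (by omega) (by omega)

theorem crs {u p : Vtx} {r k : ℕ} (hrk : r ≤ k) {G : Finset Edg}
    (h : Two u p k (↑G : Set Edg)) :
    Crs u.1 u.2 r k (↑(G ∩ (blk u k \ blk u r)) : Set Edg) := by
  obtain ⟨⟨w0, h1, h2⟩, -⟩ := h
  have hr0 : (r:ℤ) ≤ k := by exact_mod_cast hrk
  obtain ⟨w, -, hw2, hw3⟩ := first_exit (a := u.1 - k) (b := u.1 + k) (c := u.2 - k)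
    (d := u.2 + k) (by unfold inR; omega) h2 (by unfold Far at h1; omega)
  obtain ⟨x, hx, hxw⟩ := H953S.VT_last (a := u.1 - r) (b := u.1 + r) (c := u.2 - r)
    (d := u.2 + r) (by unfold inR; omega) hw3
  refine ⟨x, w, hx, by omega, hxw.mono ?_⟩
  rintro e ⟨⟨he1, he2⟩, he3⟩
  rw [Finset.mem_coe, Finset.mem_inter, Finset.mem_sdiff]
  exact ⟨he1, he2, he3⟩

/-! ### The two factors -/

/-- The two arms at the scale of the correlation length. -/
theorem two_le {C β B q : ℝ} (q0 : 0 ≤ q) (q1 : q ≤ 1/2) {m : ℕ}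
    (h2 : ∀ q : ℝ, 0 ≤ q → q ≤ 1/2 → ∀ n : ℕ, 1 ≤ n →
      1/2 - q ≤ β * (n:ℝ) ^ (-(3/4) : ℝ) → ∀ u p : Vtx, Inc u p →
      Pr (fun _ => q) (blk u n) (fun F => Two u p n (↑F : Set Edg)) ≤ C * (n:ℝ) ^ (-(1/4) : ℝ))
    (hm0 : m = 0 → 1 ≤ B) (hm1 : 1 ≤ m → 1/2 - q ≤ β * (m:ℝ) ^ (-(3/4) : ℝ) ∧
        C * (m:ℝ) ^ (-(1/4) : ℝ) ≤ B) (u p : Vtx) (hu : Inc u p) :
    Pr (fun _ => q) (blk u m) (fun F => Two u p m (↑F : Set Edg)) ≤ B := by
  rcases Nat.eq_zero_or_pos m with h | h
  · exact (Pr_le_one (okq q0 (by linarith)) _ _).trans (hm0 h)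
  · obtain ⟨h3, h4⟩ := hm1 h
    exact (h2 q q0 q1 m h h3 u p hu).trans h4

/-- The crossing of the annulus, exponential decay. -/
theorem crs_le {q E : ℝ} (q0 : 0 ≤ q) (q1 : q ≤ 1) (hE : 1 ≤ E) {N : ℕ} (hN : 2 ≤ N) {l : ℝ}
    (hl0 : 0 ≤ l) (hNl : (N:ℝ) * l ≤ E) (he : eps (1 - q) N ≤ 1/100) (u : Vtx) (k : ℕ) :
    Pr (fun _ => q) (blk u k) (fun F => Crs u.1 u.2 (N - 1) k (↑F : Set Edg)) ≤
      2 * Real.exp (-(k * l / (4 * E))) := by
  have ok := okq q0 q1
  have hNr : (0:ℝ) < N := by exact_mod_cast (by omega : 0 < N)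
  have hE0 : 0 < E := by linarith
  rw [H953S.ann_trl]
  by_cases hc : k < 2 * N
  · have h1 : (k:ℝ) ≤ 2 * N := by exact_mod_cast hc.le
    have h2 : (k:ℝ) * l / (4 * E) ≤ 1/2 := by
      rw [div_le_iff₀ (by positivity)]
      have : (k:ℝ) * l ≤ 2 * N * l := mul_le_mul_of_nonneg_right h1 hl0
      nlinarith
    have h3 : 1 - 1/2 ≤ Real.exp (-(k * l / (4 * E))) := by
      have := Real.add_one_le_exp (-(k * l / (4 * E)))
      linarith
    refine (Pr_le_one ok _ _).trans ?_
    linarith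
  · obtain ⟨j, hj1, hj2⟩ : ∃ j : ℕ, 2 * (2 ^ j * N) ≤ k ∧ k < 2 * (2 ^ (j + 1) * N) := by
      have hex : ∃ j : ℕ, k < 2 * (2 ^ (j + 1) * N) := by
        refine ⟨k, ?_⟩
        have h2 : k < 2 ^ k := Nat.lt_two_pow_self
        have h3 : 2 ^ k ≤ 2 ^ (k + 1) := Nat.pow_le_pow_right (by norm_num) (by omega)
        nlinarith
      classical
      obtain ⟨j, hj, hmin⟩ : ∃ j, k < 2 * (2 ^ (j + 1) * N) ∧
          ∀ i < j, ¬ k < 2 * (2 ^ (i + 1) * N) :=
        ⟨Nat.find hex, Nat.find_spec hex, fun i hi => Nat.find_min hex hi⟩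
      refine ⟨j, ?_, hj⟩
      rcases Nat.eq_zero_or_pos j with h | h
      · subst h
        rw [pow_zero, one_mul]
        omega
      · have := hmin (j - 1) (by omega)
        rw [Nat.sub_add_cancel h] at this
        omega
    have hN2 : 2 ≤ 2 ^ j * N := by
      calc 2 ≤ N := hN
        _ ≤ 2 ^ j * N := Nat.le_mul_of_pos_left _ (by positivity)
    have hrN : N - 1 + 1 ≤ 2 ^ j * N := by
      have : N ≤ 2 ^ j * N := Nat.le_mul_of_pos_left _ (by positivity)
      omega
    have e1 := H953S.ann_eps q0 q1 hN2 hrN hj1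
    have e2 := H31K.eps_pow2 (p := 1 - q) (by linarith) (by linarith) hN he j
    have e3 : ((1:ℝ) / 4) ^ (2 ^ j) ≤ Real.exp (-(k * l / (4 * E))) := by
      have h4 : (1:ℝ) / 4 ≤ Real.exp (-1) := by
        have h5 : Real.exp 1 ≤ 4 := by
          have := Real.exp_one_lt_d9
          linarith
        rw [Real.exp_neg, one_div]
        exact inv_anti₀ (Real.exp_pos 1) h5
      have h6 : ((1:ℝ) / 4) ^ (2 ^ j) ≤ (Real.exp (-1)) ^ (2 ^ j) :=
        pow_le_pow_left₀ (by norm_num) h4 _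
      rw [← Real.exp_nat_mul] at h6
      refine h6.trans (Real.exp_le_exp.mpr ?_)
      push_cast
      have h7 : (k:ℝ) ≤ 4 * (2 ^ j * N) := by
        have : k ≤ 4 * (2 ^ j * N) := by
          rw [pow_succ] at hj2
          nlinarith
        exact_mod_cast this
      have h8 : (k:ℝ) * l ≤ 4 * (2 ^ j * N) * l := mul_le_mul_of_nonneg_right h7 hl0
      have h9 : (4:ℝ) * (2 ^ j * N) * l ≤ 4 * 2 ^ j * E := by
        have : (4:ℝ) * (2 ^ j * N) * l = 4 * 2 ^ j * (N * l) := by ring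
        rw [this]
        exact mul_le_mul_of_nonneg_left hNl (by positivity)
      have h10 : (k:ℝ) * l / (4 * E) ≤ 2 ^ j := by
        rw [div_le_iff₀ (by positivity)]
        linarith
      linarith
    have e4 : (0:ℝ) < Real.exp (-(k * l / (4 * E))) := Real.exp_pos _
    linarith

end Two3

open Two3

theorem two3 (h : H953S.S_twoup) : S_two3 := by
  obtain ⟨C, β, hC, hβ, htwo⟩ := h
  obtain ⟨E, hE, hfar⟩ := Pool.Agent.W424.NC.farN
  obtain ⟨C', hC', hnum⟩ := H953S.UpAux.num hC hβ hE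
  have hC0 : 0 < C' := by linarith
  have hE0 : 0 < E := by linarith
  refine ⟨1 / (8 * E), C + 3 * C' + 32 * E * C', by positivity, by positivity, ?_⟩
  intro q q0 q1 u p k S hI hk hS
  have ok := okq q0 (by linarith : q ≤ 1)
  have hk0 : (0:ℝ) < k := by exact_mod_cast hk
  have hkk : (0:ℝ) < (k:ℝ) ^ (-(1/4) : ℝ) := Real.rpow_pos_of_pos hk0 _
  have e0 : Pr (fun _ => q) S (fun F => Two u p k (↑F : Set Edg)) =
      Pr (fun _ => q) (blk u k) (fun F => Two u p k (↑F : Set Edg)) :=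
    Pr_local hS (fun F _ => loc hk F)
  rw [e0]
  rcases eq_or_lt_of_le q1 with hq | hq
  · -- the critical point
    have hl : lam q = 0 := by
      unfold lam
      rw [hq, sub_self, abs_zero, Real.zero_rpow (by norm_num)]
    rw [hl, mul_zero, mul_zero, neg_zero, Real.exp_zero, mul_one]
    have h1 := htwo q q0 q1 k hk (by rw [hq, sub_self]; positivity) u p hI
    refine h1.trans (mul_le_mul_of_nonneg_right ?_ hkk.le)
    have : 0 < 3 * C' + 32 * E * C' := by positivity
    linarith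
  · obtain ⟨N, hN2, hNE, hN1, heps⟩ := hfar q q0 hq
    have ht : 0 < 1/2 - q := by linarith
    have hlt : lam q = (1/2 - q) ^ (4/3 : ℝ) := by
      unfold lam
      rw [abs_sub_comm, abs_of_pos ht]
    obtain ⟨l, hl⟩ : ∃ l, l = (1/2 - q) ^ (4/3 : ℝ) := ⟨_, rfl⟩
    rw [hlt, ← hl]
    rw [← hl] at hNE hN1
    have hl0 : 0 < l := by rw [hl]; exact Real.rpow_pos_of_pos ht _
    have hNr : (2:ℝ) ≤ N := by exact_mod_cast hN2
    have hc : ((N - 1 : ℕ) : ℝ) = (N:ℝ) - 1 := by
      rw [Nat.cast_sub (by omega)]; norm_num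
    have hrE : ((N - 1 : ℕ) : ℝ) * (1/2 - q) ^ (4/3 : ℝ) ≤ E := by
      rw [hc, ← hl]
      nlinarith
    obtain ⟨x, hx⟩ : ∃ x : ℝ, x = k * l / (8 * E) := ⟨_, rfl⟩
    have hx0 : 0 < x := by rw [hx]; positivity
    have hx1 : -(1 / (8 * E) * (k * l)) = -x := by rw [hx]; ring
    rw [hx1]
    have hex : 0 < Real.exp (-x) := Real.exp_pos _
    rcases le_or_gt k (N - 1) with hkN | hkN
    · -- below the correlation length
      obtain ⟨m, hmk, hm0, hm1⟩ := hnum (1/2 - q) (N - 1) k ht hrE hk hkN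
      have hA := two_le q0 q1 htwo hm0 hm1 u p hI
      have h1 : Pr (fun _ => q) (blk u k) (fun F => Two u p k (↑F : Set Edg)) ≤
          Pr (fun _ => q) (blk u m) (fun F => Two u p m (↑F : Set Edg)) := by
        rcases Nat.eq_zero_or_pos m with h | h
        · subst h
          have h3 : Pr (fun _ => q) (blk u 0) (fun F => Two u p (0 : ℕ) (↑F : Set Edg)) =
              Pr (fun _ => q) (blk u k) (fun F => Two u p (0 : ℕ) (↑F : Set Edg)) :=
            (Pr_local (sub u (Nat.zero_le k)) (fun F _ =>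
              ⟨fun _ => loc0 hI _, fun _ => loc0 hI _⟩)).symm
          rw [h3]
          exact Pr_mono ok (fun F _ h4 => mono (Nat.zero_le k) h4)
        · rw [← Pr_local (sub u hmk) (fun F _ => loc h F)]
          exact Pr_mono ok (fun F _ h4 => mono hmk h4)
      refine (h1.trans hA).trans ?_
      have h2 : x ≤ 1/8 := by
        have h3 : (k:ℝ) ≤ N := by
          have : k ≤ N := by omega
          exact_mod_cast this
        have h4 : (k:ℝ) * l ≤ E := (mul_le_mul_of_nonneg_right h3 hl0.le).trans hNE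
        rw [hx, div_le_iff₀ (by positivity)]
        linarith
      have h5 : 1 ≤ 3 * Real.exp (-x) := by
        have := Real.add_one_le_exp (-x)
        linarith
      have h6 : C' * (k:ℝ) ^ (-(1/4) : ℝ) * 1 ≤ C' * (k:ℝ) ^ (-(1/4) : ℝ) * (3 * Real.exp (-x)) :=
        mul_le_mul_of_nonneg_left h5 (by positivity)
      have h7 : 0 ≤ (C + 32 * E * C') * ((k:ℝ) ^ (-(1/4) : ℝ) * Real.exp (-x)) := by positivity
      nlinarith
    · -- beyond the correlation length
      have hr1 : 1 ≤ N - 1 := by omega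
      have hrk : N - 1 ≤ k := hkN.le
      obtain ⟨m, hmr, hm0, hm1⟩ := hnum (1/2 - q) (N - 1) (N - 1) ht hrE hr1 le_rfl
      have hA := two_le q0 q1 htwo hm0 hm1 u p hI
      have hB := crs_le q0 (by linarith) hE hN2 hl0.le hNE heps u k
      have hsub1 : blk u m ⊆ blk u (N - 1) := sub u hmr
      have hsub2 : blk u (N - 1) ⊆ blk u k := sub u hrk
      have hloc : ∀ F : Finset Edg, Two u p m (↑F : Set Edg) ↔
          Two u p m (↑(F ∩ blk u m) : Set Edg) := by
        intro F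
        rcases Nat.eq_zero_or_pos m with h | h
        · subst h
          exact ⟨fun _ => loc0 hI _, fun _ => loc0 hI _⟩
        · exact loc h F
      have h1 : Pr (fun _ => q) (blk u k) (fun F => Two u p k (↑F : Set Edg)) ≤
          Pr (fun _ => q) (blk u k) (fun F => Two u p m (↑F : Set Edg) ∧
            Crs u.1 u.2 (N - 1) k (↑(F ∩ (blk u k \ blk u (N - 1))) : Set Edg)) :=
        Pr_mono ok (fun F _ h4 => ⟨mono (hmr.trans hrk) h4, crs hrk h4⟩)
      rw [Pr_indep (S := blk u m) (T := blk u k \ blk u (N - 1)) (hsub1.trans hsub2)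
        sdiff_subset (disjoint_sdiff.mono_left hsub1) (fun F _ => hloc F)
        (fun F _ => by rw [inter_assoc, inter_self])] at h1
      have h2 : Pr (fun _ => q) (blk u k) (fun F => Two u p m (↑F : Set Edg)) =
          Pr (fun _ => q) (blk u m) (fun F => Two u p m (↑F : Set Edg)) :=
        Pr_local (hsub1.trans hsub2) (fun F _ => hloc F)
      have h3 : Pr (fun _ => q) (blk u k)
          (fun F => Crs u.1 u.2 (N - 1) k (↑(F ∩ (blk u k \ blk u (N - 1))) : Set Edg)) ≤
          Pr (fun _ => q) (blk u k) (fun F => Crs u.1 u.2 (N - 1) k (↑F : Set Edg)) :=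
        Pr_mono ok (fun F _ h4 => BS_crs_mono (by
          rw [Finset.coe_inter]; exact Set.inter_subset_left) h4)
      rw [h2] at h1
      have h4 : Pr (fun _ => q) (blk u k) (fun F => Two u p k (↑F : Set Edg)) ≤
          (C' * ((N - 1 : ℕ):ℝ) ^ (-(1/4) : ℝ)) * (2 * Real.exp (-(k * l / (4 * E)))) :=
        h1.trans (mul_le_mul hA (h3.trans hB) (Pr_nonneg ok _ _) (by positivity))
      refine h4.trans ?_
      have h5 : Real.exp (-(k * l / (4 * E))) = Real.exp (-x) * Real.exp (-x) := by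
        rw [← Real.exp_add, hx]
        congr 1
        field_simp
        ring
      obtain ⟨r, hr⟩ : ∃ r : ℝ, r = ((N - 1 : ℕ):ℝ) := ⟨_, rfl⟩
      rw [← hr, h5]
      have hr0 : 1 ≤ r := by rw [hr]; exact_mod_cast hr1
      have hrpos : 0 < r := by linarith
      have hrk' : r ≤ k := by rw [hr]; exact_mod_cast hrk
      have hrN : (N:ℝ) ≤ 2 * r := by rw [hr, hc]; linarith
      -- `(k / r) ^ (1/4) ≤ 16 E exp x`
      have h6 : (k:ℝ) / r ≤ 16 * E * Real.exp x := by
        have h7 : (k:ℝ) / r ≤ 16 * E * x := by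
          rw [hx, div_le_iff₀ hrpos]
          have h8 : 1 ≤ 2 * r * l := by nlinarith
          have h9 : 16 * E * (k * l / (8 * E)) * r = k * (2 * r * l) := by
            field_simp
            ring
          rw [h9]
          nlinarith
        have h10 : x ≤ Real.exp x := by
          have := Real.add_one_le_exp x
          linarith
        exact h7.trans (mul_le_mul_of_nonneg_left h10 (by positivity))
      have h11 : r ^ (-(1/4) : ℝ) ≤ 16 * E * Real.exp x * (k:ℝ) ^ (-(1/4) : ℝ) := by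
        have h12 : 1 ≤ (k:ℝ) / r := by rw [one_le_div hrpos]; exact hrk'
        have h13 : ((k:ℝ) / r) ^ (1/4 : ℝ) ≤ (k:ℝ) / r := by
          calc ((k:ℝ) / r) ^ (1/4 : ℝ) ≤ ((k:ℝ) / r) ^ (1 : ℝ) :=
                Real.rpow_le_rpow_of_exponent_le h12 (by norm_num)
            _ = (k:ℝ) / r := Real.rpow_one _
        have h14 : r ^ (-(1/4) : ℝ) = ((k:ℝ) / r) ^ (1/4 : ℝ) * (k:ℝ) ^ (-(1/4) : ℝ) := by
          rw [Real.div_rpow hk0.le hrpos.le, Real.rpow_neg hrpos.le, Real.rpow_neg hk0.le]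
          have : (0:ℝ) < (k:ℝ) ^ (1/4 : ℝ) := Real.rpow_pos_of_pos hk0 _
          have : (0:ℝ) < r ^ (1/4 : ℝ) := Real.rpow_pos_of_pos hrpos _
          field_simp
        rw [h14]
        exact mul_le_mul_of_nonneg_right (h13.trans h6) hkk.le
      have h15 : Real.exp x * Real.exp (-x) = 1 := by
        rw [← Real.exp_add, add_neg_cancel, Real.exp_zero]
      have h16 : C' * r ^ (-(1/4) : ℝ) * (2 * (Real.exp (-x) * Real.exp (-x))) ≤
          C' * (16 * E * Real.exp x * (k:ℝ) ^ (-(1/4) : ℝ)) *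
            (2 * (Real.exp (-x) * Real.exp (-x))) := by
        apply mul_le_mul_of_nonneg_right _ (by positivity)
        exact mul_le_mul_of_nonneg_left h11 hC0.le
      have h17 : C' * (16 * E * Real.exp x * (k:ℝ) ^ (-(1/4) : ℝ)) *
            (2 * (Real.exp (-x) * Real.exp (-x))) =
          32 * E * C' * (k:ℝ) ^ (-(1/4) : ℝ) * Real.exp (-x) * (Real.exp x * Real.exp (-x)) := by
        ring
      rw [h17, h15, mul_one] at h16
      refine h16.trans ?_
      apply mul_le_mul_of_nonneg_right _ hex.le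
      apply mul_le_mul_of_nonneg_right _ hkk.le
      linarith

end H953L
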