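import Pool.Agent.H953.OL.Stm2
import Pool.Agent.H953.Spd.DualT
import Pool.Agent.H953.Spd.DLaw

/-!
Two arms above the critical point, by duality.
-/

set_option autoImplicit false

namespace H953L

open H974 Finset H12S H342P H984P MeasureTheory

namespace Two4

open H953S (dS)

/-- The edges next to a face of the box are edges of the box. -/
theorem mem_blk {u : Vtx} {k : ℕ} {e : Edg} {g : Vtx}
    (hg : inF (u.1 - k) (u.1 + k) (u.2 - k) (u.2 + k) g) (h : dsrc e = g ∨ dtgt e = g) :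
    e ∈ blk u k := by
  unfold blk
  unfold inF at hg
  obtain ⟨x, y, t⟩ := e
  cases t
  · rw [mem_RE_false]
    rcases h with h | h
    · rw [dsrc_false] at h
      rw [← h] at hg
      simp only at hg
      omega
    · rw [dtgt_mk] at h
      rw [← h] at hg
      simp only at hg
      omega
  · rw [mem_RE_true]
    rcases h with h | h
    · rw [dsrc_true] at h
      rw [← h] at hg
      simp only at hg
      omega
    · rw [dtgt_mk] at h
      rw [← h] at hg
      simp only at hg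
      omega

/-- First exit of the dual path. -/
theorem dual_exit {u p g : Vtx} {k : ℕ} {G : Set Edg} (h : DReach Gᶜ p g) :
    (∃ g', ¬ inF (u.1 - k) (u.1 + k) (u.2 - k) (u.2 + k) g' ∧
      DReach ((↑(blk u k) : Set Edg) \ G) p g') ∨
    (inF (u.1 - k) (u.1 + k) (u.2 - k) (u.2 + k) g ∧
      DReach ((↑(blk u k) : Set Edg) \ G) p g) := by
  induction h with
  | refl =>
    by_cases hp : inF (u.1 - k) (u.1 + k) (u.2 - k) (u.2 + k) p
    · exact Or.inr ⟨hp, DReach.refl _ _⟩
    · exact Or.inl ⟨p, hp, DReach.refl _ _⟩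
  | @tail g g' _ hs ih =>
    rcases ih with ih | ⟨ih1, ih2⟩
    · exact Or.inl ih
    · obtain ⟨e, he, h⟩ := hs
      have hm : e ∈ blk u k := by
        refine mem_blk ih1 ?_
        rcases h with ⟨h1, -⟩ | ⟨-, h1⟩
        · exact Or.inl h1
        · exact Or.inr h1
      have hr : DReach ((↑(blk u k) : Set Edg) \ G) p g' :=
        ih2.trans (DAdj.reach ⟨e, ⟨Finset.mem_coe.2 hm, he⟩, h⟩)
      by_cases hp : inF (u.1 - k) (u.1 + k) (u.2 - k) (u.2 + k) g'
      · exact Or.inr ⟨hp, hr⟩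
      · exact Or.inl ⟨g', hp, hr⟩

/-- The two arms in the dual configuration. -/
theorem two_dual {u p : Vtx} {k : ℕ} (hup : Inc u p) {S F : Finset Edg}
    (hS : blk u (k + 1) ⊆ S) (h : Two u p ((k + 1 : ℕ) : ℤ) (↑F : Set Edg)) :
    Two p (u.1 - 1, u.2 - 1) (k : ℤ) (↑(dS S F) : Set Edg) := by
  obtain ⟨⟨w, hw, hr⟩, g, hg, hd⟩ := h
  obtain ⟨i1, i2⟩ : (p.1 = u.1 ∨ p.1 = u.1 - 1) ∧ (p.2 = u.2 ∨ p.2 = u.2 - 1) := hup
  constructor
  · obtain ⟨g', h1, h2⟩ : ∃ g', ¬ inF (u.1 - (k + 1 : ℕ)) (u.1 + (k + 1 : ℕ))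
        (u.2 - (k + 1 : ℕ)) (u.2 + (k + 1 : ℕ)) g' ∧
        DReach ((↑(blk u (k + 1)) : Set Edg) \ (↑F : Set Edg)) p g' := by
      rcases dual_exit (u := u) (k := k + 1) hd with h1 | ⟨h1, -⟩
      · exact h1
      · exact absurd h1 hg
    refine ⟨g', ?_, H953S.DualT.dreach_reach ?_ h2⟩
    · unfold inF at h1
      unfold Far
      push_cast at h1
      omega
    · rintro e ⟨he1, he2⟩
      show dl e ∈ H953S.DualT.ds S F
      rw [H953S.DualT.mem_ds]
      exact ⟨hS (Finset.mem_coe.1 he1), fun h => he2 (Finset.mem_coe.2 h)⟩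
  · refine ⟨(w.1 - 1, w.2 - 1), ?_, H953S.DualT.reach_shift ?_ hr⟩
    · unfold Far at hw
      unfold FarF inF
      push_cast at hw
      simp only
      omega
    · intro e he h3
      have h4 : dl e ∈ H953S.DualT.ds S F := h3
      rw [H953S.DualT.mem_ds] at h4
      exact h4.2 (Finset.mem_coe.1 he)

theorem blk_dual {u p : Vtx} {k : ℕ} (hup : Inc u p) {S : Finset Edg}
    (hS : blk u (k + 1) ⊆ S) : blk p k ⊆ S.map dl.toEmbedding := by
  obtain ⟨i1, i2⟩ : (p.1 = u.1 ∨ p.1 = u.1 - 1) ∧ (p.2 = u.2 ∨ p.2 = u.2 - 1) := hup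
  intro e he
  obtain ⟨g, rfl⟩ := H953S.DualT.dl_surj e
  rw [H953S.DualT.mem_mp]
  apply hS
  unfold blk at he ⊢
  obtain ⟨x, y, t⟩ := g
  cases t
  · rw [dl_f, mem_RE_true] at he
    rw [mem_RE_false]
    push_cast
    omega
  · rw [dl_t, mem_RE_false] at he
    rw [mem_RE_true]
    push_cast
    omega

theorem lam_symm (q : ℝ) : lam (1 - q) = lam q := by
  unfold lam
  congr 1
  rw [show (1 : ℝ) - q - 1 / 2 = -(q - 1 / 2) by ring, abs_neg]

theorem lam_nonneg (q : ℝ) : 0 ≤ lam q := Real.rpow_nonneg (abs_nonneg _) _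

theorem lam_le_one {q : ℝ} (h0 : 0 ≤ q) (h1 : q ≤ 1) : lam q ≤ 1 := by
  unfold lam
  apply Real.rpow_le_one (abs_nonneg _)
  · rw [abs_le]
    constructor <;> linarith
  · norm_num

end Two4

open Two4 in
theorem two4 (h : S_two3) : S_two4 := by
  obtain ⟨c, C, hc, hC, H⟩ := h
  refine ⟨c / 2, 2 * C + Real.exp c, by positivity, by positivity, ?_⟩
  intro q hq0 hq1 u p k S hup hk hS
  have hlam := lam_nonneg q
  have hlam1 := lam_le_one hq0 hq1
  have hok : Ok (fun _ : Edg => q) := fun _ => ⟨hq0, hq1⟩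
  have hk0 : (1 : ℝ) ≤ k := by exact_mod_cast hk
  rcases le_or_gt q (1 / 2) with hq | hq
  · refine (H q hq0 hq u p k S hup hk hS).trans ?_
    apply mul_le_mul
    · apply mul_le_mul_of_nonneg_right _ (by positivity)
      have := Real.exp_pos c
      linarith
    · apply Real.exp_le_exp.2
      have h1 : 0 ≤ c * (k * lam q) := by positivity
      linarith
    · exact (Real.exp_pos _).le
    · positivity
  · rcases Nat.eq_or_lt_of_le hk with hk1 | hk2
    · subst hk1
      refine (Pr_le_one hok S _).trans ?_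
      rw [Nat.cast_one, Real.one_rpow, mul_one, one_mul]
      have h1 : (1 : ℝ) ≤ Real.exp c * Real.exp (-(c / 2 * lam q)) := by
        rw [← Real.exp_add]
        apply Real.one_le_exp
        nlinarith
      have h2 : 0 ≤ 2 * C * Real.exp (-(c / 2 * lam q)) := by positivity
      linarith
    · obtain ⟨m, rfl⟩ : ∃ m, k = m + 1 := ⟨k - 1, by omega⟩
      have hm1 : 1 ≤ m := by omega
      have hm0 : (1 : ℝ) ≤ m := by exact_mod_cast hm1
      have hpos : (0 : ℝ) < m := by linarith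
      have h1 : Pr (fun _ => q) S (fun F => Two u p ((m + 1 : ℕ) : ℤ) (↑F : Set Edg)) ≤
          Pr (fun _ => 1 - q) (S.map dl.toEmbedding)
            (fun F => Two p (u.1 - 1, u.2 - 1) (m : ℤ) (↑F : Set Edg)) := by
        rw [← H953S.dlaw q S (fun F => Two p (u.1 - 1, u.2 - 1) (m : ℤ) (↑F : Set Edg))]
        apply Pr_mono hok
        intro F _ hF
        exact two_dual hup hS hF
      have hup' : Inc p (u.1 - 1, u.2 - 1) := by
        obtain ⟨i1, i2⟩ : (p.1 = u.1 ∨ p.1 = u.1 - 1) ∧ (p.2 = u.2 ∨ p.2 = u.2 - 1) := hup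
        refine ⟨?_, ?_⟩
        · show u.1 - 1 = p.1 ∨ u.1 - 1 = p.1 - 1
          omega
        · show u.2 - 1 = p.2 ∨ u.2 - 1 = p.2 - 1
          omega
      have h2 := H (1 - q) (by linarith) (by linarith) p (u.1 - 1, u.2 - 1) m
        (S.map dl.toEmbedding) hup' hm1 (blk_dual hup hS)
      rw [lam_symm] at h2
      refine h1.trans (h2.trans ?_)
      have h3 : (m : ℝ) ^ (-(1 / 4) : ℝ) ≤ 2 * ((m + 1 : ℕ) : ℝ) ^ (-(1 / 4) : ℝ) := by
        push_cast
        have h4 : ((m : ℝ) + 1) ≤ 2 * m := by linarith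
        have h5 : (2 * (m : ℝ)) ^ (-(1 / 4) : ℝ) ≤ ((m : ℝ) + 1) ^ (-(1 / 4) : ℝ) :=
          Real.rpow_le_rpow_of_nonpos (by linarith) h4 (by norm_num)
        rw [Real.mul_rpow (by norm_num) hpos.le] at h5
        have h6 : (1 : ℝ) / 2 ≤ (2 : ℝ) ^ (-(1 / 4) : ℝ) := by
          rw [show (1 : ℝ) / 2 = (2 : ℝ) ^ (-1 : ℝ) by
            rw [Real.rpow_neg_one]; norm_num]
          exact Real.rpow_le_rpow_of_exponent_le (by norm_num) (by norm_num)
        have h7 : 0 ≤ (m : ℝ) ^ (-(1 / 4) : ℝ) := by positivity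
        nlinarith
      have h8 : Real.exp (-(c * (m * lam q))) ≤
          Real.exp (-(c / 2 * (((m + 1 : ℕ) : ℝ) * lam q))) := by
        apply Real.exp_le_exp.2
        push_cast
        have h9 : ((m : ℝ) + 1) * lam q ≤ 2 * m * lam q :=
          mul_le_mul_of_nonneg_right (by linarith) hlam
        nlinarith
      calc C * (m : ℝ) ^ (-(1 / 4) : ℝ) * Real.exp (-(c * (m * lam q)))
          ≤ C * (2 * ((m + 1 : ℕ) : ℝ) ^ (-(1 / 4) : ℝ)) *
            Real.exp (-(c / 2 * (((m + 1 : ℕ) : ℝ) * lam q))) := by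
            apply mul_le_mul (mul_le_mul_of_nonneg_left h3 hC.le) h8 (Real.exp_pos _).le
            positivity
        _ = 2 * C * ((m + 1 : ℕ) : ℝ) ^ (-(1 / 4) : ℝ) *
            Real.exp (-(c / 2 * (((m + 1 : ℕ) : ℝ) * lam q))) := by ring
        _ ≤ (2 * C + Real.exp c) * ((m + 1 : ℕ) : ℝ) ^ (-(1 / 4) : ℝ) *
            Real.exp (-(c / 2 * (((m + 1 : ℕ) : ℝ) * lam q))) := by
            apply mul_le_mul_of_nonneg_right _ (Real.exp_pos _).le
            apply mul_le_mul_of_nonneg_right _ (by positivity)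
            have := Real.exp_pos c
            linarith

end H953L
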