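import Pool.Agent.H953.OL.Stm

/-!
Assembly of the upper bound for the law of the length of an interface loop.
-/

set_option autoImplicit false

namespace H953L

open H974 Finset H12S H342P H984P MeasureTheory
open Pool.Agent.Y993.LL (bx)

namespace Up

theorem lam_nonneg (q : ℝ) : 0 ≤ lam q := Real.rpow_nonneg (abs_nonneg _) _

theorem lam_pow (q : ℝ) : lam q ^ (7/4 : ℝ) = |q - 1/2| ^ (7/3 : ℝ) := by
  unfold lam
  rw [← Real.rpow_mul (abs_nonneg _)]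
  norm_num

/-- for x ≥ 1: lam ^ (1/4) = n ^ (-1/7) x ^ (1/7) -/
theorem lam_quarter (q : ℝ) (n : ℕ) (hn : 1 ≤ n) :
    lam q ^ (1/4 : ℝ) = (n:ℝ) ^ (-(1/7) : ℝ) * ((n:ℝ) * lam q ^ (7/4 : ℝ)) ^ (1/7 : ℝ) := by
  have hn0 : (0:ℝ) < n := by exact_mod_cast hn
  have hl := lam_nonneg q
  rw [Real.mul_rpow hn0.le (Real.rpow_nonneg hl _), ← Real.rpow_mul hl, ← mul_assoc,
    ← Real.rpow_add hn0]
  norm_num

theorem x_bound (c x : ℝ) (hc : 0 < c) (hx : 1 ≤ x) :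
    x ^ (1/7 : ℝ) * Real.exp (-(c * x)) ≤ 2 / c * Real.exp (-(c / 2 * x)) := by
  have h1 : x ^ (1/7 : ℝ) ≤ x := by
    calc x ^ (1/7 : ℝ) ≤ x ^ (1 : ℝ) := Real.rpow_le_rpow_of_exponent_le hx (by norm_num)
      _ = x := Real.rpow_one x
  have h2 : c / 2 * x ≤ Real.exp (c / 2 * x) := by
    have := Real.add_one_le_exp (c / 2 * x)
    linarith
  have h3 : x ≤ 2 / c * Real.exp (c / 2 * x) := by
    have h4 : x = 2 / c * (c / 2 * x) := by field_simp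
    calc x = 2 / c * (c / 2 * x) := h4
      _ ≤ 2 / c * Real.exp (c / 2 * x) := mul_le_mul_of_nonneg_left h2 (by positivity)
  calc x ^ (1/7 : ℝ) * Real.exp (-(c * x)) ≤ (2 / c * Real.exp (c / 2 * x)) * Real.exp (-(c * x)) :=
        mul_le_mul_of_nonneg_right (h1.trans h3) (Real.exp_pos _).le
    _ = 2 / c * (Real.exp (c / 2 * x) * Real.exp (-(c * x))) := by ring
    _ = 2 / c * Real.exp (-(c / 2 * x)) := by
        rw [← Real.exp_add]
        congr 2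
        ring

theorem cont (S : Finset Edg) (A : Finset Edg → Prop) :
    Continuous (fun q : ℝ => Pr (fun _ => q) S A) := by
  unfold Pr Ex
  fun_prop

end Up

open Up in
theorem up (h1 : S_up1) (h2 : S_up2) : S_up := by
  obtain ⟨c1, C1, hc1, hC1, H1⟩ := h1
  obtain ⟨C2, hC2, H2⟩ := h2
  have key : ∀ q : ℝ, 0 ≤ q → q < 1/2 → ∀ n : ℕ, 1 ≤ n →
      Pr (fun _ => q) (bx (0, 0) n) (fun F => Lg n s0 (↑F : Set Edg)) ≤
        (C2 * Real.exp (c1 / 2) + C1 * (2 / c1)) * (n:ℝ) ^ (-(1/7) : ℝ) *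
          Real.exp (-(c1 / 2 * (n * |q - 1/2| ^ (7/3 : ℝ)))) := by
    intro q hq0 hq1 n hn
    have hn0 : (0:ℝ) < n := by exact_mod_cast hn
    have hnp : 0 ≤ (n:ℝ) ^ (-(1/7) : ℝ) := Real.rpow_nonneg hn0.le _
    have hE : 0 ≤ Real.exp (-(c1 / 2 * (n * |q - 1/2| ^ (7/3 : ℝ)))) := (Real.exp_pos _).le
    rw [← lam_pow] at hE ⊢
    rcases le_total ((n:ℝ) * lam q ^ (7/4 : ℝ)) 1 with hx | hx
    · refine (H2 q hq0 hq1 n hn hx).trans ?_
      have e1 : (1:ℝ) ≤ Real.exp (c1 / 2) * Real.exp (-(c1 / 2 * (n * lam q ^ (7/4 : ℝ)))) := by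
        rw [← Real.exp_add]
        apply Real.one_le_exp
        have : c1 / 2 * (n * lam q ^ (7/4 : ℝ)) ≤ c1 / 2 * 1 :=
          mul_le_mul_of_nonneg_left hx (by positivity)
        linarith
      have e2 : 0 ≤ C1 * (2 / c1) * (n:ℝ) ^ (-(1/7) : ℝ) *
          Real.exp (-(c1 / 2 * (n * lam q ^ (7/4 : ℝ)))) := by positivity
      have e3 : C2 * (n:ℝ) ^ (-(1/7) : ℝ) * 1 ≤ C2 * (n:ℝ) ^ (-(1/7) : ℝ) *
          (Real.exp (c1 / 2) * Real.exp (-(c1 / 2 * (n * lam q ^ (7/4 : ℝ))))) :=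
        mul_le_mul_of_nonneg_left e1 (by positivity)
      nlinarith [e2, e3]
    · refine (H1 q hq0 hq1 n hn hx).trans ?_
      have e1 := x_bound c1 ((n:ℝ) * lam q ^ (7/4 : ℝ)) hc1 hx
      rw [lam_quarter q n hn]
      have e2 : C1 * (n:ℝ) ^ (-(1/7) : ℝ) * (((n:ℝ) * lam q ^ (7/4 : ℝ)) ^ (1/7 : ℝ) *
          Real.exp (-(c1 * (n * lam q ^ (7/4 : ℝ))))) ≤ C1 * (n:ℝ) ^ (-(1/7) : ℝ) *
          (2 / c1 * Real.exp (-(c1 / 2 * (n * lam q ^ (7/4 : ℝ))))) :=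
        mul_le_mul_of_nonneg_left e1 (by positivity)
      have e3 : 0 ≤ C2 * Real.exp (c1 / 2) * (n:ℝ) ^ (-(1/7) : ℝ) *
          Real.exp (-(c1 / 2 * (n * lam q ^ (7/4 : ℝ)))) := by positivity
      nlinarith [e2, e3]
  refine ⟨c1 / 2, C2 * Real.exp (c1 / 2) + C1 * (2 / c1), by positivity, by positivity, ?_⟩
  intro q hq0 hq1 n hn
  rcases hq1.lt_or_eq with h | h
  · exact key q hq0 h n hn
  · subst h
    have hL : Filter.Tendsto (fun q : ℝ => Pr (fun _ => q) (bx (0, 0) n)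
        (fun F => Lg n s0 (↑F : Set Edg))) (nhdsWithin (1/2) (Set.Iio (1/2)))
        (nhds (Pr (fun _ => (1/2 : ℝ)) (bx (0, 0) n) (fun F => Lg n s0 (↑F : Set Edg)))) :=
      ((cont (bx (0, 0) n) (fun F => Lg n s0 (↑F : Set Edg))).tendsto (1/2)).mono_left
        nhdsWithin_le_nhds
    have hR : Filter.Tendsto (fun q : ℝ => (C2 * Real.exp (c1 / 2) + C1 * (2 / c1)) *
        (n:ℝ) ^ (-(1/7) : ℝ) * Real.exp (-(c1 / 2 * (n * |q - 1/2| ^ (7/3 : ℝ)))))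
        (nhdsWithin (1/2) (Set.Iio (1/2)))
        (nhds ((C2 * Real.exp (c1 / 2) + C1 * (2 / c1)) *
        (n:ℝ) ^ (-(1/7) : ℝ) * Real.exp (-(c1 / 2 * (n * |(1/2 : ℝ) - 1/2| ^ (7/3 : ℝ)))))) := by
      have hcont : Continuous (fun q : ℝ => (C2 * Real.exp (c1 / 2) + C1 * (2 / c1)) *
        (n:ℝ) ^ (-(1/7) : ℝ) * Real.exp (-(c1 / 2 * (n * |q - 1/2| ^ (7/3 : ℝ))))) := by
        have h0 : Continuous (fun q : ℝ => |q - 1/2| ^ (7/3 : ℝ)) :=
          (continuous_abs.comp (continuous_id.sub continuous_const)).rpow_const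
            (fun _ => Or.inr (by norm_num))
        fun_prop
      exact (hcont.tendsto (1/2)).mono_left nhdsWithin_le_nhds
    refine le_of_tendsto_of_tendsto hL hR ?_
    have hpos : ∀ᶠ q : ℝ in nhdsWithin (1/2) (Set.Iio (1/2)), 0 < q :=
      nhdsWithin_le_nhds (lt_mem_nhds (by norm_num))
    filter_upwards [hpos, self_mem_nhdsWithin] with q hq hq'
    exact key q hq.le hq' n hn

end H953L
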