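import Pool.Agent.H953.OL.Stm

/-!
C4. The tail of the length: long loops (from the sum over all sets).
-/

set_option autoImplicit false

namespace H953L

open H974 Finset H12S H342P H984P MeasureTheory
open Pool.Agent.Y993.LL (loop Closed Conn bx SL SU CL CU SB VV conn_orb)
open Pool.Agent.H953 (EM im eds Vi X1c mem_im im_sub pr_im mem_Vi og)
open Pool.Agent.NH39.W (psi dm conn)

namespace Up1

/-! ### the interface -/

/-- The distance from the starting point. -/
theorem orb_dist (G : Set Edg) (σ : St) (i : ℕ) :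
    |(orb G σ i).1.1 - σ.1.1| ≤ i ∧ |(orb G σ i).1.2 - σ.1.2| ≤ i := by
  induction i with
  | zero => simp
  | succ i ih =>
    have h := nxt_fst G (orb G σ i)
    rw [orb_succ]
    push_cast
    simp only [abs_le] at ih h ⊢
    omega

/-- The examined edges are in the box. -/
theorem ae_box {G : Set Edg} {n i : ℕ} (hi : i < n) :
    ae (orb G s0 i) ∈ boxE n ∧ eds (ae (orb G s0 i)) (0, 0, true) ≤ n := by
  have h := orb_dist G s0 i
  obtain ⟨⟨⟨x, y⟩, k⟩, hσ⟩ : ∃ τ : St, τ = orb G s0 i := ⟨_, rfl⟩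
  rw [← hσ] at h ⊢
  unfold s0 at h
  simp only [sub_zero, abs_le] at h
  unfold boxE eds
  cases k
  · rw [ae_ne, mem_RE_true]
    simp only
    omega
  · rw [ae_nw, mem_RE_false]
    simp only
    omega
  · rw [ae_sw, mem_RE_true]
    simp only
    omega
  · rw [ae_se, mem_RE_false]
    simp only
    omega

/-- Locality. -/
theorem orb_loc {n : ℕ} {G : Set Edg} {i : ℕ} (hi : i ≤ n) :
    orb (G ∩ ↑(boxE n)) s0 i = orb G s0 i := by
  apply orb_congr (T := n) _ hi
  intro e he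
  rw [mem_Exm] at he
  obtain ⟨s, hs, rfl⟩ := he
  have h := (ae_box (G := G) hs).1
  constructor
  · intro h1
    exact ⟨h1, by exact_mod_cast h⟩
  · intro h1
    exact h1.1

theorem Lg_loc {n : ℕ} {G : Set Edg} : Lg n s0 (G ∩ ↑(boxE n)) ↔ Lg n s0 G := by
  unfold Lg
  constructor
  · intro h i hi hin
    rw [← orb_loc hin.le]
    exact h i hi hin
  · intro h i hi hin
    rw [orb_loc hin.le]
    exact h i hi hin

/-- The states are different from each other. -/
theorem orb_inj {n : ℕ} {σ : St} {G : Set Edg} (h : Lg n σ G) :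
    Set.InjOn (fun i => orb G σ i) (↑(Finset.range n) : Set ℕ) := by
  have key : ∀ i j : ℕ, i < j → j < n → orb G σ i ≠ orb G σ j := by
    intro i j hij hj he
    apply h (j - i) (by omega) (by omega)
    have h1 : orb G σ j = (nxt G)^[i] (orb G σ (j - i)) := by
      have h2 : j = i + (j - i) := by omega
      conv_lhs => rw [h2, orb_add]
      rfl
    have h3 : (nxt G)^[i] σ = (nxt G)^[i] (orb G σ (j - i)) := by
      rw [← h1, ← he]
      rfl
    exact ((nxt_bij G).injective.iterate i h3).symm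
  intro i hi j hj he
  rw [Finset.mem_coe, Finset.mem_range] at hi hj
  by_contra hne
  rcases Nat.lt_or_gt_of_ne hne with h1 | h1
  · exact key i j h1 hj he
  · exact key j i h1 hi he.symm

/-- An edge is examined by two states. -/
theorem ae_fiber (s : Finset St) (e : Edg) : (s.filter (fun σ => ae σ = e)).card ≤ 2 := by
  obtain ⟨x, y, b⟩ := e
  cases b
  · have h : s.filter (fun σ => ae σ = (x, y, false)) ⊆ {((x, y), .nw), ((x, y + 1), .se)} := by
      rintro ⟨⟨x1, y1⟩, k⟩ hσ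
      rw [Finset.mem_filter] at hσ
      have h1 := hσ.2
      rw [Finset.mem_insert, Finset.mem_singleton]
      cases k
      · rw [ae_ne] at h1; simp at h1
      · rw [ae_nw] at h1
        simp only [Prod.mk.injEq, and_true] at h1
        left
        rw [h1.1, h1.2]
      · rw [ae_sw] at h1; simp at h1
      · rw [ae_se] at h1
        simp only [Prod.mk.injEq, and_true] at h1
        right
        rw [h1.1, ← h1.2, sub_add_cancel]
    exact (Finset.card_le_card h).trans Finset.card_le_two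
  · have h : s.filter (fun σ => ae σ = (x, y, true)) ⊆ {((x, y), .ne), ((x + 1, y), .sw)} := by
      rintro ⟨⟨x1, y1⟩, k⟩ hσ
      rw [Finset.mem_filter] at hσ
      have h1 := hσ.2
      rw [Finset.mem_insert, Finset.mem_singleton]
      cases k
      · rw [ae_ne] at h1
        simp only [Prod.mk.injEq, and_true] at h1
        left
        rw [h1.1, h1.2]
      · rw [ae_nw] at h1; simp at h1
      · rw [ae_sw] at h1
        simp only [Prod.mk.injEq, and_true] at h1
        right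
        rw [h1.2, ← h1.1, sub_add_cancel]
      · rw [ae_se] at h1; simp at h1
    exact (Finset.card_le_card h).trans Finset.card_le_two

open Classical in
/-- The examined edges. -/
noncomputable def VV1 (n : ℕ) (G : Set Edg) : Finset (EM (2 * n)) :=
  (Vi n).filter (fun y => ∃ i, i < n ∧ ae (orb G s0 i) = y.1)

theorem mem_VV1 {n : ℕ} {G : Set Edg} {y : EM (2 * n)} :
    y ∈ VV1 n G ↔ eds y.1 (0, 0, true) ≤ n ∧ ∃ i, i < n ∧ ae (orb G s0 i) = y.1 := by
  classical
  unfold VV1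
  rw [Finset.mem_filter, mem_Vi]

theorem card_VV1 {n : ℕ} {G : Set Edg} (h : Lg n s0 G) : n ≤ 2 * (VV1 n G).card := by
  classical
  obtain ⟨A, hA⟩ : ∃ A : Finset St, A = (Finset.range n).image (fun i => orb G s0 i) := ⟨_, rfl⟩
  have hcA : A.card = n := by
    rw [hA, Finset.card_image_of_injOn (orb_inj h), Finset.card_range]
  have h1 : A.card ≤ 2 * (A.image ae).card :=
    Finset.card_le_mul_card_image A 2 (fun e _ => ae_fiber A e)
  have h2 : A.image ae ⊆ im (VV1 n G) := by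
    intro e he
    rw [Finset.mem_image] at he
    obtain ⟨σ, hσ, rfl⟩ := he
    rw [hA, Finset.mem_image] at hσ
    obtain ⟨i, hi, rfl⟩ := hσ
    rw [Finset.mem_range] at hi
    obtain ⟨g1, g2⟩ := ae_box (G := G) hi
    rw [mem_im]
    refine ⟨boxE_mono (by omega : n ≤ 2 * n) g1, ?_⟩
    rw [mem_VV1]
    exact ⟨g2, i, hi, rfl⟩
  have h3 := Finset.card_le_card h2
  unfold im at h3
  rw [Finset.card_map] at h3
  omega

/-- All sets of examined edges are connected. -/
theorem DsL_of {n : ℕ} {F S : Finset (EM (2 * n))} (hS : S ⊆ VV1 n (↑(im F) : Set Edg)) :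
    DsL n S F := by
  classical
  refine ⟨fun y hy => (mem_VV1.1 (hS hy)).1, (↑(im F) : Set Edg), ?_, ?_⟩
  · intro e he
    rw [Finset.mem_coe, mem_im]
    exact ⟨fun ⟨_, h⟩ => h, fun h => ⟨he, h⟩⟩
  · refine ⟨fun y => if h : ∃ i, i < n ∧ ae (orb (↑(im F) : Set Edg) s0 i) = y.1 then
      orb (↑(im F) : Set Edg) s0 h.choose else s0, ?_, ?_⟩
    · intro y hy
      have h := (mem_VV1.1 (hS hy)).2
      simp only [dif_pos h]
      exact h.choose_spec.2
    · intro y hy z hz
      have h := (mem_VV1.1 (hS hy)).2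
      have h' := (mem_VV1.1 (hS hz)).2
      simp only [dif_pos h, dif_pos h']
      exact (conn_orb _ _ _).symm.trans (conn_orb _ _ _)

/-- Counting the sets. -/
theorem count {n k : ℕ} {F : Finset (EM (2 * n))} {o : EM (2 * n)} (ho : o.1 = (0, 0, true))
    (hn : 1 ≤ n) (h : Lg n s0 (↑(im F) : Set Edg)) :
    (((n - 1) / 2).choose k : ℝ) ≤
      ∑ S ∈ ((Vi n).powersetCard (k + 1)).filter (fun S => o ∈ S), ind (DsL n S F) := by
  classical
  obtain ⟨V, hV⟩ : ∃ V : Finset (EM (2 * n)), V = VV1 n (↑(im F) : Set Edg) := ⟨_, rfl⟩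
  have hcV := card_VV1 h
  rw [← hV] at hcV
  have hVV : V ⊆ Vi n := by
    intro y hy
    rw [hV, mem_VV1] at hy
    rw [mem_Vi]
    exact hy.1
  have hoV : o ∈ V := by
    rw [hV, mem_VV1]
    refine ⟨?_, 0, by omega, ?_⟩
    · rw [ho, Pool.Agent.H953.eds_self]
      omega
    · rw [ho]
      rfl
  obtain ⟨Q, hQ⟩ : ∃ Q : Finset (Finset (EM (2 * n))), Q = (V.erase o).powersetCard k := ⟨_, rfl⟩
  have hinj : Set.InjOn (fun S : Finset (EM (2 * n)) => insert o S) (↑Q : Set _) := by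
    intro S1 h1 S2 h2 he
    rw [Finset.mem_coe, hQ, Finset.mem_powersetCard] at h1 h2
    have n1 : o ∉ S1 := fun h => (Finset.mem_erase.1 (h1.1 h)).1 rfl
    have n2 : o ∉ S2 := fun h => (Finset.mem_erase.1 (h2.1 h)).1 rfl
    have he' : insert o S1 = insert o S2 := he
    rw [← Finset.erase_insert n1, ← Finset.erase_insert n2, he']
  have hsub : Q.image (fun S => insert o S) ⊆
      ((Vi n).powersetCard (k + 1)).filter (fun S => o ∈ S) := by
    intro T hT
    rw [Finset.mem_image] at hT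
    obtain ⟨S, hS, rfl⟩ := hT
    rw [hQ, Finset.mem_powersetCard] at hS
    have n1 : o ∉ S := fun h => (Finset.mem_erase.1 (hS.1 h)).1 rfl
    rw [Finset.mem_filter, Finset.mem_powersetCard]
    refine ⟨⟨?_, ?_⟩, Finset.mem_insert_self _ _⟩
    · intro y hy
      rw [Finset.mem_insert] at hy
      rcases hy with rfl | hy
      · exact hVV hoV
      · exact hVV (Finset.mem_erase.1 (hS.1 hy)).2
    · rw [Finset.card_insert_of_notMem n1, hS.2]
  have hcard : (Q.image (fun S => insert o S)).card = (V.card - 1).choose k := by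
    rw [Finset.card_image_of_injOn hinj, hQ, Finset.card_powersetCard, Finset.card_erase_of_mem hoV]
  have h1 : ∑ S ∈ Q.image (fun S => insert o S), ind (DsL n S F) ≤
      ∑ S ∈ ((Vi n).powersetCard (k + 1)).filter (fun S => o ∈ S), ind (DsL n S F) :=
    Finset.sum_le_sum_of_subset_of_nonneg hsub (fun _ _ _ => ind_nonneg _)
  refine le_trans ?_ h1
  have h2 : ∀ S ∈ Q.image (fun S => insert o S), ind (DsL n S F) = 1 := by
    intro T hT
    rw [Finset.mem_image] at hT
    obtain ⟨S, hS, rfl⟩ := hT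
    rw [hQ, Finset.mem_powersetCard] at hS
    apply ind_of
    apply DsL_of
    rw [← hV]
    intro y hy
    rw [Finset.mem_insert] at hy
    rcases hy with rfl | hy
    · exact hoV
    · exact (Finset.mem_erase.1 (hS.1 hy)).2
  rw [Finset.sum_congr rfl h2, Finset.sum_const, nsmul_eq_mul, mul_one, hcard]
  exact_mod_cast Nat.choose_le_choose k (by omega)

theorem bx_eq (n : ℕ) : bx (0, 0) n = boxE n := by
  unfold bx boxE
  simp

/-- The probability, for each `k`. -/
theorem pr_k {B q : ℝ} (hq0 : 0 ≤ q) (hq : q < 1/2)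
    (h : ∀ m : ℕ, 1 ≤ m → ∀ (o : EM (2 * m)), o.1 = (0, 0, true) → ∀ k : ℕ, 1 ≤ k →
    ∑ S ∈ ((Vi m).powersetCard (k + 1)).filter (fun S => o ∈ S),
      Pr (fun _ => q) Finset.univ (DsL m S) ≤
      B ^ (k + 1) * (ee q * (lam q ^ (-(7/4) : ℝ)) ^ k)) {n k : ℕ} (hn : 1 ≤ n) (hk : 1 ≤ k) :
    Pr (fun _ => q) (bx (0, 0) n) (fun F => Lg n s0 (↑F : Set Edg)) * (((n - 1) / 2).choose k : ℝ) ≤
      B ^ (k + 1) * (ee q * (lam q ^ (-(7/4) : ℝ)) ^ k) := by
  classical
  have hok : Ok (fun _ : EM (2 * n) => q) := fun _ => ⟨hq0, by linarith⟩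
  obtain ⟨o, ho⟩ : ∃ o : EM (2 * n), o = og (2 * n) (by omega) := ⟨_, rfl⟩
  have ho1 : o.1 = (0, 0, true) := by rw [ho]; rfl
  refine le_trans ?_ (h n hn o ho1 k hk)
  rw [bx_eq]
  have e1 : Pr (fun _ => q) (boxE n) (fun F => Lg n s0 (↑F : Set Edg)) =
      Pr (fun _ : EM (2 * n) => q) Finset.univ (fun F => Lg n s0 (↑(im F) : Set Edg)) := by
    rw [pr_im (M := 2 * n) q (fun F => Lg n s0 (↑F : Set Edg))]
    symm
    apply Pr_local (boxE_mono (by omega : n ≤ 2 * n))
    intro F _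
    rw [Finset.coe_inter]
    exact Lg_loc.symm
  rw [e1]
  unfold Pr
  rw [← Ex_mul_right, ← Ex_sum]
  apply Ex_mono hok
  intro F _
  by_cases hL : Lg n s0 (↑(im F) : Set Edg)
  · rw [ind_of hL, one_mul]
    exact count ho1 hn hL
  · rw [ind_not_of hL, zero_mul]
    exact Finset.sum_nonneg (fun _ _ => ind_nonneg _)

/-- Lower bound for binomial coefficients. -/
theorem choose_low {n k : ℕ} (hn : 4 ≤ n) (hk : 1 ≤ k) (hkn : 16 * k ≤ n ∨ k = 1) :
    ((n : ℝ) / (16 * k)) ^ k ≤ (((n - 1) / 2).choose k : ℝ) := by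
  have h1 := Nat.pow_le_choose (α := ℝ) k ((n - 1) / 2)
  refine le_trans ?_ h1
  have h2 : ((k.factorial : ℕ) : ℝ) ≤ (k : ℝ) ^ k := by
    exact_mod_cast Nat.factorial_le_pow k
  have h3 : (0:ℝ) < ((k.factorial : ℕ) : ℝ) := by exact_mod_cast Nat.factorial_pos k
  have hkR : (0:ℝ) < k := by exact_mod_cast hk
  rw [le_div_iff₀ h3]
  have h4 : (n:ℝ) / 16 ≤ (((n - 1) / 2 + 1 - k : ℕ) : ℝ) := by
    have h5 : n ≤ 16 * ((n - 1) / 2 + 1 - k) := by
      rcases hkn with h | h
      · omega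
      · subst h
        omega
    have h6 : (n:ℝ) ≤ 16 * (((n - 1) / 2 + 1 - k : ℕ) : ℝ) := by exact_mod_cast h5
    linarith
  calc ((n : ℝ) / (16 * k)) ^ k * ((k.factorial : ℕ) : ℝ)
      ≤ ((n : ℝ) / (16 * k)) ^ k * (k : ℝ) ^ k :=
        mul_le_mul_of_nonneg_left h2 (by positivity)
    _ = ((n:ℝ) / 16) ^ k := by
        rw [← mul_pow]
        congr 1
        field_simp
    _ ≤ _ := pow_le_pow_left₀ (by positivity) h4 k

theorem lam_small {q : ℝ} (h0 : 0 ≤ q) (h1 : q < 1/2) : 0 < lam q ∧ lam q ^ (7/4 : ℝ) ≤ 1 / 4 := by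
  have ht : |q - 1/2| = 1/2 - q := by
    rw [abs_of_neg (by linarith)]
    ring
  obtain ⟨t, ht'⟩ : ∃ t : ℝ, t = 1/2 - q := ⟨_, rfl⟩
  have ht0 : 0 < t := by rw [ht']; linarith
  have ht1 : t ≤ 1/2 := by rw [ht']; linarith
  unfold lam
  rw [ht, ← ht']
  refine ⟨Real.rpow_pos_of_pos ht0 _, ?_⟩
  rw [← Real.rpow_mul ht0.le]
  have h2 : t ^ ((4/3 : ℝ) * (7/4)) ≤ t ^ (2 : ℝ) :=
    Real.rpow_le_rpow_of_exponent_ge ht0 (by linarith) (by norm_num)
  have h3 : t ^ (2 : ℝ) = t ^ 2 := Real.rpow_two t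
  rw [h3] at h2
  nlinarith

end Up1

/-- C4. -/
theorem up1 (h : S_set) : S_up1 := by
  obtain ⟨B, hB, hs⟩ := h
  have hB0 : 0 < B := by linarith
  have he0 := Real.exp_pos 1
  refine ⟨1 / (16 * B * Real.exp 1), 16 * B ^ 2 * Real.exp 1, by positivity, by positivity, ?_⟩
  intro q hq0 hq n hn hx
  obtain ⟨hL, hL4⟩ := Up1.lam_small hq0 hq
  obtain ⟨L, hLe⟩ : ∃ L : ℝ, L = lam q := ⟨_, rfl⟩
  obtain ⟨w, hw⟩ : ∃ w : ℝ, w = L ^ (7/4 : ℝ) := ⟨_, rfl⟩
  obtain ⟨x, hxe⟩ : ∃ x : ℝ, x = n * w := ⟨_, rfl⟩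
  rw [← hLe] at hL hL4 hx ⊢
  rw [← hw] at hL4 hx ⊢
  rw [← hxe] at hx ⊢
  have hw0 : 0 < w := by rw [hw]; exact Real.rpow_pos_of_pos hL _
  have hnR : (0:ℝ) < n := by exact_mod_cast hn
  have hn4 : 4 ≤ n := by
    have h1 : (4:ℝ) ≤ n := by nlinarith
    exact_mod_cast h1
  obtain ⟨p, hp⟩ : ∃ p : ℝ, p = Pr (fun _ => q) (bx (0, 0) n) (fun F => Lg n s0 (↑F : Set Edg)) :=
    ⟨_, rfl⟩
  have hp0 : 0 ≤ p := by
    rw [hp]
    exact Pr_nonneg (fun _ => ⟨hq0, by linarith⟩) _ _
  rw [← hp]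
  have hee : ee q ≤ L ^ (1/4 : ℝ) := by
    unfold ee
    rw [← hLe]
    apply Real.rpow_le_rpow (by positivity) _ (by norm_num)
    rw [div_le_iff₀ (by linarith)]
    nlinarith
  have hee0 : 0 ≤ ee q := by
    unfold ee
    rw [← hLe]
    positivity
  -- the bound for each `k`
  have key : ∀ k : ℕ, 1 ≤ k → (16 * k ≤ n ∨ k = 1) →
      p ≤ B * L ^ (1/4 : ℝ) * (16 * B * k / x) ^ k := by
    intro k hk hkn
    have h1 := Up1.pr_k hq0 hq (hs q hq0 hq) hn hk
    rw [← hp, ← hLe] at h1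
    have h2 := Up1.choose_low hn4 hk hkn
    have hkR : (0:ℝ) < k := by exact_mod_cast hk
    have h3 : p * ((n : ℝ) / (16 * k)) ^ k ≤ B ^ (k + 1) * (ee q * (L ^ (-(7/4) : ℝ)) ^ k) :=
      (mul_le_mul_of_nonneg_left h2 hp0).trans h1
    have h4 : L ^ (-(7/4) : ℝ) = w⁻¹ := by
      rw [Real.rpow_neg hL.le, hw]
    rw [h4] at h3
    have h5 : 0 < ((n : ℝ) / (16 * k)) ^ k := by positivity
    rw [← le_div_iff₀ h5] at h3
    refine h3.trans ?_
    have h6 : B ^ (k + 1) * (ee q * (w⁻¹) ^ k) / ((n : ℝ) / (16 * k)) ^ k =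
        B * ee q * (16 * B * k / x) ^ k := by
      rw [hxe, div_pow, div_pow, mul_pow (16 * B) (k:ℝ), mul_pow 16 B, mul_pow (n:ℝ) w,
        mul_pow 16 (k:ℝ), inv_pow, pow_succ]
      field_simp
    rw [h6]
    apply mul_le_mul_of_nonneg_right _ (by positivity)
    exact mul_le_mul_of_nonneg_left hee hB0.le
  obtain ⟨c, hc⟩ : ∃ c : ℝ, c = 1 / (16 * B * Real.exp 1) := ⟨_, rfl⟩
  rw [← hc]
  have hc0 : 0 < c := by rw [hc]; positivity
  have he1 : 1 ≤ Real.exp 1 := Real.one_le_exp (by norm_num)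
  have hLp : 0 ≤ L ^ (1/4 : ℝ) := by positivity
  have hexp : Real.exp 1 * Real.exp (-(c * x)) = Real.exp (1 - c * x) := by
    rw [← Real.exp_add]
    congr 1
  rcases le_or_gt 1 (c * x) with h1 | h1
  · obtain ⟨k, hk⟩ : ∃ k : ℕ, k = ⌊c * x⌋₊ := ⟨_, rfl⟩
    have hk1 : 1 ≤ k := by
      rw [hk]
      exact Nat.le_floor (by simpa using h1)
    have hk2 : (k:ℝ) ≤ c * x := by
      rw [hk]
      exact Nat.floor_le (by linarith)
    have hk3 : c * x < k + 1 := by
      rw [hk]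
      exact Nat.lt_floor_add_one _
    have hce : 16 * B * c = Real.exp (-1) := by
      rw [hc, Real.exp_neg]
      field_simp
    have hkR : (0:ℝ) < k := by exact_mod_cast hk1
    have hc16 : c ≤ 1 / 16 := by
      rw [hc]
      apply one_div_le_one_div_of_le (by norm_num)
      nlinarith
    have hkn : 16 * k ≤ n := by
      have h2 : (16:ℝ) * k ≤ n := by
        have h3 : c * x ≤ 1 / 16 * x := mul_le_mul_of_nonneg_right hc16 (by linarith)
        have h4 : x ≤ n * (1/4) := by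
          rw [hxe]
          exact mul_le_mul_of_nonneg_left hL4 hnR.le
        linarith
      exact_mod_cast h2
    refine (key k hk1 (Or.inl hkn)).trans ?_
    have h2 : 16 * B * k / x ≤ Real.exp (-1) := by
      rw [div_le_iff₀ (by linarith), ← hce]
      have h3 : 16 * B * (k:ℝ) ≤ 16 * B * (c * x) := mul_le_mul_of_nonneg_left hk2 (by positivity)
      linarith
    have h3 : (16 * B * k / x) ^ k ≤ Real.exp (1 - c * x) := by
      refine (pow_le_pow_left₀ (by positivity) h2 k).trans ?_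
      rw [← Real.exp_nat_mul]
      apply Real.exp_le_exp.mpr
      linarith
    have h4 : B * L ^ (1/4 : ℝ) * (16 * B * k / x) ^ k ≤
        B * L ^ (1/4 : ℝ) * Real.exp (1 - c * x) :=
      mul_le_mul_of_nonneg_left h3 (by positivity)
    refine h4.trans ?_
    rw [← hexp]
    have h5 : 16 * B ^ 2 * Real.exp 1 * L ^ (1/4 : ℝ) * Real.exp (-(c * x)) =
        16 * B * (B * L ^ (1/4 : ℝ) * (Real.exp 1 * Real.exp (-(c * x)))) := by ring
    rw [h5]
    have h6 : 0 ≤ B * L ^ (1/4 : ℝ) * (Real.exp 1 * Real.exp (-(c * x))) := by positivity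
    nlinarith
  · have h2 := key 1 le_rfl (Or.inr rfl)
    rw [pow_one, Nat.cast_one, mul_one] at h2
    refine h2.trans ?_
    have h3 : 16 * B / x ≤ 16 * B := div_le_self (by positivity) hx
    have h4 : 1 ≤ Real.exp (1 - c * x) := Real.one_le_exp (by linarith)
    have h5 : 16 * B ^ 2 * Real.exp 1 * L ^ (1/4 : ℝ) * Real.exp (-(c * x)) =
        B * L ^ (1/4 : ℝ) * (16 * B) * (Real.exp 1 * Real.exp (-(c * x))) := by ring
    rw [h5, hexp]
    have h6 : B * L ^ (1/4 : ℝ) * (16 * B / x) ≤ B * L ^ (1/4 : ℝ) * (16 * B) :=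
      mul_le_mul_of_nonneg_left h3 (by positivity)
    have h7 : 0 ≤ B * L ^ (1/4 : ℝ) * (16 * B) := by positivity
    refine h6.trans ?_
    exact le_mul_of_one_le_right h7 h4

end H953L
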