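import Pool.Agent.H953.OL.Stm
import Pool.Graph.R_seed8.Y993.LL.Upper

/-!
Short loops: `up2`.
-/

set_option autoImplicit false

namespace H953L

namespace Up2

open H974 Finset H12S H342P H984P
open Pool.Agent.Y993.LL (bx Conn conn_orb inc_face two_of_conn far_of_not_ctr TT TT_of_conn bx_sub
  cst mem_cst abs_ctr sum_ind)

/-- The two-arm bound at the scales up to `M`. -/
def TU (q C t : ℝ) (M : ℤ) : Prop := ∀ (k : ℤ) (u f : Vtx) (S : Finset Edg), 0 < k → k ≤ M →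
  Inc u f → bx u k ⊆ S →
  Pr (fun _ => q) S (fun F => Two u f k (↑F : Set Edg)) ≤ C * (k:ℝ) ^ (-t)

variable {q : ℝ}

theorem pr_pair (hok : Ok (fun _ : Edg => q)) {C t : ℝ} {M : ℤ} (hU : TU q C t M) {σ τ : St}
    {S : Finset Edg} {k : ℤ} (hk : 0 < k) (hkM : k ≤ M) (hσ : bx σ.1 k ⊆ S) (hτ : bx τ.1 k ⊆ S)
    (hd : 2 * k < |σ.1.1 - τ.1.1| ∨ 2 * k < |σ.1.2 - τ.1.2|) :
    Pr (fun _ => q) S (fun F => Two σ.1 (face σ) k (↑F) ∧ Two τ.1 (face τ) k (↑F)) ≤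
      (C * (k:ℝ) ^ (-t)) * (C * (k:ℝ) ^ (-t)) := by
  have hdis : Disjoint (bx σ.1 k) (bx τ.1 k) := by
    unfold bx
    rw [Finset.disjoint_left]
    rintro ⟨x, y, b⟩ h1 h2
    rcases hd with hd | hd
    · cases b
      · rw [mem_RE_false] at h1 h2; rw [lt_abs] at hd; omega
      · rw [mem_RE_true] at h1 h2; rw [lt_abs] at hd; omega
    · cases b
      · rw [mem_RE_false] at h1 h2; rw [lt_abs] at hd; omega
      · rw [mem_RE_true] at h1 h2; rw [lt_abs] at hd; omega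
  rw [Pr_indep hσ hτ hdis
    (fun F _ => two_inter hk F (Finset.Subset.refl _))
    (fun F _ => two_inter hk F (Finset.Subset.refl _))]
  have h2 := hU k σ.1 (face σ) S hk hkM (inc_face σ) hσ
  have h3 := hU k τ.1 (face τ) S hk hkM (inc_face τ) hτ
  exact mul_le_mul h2 h3 (Pr_nonneg hok _ _) ((Pr_nonneg hok _ _).trans h2)

/-- The pair bound. -/
theorem pr_TT (hok : Ok (fun _ : Edg => q)) {C t : ℝ} {M : ℤ} (hC : 0 < C) (ht : 0 ≤ t)
    (ht1 : t < 1) (hU : TU q C t M) {σ τ : St} {S : Finset Edg} {K : ℤ} (hKM : K ≤ M)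
    (hS : bx σ.1 K ⊆ S)
    (hK1 : 2 * |σ.1.1 - τ.1.1| ≤ K) (hK2 : 2 * |σ.1.2 - τ.1.2| ≤ K) :
    Pr (fun _ => q) S (fun F => TT σ τ (↑F)) ≤
      (25 * (1 + C ^ 2)) * (kr t (σ.1.1 - τ.1.1) * kr t (σ.1.2 - τ.1.2)) := by
  set d : ℤ := max |σ.1.1 - τ.1.1| |σ.1.2 - τ.1.2| with hd
  have hd1 : |σ.1.1 - τ.1.1| ≤ d := le_max_left _ _
  have hd2 : |σ.1.2 - τ.1.2| ≤ d := le_max_right _ _
  have hd0 : 0 ≤ d := (abs_nonneg _).trans hd1
  have hdR : (0:ℝ) < (d:ℝ) + 1 := by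
    have : (0:ℝ) ≤ (d:ℝ) := by exact_mod_cast hd0
    linarith
  have hk1 : ((d:ℝ) + 1) ^ (-t) ≤ kr t (σ.1.1 - τ.1.1) := by
    unfold kr
    apply Real.rpow_le_rpow_of_nonpos _ _ (by linarith)
    · have : (0:ℝ) ≤ ((|σ.1.1 - τ.1.1| : ℤ) : ℝ) := by exact_mod_cast abs_nonneg _
      linarith
    · have : ((|σ.1.1 - τ.1.1| : ℤ) : ℝ) ≤ d := by exact_mod_cast hd1
      linarith
  have hk2 : ((d:ℝ) + 1) ^ (-t) ≤ kr t (σ.1.2 - τ.1.2) := by
    unfold kr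
    apply Real.rpow_le_rpow_of_nonpos _ _ (by linarith)
    · have : (0:ℝ) ≤ ((|σ.1.2 - τ.1.2| : ℤ) : ℝ) := by exact_mod_cast abs_nonneg _
      linarith
    · have : ((|σ.1.2 - τ.1.2| : ℤ) : ℝ) ≤ d := by exact_mod_cast hd2
      linarith
  have hX : (0:ℝ) < ((d:ℝ) + 1) ^ (-t) := Real.rpow_pos_of_pos hdR _
  have hkk : ((d:ℝ) + 1) ^ (-t) * ((d:ℝ) + 1) ^ (-t) ≤
      kr t (σ.1.1 - τ.1.1) * kr t (σ.1.2 - τ.1.2) :=
    mul_le_mul hk1 hk2 hX.le (hX.le.trans hk1)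
  by_cases h3 : d ≤ 2
  · refine (Pr_le_one hok _ _).trans ?_
    have h4 : (1:ℝ) / 3 ≤ ((d:ℝ) + 1) ^ (-t) := by
      have h5 : ((d:ℝ) + 1) ≤ 3 := by
        have : (d:ℝ) ≤ 2 := by exact_mod_cast h3
        linarith
      have h6 : (3:ℝ) ^ (-t) ≤ ((d:ℝ) + 1) ^ (-t) :=
        Real.rpow_le_rpow_of_nonpos hdR h5 (by linarith)
      have h7 : (3:ℝ) ^ (-1:ℝ) ≤ (3:ℝ) ^ (-t) :=
        Real.rpow_le_rpow_of_exponent_le (by norm_num) (by linarith)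
      rw [Real.rpow_neg_one] at h7
      linarith
    have h8 : (1:ℝ) / 9 ≤ ((d:ℝ) + 1) ^ (-t) * ((d:ℝ) + 1) ^ (-t) := by nlinarith
    have h9 : (0:ℝ) ≤ C ^ 2 := sq_nonneg _
    nlinarith
  · push Not at h3
    obtain ⟨k, hk⟩ : ∃ k : ℤ, k = (d - 1) / 2 := ⟨_, rfl⟩
    have hk0 : 0 < k := by omega
    have hkd : 2 * k < d := by omega
    have hk5 : d + 1 ≤ 5 * k := by omega
    have hdd : 2 * k < |σ.1.1 - τ.1.1| ∨ 2 * k < |σ.1.2 - τ.1.2| := by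
      rcases max_choice |σ.1.1 - τ.1.1| |σ.1.2 - τ.1.2| with h | h
      · left; rw [← h, ← hd]; exact hkd
      · right; rw [← h, ← hd]; exact hkd
    have hdK : 2 * d ≤ K := by
      rcases max_choice |σ.1.1 - τ.1.1| |σ.1.2 - τ.1.2| with h | h
      · rw [hd, h]; exact hK1
      · rw [hd, h]; exact hK2
    have e3 := le_abs_self (σ.1.1 - τ.1.1)
    have e4 := neg_abs_le (σ.1.1 - τ.1.1)
    have e5 := le_abs_self (σ.1.2 - τ.1.2)
    have e6 := neg_abs_le (σ.1.2 - τ.1.2)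
    have hm : Pr (fun _ => q) S (fun F => TT σ τ (↑F)) ≤
        Pr (fun _ => q) S
          (fun F => Two σ.1 (face σ) k (↑F) ∧ Two τ.1 (face τ) k (↑F)) :=
      Pr_mono hok (fun F _ h => h k hk0 hdd)
    refine hm.trans ((pr_pair hok hU hk0 (by omega)
      ((bx_sub (by omega) (by omega) (by omega) (by omega)).trans hS)
      ((bx_sub (v := σ.1) (K := K) (by omega) (by omega) (by omega) (by omega)).trans hS)
      hdd).trans ?_)
    have hkR : (0:ℝ) < (k:ℝ) := by exact_mod_cast hk0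
    have hkt : (k:ℝ) ^ (-t) ≤ 5 * ((d:ℝ) + 1) ^ (-t) := by
      have h4 : ((d:ℝ) + 1) / 5 ≤ k := by
        have : ((d:ℝ) + 1) ≤ 5 * k := by exact_mod_cast hk5
        linarith
      have h5 : (k:ℝ) ^ (-t) ≤ (((d:ℝ) + 1) / 5) ^ (-t) :=
        Real.rpow_le_rpow_of_nonpos (by positivity) h4 (by linarith)
      have h6 : (((d:ℝ) + 1) / 5) ^ (-t) = ((d:ℝ) + 1) ^ (-t) * (5:ℝ) ^ t := by
        rw [Real.div_rpow hdR.le (by norm_num), Real.rpow_neg (by norm_num : (0:ℝ) ≤ 5)]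
        rw [div_inv_eq_mul]
      have h7 : (5:ℝ) ^ t ≤ 5 := by
        have := Real.rpow_le_rpow_of_exponent_le (by norm_num : (1:ℝ) ≤ 5) ht1.le
        rwa [Real.rpow_one] at this
      rw [h6] at h5
      nlinarith
    have hk00 : (0:ℝ) ≤ (k:ℝ) ^ (-t) := Real.rpow_nonneg hkR.le _
    have h8 : (k:ℝ) ^ (-t) * (k:ℝ) ^ (-t) ≤ 25 * (((d:ℝ) + 1) ^ (-t) * ((d:ℝ) + 1) ^ (-t)) := by
      nlinarith
    have h9 : 0 ≤ kr t (σ.1.1 - τ.1.1) * kr t (σ.1.2 - τ.1.2) :=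
      mul_nonneg (kr_nonneg _ _) (kr_nonneg _ _)
    calc C * (k:ℝ) ^ (-t) * (C * (k:ℝ) ^ (-t)) = C ^ 2 * ((k:ℝ) ^ (-t) * (k:ℝ) ^ (-t)) := by ring
      _ ≤ C ^ 2 * (25 * (((d:ℝ) + 1) ^ (-t) * ((d:ℝ) + 1) ^ (-t))) :=
          mul_le_mul_of_nonneg_left h8 (sq_nonneg _)
      _ ≤ C ^ 2 * (25 * (kr t (σ.1.1 - τ.1.1) * kr t (σ.1.2 - τ.1.2))) := by
          apply mul_le_mul_of_nonneg_left _ (sq_nonneg _)
          linarith
      _ ≤ _ := by nlinarith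

/-- Summation of the pair bound over a square. -/
theorem sum_TT (hok : Ok (fun _ : Edg => q)) {C t : ℝ} {M : ℤ} (hC : 0 < C) (ht : 0 ≤ t)
    (ht1 : t < 1) (hU : TU q C t M)
    (σ : St) {a : ℕ} (ha : 1 ≤ a) (haM : 2 * (a:ℤ) ≤ M) {S : Finset Edg}
    (hS : bx σ.1 (2 * a) ⊆ S) :
    ∑ τ ∈ cst σ.1 a, Pr (fun _ => q) S (fun F => TT σ τ (↑F)) ≤
      (4 * (25 * (1 + C ^ 2)) * (6 / (1 - t)) ^ 2) * (a:ℝ) ^ (2 - 2 * t) := by
  have haR : (1:ℝ) ≤ a := by exact_mod_cast ha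
  set K : ℝ := 25 * (1 + C ^ 2) with hK
  have hK0 : 0 < K := by positivity
  set B : ℝ := 6 / (1 - t) * (a:ℝ) ^ (1 - t) with hB
  have hB0 : 0 ≤ B := by
    have : (0:ℝ) < 1 - t := by linarith
    positivity
  have h1 : ∑ τ ∈ cst σ.1 a, Pr (fun _ => q) S (fun F => TT σ τ (↑F)) ≤
      ∑ τ ∈ cst σ.1 a, K * (kr t (σ.1.1 - τ.1.1) * kr t (σ.1.2 - τ.1.2)) := by
    apply Finset.sum_le_sum
    intro τ hτ
    rw [mem_cst] at hτ
    obtain ⟨e1, e2⟩ := abs_ctr hτ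
    exact pr_TT hok hC ht ht1 hU haM hS (by omega) (by omega)
  refine h1.trans ?_
  unfold cst
  rw [Finset.sum_product]
  simp only [Finset.sum_const, Finset.card_univ, nsmul_eq_mul]
  have hcard : Fintype.card Q4 = 4 := rfl
  rw [hcard, ← Finset.mul_sum, ← Finset.mul_sum]
  unfold ctr
  rw [Finset.sum_product]
  simp only
  rw [← Finset.sum_mul_sum]
  have h2 := mul_le_mul
    (sum_kr_le ht ht1 ha (u := σ.1.1) (r := σ.1.1) (by omega) (by omega))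
    (sum_kr_le ht ht1 ha (u := σ.1.2) (r := σ.1.2) (by omega) (by omega))
    (Finset.sum_nonneg (fun x _ => kr_nonneg _ _)) hB0
  have h4 : (a:ℝ) ^ (2 - 2 * t) = (a:ℝ) ^ (1 - t) * (a:ℝ) ^ (1 - t) := by
    rw [← Real.rpow_add (by linarith)]
    congr 1
    ring
  rw [h4]
  push_cast
  calc _ ≤ 4 * (K * (6 / (1 - t) * (a:ℝ) ^ (1 - t) * (6 / (1 - t) * (a:ℝ) ^ (1 - t)))) := by
        apply mul_le_mul_of_nonneg_left _ (by norm_num)
        exact mul_le_mul_of_nonneg_left h2 hK0.le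
    _ = _ := by ring

/-- Markov's inequality for the number of events that occur. -/
theorem markov (hok : Ok (fun _ : Edg => q)) {S : Finset Edg} {ι : Type*} (T : Finset ι)
    (A : ι → Finset Edg → Prop) {ℓ : ℝ} (hℓ : 0 < ℓ) :
    Pr (fun _ => q) S (fun F => ℓ ≤ ∑ i ∈ T, ind (A i F)) ≤
      (∑ i ∈ T, Pr (fun _ => q) S (A i)) / ℓ := by
  rw [le_div_iff₀ hℓ]
  have h1 : Pr (fun _ => q) S (fun F => ℓ ≤ ∑ i ∈ T, ind (A i F)) * ℓ =
      Ex (fun _ => q) S (fun F => ind (ℓ ≤ ∑ i ∈ T, ind (A i F)) * ℓ) := by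
    rw [Ex_mul_right]; rfl
  have h2 : ∑ i ∈ T, Pr (fun _ => q) S (A i) =
      Ex (fun _ => q) S (fun F => ∑ i ∈ T, ind (A i F)) := by
    rw [Ex_sum]; rfl
  rw [h1, h2]
  apply Ex_mono hok
  intro F _
  by_cases h : ℓ ≤ ∑ i ∈ T, ind (A i F)
  · rw [ind_of h, one_mul]; exact h
  · rw [ind_not_of h, zero_mul]
    exact Finset.sum_nonneg fun i _ => ind_nonneg _

/-- different states of the orbit -/
theorem orb_ne {F : Set Edg} {n : ℕ} {σ : St} (h : Lg n σ F) {i j : ℕ} (hij : i < j) (hj : j < n) :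
    orb F σ i ≠ orb F σ j := by
  intro he
  refine h (j - i) (by omega) (by omega) ?_
  have h1 : (nxt F)^[i] ((nxt F)^[j - i] σ) = (nxt F)^[i] σ := by
    rw [← Function.iterate_add_apply]
    have : i + (j - i) = j := by omega
    rw [this]
    exact he.symm
  exact ((nxt_bij F).injective.iterate i) h1

theorem cov {F : Set Edg} {n : ℕ} {σ : St} (h : Lg n σ F) {a : ℕ} (ha : 1 ≤ a) :
    Two σ.1 (face σ) a F ∨ (n:ℝ) ≤ ∑ τ ∈ cst σ.1 a, ind (TT σ τ F) := by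
  classical
  by_cases hc : ∀ i < n, (orb F σ i).1 ∈ ctr σ.1 a
  · right
    rw [sum_ind]
    have h1 : (Finset.range n).card ≤ ((cst σ.1 a).filter (fun τ => TT σ τ F)).card := by
      refine Finset.card_le_card_of_injOn (fun i => orb F σ i) ?_ ?_
      · intro i hi
        have hi' : i < n := Finset.mem_range.1 hi
        exact Finset.mem_coe.2 (Finset.mem_filter.2 ⟨mem_cst.2 (hc i hi'),
          TT_of_conn (conn_orb F σ i)⟩)
      · intro i hi j hj he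
        have hi' : i < n := Finset.mem_range.1 hi
        have hj' : j < n := Finset.mem_range.1 hj
        rcases lt_trichotomy i j with h2 | h2 | h2
        · exact absurd he (orb_ne h h2 hj')
        · exact h2
        · exact absurd he.symm (orb_ne h h2 hi')
    rw [Finset.card_range] at h1
    exact_mod_cast h1
  · left
    push Not at hc
    obtain ⟨i, _, hi2⟩ := hc
    exact two_of_conn (by omega) (conn_orb F σ i) (far_of_not_ctr hi2)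

theorem lam_nonneg (q : ℝ) : 0 ≤ lam q := by unfold lam; positivity

theorem uu_gg (q : ℝ) {k : ℕ} (hk : 1 ≤ k) (h : lam q * k ≤ 4) :
    uu q k * gg q k ≤ 5 * (k:ℝ) ^ (-(1/4) : ℝ) := by
  have hl := lam_nonneg q
  have hkR : (1:ℝ) ≤ k := by exact_mod_cast hk
  have hk0 : (0:ℝ) < k := by linarith
  have h1 : gg q k ≤ 1 := by
    unfold gg
    refine pow_le_one₀ (by positivity) ?_
    rw [div_le_one (by positivity)]
    nlinarith
  have h1' : 0 ≤ gg q k := by unfold gg; positivity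
  have h2 : uu q k ≤ 5 * (k:ℝ) ^ (-(1/4) : ℝ) := by
    unfold uu
    have h3 : ((k:ℝ)⁻¹ + lam q) / (1 + lam q) ≤ 5 * (k:ℝ)⁻¹ := by
      rw [div_le_iff₀ (by positivity)]
      have h4 : lam q ≤ 4 * (k:ℝ)⁻¹ := by
        rw [← div_eq_mul_inv, le_div_iff₀ hk0]; exact h
      have h5 : 0 ≤ (k:ℝ)⁻¹ := by positivity
      nlinarith [mul_nonneg h5 hl]
    refine (Real.rpow_le_rpow (by positivity) h3 (by norm_num)).trans ?_
    rw [Real.mul_rpow (by norm_num) (by positivity), Real.inv_rpow hk0.le,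
      ← Real.rpow_neg hk0.le]
    refine mul_le_mul_of_nonneg_right ?_ (Real.rpow_nonneg hk0.le _)
    have := Real.rpow_le_rpow_of_exponent_le (by norm_num : (1:ℝ) ≤ 5)
      (by norm_num : (1/4:ℝ) ≤ 1)
    rwa [Real.rpow_one] at this
  calc uu q k * gg q k ≤ 5 * (k:ℝ) ^ (-(1/4) : ℝ) * 1 :=
        mul_le_mul h2 h1 h1' (by positivity)
    _ = _ := mul_one _

theorem main_bound {C : ℝ} (hC : 1 ≤ C)
    (H : ∀ q : ℝ, 0 ≤ q → q < 1/2 → ∀ (u p : Vtx) (k : ℕ)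
      (S : Finset Edg), Inc u p → 1 ≤ k → blk u k ⊆ S →
      Pr (fun _ => q) S (fun F => Two u p k (↑F : Set Edg)) ≤ C * (uu q k * gg q k))
    (q : ℝ) (h0 : 0 ≤ q) (h1 : q < 1/2) (n a : ℕ) (hn : 1 ≤ n) (ha : 1 ≤ a)
    (hla : lam q * (2 * a) ≤ 4) (han : 2 * a ≤ n) :
    Pr (fun _ => q) (bx (0, 0) n) (fun F => Lg n s0 (↑F : Set Edg)) ≤
      (C * 5) * (a:ℝ) ^ (-(1/4) : ℝ) +
      (4 * (25 * (1 + (C * 5) ^ 2)) * (6 / (1 - 1/4)) ^ 2) * (a:ℝ) ^ (2 - 2 * (1/4) : ℝ) / n := by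
  have hok : Ok (fun _ : Edg => q) := fun _ => ⟨h0, by linarith⟩
  have hl := lam_nonneg q
  have hnR : (0:ℝ) < n := by exact_mod_cast hn
  have hU : TU q (C * 5) (1/4) (2 * (a:ℤ)) := by
    intro k u f S hk hkM hf hS
    obtain ⟨k', rfl⟩ : ∃ k' : ℕ, k = k' := ⟨k.toNat, by omega⟩
    have hk' : 1 ≤ k' := by omega
    have h2 := H q h0 h1 u f k' S hf hk' hS
    have h3 : lam q * k' ≤ 4 := by
      have h4 : (k':ℝ) ≤ 2 * a := by exact_mod_cast hkM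
      exact (mul_le_mul_of_nonneg_left h4 hl).trans hla
    have h5 := uu_gg q hk' h3
    refine h2.trans ((mul_le_mul_of_nonneg_left h5 (by linarith)).trans (le_of_eq ?_))
    rw [mul_assoc, Int.cast_natCast]
  set S : Finset Edg := bx (0, 0) n with hS
  have hsub : bx s0.1 (2 * (a:ℤ)) ⊆ S := by
    rw [hS]
    have e1 : s0.1 = (0, 0) := rfl
    rw [e1]
    exact bx_sub (by omega) (by omega) (by omega) (by omega)
  have hsub1 : bx s0.1 (a:ℤ) ⊆ S := by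
    refine Finset.Subset.trans ?_ hsub
    exact bx_sub (by omega) (by omega) (by omega) (by omega)
  have h2 : Pr (fun _ => q) S (fun F => Lg n s0 (↑F : Set Edg)) ≤
      Pr (fun _ => q) S (fun F => Two s0.1 (face s0) a (↑F : Set Edg) ∨
        (n:ℝ) ≤ ∑ τ ∈ cst s0.1 a, ind (TT s0 τ (↑F : Set Edg))) :=
    Pr_mono hok fun F _ h => cov h ha
  refine h2.trans ((Pr_or_le hok _ _ _).trans (add_le_add ?_ ?_))
  · have := hU a s0.1 (face s0) S (by omega) (by omega) (inc_face s0) hsub1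
    rwa [Int.cast_natCast] at this
  · refine (markov hok (cst s0.1 a) (fun τ F => TT s0 τ (↑F : Set Edg)) hnR).trans ?_
    exact div_le_div_of_nonneg_right (sum_TT hok (by linarith) (by norm_num) (by norm_num) hU s0
      ha le_rfl hsub) hnR.le

end Up2

open Up2 in
theorem up2 (h : S_two2) : S_up2 := by
  obtain ⟨C, hC, H⟩ := h
  set K : ℝ := 4 * (25 * (1 + (C * 5) ^ 2)) * (6 / (1 - 1/4)) ^ 2 with hK
  have hK0 : 0 ≤ K := by positivity
  refine ⟨C * 5 + 4 * K + 2, by linarith, fun q h0 h1 n hn hl => ?_⟩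
  have hok : H974.Ok (fun _ : H974.Edg => q) := fun _ => ⟨h0, by linarith⟩
  have hnR : (1:ℝ) ≤ n := by exact_mod_cast hn
  have hn0 : (0:ℝ) < n := by linarith
  have hX0 : (0:ℝ) < (n:ℝ) ^ (-(1/7) : ℝ) := Real.rpow_pos_of_pos hn0 _
  by_cases hn1 : n < 128
  · refine (H974.Pr_le_one hok _ _).trans ?_
    have h2 : (1:ℝ) / 2 ≤ (n:ℝ) ^ (-(1/7) : ℝ) := by
      have h3 : (n:ℝ) ≤ 128 := by exact_mod_cast hn1.le
      have h4 : (128:ℝ) ^ (-(1/7) : ℝ) ≤ (n:ℝ) ^ (-(1/7) : ℝ) :=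
        Real.rpow_le_rpow_of_nonpos hn0 h3 (by norm_num)
      have h5 : (128:ℝ) ^ (-(1/7) : ℝ) = 1 / 2 := by
        rw [show (128:ℝ) = 2 ^ (7:ℝ) by norm_num, ← Real.rpow_mul (by norm_num)]
        norm_num
      rw [h5] at h4
      exact h4
    have h6 : 0 ≤ (C * 5 + 4 * K) * (n:ℝ) ^ (-(1/7) : ℝ) := by positivity
    nlinarith
  · push Not at hn1
    have hn2 : (128:ℝ) ≤ n := by exact_mod_cast hn1
    obtain ⟨x, hx⟩ : ∃ x : ℝ, x = (n:ℝ) ^ (4/7 : ℝ) := ⟨_, rfl⟩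
    have hx1 : 1 ≤ x := by rw [hx]; exact Real.one_le_rpow hnR (by norm_num)
    have hx8 : x * 8 ≤ n := by
      have h2 : (8:ℝ) ≤ (n:ℝ) ^ (3/7 : ℝ) := by
        have h3 : (128:ℝ) ^ (3/7 : ℝ) ≤ (n:ℝ) ^ (3/7 : ℝ) :=
          Real.rpow_le_rpow (by norm_num) hn2 (by norm_num)
        have h4 : (128:ℝ) ^ (3/7 : ℝ) = 8 := by
          rw [show (128:ℝ) = 2 ^ (7:ℝ) by norm_num, ← Real.rpow_mul (by norm_num)]
          norm_num
        rw [h4] at h3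
        exact h3
      have h5 : (n:ℝ) = x * (n:ℝ) ^ (3/7 : ℝ) := by
        rw [hx, ← Real.rpow_add hn0]
        norm_num
      calc x * 8 ≤ x * (n:ℝ) ^ (3/7 : ℝ) := mul_le_mul_of_nonneg_left h2 (by linarith)
        _ = n := h5.symm
    set a : ℕ := ⌈x⌉₊ with ha
    have ha1 : x ≤ a := Nat.le_ceil x
    have ha2 : (a:ℝ) < x + 1 := Nat.ceil_lt_add_one (by linarith)
    have ha0 : (0:ℝ) < a := by linarith
    have ha3 : 1 ≤ a := by
      have : (0:ℝ) < a := ha0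
      exact_mod_cast this
    have han : 2 * a ≤ n := by
      have : (2 * (a:ℝ)) ≤ n := by linarith
      exact_mod_cast this
    have hlam : lam q * x ≤ 1 := by
      have hl0 := lam_nonneg q
      have h2 : ((n:ℝ) * lam q ^ (7/4 : ℝ)) ^ (4/7 : ℝ) ≤ 1 := by
        refine Real.rpow_le_one ?_ hl (by norm_num)
        exact mul_nonneg hn0.le (Real.rpow_nonneg hl0 _)
      rw [Real.mul_rpow hn0.le (Real.rpow_nonneg hl0 _), ← Real.rpow_mul hl0, ← hx] at h2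
      norm_num at h2
      linarith
    have hla : lam q * (2 * a) ≤ 4 := by
      have hl0 := lam_nonneg q
      have h2 : (a:ℝ) ≤ 2 * x := by linarith
      nlinarith [mul_le_mul_of_nonneg_left h2 hl0]
    refine (main_bound hC H q h0 h1 n a hn ha3 hla han).trans ?_
    have h2 : (a:ℝ) ^ (-(1/4) : ℝ) ≤ (n:ℝ) ^ (-(1/7) : ℝ) := by
      have h3 : (a:ℝ) ^ (-(1/4) : ℝ) ≤ x ^ (-(1/4) : ℝ) :=
        Real.rpow_le_rpow_of_nonpos (by linarith) ha1 (by norm_num)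
      have h4 : x ^ (-(1/4) : ℝ) = (n:ℝ) ^ (-(1/7) : ℝ) := by
        rw [hx, ← Real.rpow_mul hn0.le]
        norm_num
      rwa [h4] at h3
    have h3 : (a:ℝ) ^ (2 - 2 * (1/4) : ℝ) / n ≤ 4 * (n:ℝ) ^ (-(1/7) : ℝ) := by
      rw [div_le_iff₀ hn0]
      have h4 : (a:ℝ) ≤ 2 * x := by linarith
      have h5 : (a:ℝ) ^ (2 - 2 * (1/4) : ℝ) ≤ (2 * x) ^ (2 - 2 * (1/4) : ℝ) :=
        Real.rpow_le_rpow ha0.le h4 (by norm_num)
      rw [Real.mul_rpow (by norm_num) (by linarith)] at h5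
      have h6 : (2:ℝ) ^ (2 - 2 * (1/4) : ℝ) ≤ 4 := by
        have := Real.rpow_le_rpow_of_exponent_le (by norm_num : (1:ℝ) ≤ 2)
          (by norm_num : (2 - 2 * (1/4) : ℝ) ≤ 2)
        refine this.trans (le_of_eq ?_)
        norm_num
      have h7 : x ^ (2 - 2 * (1/4) : ℝ) = (n:ℝ) ^ (-(1/7) : ℝ) * n := by
        rw [hx, ← Real.rpow_mul hn0.le]
        conv_rhs => rw [← Real.rpow_one (n:ℝ), ← Real.rpow_mul hn0.le, ← Real.rpow_add hn0]
        norm_num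
      rw [h7] at h5
      have h8 : 0 ≤ (n:ℝ) ^ (-(1/7) : ℝ) * n := by positivity
      nlinarith
    have h4 : K * (a:ℝ) ^ (2 - 2 * (1/4) : ℝ) / n ≤ K * (4 * (n:ℝ) ^ (-(1/7) : ℝ)) := by
      rw [mul_div_assoc]
      exact mul_le_mul_of_nonneg_left h3 hK0
    have h5 : C * 5 * (a:ℝ) ^ (-(1/4) : ℝ) ≤ C * 5 * (n:ℝ) ^ (-(1/7) : ℝ) :=
      mul_le_mul_of_nonneg_left h2 (by linarith)
    have h6 : (C * 5 + 4 * K + 2) * (n:ℝ) ^ (-(1/7) : ℝ)
        = C * 5 * (n:ℝ) ^ (-(1/7) : ℝ) + K * (4 * (n:ℝ) ^ (-(1/7) : ℝ))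
          + 2 * (n:ℝ) ^ (-(1/7) : ℝ) := by ring
    have h7 : 0 ≤ (n:ℝ) ^ (-(1/7) : ℝ) := by positivity
    rw [h6]
    refine le_trans (add_le_add h5 h4) ?_
    linarith

end H953L
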