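import Pool.Agent.H953.Spd.Goal
import Pool.Agent.H953.OL.Key
import Pool.Agent.H953.OL.Mom
import Pool.Agent.H953.OL.Ker
import Pool.Agent.H953.OL.SetP
import Pool.Agent.H953.OL.Up1
import Pool.Agent.H953.OL.Up2
import Pool.Agent.H953.OL.Up
import Pool.Agent.H953.OL.Ra
import Pool.Agent.H953.OL.Nra
import Pool.Agent.H953.OL.Strip
import Pool.Agent.H953.OL.Cl
import Pool.Agent.H953.OL.Blk
import Pool.Agent.H953.OL.Loc
import Pool.Agent.H953.OL.Sym
import Pool.Agent.H953.OL.Inf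
import Pool.Agent.H953.OL.Crs
import Pool.Agent.H953.OL.Two2
import Pool.Agent.H953.OL.Kli
import Pool.Agent.H953.OL.Dual
import Pool.Agent.H953.OL.Low
import Pool.Agent.H953.OL.Ncl
import Pool.Agent.H953.OL.Inv
import Pool.Agent.H953.OL.Two3
import Pool.Agent.H953.OL.Two4
import Pool.Agent.H953.OL.Dup
import Pool.Agent.H953.OL.Fc
import Pool.Agent.H953.OL.Dlo
import Pool.Agent.H953.OL.Eul
import Pool.Agent.H953.OL.Kap

/-!
The law of the interface loops off the critical point: assembly.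
-/

set_option autoImplicit false

namespace H953L

open H974 Finset H12S H342P H984P MeasureTheory Filter
open Pool.Agent.Y993.LL (loop Closed Conn bx sd)

theorem p_two2 : S_two2 := two2 crs H953S.s_twoup

theorem p_up : S_up := up (up1 (set_sum key3 (kl crs p_two2) ker)) (up2 p_two2)

theorem p_ra : S_ra := ra H953S.s_twolow

theorem p_blk : S_blk := blk p_ra (nra p_ra H953S.s_twoup) strip cl

theorem p_sym : S_sym := sym loc

theorem p_inf : S_inf := inf loc p_sym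

theorem p_dual : S_dual := dual loc p_sym

theorem p_low : S_low := low p_blk p_inf p_up

theorem up_all : ∃ c C : ℝ, 0 < c ∧ 0 < C ∧ ∀ q : ℝ, 0 ≤ q → q ≤ 1 → ∀ n : ℕ, 1 ≤ n →
    Pr (fun _ => q) (bx (0, 0) n) (fun F => Lg n s0 (↑F : Set Edg)) ≤
      C * (n:ℝ) ^ (-(1/7) : ℝ) * Real.exp (-(c * (n * |q - 1/2| ^ (7/3 : ℝ)))) := by
  obtain ⟨c, C, hc, hC, h⟩ := p_up
  refine ⟨c, C, hc, hC, fun q h0 h1 n hn => ?_⟩
  rcases le_total q (1/2) with h2 | h2
  · exact h q h0 h2 n hn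
  · rw [p_dual q n h0 h1]
    have := h (1 - q) (by linarith) (by linarith) n hn
    rwa [show |1 - q - 1/2| = |q - 1/2| by rw [← abs_neg]; congr 1; ring] at this

theorem low_all : ∃ c C : ℝ, 0 < c ∧ 0 < C ∧ ∀ q : ℝ, 1/4 ≤ q → q ≤ 3/4 → ∀ n : ℕ, 1 ≤ n →
    c * (n:ℝ) ^ (-(1/7) : ℝ) * Real.exp (-(C * (n * |q - 1/2| ^ (7/3 : ℝ)))) ≤
    Pr (fun _ => q) (bx (0, 0) n) (fun F => Lg n s0 (↑F : Set Edg)) := by
  obtain ⟨c, C, hc, hC, h⟩ := p_low
  refine ⟨c, C, hc, hC, fun q h0 h1 n hn => ?_⟩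
  rcases le_total q (1/2) with h2 | h2
  · exact h q h0 h2 n hn
  · rw [p_dual q n (by linarith) (by linarith)]
    have := h (1 - q) (by linarith) (by linarith) n hn
    rwa [show |1 - q - 1/2| = |q - 1/2| by rw [← abs_neg]; congr 1; ring] at this

theorem p_tend (q : unitInterval) : Tendsto (fun n : ℕ => Pr (fun _ => (q:ℝ)) (bx (0, 0) n)
    (fun F => Lg n s0 (↑F : Set Edg))) atTop (nhds 0) := by
  obtain ⟨c, C, hc, hC, h⟩ := up_all
  have h0 : Tendsto (fun n : ℕ => C * (n:ℝ) ^ (-(1/7) : ℝ)) atTop (nhds 0) := by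
    have := (tendsto_rpow_neg_atTop (show (0:ℝ) < 1/7 by norm_num)).comp
      tendsto_natCast_atTop_atTop
    simpa using this.const_mul C
  refine squeeze_zero' (Eventually.of_forall fun n => Pr_nonneg (fun _ => ⟨q.2.1, q.2.2⟩) _ _) ?_ h0
  filter_upwards [eventually_ge_atTop 1] with n hn
  refine (h q q.2.1 q.2.2 n hn).trans ?_
  have h2 : Real.exp (-(c * (n * |(q:ℝ) - 1/2| ^ (7/3 : ℝ)))) ≤ 1 :=
    Real.exp_le_one_iff.2 (neg_nonpos.2 (by positivity))
  exact mul_le_of_le_one_right (by positivity) h2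

theorem p_clo : S_clo := by
  intro q
  filter_upwards [(p_inf q (p_tend q)).1] with ω h σ
  exact (h σ).1

theorem p_kap : S_kap := kap eul ncl_eq p_inf p_clo p_sym p_tend

theorem p_dup : S_dup := dup (two4 (two3 H953S.s_twoup))

theorem p_dlo : S_dlo := dlo (fc p_blk) p_clo

end H953L
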