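import Pool.Agent.H953.OL.Stm
import Pool.Graph.R_seed8.Y993.LL.Loop
import Pool.Graph.R_seed8.Y993.LL.Upper

/-!
Infinite volume: the law of the length of a loop from the events `Lg`.
-/

set_option autoImplicit false

namespace H953L

open H974 Finset H12S H342P H984P MeasureTheory
open Pool.Agent.Y993.LL (loop Closed Conn bx SL SU CL CU SB VV)

namespace Inf

/-- `Lg` in infinite volume is a local event -/
theorem lg_loc (h1 : S_loc) (n : ℕ) (σ : St) (ω : sqLattice.edgeSet → Bool) :
    Lg n σ (opn ω) ↔ Lg n σ (↑(FF (bx σ.1 n) ω) : Set Edg) := by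
  refine h1 n σ _ _ fun e he => ?_
  rw [Finset.mem_coe, mem_FF]
  constructor
  · intro h
    exact ⟨he, h⟩
  · intro h
    exact h.2

theorem lg_set (h1 : S_loc) (n : ℕ) (σ : St) :
    {ω : sqLattice.edgeSet → Bool | Lg n σ (opn ω)} =
      {ω | (fun F : Finset Edg => Lg n σ (↑F : Set Edg)) (FF (bx σ.1 n) ω)} := by
  ext ω
  exact lg_loc h1 n σ ω

theorem lg_meas (h1 : S_loc) (n : ℕ) (σ : St) :
    MeasurableSet {ω : sqLattice.edgeSet → Bool | Lg n σ (opn ω)} := by
  rw [lg_set h1 n σ]
  exact meas_event _ (fun F : Finset Edg => Lg n σ (↑F : Set Edg))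

theorem lg_pr (h1 : S_loc) (h2 : S_sym) (q : unitInterval) (n : ℕ) (σ : St) :
    (bondLaw q).real {ω | Lg n σ (opn ω)} =
      Pr (fun _ => (q:ℝ)) (bx (0, 0) n) (fun F => Lg n s0 (↑F : Set Edg)) := by
  rw [lg_set h1 n σ, law_event q (bx σ.1 n) (fun F : Finset Edg => Lg n σ (↑F : Set Edg))]
  exact h2 q n σ q.2.1 q.2.2

/-- a loop that is not closed has all its states different -/
theorem lg_of_not_closed {F : Set Edg} {σ : St} (h : ¬ Closed F σ) (n : ℕ) : Lg n σ F := by
  intro i hi _ hc
  exact h ⟨i, hi, hc⟩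

theorem pos_of_closed {F : Set Edg} {σ : St} (h : Closed F σ) :
    0 < Function.minimalPeriod (nxt F) σ := by
  obtain ⟨p, hp, hp2⟩ := h
  exact Function.minimalPeriod_pos_of_mem_periodicPts ⟨p, hp, hp2⟩

/-- for a periodic state the period is at least `n` iff the first `n` states are different -/
theorem lg_iff {F : Set Edg} {σ : St} (h : 0 < Function.minimalPeriod (nxt F) σ) (n : ℕ) :
    Lg n σ F ↔ n ≤ Function.minimalPeriod (nxt F) σ := by
  constructor
  · intro hL
    by_contra hc
    push Not at hc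
    exact hL _ h hc (Function.isPeriodicPt_minimalPeriod (nxt F) σ)
  · intro hle i hi hin hc
    exact Function.not_isPeriodicPt_of_pos_of_lt_minimalPeriod hi.ne' (lt_of_lt_of_le hin hle) hc

theorem closed_of_pos {F : Set Edg} {σ : St} (h : 0 < Function.minimalPeriod (nxt F) σ) :
    Closed F σ := ⟨_, h, Function.isPeriodicPt_minimalPeriod (nxt F) σ⟩

/-- the first return time is measurable -/
theorem meas_period (h1 : S_loc) (σ : St) :
    Measurable (fun ω : sqLattice.edgeSet → Bool => Function.minimalPeriod (nxt (opn ω)) σ) := by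
  refine measurable_to_countable' fun p => ?_
  rcases Nat.eq_zero_or_pos p with rfl | hp
  · have : (fun ω : sqLattice.edgeSet → Bool => Function.minimalPeriod (nxt (opn ω)) σ) ⁻¹' {0} =
        ⋂ n : ℕ, {ω | Lg n σ (opn ω)} := by
      ext ω
      simp only [Set.mem_preimage, Set.mem_singleton_iff, Set.mem_iInter, Set.mem_ofPred_eq]
      constructor
      · intro h n
        refine lg_of_not_closed (fun hc => ?_) n
        have := pos_of_closed hc
        omega
      · intro h
        by_contra hne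
        have hpos : 0 < Function.minimalPeriod (nxt (opn ω)) σ := Nat.pos_of_ne_zero hne
        have := (lg_iff hpos _).1 (h (Function.minimalPeriod (nxt (opn ω)) σ + 1))
        omega
    rw [this]
    exact MeasurableSet.iInter fun n => lg_meas h1 n σ
  · have : (fun ω : sqLattice.edgeSet → Bool => Function.minimalPeriod (nxt (opn ω)) σ) ⁻¹' {p} =
        {ω | Lg p σ (opn ω)} \ {ω | Lg (p + 1) σ (opn ω)} := by
      ext ω
      simp only [Set.mem_preimage, Set.mem_singleton_iff, Set.mem_sdiff, Set.mem_ofPred_eq]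
      constructor
      · intro h
        have hpos : 0 < Function.minimalPeriod (nxt (opn ω)) σ := by omega
        rw [lg_iff hpos, lg_iff hpos]
        omega
      · rintro ⟨ha, hb⟩
        have hcl : Closed (opn ω) σ := by
          by_contra hc
          exact hb (lg_of_not_closed hc (p + 1))
        have hpos := pos_of_closed hcl
        rw [lg_iff hpos] at ha hb
        omega
    rw [this]
    exact (lg_meas h1 p σ).diff (lg_meas h1 (p + 1) σ)

/-- almost surely the interface through `σ` is closed -/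
theorem closed_ae (h1 : S_loc) (h2 : S_sym) (q : unitInterval)
    (hlim : Filter.Tendsto (fun n : ℕ => Pr (fun _ => (q:ℝ)) (bx (0, 0) n)
      (fun F => Lg n s0 (↑F : Set Edg))) Filter.atTop (nhds 0)) (σ : St) :
    ∀ᵐ ω ∂(bondLaw q), Closed (opn ω) σ := by
  have h3 : (bondLaw q).real {ω | ¬ Closed (opn ω) σ} ≤ 0 := by
    refine ge_of_tendsto' hlim fun n => ?_
    rw [← lg_pr h1 h2 q n σ]
    exact measureReal_mono fun ω hω => lg_of_not_closed hω n
  have h4 : (bondLaw q).real {ω | ¬ Closed (opn ω) σ} = 0 := le_antisymm h3 measureReal_nonneg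
  have h5 : (bondLaw q) {ω | ¬ Closed (opn ω) σ} = 0 := (measureReal_eq_zero_iff).1 h4
  exact h5

end Inf

/-- **E4** -/
theorem inf (h1 : S_loc) (h2 : S_sym) : S_inf := by
  intro q hlim
  have hall : ∀ᵐ ω ∂(bondLaw q), ∀ σ : St, Closed (opn ω) σ :=
    ae_all_iff.2 fun σ => Inf.closed_ae h1 h2 q hlim σ
  refine ⟨?_, fun σ => ?_, fun σ n _ => ?_⟩
  · filter_upwards [hall] with ω hω σ
    exact ⟨hω σ, Inf.pos_of_closed (hω σ), Pool.Agent.Y993.LL.period_eq (hω σ)⟩
  · refine ⟨_, Inf.meas_period h1 σ, ?_⟩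
    filter_upwards [hall] with ω hω
    exact (Pool.Agent.Y993.LL.period_eq (hω σ)).symm
  · rw [← Inf.lg_pr h1 h2 q n σ]
    refine measureReal_congr ?_
    filter_upwards [hall] with ω hω
    have h3 := Inf.lg_iff (Inf.pos_of_closed (hω σ)) n
    rw [Pool.Agent.Y993.LL.period_eq (hω σ)] at h3
    exact propext h3.symm

end H953L
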