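import Pool.Agent.H953.Key1

/-!
The abstract induction over the scales, typed version: definitions and statement.
-/

set_option autoImplicit false

namespace H953L

open H974 Finset
open Pool.Agent.NH39.W (psi dm conn)

/-! ### A. The abstract induction over the scales (typed version of `Pool/Agent/H953/Key1.lean`) -/

/-- The hypotheses: a bound `u D * g D` for the event around one position, and a bound `g D / g r`
for an annulus. `Ds S F` is the event that all the elements of `S` matter together. -/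
structure KL {E : Type} [DecidableEq E] [Fintype E] (ds : E → E → ℕ) (N : ℕ) (q : ℝ)
    (u g : ℕ → ℝ) (ε : ℝ) (Ds : Finset E → Finset E → Prop) (C W : ℝ) : Prop where
  d0 : ∀ a, ds a a = 0
  dc : ∀ a b, ds a b = ds b a
  dt : ∀ a b c, ds a c ≤ ds a b + ds b c
  hN : 1 ≤ N
  q0 : 0 ≤ q
  q1 : q ≤ 1
  u1 : u 1 = 1
  up : ∀ r, 1 ≤ r → 0 < u r
  um : ∀ r s, 1 ≤ r → r ≤ s → u s ≤ u r
  ud : ∀ r s, 1 ≤ r → r ≤ s → s ≤ 8 * r → u r ≤ W * u s
  g1 : g 1 = 1
  gp : ∀ r, 1 ≤ r → 0 < g r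
  gm : ∀ r s, 1 ≤ r → r ≤ s → g s ≤ g r
  gd : ∀ r s, 1 ≤ r → r ≤ s → s ≤ 8 * r → g r ≤ W * g s
  e0 : 0 < ε
  e1 : ε ≤ 1
  pt : ∀ (x : E) (D : ℕ), 1 ≤ D → D ≤ N → ∃ Ch : Finset E → Prop,
      (∀ F F' : Finset E, (∀ e, ds e x ≤ D → (e ∈ F ↔ e ∈ F')) → (Ch F ↔ Ch F')) ∧
      (∀ S F : Finset E, x ∈ S → (∀ y ∈ S, ds y x = 0 ∨ D < ds y x) → (∃ z ∈ S, D < ds z x) →
        Ds S F → Ch F) ∧
      Pr (fun _ => q) Finset.univ Ch ≤ C * (u D * g D)
  ann : ∀ (x : E) (r D : ℕ), 1 ≤ r → r ≤ D → D ≤ N → ∃ Ch : Finset E → Prop,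
      (∀ F F' : Finset E, (∀ e, r ≤ ds e x → ds e x ≤ D → (e ∈ F ↔ e ∈ F')) → (Ch F ↔ Ch F')) ∧
      (∀ S F : Finset E, x ∈ S → (∀ y ∈ S, ds y x < r ∨ D < ds y x) → (∃ z ∈ S, D < ds z x) →
        Ds S F → Ch F) ∧
      Pr (fun _ => q) Finset.univ Ch ≤ C * (g D / g r)
  hC : 1 ≤ C
  hW : 1 ≤ W

/-- The kernel of the tree: the three terms are the types of an edge (it joins two sets with
several positions, one of them, none of them). -/
noncomputable def Kf (u g : ℕ → ℝ) (ε : ℝ) (N d : ℕ) : ℝ :=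
  ε * psi g N d + psi g N d * psi u N d + ε⁻¹ * (psi g N d * psi u N d ^ 2)

/-- A1. The bound for one set with at least two positions.

Proof: copy `Pool/Agent/H953/Key1.lean` (`Gd`, `gd_base`, `gd_start`, `gd_merge_psi`, `gd_merge`, `gd_out`,
`gd_grow`, `gd_whole`, `gd_key`, `key`) with these changes. The marked point `o` and the weight `v`
disappear. The weight of a component is `om S s = if dm ds S = 0 then psi u N s * psi g N s else
ε * psi g N s`. The kernel `psi w N (ds y (par y))` becomes `Kf u g ε N (ds y (par y))`. In `Gd` the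
second condition is asked for `S' ≠ S` only (call it `GdS`; a version `GdW` for all `S' ⊇ S` is what
MERGE produces: `GdS U`, `GdS R` (components at distance `> t`, both nonempty, so that `S' ≠ U`,
`S' ≠ R`) give `GdW (U ∪ R)`; `GdW` implies `GdS`). BASE: `pt x (t' / 2)`, `om S t' = u t' * g t'`.
MERGE: with `d = ds b u ≤ t + 1`, the product of the two weights is at most
`W ^ 4 * (Kf d * om (U ∪ R))`: (both at one position) `u g * u g ≤ W^4 * (ε⁻¹ g u²)(d) * (ε g)`, (one
of them) `u g * ε g ≤ W^4 * (g u)(d) * (ε g)`, (none) `ε g * ε g ≤ W^4 * (ε g)(d) * (ε g)`; as in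
`gd_merge_psi` the case distinction `dm R ≤ M` or not. OUT (only for `0 < dm ds S`): `ann`, as
before. KEY': `GdS` for all `t`-connected sets by induction on `t`; OUT is only applied to sets with
`kcmp ≠ S`, for which `dm ds S > 0` (otherwise `kcmp ds t S x = S`). LAST STEP: take the smallest `t`
such that `S` is `t + 1`-connected (`S` is `N`-connected through `o`, and not `0`-connected by
`conn_zero`); apply the analogue of `gd_whole` (without OUT) to get `GdW` at `t`, hence the bound for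
`Pr (Ds S)`. -/
def S_key : Prop := ∀ (E : Type) [DecidableEq E] [Fintype E] (ds : E → E → ℕ) (N : ℕ) (q : ℝ)
    (u g : ℕ → ℝ) (ε : ℝ) (Ds : Finset E → Finset E → Prop) (C W : ℝ),
    KL ds N q u g ε Ds C W → ∀ (S : Finset E) (o : E), o ∈ S → (∀ y ∈ S, ds y o ≤ N) →
    0 < dm ds S →
    ∃ (par : E → E) (rk : E → ℕ), (∀ y ∈ S, y ≠ o → par y ∈ S ∧ rk (par y) < rk y) ∧
      Pr (fun _ => q) Finset.univ (Ds S) ≤
        (C * W ^ 4) ^ (4 * S.card) * (∏ y ∈ S.erase o, Kf u g ε N (ds y (par y))) * ε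

end H953L
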