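import Mathlib

/-!
The moments of a variable with a power law with an exponential cut-off: statement.
-/

set_option autoImplicit false

namespace H953L

open MeasureTheory

/-! ### F. Moments -/

/-- F1. The moments of a variable with such a law (layer cake; for the lower bound use
`μ {n ≤ L}` with `n` of the order `κ⁻¹`, or `n = 1` ... all `s > 1/7`). -/
def S_mom : Prop := ∀ c C s : ℝ, 0 < c → 0 < C → 1/7 < s → ∃ c' C' : ℝ, 0 < c' ∧ 0 < C' ∧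
  ∀ (Ω : Type) [MeasurableSpace Ω] (μ : Measure Ω) [IsProbabilityMeasure μ] (L : Ω → ℕ) (κ : ℝ),
    AEMeasurable L μ → 0 < κ → κ ≤ 1 →
    (∀ n : ℕ, 1 ≤ n → c * (n:ℝ) ^ (-(1/7) : ℝ) * Real.exp (-(C * (n * κ))) ≤ μ.real {ω | n ≤ L ω} ∧
      μ.real {ω | n ≤ L ω} ≤ C * (n:ℝ) ^ (-(1/7) : ℝ) * Real.exp (-(c * (n * κ)))) →
    Integrable (fun ω => (L ω : ℝ) ^ s) μ ∧
    c' * κ ^ (-(s - 1/7)) ≤ ∫ ω, (L ω : ℝ) ^ s ∂μ ∧ ∫ ω, (L ω : ℝ) ^ s ∂μ ≤ C' * κ ^ (-(s - 1/7))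

end H953L
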