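import Pool.Graph.R_seed8.Y993.LL.Cond
import Pool.Graph.R_seed8.Y21.NE.Tree
import Pool.Agent.H953.Spd.Far
import Pool.Agent.H953.Sg4
import Pool.Agent.H953.OL.KLd
import Pool.Agent.H953.OL.MomS

/-!
The law of the length of an interface loop off the critical point: definitions and statements.

Conventions: `Edg`, `Vtx`, `RE`, `Reach`, `DReach`, `Pr`, `bondLaw`, `opn`, `FF` (`H974`), states `St`,
`face`, `ae`, `nxt`, `orb`, `RA`, `nRA`, `NB`, `ctr` (`H984P`), `loop`, `Closed`, `Conn`, `bx`, `SL`,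
`SU`, `CL`, `CU`, `SB`, `VV` (`Y993.LL`), `Two`, `Far`, `Inc` (`H342P`), `EM`, `im`, `eds`, `Vi`, `X1c`
(`Pool.Agent.H953`), `psi`, `dm`, `conn`, `kcmp` (`NH39.W`).
-/

set_option autoImplicit false

namespace H953L

open H974 Finset H12S H342P H984P MeasureTheory
open Pool.Agent.Y993.LL (loop Closed Conn bx SL SU CL CU SB VV)
open Pool.Agent.H953 (EM im eds Vi X1c)
open Pool.Agent.NH39.W (psi dm conn)

/-! ### B. The weights -/

/-- The inverse of the correlation length. -/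
noncomputable def lam (q : ℝ) : ℝ := |q - 1/2| ^ (4/3 : ℝ)

/-- The weight of two arms from a point. -/
noncomputable def uu (q : ℝ) (s : ℕ) : ℝ := (((s:ℝ)⁻¹ + lam q) / (1 + lam q)) ^ (1/4 : ℝ)

/-- The weight of the crossing of an annulus. -/
noncomputable def gg (q : ℝ) (s : ℕ) : ℝ := ((1 + lam q) / (1 + lam q * s)) ^ 3

/-- The limit of `uu`. -/
noncomputable def ee (q : ℝ) : ℝ := (lam q / (1 + lam q)) ^ (1/4 : ℝ)

/-- B1. Open crossing of an annulus, below the critical point (compare `X1b` in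
`Pool/Agent/H953/Sg2.lean`: trivial if `lam q * D` is bounded; otherwise `X1_far` (`Sg1.lean`) from
the scale `N0 = ⌈E / lam q⌉`, or from `r` if `r ≥ N0`; `pr_X1c` in `Sg3.lean` for the translation). -/
def S_crs : Prop := ∃ C : ℝ, 1 ≤ C ∧ ∀ q : ℝ, 0 ≤ q → q < 1/2 → ∀ (c : Vtx) (r D : ℕ)
  (S : Finset Edg), 1 ≤ r → r ≤ D → blk c D ⊆ S →
    Pr (fun _ => q) S (fun F => X1c c r D (↑F : Set Edg)) ≤ C * (gg q D / gg q r)

/-- B2. Two arms from a point at all scales: `S_twoup` (its proof is in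
`Pool/Agent/H953/Spd/TwoUpq.lean`, assembled in `Asm.lean`/`Goal.lean`) up to the scale
`(β / (1/2 - q))^(4/3)`, and beyond it independence of `blk u k0` and of the annulus between `k0 + 1`
and `k` (`S_crs`). If `(β / (1/2 - q))^(4/3) < 4` only `S_crs` with `r = 1`. -/
def S_two2 : Prop := ∃ C : ℝ, 1 ≤ C ∧ ∀ q : ℝ, 0 ≤ q → q < 1/2 → ∀ (u p : Vtx) (k : ℕ)
  (S : Finset Edg), Inc u p → 1 ≤ k → blk u k ⊆ S →
    Pr (fun _ => q) S (fun F => Two u p k (↑F : Set Edg)) ≤ C * (uu q k * gg q k)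

/-! ### C. The upper bound -/

/-- The state we start from. -/
def s0 : St := ((0, 0), .ne)

/-- The first `n` states of the interface from `σ` are different from each other. -/
def Lg (n : ℕ) (σ : St) (F : Set Edg) : Prop := ∀ i, 0 < i → i < n → orb F σ i ≠ σ

/-- The edges of `S` are all examined by states which are connected to each other, for some
continuation of the configuration. -/
def DsL (m : ℕ) (S F : Finset (EM (2 * m))) : Prop :=
  (∀ y ∈ S, eds y.1 (0, 0, true) ≤ m) ∧ ∃ G : Set Edg,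
    (∀ (e : Edg) (h : e ∈ boxE (2 * m)), (e ∈ G ↔ (⟨e, h⟩ : EM (2 * m)) ∈ F)) ∧
    ∃ τ : EM (2 * m) → St, (∀ y ∈ S, ae (τ y) = y.1) ∧ ∀ y ∈ S, ∀ z ∈ S, Conn G (τ y) (τ z)

/-- C1. The instance (compare `ks_conn` in `Pool/Agent/H953/Sg3.lean`). `pt x D`: if `x` is not within
`m` of the origin take `False`; if `D ≤ 3` take `True`; otherwise the event that for one of the two
states `τ` with `ae τ = x` (`τ.1` is within distance 1 of the first endpoint of `x`) there are two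
arms `Two τ.1 (face τ) (D - 2)`; it follows from `two_of_conn` (`LL/Upper.lean`), it is local, and
`S_two2` bounds it. `ann x r D`: the event `X1c` between `r + 1` and `D - 2` around the first endpoint
of `x` (if `r + 4 ≤ D`; `X1c_of`), bounded by `S_crs`. Constants: doubling of `uu`, `gg`. -/
def S_kl : Prop := ∃ C W : ℝ, ∀ q : ℝ, 0 ≤ q → q < 1/2 → ∀ m : ℕ, 1 ≤ m →
  KL (fun a b : EM (2 * m) => eds a.1 b.1) m q (uu q) (gg q) (ee q) (DsL m) C W

/-- C2. The kernel (`sum_eds` in `Sg4.lean`, compare `kernv`): each of the three terms gives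
`C * (lam q) ^ (-(7/4))`; e.g. `Σ_b (b+1) (1/(b+1) + l)^(1/4) (1 + l b)^(-3) ≤ C l^(-7/4)`: for
`b ≤ 1/l` the sum of `(b+1)^(3/4)`, for `b > 1/l` the sum of `b l^(1/4) (l b)^(-3)`. -/
def S_ker : Prop := ∃ C : ℝ, 1 ≤ C ∧ ∀ q : ℝ, 0 ≤ q → q < 1/2 → ∀ m : ℕ, 1 ≤ m →
  ∀ z : EM (2 * m), z ∈ Vi m →
    ∑ y ∈ Vi m, Kf (uu q) (gg q) (ee q) m (eds y.1 z.1) ≤ C * lam q ^ (-(7/4) : ℝ)

/-- C3. The sum over all sets (compare `sumX` in `Sg5.lean`; `S_key` and `Y21.NE.tree`). If all the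
elements of `S` are at one position (then `S.card ≤ 2`, and there is at most one such set, `k = 1`)
use `Pr ≤ 1 ≤ C * (ee q * lam q ^ (-(7/4)))`. -/
def S_set : Prop := ∃ B : ℝ, 1 ≤ B ∧ ∀ q : ℝ, 0 ≤ q → q < 1/2 →
  ∀ m : ℕ, 1 ≤ m → ∀ (o : EM (2 * m)), o.1 = (0, 0, true) → ∀ k : ℕ, 1 ≤ k →
    ∑ S ∈ ((Vi m).powersetCard (k + 1)).filter (fun S => o ∈ S),
      Pr (fun _ => q) Finset.univ (DsL m S) ≤
      B ^ (k + 1) * (ee q * (lam q ^ (-(7/4) : ℝ)) ^ k)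

/-- C4. The tail. Let `F` satisfy `Lg n s0 F` (`m = n`). The states `orb F s0 i`, `i < n`, are
different, within distance `n - 1`, connected to each other (`conn_orb`); an edge is examined by two
states only, so that the set `V` of the edges `ae (orb F s0 i)` has at least `n / 2` elements, one
of them `o`. So `∑_S 1{DsL n S F} ≥ choose (V.card - 1) k`. Hence for every `k ≥ 1`
`Pr (Lg n s0) * choose (⌈n/2⌉ - 1) k ≤ B^(k+1) * ee q * (lam q)^(-7k/4)`, and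
`choose M k ≥ (M / k)^k`; take `k = ⌊c n (lam q)^(7/4)⌋` or `1`. -/
def S_up1 : Prop :=
  ∃ c C : ℝ, 0 < c ∧ 0 < C ∧ ∀ q : ℝ, 0 ≤ q → q < 1/2 → ∀ n : ℕ, 1 ≤ n →
    1 ≤ n * lam q ^ (7/4 : ℝ) →
    Pr (fun _ => q) (bx (0, 0) n) (fun F => Lg n s0 (↑F : Set Edg)) ≤
      C * lam q ^ (1/4 : ℝ) * Real.exp (-(c * (n * lam q ^ (7/4 : ℝ))))

/-- C5. Short loops (compare `len_upper` in `LL/Upper.lean`). With `a = ⌈n^(4/7)⌉`, `lam q * a ≤ 2`:
`Lg n s0 F` implies `Two (0,0) (0,0) a F` or that there are `n` states within distance `a` which are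
connected to `s0`; for a state `τ` at distance `d ≥ 4` the latter has probability at most
`Pr (Two s0 (d/4)) * Pr (Two τ (d/4)) ≤ C d^(-1/2)` (`pr_pair`, `TT`), in total `C a^(3/2) / n`. -/
def S_up2 : Prop := ∃ C : ℝ, 0 < C ∧ ∀ q : ℝ, 0 ≤ q → q < 1/2 → ∀ n : ℕ, 1 ≤ n →
  n * lam q ^ (7/4 : ℝ) ≤ 1 →
    Pr (fun _ => q) (bx (0, 0) n) (fun F => Lg n s0 (↑F : Set Edg)) ≤
      C * (n:ℝ) ^ (-(1/7) : ℝ)

/-- C6. Together, for all `q ≤ 1/2` (at `1/2` by continuity of the left side, or from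
`Pool.Agent.Y993.LL.main`). -/
def S_up : Prop := ∃ c C : ℝ, 0 < c ∧ 0 < C ∧ ∀ q : ℝ, 0 ≤ q → q ≤ 1/2 → ∀ n : ℕ, 1 ≤ n →
    Pr (fun _ => q) (bx (0, 0) n) (fun F => Lg n s0 (↑F : Set Edg)) ≤
      C * (n:ℝ) ^ (-(1/7) : ℝ) * Real.exp (-(c * (n * |q - 1/2| ^ (7/3 : ℝ))))

/-! ### D. The lower bound -/

/-- The scale `a` is at most of the order of the correlation length (or 1). -/
def Nc (β q : ℝ) (a : ℕ) : Prop := 1/2 - q ≤ β * (a:ℝ) ^ (-(3/4) : ℝ) ∨ a = 1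

/-- D1. Separated arms at all scales: `S_twolow` for `a ≥ a0` (its proof is in
`Pool/Agent/H953/Spd/TwoLowq.lean`, assembled in `Asm.lean`/`Goal.lean`); for `a < a0` the event is not
empty (it has positive probability at `1/2`), and every configuration of the box has probability at
least `(1/4) ^ card`. -/
def S_ra : Prop := ∃ c β : ℝ, 0 < c ∧ 0 < β ∧ ∀ q : ℝ, 1/4 ≤ q → q ≤ 1/2 → ∀ a : ℕ, 1 ≤ a →
  Nc β q a →
    c * (a:ℝ) ^ (-(1/4) : ℝ) ≤
      Pr (fun _ => q) (RE (-(13 * a : ℕ)) (14 * a : ℕ) (-(13 * a : ℕ)) (14 * a : ℕ))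
        (fun F => RA (0, 0) a (↑F : Set Edg))

/-- D2. Many vertices with separated arms: the second moment method. Port of `nra_prob`
(`Pool/Graph/R_seed8/H984R3/Per/Second.lean`, with `ex_nRA_ge`, `ex_sq_le`, `pz`) from the parameter
`1/2` to `q`, with `S_ra` for the lower and `S_twoup` for the upper bound (all scales `≤ 4 a`; choose
`β` small). -/
def S_nra : Prop := ∃ c β : ℝ, 0 < c ∧ 0 < β ∧ ∀ q : ℝ, 1/4 ≤ q → q ≤ 1/2 →
  ∀ (z : Vtx) (a : ℕ), 1 ≤ a → Nc β q a →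
    c ≤ Pr (fun _ => q) (NB z a) (fun G => c * (a:ℝ) ^ (7/4 : ℝ) ≤ (nRA z a (↑G : Set Edg) : ℝ))

/-- D3. The signed Harris inequality for the two crossings (proof of `strip_harris` in
`Pool/Graph/R_seed8/Y993/LL/Strip.lean`, for any parameter and any length). -/
def S_strip : Prop := ∀ (q : ℝ) (X1 X2 y0 : ℤ) (a : ℕ) (S : Finset Edg) (N : Finset Edg → Prop),
  0 ≤ q → q ≤ 1 → 1 ≤ a → X1 < X2 → SB X1 X2 y0 a ⊆ S →
  (∀ F G : Finset Edg, F ⊆ S → G ⊆ S →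
    (∀ v, VV X1 X2 y0 a v → RA v a (↑F : Set Edg) → RA v a (↑G : Set Edg)) → N F → N G) →
  Pr (fun _ => q) S (CL X1 X2 y0 a) * Pr (fun _ => q) S (fun F => CU X1 X2 y0 a (↑F : Set Edg)) *
    Pr (fun _ => q) S N ≤
    Pr (fun _ => q) S (fun F => N F ∧ (CL X1 X2 y0 a F ∧ CU X1 X2 y0 a (↑F : Set Edg)))

/-- D4. Crossings of long strips: `hh q w (4 a) ≥ κ^(K+1)` for `w ≤ 64 a (K+1)`: glue crossings of
rectangles of size `16 a × 4 a` with crossings in the short direction (Harris); each rectangle has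
probability bounded below by `win_lower` (`R_seed8/W424/NC/Win.lean`; `1/2 - q ≤ β a^(-3/4)`). The dual
crossing has parameter `1 - q ≥ 1/2` (`CU_iff`, `pr_dual` as in `pr_CU` in `LL/Strip.lean`, and
`hh` is increasing in the parameter). -/
def S_cl : Prop := ∀ β : ℝ, 0 < β → ∃ κ : ℝ, 0 < κ ∧ κ ≤ 1 ∧ ∀ q : ℝ, 1/4 ≤ q → q ≤ 1/2 →
  ∀ (a K : ℕ) (X1 X2 y0 : ℤ) (S : Finset Edg), 1 ≤ a → Nc β q a →
  X1 < X2 → X2 - X1 ≤ 64 * a * (K + 1) → SB X1 X2 y0 a ⊆ S →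
    κ ^ (K + 1) ≤ Pr (fun _ => q) S (CL X1 X2 y0 a) ∧
    κ ^ (K + 1) ≤ Pr (fun _ => q) S (fun F => CU X1 X2 y0 a (↑F : Set Edg))

/-- The states of `T` are connected to `s0` inside `S`. -/
def Cn (S F : Finset Edg) (T : Finset St) : Prop :=
  ∀ τ ∈ T, Reach (↑F) s0.1 τ.1 ∧ DReach (↑(S \ F)) (face s0) (face τ)

/-- D5. `K` blocks in a row (compare `low_ne` in `Pool/Graph/R_seed8/Y993/LL/Low.lean`, the case `K = 1`).
`X1 = -13 a`, `X2 = 32 a K + 14 a`, `N F = RA (0,0) a F ∧ ∀ j ∈ [1, K], M ≤ nRA (32 a j, 0) a F`, which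
has probability at least `c a^(-1/4) c^K` by independence (`BA (0,0) a` and the `NB (32 a j, 0) a` are
disjoint); `S_strip`, `S_cl`, and `strip_conn`; `T` is the set of all `(v, ne)` with
`v ∈ ctr (32 a j, 0) a`, `RA v a F`. -/
def S_blk : Prop := ∃ c β : ℝ, 0 < c ∧ c ≤ 1 ∧ 0 < β ∧
  ∀ q : ℝ, 1/4 ≤ q → q ≤ 1/2 → ∀ a K : ℕ, 1 ≤ a → 1 ≤ K → Nc β q a →
    ∃ S : Finset Edg, c ^ (K + 1) * (a:ℝ) ^ (-(1/4) : ℝ) ≤ Pr (fun _ => q) S (fun F =>
      ∃ T : Finset St, c * K * (a:ℝ) ^ (7/4 : ℝ) ≤ T.card ∧ Cn S F T ∧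
        ∃ τ ∈ T, 31 * (a:ℤ) * K ≤ τ.1.1)

/-! ### E. Symmetries and infinite volume -/

/-- E1. `Lg n σ` depends only on the edges of the box. -/
def S_loc : Prop := ∀ (n : ℕ) (σ : St) (F G : Set Edg),
  (∀ e ∈ bx σ.1 n, (e ∈ F ↔ e ∈ G)) → (Lg n σ F ↔ Lg n σ G)

/-- E2. All states are equivalent (translations: `tS_orb` in `LL/Macro.lean`, `Pr_trl`-type lemma as in
`pr_Lng_trl`; rotation by 90 degrees `rS`, `rM`: `nxt (rM F) (rS σ) = rS (nxt F σ)`, as in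
`pr_Lng_rot` in `LL/Low.lean`, for any parameter). -/
def S_sym : Prop := ∀ (q : ℝ) (n : ℕ) (σ : St), 0 ≤ q → q ≤ 1 →
  Pr (fun _ => q) (bx σ.1 n) (fun F => Lg n σ (↑F : Set Edg)) =
    Pr (fun _ => q) (bx (0, 0) n) (fun F => Lg n s0 (↑F : Set Edg))

/-- E3. Duality. The dual of the state `(v, c)` is `σ' = (face σ, opposite corner)`, so that
`face σ' = v - (1, 1)`; in the dual configuration `H = (S \ F).map dl` the interface runs backwards:
`nxt H (nxt F σ)' = σ'`. So `orb F σ i = σ` iff `orb H σ' i = σ'`. The law of `H` is percolation with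
parameter `1 - q` (`S_dlaw`, `pr_dual`); then `S_sym`, `S_loc`. -/
def S_dual : Prop := ∀ (q : ℝ) (n : ℕ), 0 ≤ q → q ≤ 1 →
  Pr (fun _ => q) (bx (0, 0) n) (fun F => Lg n s0 (↑F : Set Edg)) =
    Pr (fun _ => 1 - q) (bx (0, 0) n) (fun F => Lg n s0 (↑F : Set Edg))

/-- E4. If the probabilities of `Lg n` tend to 0, almost surely all loops are closed, and the law of
the length is given by `Lg` (`law_event`; for a closed interface `n ≤ (loop F σ).ncard` iff `Lg n σ F`,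
for `n ≥ 1`, since the `ncard` is the minimal period, see `LL/Loop.lean`). -/
def S_inf : Prop := ∀ q : unitInterval,
  Filter.Tendsto (fun n : ℕ => Pr (fun _ => (q:ℝ)) (bx (0, 0) n)
    (fun F => Lg n s0 (↑F : Set Edg))) Filter.atTop (nhds 0) →
  (∀ᵐ ω ∂(bondLaw q), ∀ σ : St, Closed (opn ω) σ ∧ 0 < Function.minimalPeriod (nxt (opn ω)) σ ∧
      Function.minimalPeriod (nxt (opn ω)) σ = (loop (opn ω) σ).ncard) ∧
  (∀ σ : St, AEMeasurable (fun ω => (loop (opn ω) σ).ncard) (bondLaw q)) ∧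
  (∀ (σ : St) (n : ℕ), 1 ≤ n → (bondLaw q).real {ω | n ≤ (loop (opn ω) σ).ncard} =
    Pr (fun _ => (q:ℝ)) (bx (0, 0) n) (fun F => Lg n s0 (↑F : Set Edg)))

/-- E5. The lower bound for the law: from `S_blk` (in a closed configuration all states of `T` are on
the loop of `s0`, `mem_loop`, `conn_of_fin` in `LL/Low.lean`), with the choice of `a` and `K`:
if `n t^(7/3) ≤ small` then `K = 1` and `a ≈ C n^(4/7)`; otherwise `a ≈ β' t^(-4/3)` (or `a = 1`) and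
`K = ⌈n / (c a^(7/4))⌉ ≤ C n t^(7/3) + 1` (`t = 1/2 - q`). From `S_blk`, `S_inf` (with `S_up` for the
hypothesis of `S_inf`). -/
def S_low : Prop :=
  ∃ c C : ℝ, 0 < c ∧ 0 < C ∧ ∀ q : ℝ, 1/4 ≤ q → q ≤ 1/2 → ∀ n : ℕ, 1 ≤ n →
    c * (n:ℝ) ^ (-(1/7) : ℝ) * Real.exp (-(C * (n * |q - 1/2| ^ (7/3 : ℝ)))) ≤
    Pr (fun _ => q) (bx (0, 0) n) (fun F => Lg n s0 (↑F : Set Edg))

end H953L
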