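import Pool.Agent.H953.OL.Stm

/-!
The law of the length of an interface loop off the critical point: the number of clusters per
vertex, and the law of the diameter.
-/

set_option autoImplicit false

namespace H953L

open H974 Finset H12S H342P H984P MeasureTheory
open Pool.Agent.Y993.LL (loop Closed Conn bx sd)

/-- Almost surely all loops are closed (assembly of `S_up`, `S_dual`, `S_inf`). -/
def S_clo : Prop := ∀ q : unitInterval, ∀ᵐ ω ∂(bondLaw q), ∀ σ : St, Closed (opn ω) σ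

/-! ### G. The number of clusters and the loops -/

/-- The vertices of the `n × n` box. -/
noncomputable def bxV (n : ℕ) : Finset Vtx := Finset.Ico (0:ℤ) n ×ˢ Finset.Ico (0:ℤ) n

/-- The `n × n` box of vertices. -/
def box (n : ℕ) : Set (ℤ × ℤ) := Set.Ico 0 (n : ℤ) ×ˢ Set.Ico 0 (n : ℤ)

/-- The edges of the `n × n` box. -/
noncomputable def bxE (n : ℕ) : Finset Edg := RE 0 ((n:ℤ) - 1) 0 ((n:ℤ) - 1)

open Classical in
/-- The number of clusters in the box. -/
noncomputable def ncl (n : ℕ) (F : Set Edg) : ℕ :=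
  ((bxV n).image (fun v => (bxV n).filter (fun w => Reach F v w))).card

/-- G1. Euler's formula: (number of loops) `= 2 K + |F| - n²`, the loops being counted by
`∑_σ 1 / length`. Induction on `F`. `F = ∅`: all loops have the 4 states of a vertex. Adding the edge
`e ∉ F`: let `σ₁`, `σ₂` be the two states with `ae σᵢ = e`; `nxt (insert e F)` is `nxt F` followed by
the transposition of `rt σ₁ = mv σ₂` and `rt σ₂ = mv σ₁`. If `σ₁`, `σ₂` are in different loops of `F`
these two loops become one, otherwise their loop splits into two. All loops are closed (finite set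
of states, `closed_of_bdd`), so by `mem_loop` they are in the same loop iff the ends of `e` are
connected in `F` (their faces are the two faces next to `e`, which are dual-adjacent because
`e ∉ F`). In the first case the number of clusters decreases by 1, otherwise it does not change. (The
number of loops can also be treated as the number of the orbits of the permutation, or as the sum
of `1 / ncard`.) -/
def S_eul : Prop := ∀ (n : ℕ) (F : Finset Edg), F ⊆ bxE n →
  ∑ σ ∈ bxV n ×ˢ (Finset.univ : Finset Q4), ((loop (↑F : Set Edg) σ).ncard : ℝ)⁻¹ =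
    2 * ncl n (↑F : Set Edg) + F.card - (n:ℝ) ^ 2

/-- G2. The two definitions of the number of clusters. -/
def S_ncl : Prop := ∀ (n : ℕ) (ω : sqLattice.edgeSet → Bool),
  Nat.card ((openGraph ω).induce (box n)).ConnectedComponent = ncl n (opn ω ∩ ↑(bxE n))

/-- G3. The mean number of clusters per vertex. The mean of `∑_σ 1 / ncard (loop F_n σ)`,
`F_n = opn ω ∩ bxE n`, is `4 n² E (1 / ncard (loop (opn ω) s0)) + o(n²)`: if the loop of `σ` in `opn ω` is
closed and stays inside the box (at distance `≥ 2` from the boundary) then it is also the loop of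
`σ` for `F_n`; by `S_inf`, `S_sym` the probability that the loop of `σ` has more than `k` states is the
same for all `σ` and tends to 0 as `k → ∞`, and at most `16 k n` states of the box are at distance
`≤ k + 2` from its boundary. `E |F_n| = 2 p n (n - 1)`. -/
def S_kap : Prop := ∀ p : unitInterval, Filter.Tendsto
  (fun n : ℕ => (∫ ω, (Nat.card ((openGraph ω).induce (box n)).ConnectedComponent : ℝ)
    ∂(bondLaw p)) / (n : ℝ) ^ 2) Filter.atTop
  (nhds (1/2 - (p:ℝ) + 2 * ∫ ω, ((loop (opn ω) s0).ncard : ℝ)⁻¹ ∂(bondLaw p)))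

/-- G4. The contribution of the long loops (`κ` may be 0; `P (n ≤ L < Λ n) ≥ c/2 n^(-1/7) e^(-C n κ)` for
a large constant `Λ`). -/
def S_inv : Prop := ∀ c C : ℝ, 0 < c → 0 < C → ∃ c' C' : ℝ, 0 < c' ∧ 0 < C' ∧
  ∀ (Ω : Type) [MeasurableSpace Ω] (μ : Measure Ω) [IsProbabilityMeasure μ] (L : Ω → ℕ) (κ : ℝ),
    AEMeasurable L μ → 0 ≤ κ → κ ≤ 1 →
    (∀ n : ℕ, 1 ≤ n → c * (n:ℝ) ^ (-(1/7) : ℝ) * Real.exp (-(C * (n * κ))) ≤ μ.real {ω | n ≤ L ω} ∧
      μ.real {ω | n ≤ L ω} ≤ C * (n:ℝ) ^ (-(1/7) : ℝ) * Real.exp (-(c * (n * κ)))) →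
    ∀ n : ℕ, 1 ≤ n →
      c' * (n:ℝ) ^ (-(8/7) : ℝ) * Real.exp (-(C' * (n * κ))) ≤
        ∫ ω, (if n ≤ L ω then ((L ω : ℝ))⁻¹ else 0) ∂μ ∧
      ∫ ω, (if n ≤ L ω then ((L ω : ℝ))⁻¹ else 0) ∂μ ≤
        C' * (n:ℝ) ^ (-(8/7) : ℝ) * Real.exp (-(c' * (n * κ)))

/-! ### H. The diameter -/

/-- H1. Two arms from a point, with exponential decay beyond the correlation length: `S_twoup` up to
the scale `(β / (1/2 - q))^(4/3)`, and beyond it `X1_eps` (`Pool/Agent/H953/Sg1.lean`) with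
`eps (1 - q) (2 ^ i * N) ≤ (1/4) ^ (2 ^ i) / 25` (`eps_pow2`, `R_seed8/H31R3/Kes/Decay.lean`; the scale
`N` of the order `1 / lam q` from `Pool.Agent.W424.NC.farS`, as in `S_ann`, `Spd/Ann.lean`). -/
def S_two3 : Prop := ∃ c C : ℝ, 0 < c ∧ 0 < C ∧ ∀ q : ℝ, 0 ≤ q → q ≤ 1/2 → ∀ (u p : Vtx) (k : ℕ)
  (S : Finset Edg), Inc u p → 1 ≤ k → blk u k ⊆ S →
    Pr (fun _ => q) S (fun F => Two u p k (↑F : Set Edg)) ≤
      C * (k:ℝ) ^ (-(1/4) : ℝ) * Real.exp (-(c * (k * lam q)))

/-- H2. The same above the critical point, by duality: the two arms of the dual configuration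
start from the vertex `p` and the face `u - (1, 1)`, with `k` replaced by `k - 1` (compare `S_dual` in
`Pool/Agent/H953/Spd/Two.lean`, its proof in `Spd/DualT.lean`). Stated for all `q`. -/
def S_two4 : Prop := ∃ c C : ℝ, 0 < c ∧ 0 < C ∧ ∀ q : ℝ, 0 ≤ q → q ≤ 1 → ∀ (u p : Vtx) (k : ℕ)
  (S : Finset Edg), Inc u p → 1 ≤ k → blk u k ⊆ S →
    Pr (fun _ => q) S (fun F => Two u p k (↑F : Set Edg)) ≤
      C * (k:ℝ) ^ (-(1/4) : ℝ) * Real.exp (-(c * (k * lam q)))

/-- H3. The upper bound for the diameter (`two_of_conn`, `law_two` in `LL/Upper.lean` for the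
parameter `q`, from `S_two4` with `k = n - 1`; `n = 1` is trivial). -/
def S_dup : Prop := ∃ c C : ℝ, 0 < c ∧ 0 < C ∧ ∀ (q : unitInterval) (σ : St) (n : ℕ), 1 ≤ n →
  (bondLaw q).real {ω | ∃ τ ∈ loop (opn ω) σ, (n:ℤ) ≤ sd σ.1 τ.1} ≤
    C * (n:ℝ) ^ (-(1/4) : ℝ) * Real.exp (-(c * (n * |(q:ℝ) - 1/2| ^ (4/3 : ℝ))))

/-- A far state is connected to `σ` inside `S`. -/
def Fc (S F : Finset Edg) (σ : St) (m : ℤ) : Prop :=
  ∃ τ : St, m ≤ sd σ.1 τ.1 ∧ Reach (↑F) σ.1 τ.1 ∧ DReach (↑(S \ F)) (face σ) (face τ)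

/-- H4. The lower bound in finite volume, for all states, both sides of `1/2`: from `S_blk` for `s0`
and `q ≤ 1/2` (choice of `a`, `K` as in `S_low`: `a` of the order `min n (t^(-4/3))`, `K` of the order
`n / a`); translations and rotations as in `pr_Lng_trl`, `pr_Lng_rot` (`LL/Low.lean`) for the
parameter `q`; duality (`σ ↦ (face σ, opposite corner)`) for `q > 1/2`. -/
def S_fc : Prop := ∃ c C : ℝ, 0 < c ∧ 0 < C ∧ ∀ (q : ℝ), 1/4 ≤ q → q ≤ 3/4 → ∀ (σ : St) (n : ℕ),
  1 ≤ n → ∃ S : Finset Edg,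
    c * (n:ℝ) ^ (-(1/4) : ℝ) * Real.exp (-(C * (n * |q - 1/2| ^ (4/3 : ℝ)))) ≤
      Pr (fun _ => q) S (fun F => Fc S F σ n)

/-- H5. The lower bound for the diameter (`conn_of_fin` in `LL/Low.lean`, `mem_loop`, `law_event`). -/
def S_dlo : Prop := ∃ c C : ℝ, 0 < c ∧ 0 < C ∧ ∀ (q : unitInterval), 1/4 ≤ (q:ℝ) → (q:ℝ) ≤ 3/4 →
  ∀ (σ : St) (n : ℕ), 1 ≤ n →
    c * (n:ℝ) ^ (-(1/4) : ℝ) * Real.exp (-(C * (n * |(q:ℝ) - 1/2| ^ (4/3 : ℝ)))) ≤
      (bondLaw q).real {ω | ∃ τ ∈ loop (opn ω) σ, (n:ℤ) ≤ sd σ.1 τ.1}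

end H953L
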